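import Pool.Agent.H608.Ge.PolProc
import Pool.Agent.H608.Sp.Joint

/-!
# Polynomials in countably many constants: the main theorem
-/

set_option autoImplicit false

namespace Pool.Agent.H608.Ge

open Finset Filter Topology
open Pool.Agent.H608.Sp (Rich Freq)
open Pool.Agent.H607.CF (cnt pos)

lemma freq_ne_zero {X : ℝ} (h : Freq 2 X) : X ≠ 0 := by
  intro h0
  have h1 := h (1 / 2) 1 (by norm_num) (by norm_num) le_rfl
  have h2 : pos 2 X (1 / 2) 1 = ∅ := by
    ext i
    simp only [pos, Set.mem_setOf_eq, Set.mem_empty_iff_false, iff_false, h0, zero_mul, Int.fract_zero]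
    norm_num
  rw [h2] at h1
  have h3 : (fun N : ℕ => cnt (∅ : Set ℕ) 0 N / N) = fun _ => 0 := by
    ext N
    simp [cnt]
  rw [h3] at h1
  have h4 := tendsto_nhds_unique h1 tendsto_const_nhds
  norm_num at h4

lemma tendsto_eval {u : ℕ → ℕ → ℝ} {z : ℕ → ℝ} (h : ∀ i, Tendsto (fun N => u N i) atTop (𝓝 (z i)))
    (Q : MvPolynomial ℕ ℝ) : Tendsto (fun N => MvPolynomial.eval (u N) Q) atTop
      (𝓝 (MvPolynomial.eval z Q)) := by
  have h1 : Tendsto u atTop (𝓝 z) := tendsto_pi_nhds.2 h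
  exact ((MvPolynomial.continuous_eval Q).tendsto z).comp h1

section

variable {R : Type*} [CommRing R] [CharZero R] [IsDomain R]

lemma pderiv_ne_zero {P : MvPolynomial ℕ R} {i : ℕ} (hi : i ∈ P.vars) : MvPolynomial.pderiv i P ≠ 0 := by
  classical
  rw [MvPolynomial.mem_vars] at hi
  obtain ⟨s, hs, his⟩ := hi
  intro h0
  have h1 := MvPolynomial.coeff_pderiv (i := i) P (s - Finsupp.single i 1)
  have h2 : s - Finsupp.single i 1 + Finsupp.single i 1 = s := by
    apply tsub_add_cancel_of_le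
    rw [Finsupp.single_le_iff]
    exact Nat.one_le_iff_ne_zero.2 (Finsupp.mem_support_iff.1 his)
  rw [h0, MvPolynomial.coeff_zero, h2] at h1
  have h3 : MvPolynomial.coeff s P ≠ 0 := MvPolynomial.mem_support_iff.1 hs
  have h4 : (((s - Finsupp.single i 1 : ℕ →₀ ℕ) i : ℕ) : R) + 1 ≠ 0 := by
    exact_mod_cast Nat.cast_add_one_ne_zero (R := R) ((s - Finsupp.single i 1 : ℕ →₀ ℕ) i)
  exact mul_ne_zero h3 h4 h1.symm

omit [CharZero R] [IsDomain R] in
lemma totalDegree_pderiv {P : MvPolynomial ℕ R} {i : ℕ} (h : MvPolynomial.pderiv i P ≠ 0) :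
    (MvPolynomial.pderiv i P).totalDegree + 1 ≤ P.totalDegree := by
  classical
  obtain ⟨s, hs⟩ := MvPolynomial.support_nonempty.2 h
  have key : ∀ s ∈ (MvPolynomial.pderiv i P).support, (s.sum fun _ e => e) + 1 ≤ P.totalDegree := by
    intro s hs
    rw [MvPolynomial.mem_support_iff, MvPolynomial.coeff_pderiv] at hs
    have h1 : MvPolynomial.coeff (s + Finsupp.single i 1) P ≠ 0 := left_ne_zero_of_mul hs
    have h2 := MvPolynomial.le_totalDegree (MvPolynomial.mem_support_iff.2 h1)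
    rw [Finsupp.sum_add_index' (fun _ => rfl) (fun _ _ _ => rfl), Finsupp.sum_single_index rfl] at h2
    exact h2
  have h1 : (MvPolynomial.pderiv i P).totalDegree ≤ P.totalDegree - 1 := by
    unfold MvPolynomial.totalDegree
    apply Finset.sup_le
    intro s hs
    have := key s hs
    unfold MvPolynomial.totalDegree at this
    omega
  have h2 := key s hs
  omega

end

lemma countable_mv (R : Subring ℝ) [Countable R] : Countable (MvPolynomial ℕ R) := by
  rw [← Cardinal.mk_le_aleph0_iff]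
  refine MvPolynomial.cardinalMk_le_max.trans ?_
  simp

/-- the value of a polynomial with coefficients in `R` -/
noncomputable def ev (R : Subring ℝ) (z : ℕ → ℝ) (P : MvPolynomial ℕ R) : ℝ :=
  MvPolynomial.eval z (MvPolynomial.map R.subtype P)

lemma ev_eq_aeval (R : Subring ℝ) (z : ℕ → ℝ) (P : MvPolynomial ℕ R) :
    MvPolynomial.aeval z P = ev R z P := by
  unfold ev
  rw [MvPolynomial.eval_map, MvPolynomial.aeval_def]
  rfl

lemma ev_rename (R : Subring ℝ) (z : ℕ → ℝ) (f : ℕ → ℕ) (P : MvPolynomial ℕ R) :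
    ev R z (MvPolynomial.rename f P) = ev R (z ∘ f) P := by
  rw [← ev_eq_aeval, ← ev_eq_aeval, MvPolynomial.aeval_rename]

/-- the induction on the degree -/
lemma induct (R : Subring ℝ) (z : ℕ → ℝ)
    (h : ∀ (m : ℕ) (Q : MvPolynomial ℕ R), ev R (fun i => z (i + m)) (MvPolynomial.pderiv 0 Q) ≠ 0 →
      ∀ b : ℕ, 2 ≤ b → Freq b (ev R (fun i => z (i + m)) Q)) (d : ℕ) :
    ∀ P : MvPolynomial ℕ R, P.totalDegree ≤ d → (∀ c, P ≠ MvPolynomial.C c) →
      ∀ b : ℕ, 2 ≤ b → Freq b (ev R z P) := by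
  classical
  induction d with
  | zero =>
    intro P hP hc
    exfalso
    exact hc _ (MvPolynomial.totalDegree_eq_zero_iff_eq_C.1 (Nat.le_zero.1 hP))
  | succ d ih =>
    intro P hP hc b hb
    have hne : P.vars.Nonempty := by
      rw [Finset.nonempty_iff_ne_empty]
      intro h0
      exact hc _ (MvPolynomial.vars_eq_empty_iff_eq_C.1 h0)
    obtain ⟨m, hm⟩ : ∃ m, m = P.vars.min' hne := ⟨_, rfl⟩
    have hmem : m ∈ P.vars := by rw [hm]; exact Finset.min'_mem _ _
    have hinj : Function.Injective fun i : ℕ => i + m := add_left_injective m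
    obtain ⟨Q, hQ⟩ := MvPolynomial.exists_rename_eq_of_vars_subset_range P (fun i : ℕ => i + m) hinj
      (by
        intro i hi
        have h1 : m ≤ i := by
          rw [hm]
          exact Finset.min'_le _ _ hi
        exact ⟨i - m, by simp only; omega⟩)
    have hd : MvPolynomial.rename (fun i : ℕ => i + m) (MvPolynomial.pderiv 0 Q) =
        MvPolynomial.pderiv m P := by
      have h1 := MvPolynomial.pderiv_rename hinj 0 Q
      simp only [zero_add] at h1
      rw [← h1, hQ]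
    have e1 : ev R z P = ev R (fun i => z (i + m)) Q := by
      rw [← hQ, ev_rename]
      rfl
    have e2 : ev R z (MvPolynomial.pderiv m P) = ev R (fun i => z (i + m)) (MvPolynomial.pderiv 0 Q) := by
      rw [← hd, ev_rename]
      rfl
    rw [e1]
    apply h m Q _ b hb
    rw [← e2]
    have hne0 := pderiv_ne_zero hmem
    by_cases hcon : ∃ c, MvPolynomial.pderiv m P = MvPolynomial.C c
    · obtain ⟨c, hc'⟩ := hcon
      rw [hc']
      unfold ev
      rw [MvPolynomial.map_C, MvPolynomial.eval_C]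
      intro h0
      apply hne0
      rw [hc']
      have h1 : c = 0 := by
        apply Subtype.ext
        exact h0
      rw [h1, MvPolynomial.C_0]
    · push Not at hcon
      have hdeg := totalDegree_pderiv hne0
      exact freq_ne_zero (ih _ (by omega) hcon 2 le_rfl)

open Classical in
theorem polMain : ∃ C : ℝ, 0 < C ∧ ∀ M₀ : ℕ, 1 ≤ M₀ → ∀ (S : ℕ → Sys M₀) (A : Set ℕ), Rich A →
    ∀ (M : ℕ) (R : Subring ℝ), Countable R → ∃ (E : Set ℕ) (z : ℕ → ℕ → ℝ), E.Infinite ∧
      (∀ k ∈ E, k ∈ A ∧ M ≤ k ∧ M₀ ≤ k) ∧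
      (∀ K : ℕ, 16 ≤ K → (({k : ℕ | k ∈ E ∧ k ≤ K}.ncard : ℕ) : ℝ) ≤
        C * Real.log (Real.log (Real.log K))) ∧
      (∀ t i, Tendsto (fun N : ℕ => (S t).pt ((range N).filter (· ∈ E)) i) atTop (𝓝 (z t i))) ∧
      ∀ (t : ℕ) (P : MvPolynomial ℕ R), (∀ c, P ≠ MvPolynomial.C c) →
        ∀ b : ℕ, 2 ≤ b → Freq b (ev R (z t) P) := by
  obtain ⟨C, hC, hmaster⟩ := masterG
  refine ⟨C, hC, fun M₀ hM₀ S A hA M R hR => ?_⟩
  have := countable_mv R
  obtain ⟨f, hf⟩ := exists_surjective_nat (ℕ × ℕ × MvPolynomial ℕ R)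
  choose P hP1 hP2 using fun i : ℕ => ((S (f i).1).shift (f i).2.1).exists_proc hM₀
    (MvPolynomial.map R.subtype (f i).2.2)
  obtain ⟨E, hEinf, hEA, hEK, hEs, hE⟩ := hmaster M₀ P A hM₀ hA M
  choose X a hX ha hXa using hE
  -- the limits of the constants
  choose ix hix using fun q : ℕ × ℕ => hf (q.1, q.2, (MvPolynomial.X 0 : MvPolynomial ℕ R))
  obtain ⟨z, hz⟩ : ∃ z : ℕ → ℕ → ℝ, z = fun t i => X (ix (t, i)) := ⟨_, rfl⟩
  have hpt : ∀ t m F i, ((S t).shift m).pt F i = (S t).pt F (i + m) := fun t m F i => rfl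
  have hlim : ∀ t i, Tendsto (fun N : ℕ => (S t).pt ((range N).filter (· ∈ E)) i) atTop (𝓝 (z t i)) := by
    intro t i
    have h1 := hX (ix (t, i))
    simp only [hP1] at h1
    rw [hz]
    simp only
    refine h1.congr fun N => ?_
    rw [hix (t, i)]
    simp only
    rw [MvPolynomial.map_X, MvPolynomial.eval_X, hpt, zero_add]
  refine ⟨E, z, hEinf, hEA, hEK, hlim, ?_⟩
  intro t Q hQ b hb
  apply induct R (z t) _ Q.totalDegree Q le_rfl hQ b hb
  intro m Q hne b hb
  obtain ⟨i, hi⟩ := hf (t, m, Q)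
  have hl : ∀ j, Tendsto (fun N : ℕ => ((S t).shift m).pt ((range N).filter (· ∈ E)) j) atTop
      (𝓝 (z t (j + m))) := fun j => hlim t (j + m)
  have e1 : X i = ev R (fun j => z t (j + m)) Q := by
    apply tendsto_nhds_unique (hX i)
    simp only [hP1, hi]
    exact tendsto_eval hl _
  have e2 : a i = -(ev R (fun j => z t (j + m)) (MvPolynomial.pderiv 0 Q)) *
      PowerSeries.coeff (((S t).shift m).w 0) (((S t).shift m).g 0) := by
    apply tendsto_nhds_unique (ha i)
    simp only [hP2, hi]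
    apply Tendsto.mul_const
    apply Tendsto.neg
    rw [MvPolynomial.pderiv_map]
    exact tendsto_eval hl _
  rw [← e1]
  apply hXa i _ b hb
  rw [e2]
  exact mul_ne_zero (neg_ne_zero.2 hne) (((S t).shift m).lead 0)

end Pool.Agent.H608.Ge
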