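import Pool.Agent.H608.Ge.Holo
import Pool.Agent.H608.Ge.PolMain

/-!
# Analytic functions of one and of two variables: from the nonvanishing of derivatives to nonconstancy
-/

set_option autoImplicit false

namespace Pool.Agent.H608.Ge

open Finset Filter Topology Metric
open Pool.Agent.H608.Sp (Rich Freq)

/-- real at the real points of the disc -/
def Real1 (x r : ℝ) (f : ℂ → ℂ) : Prop := ∀ a : ℝ, |a - x| < r → (f a).im = 0

/-- real at the real points of the bidisc -/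
def Real2 (x y r : ℝ) (f : ℂ × ℂ → ℂ) : Prop :=
  ∀ a b : ℝ, |a - x| < r → |b - y| < r → (f ((a : ℂ), (b : ℂ))).im = 0

lemma mem_ball_real {a x r : ℝ} (h : |a - x| < r) : (a : ℂ) ∈ ball (x : ℂ) r := by
  rw [mem_ball_iff_norm, ← Complex.ofReal_sub, Complex.norm_real]
  exact h

lemma real1_deriv {x r : ℝ} {f : ℂ → ℂ} (hf : AnalyticOnNhd ℂ f (ball (x : ℂ) r)) (h : Real1 x r f) :
    Real1 x r (deriv f) := by
  intro a ha
  have h1 : HasDerivAt f (deriv f a) (a : ℂ) := (hf a (mem_ball_real ha)).differentiableAt.hasDerivAt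
  have h2 : HasDerivAt (fun t : ℝ => f t) (deriv f a) a := h1.comp_ofReal
  have h3 : HasDerivAt (fun t : ℝ => (f t).im) (deriv f a).im a :=
    (Complex.imCLM.hasFDerivAt.comp_hasDerivAt a h2)
  have h4 : (fun t : ℝ => (f t).im) =ᶠ[𝓝 a] fun _ => 0 := by
    have h5 : ∀ᶠ t : ℝ in 𝓝 a, |t - x| < r := by
      have : ContinuousAt (fun t : ℝ => |t - x|) a := by fun_prop
      exact this.eventually_lt_const ha
    filter_upwards [h5] with t ht
    exact h t ht
  have h6 : HasDerivAt (fun t : ℝ => (f t).im) 0 a := (hasDerivAt_const a (0 : ℝ)).congr_of_eventuallyEq h4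
  exact h3.unique h6

/-- the derivative in the first variable -/
noncomputable def D0 (f : ℂ × ℂ → ℂ) : ℂ × ℂ → ℂ := fun p => fderiv ℂ f p (1, 0)

lemma D0_analytic {f : ℂ × ℂ → ℂ} {U : Set (ℂ × ℂ)} (hf : AnalyticOnNhd ℂ f U) :
    AnalyticOnNhd ℂ (D0 f) U :=
  (ContinuousLinearMap.apply ℂ ℂ ((1 : ℂ), (0 : ℂ))).comp_analyticOnNhd hf.fderiv

lemma mem_ball_prod {p : ℂ × ℂ} {x y : ℂ} {r : ℝ} : p ∈ ball (x, y) r ↔ p.1 ∈ ball x r ∧ p.2 ∈ ball y r := by
  rw [← ball_prod_same]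
  rfl

lemma slice0_hasDerivAt {f : ℂ × ℂ → ℂ} {x y : ℂ} {r : ℝ} (hf : AnalyticOnNhd ℂ f (ball (x, y) r)) {t b : ℂ}
    (ht : t ∈ ball x r) (hb : b ∈ ball y r) : HasDerivAt (fun t => f (t, b)) (D0 f (t, b)) t := by
  have h1 : HasFDerivAt f (fderiv ℂ f (t, b)) (t, b) :=
    (hf (t, b) (mem_ball_prod.2 ⟨ht, hb⟩)).differentiableAt.hasFDerivAt
  exact h1.comp_hasDerivAt t ((hasDerivAt_id t).prodMk (hasDerivAt_const t b))

lemma slice0_analytic {f : ℂ × ℂ → ℂ} {x y : ℂ} {r : ℝ} (hf : AnalyticOnNhd ℂ f (ball (x, y) r)) {b : ℂ}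
    (hb : b ∈ ball y r) : AnalyticOnNhd ℂ (fun t => f (t, b)) (ball x r) :=
  hf.comp (analyticOnNhd_id.prod analyticOnNhd_const) fun t ht => mem_ball_prod.2 ⟨ht, hb⟩

lemma slice1_analytic {f : ℂ × ℂ → ℂ} {x y : ℂ} {r : ℝ} (hf : AnalyticOnNhd ℂ f (ball (x, y) r)) {a : ℂ}
    (ha : a ∈ ball x r) : AnalyticOnNhd ℂ (fun t => f (a, t)) (ball y r) :=
  hf.comp (analyticOnNhd_const.prod analyticOnNhd_id) fun t ht => mem_ball_prod.2 ⟨ha, ht⟩

lemma real2_D0 {x y r : ℝ} {f : ℂ × ℂ → ℂ} (hf : AnalyticOnNhd ℂ f (ball ((x : ℂ), (y : ℂ)) r))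
    (h : Real2 x y r f) : Real2 x y r (D0 f) := by
  intro a b ha hb
  have h1 : Real1 x r (fun t => f (t, (b : ℂ))) := fun a' ha' => h a' b ha' hb
  have h2 := real1_deriv (slice0_analytic hf (mem_ball_real hb)) h1 a ha
  rwa [(slice0_hasDerivAt hf (mem_ball_real ha) (mem_ball_real hb)).deriv] at h2

/-- if all derivatives at one point vanish, the function vanishes -/
lemma eq_zero_of_derivs {f : ℂ → ℂ} {x z : ℂ} {r : ℝ} (hf : AnalyticOnNhd ℂ f (ball x r)) (hz : z ∈ ball x r)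
    (h : ∀ n, iteratedDeriv n f z = 0) : ∀ w ∈ ball x r, f w = 0 := by
  obtain ⟨ε, hε, hsub⟩ := Metric.isOpen_iff.1 isOpen_ball z hz
  have h1 : f =ᶠ[𝓝 z] 0 := by
    filter_upwards [ball_mem_nhds z hε] with w hw
    have h2 := Complex.hasSum_taylorSeries_on_ball (hf.differentiableOn.mono hsub) hw
    have h3 : HasSum (fun n : ℕ => (n.factorial : ℂ)⁻¹ • (w - z) ^ n • iteratedDeriv n f z) 0 := by
      refine hasSum_zero.congr_fun fun n => ?_
      rw [h n, smul_zero, smul_zero]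
    exact h2.unique h3
  exact hf.eqOn_zero_of_preconnected_of_eventuallyEq_zero (convex_ball x r).isPreconnected hz h1

/-- one variable -/
theorem one_var {G : Set (ℂ → ℂ)} {y r z : ℝ} (hz : |z - y| < r)
    (hA : ∀ f ∈ G, AnalyticOnNhd ℂ f (ball (y : ℂ) r)) (hcl : ∀ f ∈ G, deriv f ∈ G)
    (hR : ∀ f ∈ G, Real1 y r f) (hB : ∀ f ∈ G, (deriv f z).re ≠ 0 → ∀ b : ℕ, 2 ≤ b → Freq b (f z).re) :
    (∀ f ∈ G, f z = 0 → ∀ w ∈ ball (y : ℂ) r, f w = 0) ∧
      ∀ f ∈ G, (¬ ∃ c, ∀ w ∈ ball (y : ℂ) r, f w = c) → ∀ b : ℕ, 2 ≤ b → Freq b (f z).re := by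
  have hzb := mem_ball_real hz
  have h1 : ∀ f ∈ G, f z = 0 → ∀ w ∈ ball (y : ℂ) r, f w = 0 := by
    intro f hf hfz
    have hmem : ∀ n, deriv^[n] f ∈ G := by
      intro n
      induction n with
      | zero => exact hf
      | succ n ih =>
        rw [Function.iterate_succ_apply']
        exact hcl _ ih
    have hall : ∀ n, deriv^[n] f z = 0 := by
      intro n
      induction n with
      | zero => exact hfz
      | succ n ih =>
        rw [Function.iterate_succ_apply']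
        by_contra hne
        have h2 : (deriv (deriv^[n] f) z).im = 0 := hR _ (hcl _ (hmem n)) z hz
        have h3 : (deriv (deriv^[n] f) z).re ≠ 0 := by
          intro h0
          exact hne (Complex.ext h0 h2)
        have h4 := freq_ne_zero (hB _ (hmem n) h3 2 le_rfl)
        rw [ih] at h4
        exact h4 rfl
    apply eq_zero_of_derivs (hA f hf) hzb
    intro n
    rw [iteratedDeriv_eq_iterate]
    exact hall n
  refine ⟨h1, fun f hf hnc b hb => ?_⟩
  have h2 : deriv f z ≠ 0 := by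
    intro h0
    apply hnc
    have h3 := h1 _ (hcl f hf) h0
    refine ⟨f z, fun w hw => ?_⟩
    exact isOpen_ball.is_const_of_deriv_eq_zero (convex_ball (y : ℂ) r).isPreconnected
      (hA f hf).differentiableOn (fun u hu => h3 u hu) hw hzb
  have h3 : (deriv f z).im = 0 := hR _ (hcl f hf) z hz
  exact hB f hf (fun h0 => h2 (Complex.ext h0 h3)) b hb

/-- two variables -/
theorem two_var {G : Set (ℂ × ℂ → ℂ)} {G₁ : Set (ℂ → ℂ)} {x y r z₀ z₁ : ℝ} (hz₀ : |z₀ - x| < r)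
    (hz₁ : |z₁ - y| < r)
    (hA : ∀ f ∈ G, AnalyticOnNhd ℂ f (ball ((x : ℂ), (y : ℂ)) r)) (hcl : ∀ f ∈ G, D0 f ∈ G)
    (hR : ∀ f ∈ G, Real2 x y r f)
    (hB : ∀ f ∈ G, (D0 f (z₀, z₁)).re ≠ 0 → ∀ b : ℕ, 2 ≤ b → Freq b (f (z₀, z₁)).re)
    (hA₁ : ∀ f ∈ G₁, AnalyticOnNhd ℂ f (ball (y : ℂ) r)) (hcl₁ : ∀ f ∈ G₁, deriv f ∈ G₁)
    (hR₁ : ∀ f ∈ G₁, Real1 y r f) (hB₁ : ∀ f ∈ G₁, (deriv f z₁).re ≠ 0 → ∀ b : ℕ, 2 ≤ b → Freq b (f z₁).re)
    (hsl : ∀ f ∈ G, ∀ c : ℚ, |(c : ℝ) - x| < r → (fun t => f ((c : ℂ), t)) ∈ G₁) :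
    ∀ f ∈ G, (¬ ∃ c, ∀ w ∈ ball ((x : ℂ), (y : ℂ)) r, f w = c) →
      ∀ b : ℕ, 2 ≤ b → Freq b (f (z₀, z₁)).re := by
  have hzb₀ := mem_ball_real hz₀
  have hzb₁ := mem_ball_real hz₁
  obtain ⟨k1, k2⟩ := one_var hz₁ hA₁ hcl₁ hR₁ hB₁
  have hrat : ∀ c : ℚ, |(c : ℝ) - x| < r → (c : ℂ) ∈ ball (x : ℂ) r := by
    intro c hc
    have := mem_ball_real hc
    push_cast at this
    exact this
  -- a rational centre
  have hr : 0 < r := (abs_nonneg _).trans_lt hz₀
  obtain ⟨c₀, hc1, hc2⟩ := exists_rat_btwn (show x - r / 2 < x + r / 2 by linarith)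
  have hc₀ : |(c₀ : ℝ) - x| < r := by
    rw [abs_lt]
    constructor <;> linarith
  have h1 : ∀ f ∈ G, f (z₀, z₁) = 0 → ∀ w ∈ ball ((x : ℂ), (y : ℂ)) r, f w = 0 := by
    intro f hf hfz
    have hmem : ∀ n, D0^[n] f ∈ G := by
      intro n
      induction n with
      | zero => exact hf
      | succ n ih =>
        rw [Function.iterate_succ_apply']
        exact hcl _ ih
    have hall : ∀ n, D0^[n] f (z₀, z₁) = 0 := by
      intro n
      induction n with
      | zero => exact hfz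
      | succ n ih =>
        rw [Function.iterate_succ_apply']
        by_contra hne
        have h2 : (D0 (D0^[n] f) (z₀, z₁)).im = 0 := hR _ (hcl _ (hmem n)) z₀ z₁ hz₀ hz₁
        have h3 : (D0 (D0^[n] f) (z₀, z₁)).re ≠ 0 := by
          intro h0
          exact hne (Complex.ext h0 h2)
        have h4 := freq_ne_zero (hB _ (hmem n) h3 2 le_rfl)
        rw [ih] at h4
        exact h4 rfl
    -- the slice through `z₁`
    have hit : ∀ n, ∀ t ∈ ball (x : ℂ) r, deriv^[n] (fun t => f (t, (z₁ : ℂ))) t = D0^[n] f (t, (z₁ : ℂ)) := by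
      intro n
      induction n with
      | zero => intro t _; rfl
      | succ n ih =>
        intro t ht
        rw [Function.iterate_succ_apply', Function.iterate_succ_apply']
        have h2 : deriv^[n] (fun t => f (t, (z₁ : ℂ))) =ᶠ[𝓝 t] fun t => D0^[n] f (t, (z₁ : ℂ)) := by
          filter_upwards [isOpen_ball.mem_nhds ht] with w hw
          exact ih w hw
        rw [h2.deriv_eq]
        exact (slice0_hasDerivAt (hA _ (hmem n)) ht hzb₁).deriv
    have hs : ∀ t ∈ ball (x : ℂ) r, f (t, (z₁ : ℂ)) = 0 := by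
      apply eq_zero_of_derivs (slice0_analytic (hA f hf) hzb₁) hzb₀
      intro n
      rw [iteratedDeriv_eq_iterate, hit n z₀ hzb₀]
      exact hall n
    -- the slices through rational points
    have hs' : ∀ c : ℚ, |(c : ℝ) - x| < r → ∀ t ∈ ball (y : ℂ) r, f ((c : ℂ), t) = 0 := by
      intro c hc
      exact k1 _ (hsl f hf c hc) (hs c (hrat c hc))
    rintro ⟨w₀, w₁⟩ hw
    obtain ⟨hw0, hw1⟩ := mem_ball_prod.1 hw
    have h2 := slice0_analytic (hA f hf) hw1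
    refine h2.eqOn_zero_of_preconnected_of_frequently_eq_zero (convex_ball (x : ℂ) r).isPreconnected
      (hrat c₀ hc₀) ?_ hw0
    have h3 : Tendsto (fun n : ℕ => (((c₀ + 1 / ((n : ℚ) + 1) : ℚ) : ℝ) : ℂ)) atTop (𝓝[≠] (c₀ : ℂ)) := by
      apply tendsto_nhdsWithin_of_tendsto_nhds_of_eventually_within
      · have h4 : Tendsto (fun n : ℕ => (c₀ : ℂ) + ((1 / ((n : ℝ) + 1) : ℝ) : ℂ)) atTop (𝓝 ((c₀ : ℂ) + ((0 : ℝ) : ℂ))) :=
          ((Complex.continuous_ofReal.tendsto 0).comp tendsto_one_div_add_atTop_nhds_zero_nat).const_add _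
        rw [Complex.ofReal_zero, add_zero] at h4
        refine h4.congr fun n => ?_
        push_cast
        ring
      · filter_upwards with n
        intro h0
        rw [Set.mem_singleton_iff] at h0
        have h5 : ((1 / ((n : ℚ) + 1) : ℚ) : ℂ) = 0 := by
          push_cast at h0 ⊢
          linear_combination h0
        have h6 : (1 / ((n : ℚ) + 1) : ℚ) = 0 := by exact_mod_cast h5
        have h7 : (0 : ℚ) < 1 / ((n : ℚ) + 1) := by positivity
        linarith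
    apply h3.frequently
    apply Eventually.frequently
    have h4 : Tendsto (fun n : ℕ => |((c₀ + 1 / ((n : ℚ) + 1) : ℚ) : ℝ) - x|) atTop (𝓝 |(c₀ : ℝ) + 0 - x|) := by
      apply Tendsto.abs
      apply Tendsto.sub_const
      have h5 := (tendsto_one_div_add_atTop_nhds_zero_nat (𝕜 := ℝ)).const_add (c₀ : ℝ)
      refine h5.congr fun n => ?_
      push_cast
      ring
    rw [add_zero] at h4
    filter_upwards [h4.eventually_lt_const hc₀] with n hn
    have h5 := hs' _ hn w₁ hw1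
    push_cast at h5 ⊢
    exact h5
  intro f hf hnc b hb
  by_cases hD : D0 f (z₀, z₁) = 0
  · -- `f` does not depend on the first variable
    have h2 := h1 _ (hcl f hf) hD
    have h3 : ∀ t ∈ ball (x : ℂ) r, ∀ u ∈ ball (y : ℂ) r, f (t, u) = f ((c₀ : ℂ), u) := by
      intro t ht u hu
      refine isOpen_ball.is_const_of_deriv_eq_zero (f := fun t => f (t, u)) (convex_ball (x : ℂ) r).isPreconnected
        (slice0_analytic (hA f hf) hu).differentiableOn (fun v hv => ?_) ht (hrat c₀ hc₀)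
      rw [(slice0_hasDerivAt (hA f hf) hv hu).deriv]
      exact h2 _ (mem_ball_prod.2 ⟨hv, hu⟩)
    have h4 := k2 _ (hsl f hf c₀ hc₀) (by
      rintro ⟨c, hc⟩
      apply hnc
      refine ⟨c, ?_⟩
      rintro ⟨w₀, w₁⟩ hw
      obtain ⟨hw0, hw1⟩ := mem_ball_prod.1 hw
      rw [h3 w₀ hw0 w₁ hw1]
      exact hc w₁ hw1) b hb
    rw [h3 z₀ hzb₀ z₁ hzb₁]
    exact h4
  · have h3 : (D0 f (z₀, z₁)).im = 0 := hR _ (hcl f hf) z₀ z₁ hz₀ hz₁
    exact hB f hf (fun h0 => hD (Complex.ext h0 h3)) b hb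

end Pool.Agent.H608.Ge
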