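import Pool.Agent.H608.Ge.PolMain

/-!
# Joint normality of tuples of polynomials
-/

set_option autoImplicit false

namespace Pool.Agent.H608.Ge

open Finset Filter Topology
open Pool.Agent.H608.Sp (Rich Freq nt_of_freq)
open Pool.Agent.W206.ND (NT)

/-- algebraic independence from the frequencies -/
lemma algInd_of_freq (R : Subring ℝ) (z : ℕ → ℝ)
    (h : ∀ P : MvPolynomial ℕ R, (∀ c, P ≠ MvPolynomial.C c) → ∀ b : ℕ, 2 ≤ b → Freq b (ev R z P)) :
    AlgebraicIndependent R z := by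
  rw [algebraicIndependent_iff]
  intro P hP
  by_contra hne
  rw [ev_eq_aeval] at hP
  by_cases hc : ∃ c, P = MvPolynomial.C c
  · obtain ⟨c, hc⟩ := hc
    rw [hc] at hP hne
    unfold ev at hP
    rw [MvPolynomial.map_C, MvPolynomial.eval_C] at hP
    apply hne
    have h1 : c = 0 := Subtype.ext hP
    rw [h1, MvPolynomial.C_0]
  · push Not at hc
    exact freq_ne_zero (h P hc 2 le_rfl) hP

/-- joint normality -/
lemma nt_of_poly (R : Subring ℝ) (z : ℕ → ℝ)
    (h : ∀ P : MvPolynomial ℕ R, (∀ c, P ≠ MvPolynomial.C c) → ∀ b : ℕ, 2 ≤ b → Freq b (ev R z P))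
    {n : ℕ} (P : Fin n → MvPolynomial ℕ R)
    (hP : ∀ v : Fin n → ℤ, v ≠ 0 → ∀ c, ∑ j, v j • P j ≠ MvPolynomial.C c) (b : ℕ) (hb : 2 ≤ b) :
    NT b (fun j => MvPolynomial.aeval z (P j)) := by
  apply nt_of_freq b n _ hb
  intro v hv
  have h1 := h _ (hP v hv) b hb
  have h2 : ∑ j, (v j : ℝ) * MvPolynomial.aeval z (P j) = ev R z (∑ j, v j • P j) := by
    rw [← ev_eq_aeval, map_sum]
    refine sum_congr rfl fun j _ => ?_
    rw [map_zsmul, zsmul_eq_mul]
  rw [h2]
  exact h1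

end Pool.Agent.H608.Ge
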