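import Pool.Agent.H608.Ge.Ana

/-!
# Analytic functions of two constants: the main theorem
-/

set_option autoImplicit false

namespace Pool.Agent.H608.Ge

open Finset Filter Topology Metric
open Pool.Agent.H608.Sp (Rich Freq)

/-- the closure of a family under the derivative in the first variable -/
def clo2 (𝓕 : Set (ℂ × ℂ → ℂ)) : Set (ℂ × ℂ → ℂ) := ⋃ n : ℕ, (fun f => D0^[n] f) '' 𝓕

lemma clo2_countable {𝓕 : Set (ℂ × ℂ → ℂ)} (h : 𝓕.Countable) : (clo2 𝓕).Countable :=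
  Set.countable_iUnion fun _ => h.image _

lemma subset_clo2 (𝓕 : Set (ℂ × ℂ → ℂ)) : 𝓕 ⊆ clo2 𝓕 := fun f hf => Set.mem_iUnion.2 ⟨0, f, hf, rfl⟩

lemma clo2_D0 {𝓕 : Set (ℂ × ℂ → ℂ)} {f : ℂ × ℂ → ℂ} (h : f ∈ clo2 𝓕) : D0 f ∈ clo2 𝓕 := by
  obtain ⟨n, g, hg, rfl⟩ := Set.mem_iUnion.1 h
  exact Set.mem_iUnion.2 ⟨n + 1, g, hg, Function.iterate_succ_apply' _ _ _⟩

lemma clo2_prop {𝓕 : Set (ℂ × ℂ → ℂ)} {x y r : ℝ}
    (hA : ∀ f ∈ 𝓕, AnalyticOnNhd ℂ f (ball ((x : ℂ), (y : ℂ)) r)) (hR : ∀ f ∈ 𝓕, Real2 x y r f) :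
    ∀ f ∈ clo2 𝓕, AnalyticOnNhd ℂ f (ball ((x : ℂ), (y : ℂ)) r) ∧ Real2 x y r f := by
  intro f hf
  obtain ⟨n, g, hg, rfl⟩ := Set.mem_iUnion.1 hf
  simp only
  induction n with
  | zero => exact ⟨hA g hg, hR g hg⟩
  | succ n ih =>
    rw [Function.iterate_succ_apply']
    obtain ⟨a, b⟩ := ih (Set.mem_iUnion.2 ⟨n, g, hg, rfl⟩)
    exact ⟨D0_analytic a, real2_D0 a b⟩

/-- the slices and their derivatives -/
def clo1 (x r : ℝ) (𝓖 : Set (ℂ × ℂ → ℂ)) : Set (ℂ → ℂ) :=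
  ⋃ n : ℕ, ⋃ c : {c : ℚ // |(c : ℝ) - x| < r}, (fun f => deriv^[n] fun t => f (((c : ℚ) : ℂ), t)) '' 𝓖

lemma clo1_countable {x r : ℝ} {𝓖 : Set (ℂ × ℂ → ℂ)} (h : 𝓖.Countable) : (clo1 x r 𝓖).Countable :=
  Set.countable_iUnion fun _ => Set.countable_iUnion fun _ => h.image _

lemma slice_mem_clo1 {x r : ℝ} {𝓖 : Set (ℂ × ℂ → ℂ)} {f : ℂ × ℂ → ℂ} (hf : f ∈ 𝓖) (c : ℚ)
    (hc : |(c : ℝ) - x| < r) : (fun t => f ((c : ℂ), t)) ∈ clo1 x r 𝓖 :=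
  Set.mem_iUnion.2 ⟨0, Set.mem_iUnion.2 ⟨⟨c, hc⟩, f, hf, rfl⟩⟩

lemma clo1_deriv {x r : ℝ} {𝓖 : Set (ℂ × ℂ → ℂ)} {f : ℂ → ℂ} (h : f ∈ clo1 x r 𝓖) :
    deriv f ∈ clo1 x r 𝓖 := by
  obtain ⟨n, h⟩ := Set.mem_iUnion.1 h
  obtain ⟨c, g, hg, rfl⟩ := Set.mem_iUnion.1 h
  exact Set.mem_iUnion.2 ⟨n + 1, Set.mem_iUnion.2 ⟨c, g, hg, Function.iterate_succ_apply' _ _ _⟩⟩

lemma clo1_prop {x y r : ℝ} {𝓖 : Set (ℂ × ℂ → ℂ)}
    (h : ∀ f ∈ 𝓖, AnalyticOnNhd ℂ f (ball ((x : ℂ), (y : ℂ)) r) ∧ Real2 x y r f) :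
    ∀ f ∈ clo1 x r 𝓖, AnalyticOnNhd ℂ f (ball (y : ℂ) r) ∧ Real1 y r f := by
  intro f hf
  obtain ⟨n, hf⟩ := Set.mem_iUnion.1 hf
  obtain ⟨c, g, hg, rfl⟩ := Set.mem_iUnion.1 hf
  obtain ⟨c, hc⟩ := c
  simp only
  clear hf
  induction n with
  | zero =>
    obtain ⟨h1, h2⟩ := h g hg
    have hcb : (c : ℂ) ∈ ball (x : ℂ) r := by
      have := mem_ball_real hc
      push_cast at this
      exact this
    refine ⟨slice1_analytic h1 hcb, fun b hb => ?_⟩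
    have h3 := h2 c b hc hb
    push_cast at h3
    exact h3
  | succ n ih =>
    rw [Function.iterate_succ_apply']
    obtain ⟨a, b⟩ := ih (Set.mem_iUnion.2 ⟨n, Set.mem_iUnion.2 ⟨⟨c, hc⟩, g, hg, rfl⟩⟩)
    exact ⟨a.deriv, real1_deriv a b⟩

/-- the data of two constants -/
structure Two (M₀ : ℕ) where
  x : ℝ
  y : ℝ
  τ₀ : ℕ → ℝ
  τ₁ : ℕ → ℝ
  S₂ : VSys (ℂ × ℂ) M₀
  S₁ : VSys ℂ M₀
  v₀ : ℝ
  v₁ : ℝ
  hv₀ : v₀ ≠ 0
  hv₁ : v₁ ≠ 0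
  hx : S₂.x = ((x : ℂ), (y : ℂ))
  hy : S₁.x = (y : ℂ)
  hτ : ∀ k, S₂.τ k = ((τ₀ k : ℂ), (τ₁ k : ℂ))
  hτ₁ : ∀ k, S₁.τ k = (τ₁ k : ℂ)
  hvv : S₂.v = ((v₀ : ℂ), 0)
  hvv₁ : S₁.v = (v₁ : ℂ)
  hr : S₁.r = S₂.r

open Classical in
theorem anaMain : ∃ C : ℝ, 0 < C ∧ ∀ M₀ : ℕ, 1 ≤ M₀ → ∀ (T : Two M₀) (A : Set ℕ), Rich A →
    ∀ (M : ℕ) (𝓕 : Set (ℂ × ℂ → ℂ)), 𝓕.Countable →
      (∀ f ∈ 𝓕, AnalyticOnNhd ℂ f (ball ((T.x : ℂ), (T.y : ℂ)) T.S₂.r)) → (∀ f ∈ 𝓕, Real2 T.x T.y T.S₂.r f) →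
      ∃ (E : Set ℕ) (z₀ z₁ : ℝ), E.Infinite ∧ (∀ k ∈ E, k ∈ A ∧ M ≤ k ∧ M₀ ≤ k) ∧
      (∀ K : ℕ, 16 ≤ K → (({k : ℕ | k ∈ E ∧ k ≤ K}.ncard : ℕ) : ℝ) ≤
        C * Real.log (Real.log (Real.log K))) ∧
      Tendsto (fun N : ℕ => T.x - ∑ k ∈ (range N).filter (· ∈ E), T.τ₀ k) atTop (𝓝 z₀) ∧
      Tendsto (fun N : ℕ => T.y - ∑ k ∈ (range N).filter (· ∈ E), T.τ₁ k) atTop (𝓝 z₁) ∧
      |z₀ - T.x| < T.S₂.r ∧ |z₁ - T.y| < T.S₂.r ∧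
      ∀ f ∈ 𝓕, (¬ ∃ c, ∀ w ∈ ball ((T.x : ℂ), (T.y : ℂ)) T.S₂.r, f w = c) →
        ∀ b : ℕ, 2 ≤ b → Freq b (f (z₀, z₁)).re := by
  obtain ⟨C, hC, hmaster⟩ := masterG
  refine ⟨C, hC, fun M₀ hM₀ T A hA M 𝓕 hcount hFA hFR => ?_⟩
  obtain ⟨r, hr⟩ : ∃ r, r = T.S₂.r := ⟨_, rfl⟩
  rw [← hr] at hFA hFR ⊢
  have hr0 : 0 < r := by rw [hr]; exact T.S₂.r0
  -- add the coordinates
  obtain ⟨𝓕', h𝓕'⟩ : ∃ 𝓕' : Set (ℂ × ℂ → ℂ), 𝓕' = 𝓕 ∪ {Prod.fst, Prod.snd} := ⟨_, rfl⟩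
  have hc' : 𝓕'.Countable := by
    rw [h𝓕']
    exact hcount.union ((Set.finite_singleton _).insert _).countable
  have hA' : ∀ f ∈ 𝓕', AnalyticOnNhd ℂ f (ball ((T.x : ℂ), (T.y : ℂ)) r) := by
    intro f hf
    rw [h𝓕'] at hf
    rcases hf with hf | hf | hf
    · exact hFA f hf
    · rw [hf]; exact analyticOnNhd_fst
    · rw [hf]; exact analyticOnNhd_snd
  have hR' : ∀ f ∈ 𝓕', Real2 T.x T.y r f := by
    intro f hf
    rw [h𝓕'] at hf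
    rcases hf with hf | hf | hf
    · exact hFR f hf
    · rw [hf]; intro a b _ _; exact Complex.ofReal_im a
    · rw [hf]; intro a b _ _; exact Complex.ofReal_im b
  have hG2 := clo2_prop hA' hR'
  have hG1 := clo1_prop hG2
  have hG2c := clo2_countable hc'
  have hG1c : (clo1 T.x r (clo2 𝓕')).Countable := clo1_countable hG2c
  have hfst : (Prod.fst : ℂ × ℂ → ℂ) ∈ clo2 𝓕' := subset_clo2 _ (by rw [h𝓕']; exact Or.inr (Or.inl rfl))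
  have hsnd : (Prod.snd : ℂ × ℂ → ℂ) ∈ clo2 𝓕' := subset_clo2 _ (by rw [h𝓕']; exact Or.inr (Or.inr rfl))
  obtain ⟨c₀, hc1, hc2⟩ := exists_rat_btwn (show T.x - r / 2 < T.x + r / 2 by linarith)
  have hc₀ : |(c₀ : ℝ) - T.x| < r := by
    rw [abs_lt]
    constructor <;> linarith
  obtain ⟨e₂, he₂⟩ := hG2c.exists_eq_range ⟨_, hfst⟩
  obtain ⟨e₁, he₁⟩ := hG1c.exists_eq_range ⟨_, slice_mem_clo1 hfst c₀ hc₀⟩
  have hm2 : ∀ i, e₂ i ∈ clo2 𝓕' := fun i => by rw [he₂]; exact ⟨i, rfl⟩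
  have hm1 : ∀ i, e₁ i ∈ clo1 T.x r (clo2 𝓕') := fun i => by rw [he₁]; exact ⟨i, rfl⟩
  have hs2 : ∀ f ∈ clo2 𝓕', ∃ i, e₂ i = f := fun f hf => by rw [he₂] at hf; exact hf
  have hs1 : ∀ f ∈ clo1 T.x r (clo2 𝓕'), ∃ i, e₁ i = f := fun f hf => by rw [he₁] at hf; exact hf
  choose P₂ hP2 hP2b using fun i : ℕ => T.S₂.exists_proc (e₂ i) (by
    rw [T.hx, ← hr]
    exact (hG2 _ (hm2 i)).1)
  choose P₁ hP1 hP1b using fun i : ℕ => T.S₁.exists_proc (e₁ i) (by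
    rw [T.hy, T.hr, ← hr]
    exact (hG1 _ (hm1 i)).1)
  obtain ⟨P, hP⟩ : ∃ P : ℕ → GProc M₀, P = fun i => if i % 2 = 0 then P₂ (i / 2) else P₁ (i / 2) := ⟨_, rfl⟩
  have hPe : ∀ i, P (2 * i) = P₂ i := by
    intro i
    rw [hP]
    simp only
    rw [if_pos (by omega), show 2 * i / 2 = i by omega]
  have hPo : ∀ i, P (2 * i + 1) = P₁ i := by
    intro i
    rw [hP]
    simp only
    rw [if_neg (by omega), show (2 * i + 1) / 2 = i by omega]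
  obtain ⟨E, hEinf, hEA, hEK, hEs, hE⟩ := hmaster M₀ P A hM₀ hA M
  choose X a hX ha hXa using hE
  -- the points
  have hpt2 : ∀ F, T.S₂.pt F = (((T.x - ∑ k ∈ F, T.τ₀ k : ℝ) : ℂ), ((T.y - ∑ k ∈ F, T.τ₁ k : ℝ) : ℂ)) := by
    intro F
    unfold VSys.pt
    rw [T.hx, sum_congr rfl fun k _ => T.hτ k]
    apply Prod.ext
    · rw [Prod.fst_sub, Prod.fst_sum]
      push_cast
      rfl
    · rw [Prod.snd_sub, Prod.snd_sum]
      push_cast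
      rfl
  have hpt1 : ∀ F, T.S₁.pt F = ((T.y - ∑ k ∈ F, T.τ₁ k : ℝ) : ℂ) := by
    intro F
    unfold VSys.pt
    rw [T.hy, sum_congr rfl fun k _ => T.hτ₁ k]
    push_cast
    rfl
  obtain ⟨i₀, hi₀⟩ := hs2 _ hfst
  obtain ⟨i₁, hi₁⟩ := hs2 _ hsnd
  obtain ⟨z₀, hz₀⟩ : ∃ z₀, z₀ = X (2 * i₀) := ⟨_, rfl⟩
  obtain ⟨z₁, hz₁⟩ : ∃ z₁, z₁ = X (2 * i₁) := ⟨_, rfl⟩
  have hl0 : Tendsto (fun N : ℕ => T.x - ∑ k ∈ (range N).filter (· ∈ E), T.τ₀ k) atTop (𝓝 z₀) := by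
    have h1 := hX (2 * i₀)
    rw [← hz₀] at h1
    refine h1.congr fun N => ?_
    rw [hPe, hP2, hi₀, hpt2, Complex.ofReal_re]
  have hl1 : Tendsto (fun N : ℕ => T.y - ∑ k ∈ (range N).filter (· ∈ E), T.τ₁ k) atTop (𝓝 z₁) := by
    have h1 := hX (2 * i₁)
    rw [← hz₁] at h1
    refine h1.congr fun N => ?_
    rw [hPe, hP2, hi₁, hpt2, Complex.ofReal_re]
  have hcl : ∀ N : ℕ, |T.x - ∑ k ∈ (range N).filter (· ∈ E), T.τ₀ k - T.x| ≤ r / 4 ∧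
      |T.y - ∑ k ∈ (range N).filter (· ∈ E), T.τ₁ k - T.y| ≤ r / 4 := by
    intro N
    have h1 := T.S₂.pt_mem _ (hEs N)
    rw [hpt2, T.hx, ← hr] at h1
    constructor
    · refine le_trans ?_ ((norm_fst_le _).trans h1)
      rw [Prod.fst_sub, ← Complex.ofReal_sub, Complex.norm_real, Real.norm_eq_abs]
    · refine le_trans ?_ ((norm_snd_le _).trans h1)
      rw [Prod.snd_sub, ← Complex.ofReal_sub, Complex.norm_real, Real.norm_eq_abs]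
  have hz0r : |z₀ - T.x| < r := by
    have h1 : |z₀ - T.x| ≤ r / 4 := le_of_tendsto ((hl0.sub_const T.x).abs)
      (Eventually.of_forall fun N => (hcl N).1)
    linarith
  have hz1r : |z₁ - T.y| < r := by
    have h1 : |z₁ - T.y| ≤ r / 4 := le_of_tendsto ((hl1.sub_const T.y).abs)
      (Eventually.of_forall fun N => (hcl N).2)
    linarith
  have hzz : ((z₀ : ℂ), (z₁ : ℂ)) ∈ ball ((T.x : ℂ), (T.y : ℂ)) r :=
    mem_ball_prod.2 ⟨mem_ball_real hz0r, mem_ball_real hz1r⟩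
  have ht2 : Tendsto (fun N : ℕ => T.S₂.pt ((range N).filter (· ∈ E))) atTop (𝓝 ((z₀ : ℂ), (z₁ : ℂ))) := by
    simp only [hpt2]
    exact ((Complex.continuous_ofReal.tendsto z₀).comp hl0).prodMk_nhds
      ((Complex.continuous_ofReal.tendsto z₁).comp hl1)
  have ht1 : Tendsto (fun N : ℕ => T.S₁.pt ((range N).filter (· ∈ E))) atTop (𝓝 (z₁ : ℂ)) := by
    simp only [hpt1]
    exact (Complex.continuous_ofReal.tendsto z₁).comp hl1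
  -- the facts about the two families
  have hB2 : ∀ f ∈ clo2 𝓕', (D0 f (z₀, z₁)).re ≠ 0 → ∀ b : ℕ, 2 ≤ b → Freq b (f (z₀, z₁)).re := by
    intro f hf hne b hb
    obtain ⟨i, hi⟩ := hs2 f hf
    have hfa := (hG2 f hf).1
    have e1 : X (2 * i) = (f (z₀, z₁)).re := by
      apply tendsto_nhds_unique (hX (2 * i))
      simp only [hPe, hP2, hi]
      exact (Complex.continuous_re.tendsto _).comp (((hfa _ hzz).continuousAt.tendsto).comp ht2)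
    have e2 : a (2 * i) = -(T.v₀ * (D0 f (z₀, z₁)).re) := by
      apply tendsto_nhds_unique (ha (2 * i))
      have h1 : ∀ N, (P (2 * i)).b ((range N).filter (· ∈ E)) 0 =
          -(T.v₀ * (D0 f (T.S₂.pt ((range N).filter (· ∈ E)))).re) := by
        intro N
        rw [hPe, hP2b i _ (hEs N), hi, T.hvv]
        have h2 : ((T.v₀ : ℂ), (0 : ℂ)) = (T.v₀ : ℂ) • ((1 : ℂ), (0 : ℂ)) := by simp
        rw [h2, map_smul, smul_eq_mul, Complex.re_ofReal_mul]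
        rfl
      simp only [h1]
      apply Tendsto.neg
      apply Tendsto.const_mul
      exact (Complex.continuous_re.tendsto _).comp (((D0_analytic hfa _ hzz).continuousAt.tendsto).comp ht2)
    rw [← e1]
    apply hXa (2 * i) _ b hb
    rw [e2]
    exact neg_ne_zero.2 (mul_ne_zero T.hv₀ hne)
  have hB1 : ∀ f ∈ clo1 T.x r (clo2 𝓕'), (deriv f z₁).re ≠ 0 → ∀ b : ℕ, 2 ≤ b → Freq b (f z₁).re := by
    intro f hf hne b hb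
    obtain ⟨i, hi⟩ := hs1 f hf
    have hfa := (hG1 f hf).1
    have hz1b : (z₁ : ℂ) ∈ ball (T.y : ℂ) r := mem_ball_real hz1r
    have e1 : X (2 * i + 1) = (f z₁).re := by
      apply tendsto_nhds_unique (hX (2 * i + 1))
      simp only [hPo, hP1, hi]
      exact (Complex.continuous_re.tendsto _).comp (((hfa _ hz1b).continuousAt.tendsto).comp ht1)
    have e2 : a (2 * i + 1) = -(T.v₁ * (deriv f z₁).re) := by
      apply tendsto_nhds_unique (ha (2 * i + 1))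
      have h1 : ∀ N, (P (2 * i + 1)).b ((range N).filter (· ∈ E)) 0 =
          -(T.v₁ * (deriv f (T.S₁.pt ((range N).filter (· ∈ E)))).re) := by
        intro N
        rw [hPo, hP1b i _ (hEs N), hi, T.hvv₁]
        have h2 : (T.v₁ : ℂ) = (T.v₁ : ℂ) • (1 : ℂ) := by simp
        conv_lhs => rw [h2]
        rw [map_smul, smul_eq_mul, Complex.re_ofReal_mul, fderiv_apply_one_eq_deriv]
      simp only [h1]
      apply Tendsto.neg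
      apply Tendsto.const_mul
      exact (Complex.continuous_re.tendsto _).comp (((hfa.deriv _ hz1b).continuousAt.tendsto).comp ht1)
    rw [← e1]
    apply hXa (2 * i + 1) _ b hb
    rw [e2]
    exact neg_ne_zero.2 (mul_ne_zero T.hv₁ hne)
  have hfin := two_var hz0r hz1r (fun f hf => (hG2 f hf).1) (fun f hf => clo2_D0 hf) (fun f hf => (hG2 f hf).2)
    hB2 (fun f hf => (hG1 f hf).1) (fun f hf => clo1_deriv hf) (fun f hf => (hG1 f hf).2) hB1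
    (fun f hf c hc => slice_mem_clo1 hf c hc)
  refine ⟨E, z₀, z₁, hEinf, hEA, hEK, hl0, hl1, hz0r, hz1r, fun f hf hnc b hb => ?_⟩
  exact hfin f (subset_clo2 _ (by rw [h𝓕']; exact Or.inl hf)) hnc b hb

end Pool.Agent.H608.Ge
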