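import Pool.Agent.H608.Ge.Proc

/-!
# The construction of the sparse set
-/

set_option autoImplicit false

namespace Pool.Agent.H608.Ge

open Finset Filter Topology
open Pool.Agent.H608.Sp (Rich prec prec_spec prec_tendsto Sc)

/-- the data of the construction -/
structure Data (γ : ℝ) {M₀ : ℕ} (P : ℕ → GProc M₀) (A : Set ℕ) (n : ℕ → ℕ) where
  k : ℕ → ℕ
  pr : ℕ → ℕ
  tends : Tendsto pr atTop atTop
  good : ∀ j, Good P A γ (pr j) (2 ^ n j) ((range j).image k) (k j)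
  small : ∀ j, Small M₀ ((range j).image k)
  low : ∀ j, M₀ ≤ k j

open Classical in
/-- the next place -/
noncomputable def pick {M₀ : ℕ} (P : ℕ → GProc M₀) (A : Set ℕ) (γ : ℝ) (p H : ℕ) (F : Finset ℕ) : ℕ :=
  if h : ∃ k, Good P A γ p H F k then h.choose else 0

lemma pick_good {M₀ : ℕ} {P : ℕ → GProc M₀} {A : Set ℕ} {γ : ℝ} {p H : ℕ} {F : Finset ℕ}
    (h : ∃ k, Good P A γ p H F k) : Good P A γ p H F (pick P A γ p H F) := by
  unfold pick
  rw [dif_pos h]
  exact h.choose_spec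

/-- the finite sets of the construction -/
noncomputable def FF {M₀ : ℕ} (P : ℕ → GProc M₀) (A : Set ℕ) (γ : ℝ) (n p : ℕ → ℕ) : ℕ → Finset ℕ
  | 0 => ∅
  | j + 1 => insert (pick P A γ (p j) (2 ^ n j) (FF P A γ n p j)) (FF P A γ n p j)

lemma FF_eq {M₀ : ℕ} (P : ℕ → GProc M₀) (A : Set ℕ) (γ : ℝ) (n p : ℕ → ℕ) (j : ℕ) :
    FF P A γ n p j = (range j).image fun i => pick P A γ (p i) (2 ^ n i) (FF P A γ n p i) := by
  induction j with
  | zero => rfl
  | succ j ih =>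
    rw [range_add_one, image_insert, ← ih]
    rfl

theorem exists_data {γ γ' : ℝ} {M₀ : ℕ} {P : ℕ → GProc M₀} {A : Set ℕ} {n : ℕ → ℕ} (S : Sc γ' n)
    (T : ℕ → ℕ) (hT : ∀ p : ℕ, ∀ H : ℕ, T p ≤ H → ∀ F : Finset ℕ, Small M₀ F → ∃ k, Good P A γ p H F k)
    (h0 : T 0 ≤ 2 ^ n 0) (hM : M₀ ≤ 2 ^ n 0) (hM1 : 1 ≤ M₀) : Nonempty (Data γ P A n) := by
  have hH : Tendsto (fun j => 2 ^ n j) atTop atTop :=
    (tendsto_pow_atTop_atTop_of_one_lt (one_lt_two : (1 : ℕ) < 2)).comp S.tendsto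
  obtain ⟨pr, hpr⟩ : ∃ pr : ℕ → ℕ, pr = fun j => prec T (2 ^ n j) := ⟨_, rfl⟩
  have hmono : ∀ j, 2 ^ n 0 ≤ 2 ^ n j := fun j =>
    Nat.pow_le_pow_right (by norm_num) (S.strictMono.monotone (Nat.zero_le j))
  have hTpr : ∀ j, T (pr j) ≤ 2 ^ n j := by
    intro j
    rw [hpr]
    exact prec_spec _ _ (h0.trans (hmono j))
  obtain ⟨FJ, hFJ⟩ : ∃ FJ : ℕ → Finset ℕ, FJ = FF P A γ n pr := ⟨_, rfl⟩
  have hF0 : FJ 0 = ∅ := by rw [hFJ]; rfl
  have hFs : ∀ j, FJ (j + 1) = insert (pick P A γ (pr j) (2 ^ n j) (FJ j)) (FJ j) := fun j => by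
    rw [hFJ]; rfl
  have hstep : ∀ j, Small M₀ (FJ j) →
      Good P A γ (pr j) (2 ^ n j) (FJ j) (pick P A γ (pr j) (2 ^ n j) (FJ j)) := fun j hj =>
    pick_good (hT (pr j) _ (hTpr j) _ hj)
  have hsum : ∀ j, (∀ i ∈ FJ j, M₀ ≤ i) ∧
      ∑ k ∈ FJ j, (1 : ℝ) / k ≤ (2 - 2 / 2 ^ j) * (1 / 2 ^ n 0) := by
    intro j
    induction j with
    | zero =>
      rw [hF0]
      simp
    | succ j ih =>
      have hsm : Small M₀ (FJ j) := by
        refine ⟨ih.1, ih.2.trans ?_⟩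
        have h1 : (0 : ℝ) ≤ 2 / 2 ^ j := by positivity
        have h2 : (1 : ℝ) / 2 ^ n 0 ≤ 1 / M₀ := by
          apply one_div_le_one_div_of_le
          · exact_mod_cast hM1
          · exact_mod_cast hM
        have h3 : (0 : ℝ) ≤ 1 / 2 ^ n 0 := by positivity
        calc (2 - 2 / (2 : ℝ) ^ j) * (1 / 2 ^ n 0) ≤ 2 * (1 / 2 ^ n 0) := by
              apply mul_le_mul_of_nonneg_right _ h3
              linarith
          _ ≤ 2 * (1 / (M₀ : ℝ)) := by linarith
          _ = 2 / (M₀ : ℝ) := by ring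
      obtain ⟨g1, g2, g3, g4⟩ := hstep j hsm
      obtain ⟨q, hq⟩ : ∃ q : ℕ, q = pick P A γ (pr j) (2 ^ n j) (FJ j) := ⟨_, rfl⟩
      rw [← hq] at g1 g2 g3 g4
      have h2 : FJ (j + 1) = insert q (FJ j) := by rw [hFs j, hq]
      have hqM : M₀ ≤ q := (hM.trans (hmono j)).trans g2.le
      rw [h2]
      constructor
      · intro i hi
        rcases mem_insert.1 hi with h | h
        · rw [h]; exact hqM
        · exact ih.1 i h
      · have h3 : ∑ k ∈ insert q (FJ j), (1 : ℝ) / k ≤ 1 / q + ∑ k ∈ FJ j, (1 : ℝ) / k := by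
          by_cases hmem : q ∈ FJ j
          · rw [insert_eq_of_mem hmem]
            have : (0 : ℝ) ≤ 1 / q := by positivity
            linarith
          · rw [sum_insert hmem]
        have h4 : (1 : ℝ) / q ≤ 1 / 2 ^ j * (1 / 2 ^ n 0) := by
          rw [one_div_mul_one_div, ← pow_add]
          apply one_div_le_one_div_of_le (by positivity)
          have h5 : (2 : ℝ) ^ (j + n 0) ≤ 2 ^ n j := by
            apply pow_le_pow_right₀ (by norm_num)
            have := S.add_le 0 j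
            rw [zero_add] at this
            omega
          have h6 : ((2 ^ n j : ℕ) : ℝ) ≤ q := by exact_mod_cast g2.le
          push_cast at h6
          linarith
        have h5 : (2 : ℝ) / 2 ^ (j + 1) = 1 / 2 ^ j := by
          rw [pow_succ]
          field_simp
        rw [h5]
        have h6 : (2 : ℝ) / 2 ^ j = 2 * (1 / 2 ^ j) := by ring
        have ih2 := ih.2
        rw [h6] at ih2
        have h7 : (2 - 1 / 2 ^ j) * (1 / (2 : ℝ) ^ n 0) =
            (2 - 2 * (1 / 2 ^ j)) * (1 / 2 ^ n 0) + 1 / 2 ^ j * (1 / 2 ^ n 0) := by ring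
        rw [h7]
        linarith
  have hsmall : ∀ j, Small M₀ (FJ j) := fun j => by
    refine ⟨(hsum j).1, (hsum j).2.trans ?_⟩
    have h1 : (0 : ℝ) ≤ 2 / 2 ^ j := by positivity
    have h2 : (1 : ℝ) / 2 ^ n 0 ≤ 1 / M₀ := by
      apply one_div_le_one_div_of_le
      · exact_mod_cast hM1
      · exact_mod_cast hM
    have h3 : (0 : ℝ) ≤ 1 / 2 ^ n 0 := by positivity
    calc (2 - 2 / (2 : ℝ) ^ j) * (1 / 2 ^ n 0) ≤ 2 * (1 / 2 ^ n 0) := by
          apply mul_le_mul_of_nonneg_right _ h3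
          linarith
      _ ≤ 2 * (1 / (M₀ : ℝ)) := by linarith
      _ = 2 / (M₀ : ℝ) := by ring
  have hFeq : ∀ j, FJ j = (range j).image fun i => pick P A γ (pr i) (2 ^ n i) (FJ i) := fun j => by
    rw [hFJ]
    exact FF_eq P A γ n pr j
  refine ⟨⟨fun i => pick P A γ (pr i) (2 ^ n i) (FJ i), pr, ?_, fun j => ?_, fun j => ?_, fun j => ?_⟩⟩
  · rw [hpr]
    exact (prec_tendsto T).comp hH
  · rw [← hFeq]
    exact hstep j (hsmall j)
  · rw [← hFeq]
    exact hsmall j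
  · exact (hM.trans (hmono j)).trans (hstep j (hsmall j)).2.1.le

namespace Data

variable {γ γ' : ℝ} {M₀ : ℕ} {P : ℕ → GProc M₀} {A : Set ℕ} {n : ℕ → ℕ} (D : Data γ P A n)

/-- the sparse set -/
def E : Set ℕ := Set.range D.k

lemma k_gt (j : ℕ) : 2 ^ n j < D.k j := (D.good j).2.1

lemma k_le (j : ℕ) : D.k j ≤ 2 * 2 ^ n j := (D.good j).2.2.1

lemma k_mem (j : ℕ) : D.k j ∈ A := (D.good j).1

lemma k_mono (S : Sc γ' n) : StrictMono D.k := strictMono_nat_of_lt_succ fun j => by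
  have h1 := D.k_le j
  have h2 := D.k_gt (j + 1)
  have h3 : 2 * 2 ^ n j ≤ 2 ^ n (j + 1) := by
    rw [← pow_succ']
    exact Nat.pow_le_pow_right (by norm_num) (S.strictMono (Nat.lt_succ_self j))
  omega

/-- the finite set of the first `j` places -/
def F (j : ℕ) : Finset ℕ := (range j).image D.k

lemma F_succ (j : ℕ) : D.F (j + 1) = insert (D.k j) (D.F j) := by
  unfold F
  rw [range_add_one, image_insert]

lemma F_lt (S : Sc γ' n) (j : ℕ) : ∀ i ∈ D.F j, i < D.k j := by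
  intro i hi
  unfold F at hi
  rw [mem_image] at hi
  obtain ⟨l, hl, rfl⟩ := hi
  exact D.k_mono S (mem_range.1 hl)

/-- the places below `N` -/
lemma F_count (S : Sc γ' n) (N : ℕ) : ∃ j, (∀ i, i ∈ D.F j ↔ i ∈ D.E ∧ i < N) ∧
    (∀ l, l < j ↔ D.k l < N) := by
  have hmono := D.k_mono S
  have hex : ∃ j, N ≤ D.k j := ⟨N, hmono.id_le N⟩
  refine ⟨Nat.find hex, ?_, ?_⟩
  · intro i
    unfold F E
    rw [mem_image]
    constructor
    · rintro ⟨l, hl, rfl⟩
      refine ⟨⟨l, rfl⟩, ?_⟩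
      have := Nat.find_min hex (mem_range.1 hl)
      omega
    · rintro ⟨⟨l, rfl⟩, hl⟩
      refine ⟨l, ?_, rfl⟩
      rw [mem_range]
      by_contra hcon
      push Not at hcon
      have h1 := hmono.monotone hcon
      have h2 := Nat.find_spec hex
      omega
  · intro l
    constructor
    · intro hl
      have := Nat.find_min hex hl
      omega
    · intro hl
      by_contra hcon
      push Not at hcon
      have h1 := hmono.monotone hcon
      have h2 := Nat.find_spec hex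
      omega

/-- from this index on, the places are large for the process `i` -/
lemma exists_large (S : Sc γ' n) (i : ℕ) : ∃ j₀, ∀ j, j₀ ≤ j → (P i).M ≤ D.k j ∧ 2 * (P i).D ≤ D.k j := by
  refine ⟨max (P i).M ⌈2 * (P i).D⌉₊, fun j hj => ?_⟩
  have h1 : j ≤ D.k j := (D.k_mono S).id_le j
  refine ⟨(le_max_left _ _).trans (hj.trans h1), ?_⟩
  have h2 : ⌈2 * (P i).D⌉₊ ≤ D.k j := (le_max_right _ _).trans (hj.trans h1)
  exact (Nat.le_ceil _).trans (by exact_mod_cast h2)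

lemma val_succ (S : Sc γ' n) (i j : ℕ) (h : (P i).M ≤ D.k j) : (P i).val (D.F (j + 1)) =
    (P i).val (D.F j) + ser (P i).s ((P i).b (D.F j)) (D.k j) := by
  rw [D.F_succ]
  exact (P i).step _ _ (D.small j) (D.F_lt S j) (D.low j) h

end Data

end Pool.Agent.H608.Ge
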