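import Pool.Agent.H608.Ge.MvMain

/-!
# Linearly independent series: passing to a basis with different orders
-/

set_option autoImplicit false

namespace Pool.Agent.H608.Ge

open Finset Filter Topology Metric Asymptotics

/-- one series: the terms are the values at `1 / k` of a function which is analytic at zero -/
structure Ser where
  x : ℝ
  τ : ℕ → ℝ
  g : ℂ → ℂ
  gd : ∀ᶠ w in 𝓝 (0 : ℂ), DifferentiableAt ℂ g w
  g0 : g 0 = 0
  rep : ∀ᶠ k : ℕ in atTop, (τ k : ℂ) = g (1 / (k : ℂ))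

lemma tendsto_one_div_c : Tendsto (fun k : ℕ => (1 / (k : ℂ))) atTop (𝓝[≠] 0) := by
  apply tendsto_nhdsWithin_of_tendsto_nhds_of_eventually_within
  · have h5 := (Complex.continuous_ofReal.tendsto 0).comp (tendsto_one_div_atTop_nhds_zero_nat (𝕜 := ℝ))
    rw [Complex.ofReal_zero] at h5
    refine h5.congr fun k => ?_
    simp
  · filter_upwards [eventually_ge_atTop 1] with k hk
    have : (k : ℂ) ≠ 0 := by exact_mod_cast (by omega : k ≠ 0)
    exact one_div_ne_zero this

/-- the leading term -/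
lemma exists_lead {g : ℂ → ℂ} {τ : ℕ → ℝ} (gd : ∀ᶠ w in 𝓝 (0 : ℂ), DifferentiableAt ℂ g w) (g0 : g 0 = 0)
    (rep : ∀ᶠ k : ℕ in atTop, (τ k : ℂ) = g (1 / (k : ℂ))) (hne : ¬ ∀ᶠ w in 𝓝 (0 : ℂ), g w = 0) :
    ∃ (m : ℕ) (a : ℝ), 1 ≤ m ∧ a ≠ 0 ∧ (fun w : ℂ => g w - w ^ m * (a : ℂ)) =o[𝓝 0] fun w => w ^ m := by
  have han : AnalyticAt ℂ g 0 := Complex.analyticAt_iff_eventually_differentiableAt.2 gd
  obtain ⟨m, h, hh, h0, he⟩ := han.exists_eventuallyEq_pow_smul_nonzero_iff.2 hne
  simp only [sub_zero, smul_eq_mul] at he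
  have hm1 : 1 ≤ m := by
    rcases Nat.eq_zero_or_pos m with hm | hm
    · exfalso
      have h1 := he.self_of_nhds
      rw [g0, hm, pow_zero, one_mul] at h1
      exact h0 h1.symm
    · exact hm
  -- the leading coefficient is real
  have hreal : (h 0).im = 0 := by
    have h1 : Tendsto (fun k : ℕ => (h (1 / (k : ℂ))).im) atTop (𝓝 (h 0).im) :=
      (Complex.continuous_im.tendsto _).comp (hh.continuousAt.tendsto.comp (tendsto_nhds_of_tendsto_nhdsWithin tendsto_one_div_c))
    have h2 : Tendsto (fun k : ℕ => (h (1 / (k : ℂ))).im) atTop (𝓝 0) := by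
      apply tendsto_const_nhds.congr'
      filter_upwards [rep, (tendsto_nhds_of_tendsto_nhdsWithin tendsto_one_div_c).eventually he,
        eventually_ge_atTop 1] with k hk1 hk2 hk3
      have hk0 : (k : ℝ) ≠ 0 := by exact_mod_cast (by omega : k ≠ 0)
      have h3 : h (1 / (k : ℂ)) = ((τ k * (k : ℝ) ^ m : ℝ) : ℂ) := by
        rw [← hk1] at hk2
        push_cast
        rw [hk2]
        have hk0' : (k : ℂ) ≠ 0 := by exact_mod_cast hk0
        have h4 : (1 / (k : ℂ)) ^ m * (k : ℂ) ^ m = 1 := by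
          rw [← mul_pow, one_div_mul_cancel hk0', one_pow]
        linear_combination (-(h (1 / (k : ℂ)))) * h4
      rw [h3, Complex.ofReal_im]
    exact tendsto_nhds_unique h1 h2
  refine ⟨m, (h 0).re, hm1, fun h1 => h0 (Complex.ext h1 hreal), ?_⟩
  have hre : (((h 0).re : ℝ) : ℂ) = h 0 := Complex.ext (by simp) (by simp [hreal])
  rw [hre]
  have h4 : (fun w : ℂ => g w - w ^ m * h 0) =ᶠ[𝓝 0] fun w => w ^ m * (h w - h 0) := by
    filter_upwards [he] with w hw
    rw [hw]
    ring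
  refine h4.trans_isLittleO ?_
  have h5 : (fun w : ℂ => h w - h 0) =o[𝓝 0] fun _ => (1 : ℂ) := by
    rw [isLittleO_one_iff]
    have h6 := hh.continuousAt.tendsto.sub_const (h 0)
    rwa [sub_self] at h6
  have h7 := (isBigO_refl (fun w : ℂ => w ^ m) (𝓝 0)).mul_isLittleO h5
  simpa using h7

lemma pow_not_littleO (m : ℕ) {a : ℝ} (ha : a ≠ 0) : ¬ (fun w : ℂ => w ^ m * (a : ℂ)) =o[𝓝 0] fun w : ℂ => w ^ m := by
  intro h
  have h1 := (h.comp_tendsto (tendsto_nhds_of_tendsto_nhdsWithin tendsto_one_div_c)).def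
    (show 0 < |a| / 2 by positivity)
  obtain ⟨k, hk, hk1⟩ := (h1.and (eventually_ge_atTop 1)).exists
  simp only [Function.comp] at hk
  rw [norm_mul, Complex.norm_real, Real.norm_eq_abs] at hk
  have hk0 : 0 < ‖(1 / (k : ℂ)) ^ m‖ := by
    rw [norm_pos_iff]
    have : (k : ℂ) ≠ 0 := by exact_mod_cast (by omega : k ≠ 0)
    exact pow_ne_zero _ (one_div_ne_zero this)
  have ha' : 0 < |a| := abs_pos.2 ha
  have : |a| ≤ |a| / 2 := by
    by_contra hcon
    push Not at hcon
    have := mul_lt_mul_of_pos_right hcon hk0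
    linarith
  linarith

section Elim

variable {n : ℕ} (o : Fin n → Ser)

/-- the combination with the coefficients `c` -/
noncomputable def gc (c : Fin n → ℝ) (w : ℂ) : ℂ := ∑ j, (c j : ℂ) * (o j).g w

/-- the leading term of a combination -/
def Lead (c : Fin n → ℝ) (m : ℕ) (a : ℝ) : Prop :=
  1 ≤ m ∧ a ≠ 0 ∧ (fun w : ℂ => gc o c w - w ^ m * (a : ℂ)) =o[𝓝 0] fun w => w ^ m

lemma gc_d (c : Fin n → ℝ) : ∀ᶠ w in 𝓝 (0 : ℂ), DifferentiableAt ℂ (gc o c) w := by
  have h2 : ∀ᶠ w in 𝓝 (0 : ℂ), ∀ j, DifferentiableAt ℂ (o j).g w := by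
    rw [eventually_all]
    exact fun j => (o j).gd
  filter_upwards [h2] with w hw
  unfold gc
  have : DifferentiableAt ℂ (fun w => ∑ j, (c j : ℂ) * (o j).g w) w :=
    DifferentiableAt.fun_sum fun j _ => (hw j).const_mul _
  exact this

lemma gc_zero (c : Fin n → ℝ) : gc o c 0 = 0 := by
  unfold gc
  apply sum_eq_zero
  intro j _
  rw [(o j).g0, mul_zero]

lemma gc_rep (c : Fin n → ℝ) : ∀ᶠ k : ℕ in atTop, ((∑ j, c j * (o j).τ k : ℝ) : ℂ) = gc o c (1 / (k : ℂ)) := by
  have h2 : ∀ᶠ k : ℕ in atTop, ∀ j, ((o j).τ k : ℂ) = (o j).g (1 / (k : ℂ)) := by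
    rw [eventually_all]
    exact fun j => (o j).rep
  filter_upwards [h2] with k hk
  unfold gc
  push_cast
  exact sum_congr rfl fun j _ => by rw [hk j]

lemma gc_add (c c' : Fin n → ℝ) : gc o (c + c') = gc o c + gc o c' := by
  funext w
  unfold gc
  rw [Pi.add_apply, ← sum_add_distrib]
  refine sum_congr rfl fun j _ => ?_
  rw [Pi.add_apply]
  push_cast
  ring

lemma gc_smul (s : ℝ) (c : Fin n → ℝ) : gc o (s • c) = fun w => (s : ℂ) * gc o c w := by
  funext w
  unfold gc
  rw [mul_sum]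
  refine sum_congr rfl fun j _ => ?_
  rw [Pi.smul_apply, smul_eq_mul]
  push_cast
  ring

/-- combinations of order larger than `m` -/
def LO (m : ℕ) : Submodule ℝ (Fin n → ℝ) where
  carrier := {c | gc o c =o[𝓝 0] fun w : ℂ => w ^ m}
  add_mem' := by
    intro a b ha hb
    simp only [Set.mem_ofPred_eq] at ha hb ⊢
    rw [gc_add]
    exact ha.add hb
  zero_mem' := by
    simp only [Set.mem_ofPred_eq]
    have : gc o 0 = fun _ => 0 := by
      funext w
      unfold gc
      simp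
    rw [this]
    exact isLittleO_zero _ _
  smul_mem' := by
    intro s a ha
    simp only [Set.mem_ofPred_eq] at ha ⊢
    rw [gc_smul]
    exact ha.const_mul_left _

lemma mem_LO {m : ℕ} {c : Fin n → ℝ} : c ∈ LO o m ↔ gc o c =o[𝓝 0] fun w : ℂ => w ^ m := Iff.rfl

lemma Lead.lt_of_mem {c : Fin n → ℝ} {m' m : ℕ} {a : ℝ} (h : Lead o c m' a) (hc : c ∈ LO o m) : m < m' := by
  by_contra hcon
  push Not at hcon
  rw [mem_LO] at hc
  obtain ⟨_, ha, h2⟩ := h
  have h3 : (fun w : ℂ => w ^ m) =O[𝓝 0] fun w => w ^ m' := by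
    rcases hcon.lt_or_eq with h4 | h4
    · exact (isLittleO_pow_pow (𝕜 := ℂ) h4).isBigO
    · rw [h4]
  have h5 := hc.trans_isBigO h3
  have h6 := h5.sub h2
  apply pow_not_littleO m' ha
  refine h6.congr_left fun w => ?_
  ring

lemma Lead.mem {c : Fin n → ℝ} {m' m : ℕ} {a : ℝ} (h : Lead o c m' a) (hm : m < m') : c ∈ LO o m := by
  rw [mem_LO]
  obtain ⟨_, ha, h2⟩ := h
  have h3 : (fun w : ℂ => w ^ m') =o[𝓝 0] fun w => w ^ m := isLittleO_pow_pow (𝕜 := ℂ) hm
  have h4 := (h2.trans h3).add (h3.const_mul_left (a : ℂ))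
  refine h4.congr_left fun w => ?_
  ring

/-- linear independence of the germs -/
def LinInd : Prop := ∀ c : Fin n → ℝ, c ≠ 0 → ¬ ∀ᶠ w in 𝓝 (0 : ℂ), gc o c w = 0

variable {o}

lemma LinInd.lead (h : LinInd o) {c : Fin n → ℝ} (hc : c ≠ 0) : ∃ m a, Lead o c m a :=
  exists_lead (gc_d o c) (gc_zero o c) (gc_rep o c) (h c hc)

lemma LinInd.orders (h : LinInd o) : ∀ (d : ℕ) (W : Submodule ℝ (Fin n → ℝ)), d ≤ Module.finrank ℝ W →
    ∃ s : Finset ℕ, s.card = d ∧ ∀ m ∈ s, ∃ c ∈ W, ∃ a, Lead o c m a := by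
  classical
  intro d
  induction d with
  | zero => exact fun W _ => ⟨∅, rfl, by simp⟩
  | succ d ih =>
    intro W hW
    have hWne : W ≠ ⊥ := by
      intro h0
      rw [h0, finrank_bot] at hW
      omega
    obtain ⟨c₁, hc₁, hc₁0⟩ := W.exists_mem_ne_zero_of_ne_bot hWne
    have hex : ∃ m, ∃ c ∈ W, ∃ a, Lead o c m a := by
      obtain ⟨m, a, hl⟩ := h.lead hc₁0
      exact ⟨m, c₁, hc₁, a, hl⟩
    obtain ⟨m, hm⟩ : ∃ m, m = Nat.find hex := ⟨_, rfl⟩
    obtain ⟨c₀, hc₀, a₀, hl₀⟩ := Nat.find_spec hex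
    rw [← hm] at hl₀
    have hle : W ≤ (W ⊓ LO o m) ⊔ Submodule.span ℝ {c₀} := by
      intro c hc
      rw [Submodule.mem_sup]
      by_cases hc0 : c = 0
      · exact ⟨0, Submodule.zero_mem _, 0, Submodule.zero_mem _, by rw [hc0, add_zero]⟩
      obtain ⟨m₁, a₁, hl₁⟩ := h.lead hc0
      have hm₁ : m ≤ m₁ := by
        rw [hm]
        exact Nat.find_min' hex ⟨c, hc, a₁, hl₁⟩
      rcases hm₁.lt_or_eq with hlt | heq
      · exact ⟨c, ⟨hc, hl₁.mem o hlt⟩, 0, Submodule.zero_mem _, add_zero _⟩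
      · refine ⟨c - (a₁ / a₀) • c₀, ⟨W.sub_mem hc (W.smul_mem _ hc₀), ?_⟩, (a₁ / a₀) • c₀,
          Submodule.smul_mem _ _ (Submodule.mem_span_singleton_self c₀), by abel⟩
        show c - (a₁ / a₀) • c₀ ∈ LO o m
        rw [mem_LO, sub_eq_add_neg, ← neg_smul, gc_add, gc_smul]
        obtain ⟨_, ha₀, k0⟩ := hl₀
        obtain ⟨_, _, k1⟩ := hl₁
        rw [← heq] at k1
        have k2 := k1.sub (k0.const_mul_left ((a₁ / a₀ : ℝ) : ℂ))
        refine k2.congr_left fun w => ?_
        rw [Pi.add_apply]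
        have ha₀c : (a₀ : ℂ) ≠ 0 := by exact_mod_cast ha₀
        push_cast
        field_simp
        ring
    have hfin : d ≤ Module.finrank ℝ ((W ⊓ LO o m : Submodule ℝ (Fin n → ℝ))) := by
      have k1 := Submodule.finrank_mono hle
      have k2 := Submodule.finrank_add_le_finrank_add_finrank (W ⊓ LO o m) (Submodule.span ℝ {c₀})
      have hc₀0 : c₀ ≠ 0 := by
        intro h0
        obtain ⟨_, ha₀, k0⟩ := hl₀
        apply pow_not_littleO m ha₀
        refine k0.neg_left.congr_left fun w => ?_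
        rw [h0]
        unfold gc
        simp
      have k3 : Module.finrank ℝ (Submodule.span ℝ {c₀}) ≤ 1 := (finrank_span_singleton hc₀0).le
      omega
    obtain ⟨s, hs, hs2⟩ := ih _ hfin
    have hms : m ∉ s := by
      intro hmem
      obtain ⟨c, hc, a, hl⟩ := hs2 m hmem
      exact lt_irrefl _ (hl.lt_of_mem o hc.2)
    refine ⟨insert m s, by rw [card_insert_of_notMem hms, hs], fun m' hm' => ?_⟩
    rw [mem_insert] at hm'
    rcases hm' with rfl | hm'
    · exact ⟨c₀, hc₀, a₀, hl₀⟩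
    · obtain ⟨c, hc, a, hl⟩ := hs2 m' hm'
      exact ⟨c, hc.1, a, hl⟩

/-- a basis with different orders -/
structure LinData {n : ℕ} (o : Fin n → Ser) where
  B : Matrix (Fin n) (Fin n) ℝ
  Bi : Matrix (Fin n) (Fin n) ℝ
  h1 : B * Bi = 1
  h2 : Bi * B = 1
  o' : Fin n → One
  mono : StrictMono fun j => (o' j).m
  hx : ∀ i, (o' i).x = ∑ j, B i j * (o j).x
  hτ : ∀ i k, (o' i).τ k = ∑ j, B i j * (o j).τ k

theorem LinInd.exists_data (h : LinInd o) : Nonempty (LinData o) := by
  classical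
  obtain ⟨s, hs, hs2⟩ := h.orders n ⊤ (by rw [finrank_top, Module.finrank_fin_fun])
  obtain ⟨m, hm⟩ : ∃ m : Fin n → ℕ, m = fun i => s.orderEmbOfFin hs i := ⟨_, rfl⟩
  have hmono : StrictMono m := by
    rw [hm]
    exact (s.orderEmbOfFin hs).strictMono
  have hmem : ∀ i, m i ∈ s := by
    intro i
    rw [hm]
    exact s.orderEmbOfFin_mem hs i
  choose c hc a hl using fun i => hs2 (m i) (hmem i)
  obtain ⟨B, hB⟩ : ∃ B : Matrix (Fin n) (Fin n) ℝ, B = Matrix.of c := ⟨_, rfl⟩
  have hdet : B.det ≠ 0 := by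
    intro h0
    obtain ⟨v, hv0, hv⟩ := Matrix.exists_vecMul_eq_zero_iff.2 h0
    -- the smallest index with nonzero coefficient
    have hex : ∃ i : ℕ, ∃ hi : i < n, v ⟨i, hi⟩ ≠ 0 := by
      by_contra hcon
      push Not at hcon
      apply hv0
      funext i
      exact hcon i.1 i.2
    obtain ⟨hi, hvi⟩ := Nat.find_spec hex
    obtain ⟨i, hii⟩ : ∃ i : Fin n, i = ⟨Nat.find hex, hi⟩ := ⟨_, rfl⟩
    rw [← hii] at hvi
    have hlt : ∀ j : Fin n, j < i → v j = 0 := by
      intro j hj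
      by_contra hcon
      have hji : (j : ℕ) < Nat.find hex := by
        rw [hii] at hj
        exact hj
      exact Nat.find_min hex hji ⟨j.2, hcon⟩
    -- the combination vanishes
    have hsum : ∑ j, v j • c j = 0 := by
      funext l
      have h3 := congrFun hv l
      rw [Matrix.vecMul_eq_sum] at h3
      rw [hB] at h3
      exact h3
    have hgc : ∀ w, ∑ j, (v j : ℂ) * gc o (c j) w = 0 := by
      intro w
      have h3 : gc o (∑ j, v j • c j) w = ∑ j, (v j : ℂ) * gc o (c j) w := by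
        unfold gc
        rw [sum_congr rfl fun j _ => mul_sum _ _ _, sum_comm]
        refine sum_congr rfl fun l _ => ?_
        rw [Finset.sum_apply]
        push_cast
        rw [sum_mul]
        refine sum_congr rfl fun j _ => ?_
        rw [Pi.smul_apply, smul_eq_mul]
        push_cast
        ring
      rw [← h3, hsum]
      unfold gc
      simp
    -- all other members have larger order
    have h4 : (fun w : ℂ => ∑ j ∈ univ.erase i, (v j : ℂ) * gc o (c j) w) =o[𝓝 0] fun w => w ^ (m i) := by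
      apply IsLittleO.fun_sum
      intro j hj
      rw [mem_erase] at hj
      rcases lt_or_gt_of_ne hj.1 with hji | hji
      · have : (fun w : ℂ => (v j : ℂ) * gc o (c j) w) = fun _ => 0 := by
          funext w
          rw [hlt j hji]
          simp
        rw [this]
        exact isLittleO_zero _ _
      · have h5 := (hl j).mem o (hmono hji)
        rw [mem_LO] at h5
        exact h5.const_mul_left _
    have h6 := (hl i).2.2.const_mul_left (v i : ℂ)
    apply pow_not_littleO (m i) (mul_ne_zero hvi (hl i).2.1)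
    have h7 := (h6.add h4).neg_left
    refine h7.congr_left fun w => ?_
    have h8 := hgc w
    rw [← add_sum_erase _ _ (mem_univ i)] at h8
    push_cast
    linear_combination -h8
  have hu : IsUnit B.det := isUnit_iff_ne_zero.2 hdet
  refine ⟨{
    B := B
    Bi := B⁻¹
    h1 := Matrix.mul_nonsing_inv B hu
    h2 := Matrix.nonsing_inv_mul B hu
    o' := fun i => {
      x := ∑ j, B i j * (o j).x
      τ := fun k => ∑ j, B i j * (o j).τ k
      g := gc o (c i)
      m := m i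
      a := a i
      m1 := (hl i).1
      a0 := (hl i).2.1
      gd := gc_d o (c i)
      g0 := gc_zero o (c i)
      gl := (hl i).2.2
      rep := by
        rw [hB]
        exact gc_rep o (c i) }
    mono := hmono
    hx := fun i => rfl
    hτ := fun i k => rfl }⟩

end Elim

end Pool.Agent.H608.Ge
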