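import Pool.Agent.H608.Ge.Lead

/-!
# Euler products
-/

set_option autoImplicit false

namespace Pool.Agent.H608.Ge

open Finset Filter Topology Metric Asymptotics

open Classical in
/-- the completely multiplicative function `n ^ (-s)` on the integers without prime factors in `E` -/
noncomputable def fE (E : Set ℕ) (hE : ∀ p ∈ E, p.Prime) (s : ℕ) (hs : s ≠ 0) : ℕ →*₀ ℝ where
  toFun n := if ∃ p ∈ E, p ∣ n then 0 else 1 / (n : ℝ) ^ s
  map_zero' := by simp [hs]
  map_one' := by
    rw [if_neg]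
    · simp
    · rintro ⟨p, hp, h1⟩
      exact (hE p hp).one_lt.ne' (Nat.dvd_one.1 h1)
  map_mul' m n := by
    by_cases hm : ∃ p ∈ E, p ∣ m
    · have h1 : ∃ p ∈ E, p ∣ m * n := by
        obtain ⟨p, hp, h⟩ := hm
        exact ⟨p, hp, h.mul_right n⟩
      rw [if_pos hm, if_pos h1, zero_mul]
    · by_cases hn : ∃ p ∈ E, p ∣ n
      · have h1 : ∃ p ∈ E, p ∣ m * n := by
          obtain ⟨p, hp, h⟩ := hn
          exact ⟨p, hp, h.mul_left m⟩
        rw [if_pos hn, if_pos h1, mul_zero]
      · have h1 : ¬ ∃ p ∈ E, p ∣ m * n := by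
          rintro ⟨p, hp, h⟩
          rcases (hE p hp).dvd_mul.1 h with h | h
          · exact hm ⟨p, hp, h⟩
          · exact hn ⟨p, hp, h⟩
        rw [if_neg hm, if_neg hn, if_neg h1]
        push_cast
        rw [mul_pow, one_div_mul_one_div]

/-- the logarithms of the Euler factors -/
noncomputable def te (s k : ℕ) : ℝ := if k.Prime then -Real.log (1 - 1 / (k : ℝ) ^ s) else 0

lemma te_bound {s k : ℕ} (hs : 2 ≤ s) : 0 ≤ te s k ∧ te s k ≤ 2 * (1 / (k : ℝ) ^ 2) := by
  unfold te
  split_ifs with hk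
  · have hk2 : (2 : ℝ) ≤ k := by exact_mod_cast hk.two_le
    have hk4 : (4 : ℝ) ≤ (k : ℝ) ^ 2 := by nlinarith
    have h0 : (0 : ℝ) < (k : ℝ) ^ s := by positivity
    have h1 : (k : ℝ) ^ 2 ≤ (k : ℝ) ^ s := pow_le_pow_right₀ (by linarith) hs
    have h2 : 1 / (k : ℝ) ^ s ≤ 1 / (k : ℝ) ^ 2 := one_div_le_one_div_of_le (by positivity) h1
    have h3 : 1 / (k : ℝ) ^ 2 ≤ 1 / 4 := one_div_le_one_div_of_le (by norm_num) hk4
    have h4 : 0 < 1 / (k : ℝ) ^ s := by positivity
    obtain ⟨u, hu⟩ : ∃ u, u = 1 / (k : ℝ) ^ s := ⟨_, rfl⟩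
    rw [← hu] at h2 h4 ⊢
    have hu4 : u ≤ 1 / 4 := h2.trans h3
    constructor
    · have := Real.log_nonpos (by linarith : (0 : ℝ) ≤ 1 - u) (by linarith)
      linarith
    · have h5 : 0 < 1 - u := by linarith
      have h6 := Real.one_sub_inv_le_log_of_pos h5
      have h7 : (1 - u)⁻¹ ≤ 1 + 2 * u := by
        rw [inv_le_comm₀ h5 (by linarith)]
        rw [inv_le_iff_one_le_mul₀ (by linarith)]
        nlinarith
      linarith
  · constructor
    · exact le_rfl
    · positivity

lemma te_summable {s : ℕ} (hs : 2 ≤ s) : Summable (te s) := by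
  refine Summable.of_nonneg_of_le (fun k => (te_bound hs).1) (fun k => (te_bound hs).2) ?_
  exact (Real.summable_one_div_nat_pow.2 one_lt_two).mul_left 2

open Classical in
/-- the Euler product over the primes outside `E` -/
lemma euler_exp {E : Set ℕ} (hE : ∀ p ∈ E, p.Prime) {s : ℕ} (hs : 2 ≤ s) :
    (∑' n : ℕ, if ∃ p ∈ E, p ∣ n then 0 else 1 / (n : ℝ) ^ s) =
      Real.exp (∑' k : ℕ, if k ∈ E then 0 else te s k) := by
  have hs0 : s ≠ 0 := by omega
  have h1 : Summable fun n => ‖fE E hE s hs0 n‖ := by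
    refine Summable.of_nonneg_of_le (fun _ => norm_nonneg _) (fun n => ?_)
      (Real.summable_one_div_nat_pow.2 (by omega : 1 < s))
    show ‖if ∃ p ∈ E, p ∣ n then 0 else 1 / (n : ℝ) ^ s‖ ≤ _
    split_ifs
    · rw [norm_zero]
      positivity
    · rw [Real.norm_of_nonneg (by positivity)]
  have h2 := EulerProduct.eulerProduct_completely_multiplicative_hasProd h1
  have h3 : Summable fun k : ℕ => if k ∈ E then 0 else te s k := by
    refine ((te_summable hs).indicator {k | k ∉ E}).congr fun k => ?_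
    simp only [Set.indicator, Set.mem_ofPred_eq]
    split_ifs <;> rfl
  have h4 : HasSum (fun p : Nat.Primes => if (p : ℕ) ∈ E then 0 else te s p)
      (∑' k : ℕ, if k ∈ E then 0 else te s k) := by
    refine (hasSum_subtype_iff_of_support_subset (s := {p : ℕ | p.Prime}) ?_).2 h3.hasSum
    intro k hk
    by_contra hcon
    apply hk
    show (if k ∈ E then 0 else te s k) = 0
    have : te s k = 0 := if_neg hcon
    rw [this, ite_self]
  have h5 := h4.rexp
  have h6 : (Real.exp ∘ fun p : Nat.Primes => if (p : ℕ) ∈ E then 0 else te s p) =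
      fun p : Nat.Primes => (1 - fE E hE s hs0 p)⁻¹ := by
    funext p
    have hp := p.2
    have h7 : (∃ q ∈ E, q ∣ (p : ℕ)) ↔ (p : ℕ) ∈ E := by
      constructor
      · rintro ⟨q, hq, h⟩
        rwa [← (Nat.prime_dvd_prime_iff_eq (hE q hq) hp).1 h]
      · exact fun h => ⟨p, h, dvd_rfl⟩
    have h8 : fE E hE s hs0 (p : ℕ) = if (p : ℕ) ∈ E then 0 else 1 / ((p : ℕ) : ℝ) ^ s := by
      show (if ∃ q ∈ E, q ∣ (p : ℕ) then 0 else 1 / ((p : ℕ) : ℝ) ^ s) = _
      by_cases h9 : (p : ℕ) ∈ E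
      · rw [if_pos (h7.2 h9), if_pos h9]
      · rw [if_neg fun h => h9 (h7.1 h), if_neg h9]
    rw [h8]
    simp only [Function.comp]
    split_ifs with h9
    · simp
    · unfold te
      rw [if_pos hp, Real.exp_neg, Real.exp_log]
      have hk2 : (2 : ℝ) ≤ ((p : ℕ) : ℝ) := by exact_mod_cast hp.two_le
      have h10 : 1 < ((p : ℕ) : ℝ) ^ s := one_lt_pow₀ (by linarith) hs0
      rw [sub_pos, div_lt_one (by linarith)]
      exact h10
  rw [h6] at h5
  exact h2.unique h5

/-- the logarithm of an Euler factor -/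
noncomputable def gz (s : ℕ) (w : ℂ) : ℂ := -Complex.log (1 - w ^ s)

/-- the series of the logarithms of the Euler factors -/
noncomputable def serZ (s : ℕ) (hs : 2 ≤ s) : Ser where
  x := ∑' k : ℕ, te s k
  τ k := -Real.log (1 - 1 / (k : ℝ) ^ s)
  g := gz s
  gd := by
    filter_upwards [ball_mem_nhds (0 : ℂ) one_pos] with w hw
    rw [mem_ball_zero_iff] at hw
    have h1 : ‖w ^ s‖ < 1 := by
      rw [norm_pow]
      exact pow_lt_one₀ (norm_nonneg _) hw (by omega)
    have h2 : 1 - w ^ s ∈ Complex.slitPlane := by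
      have h3 := Complex.mem_slitPlane_of_norm_lt_one (z := -w ^ s) (by rwa [norm_neg])
      rwa [← sub_eq_add_neg] at h3
    unfold gz
    fun_prop (disch := exact h2)
  g0 := by
    unfold gz
    rw [zero_pow (by omega), sub_zero, Complex.log_one, neg_zero]
  rep := by
    filter_upwards [eventually_ge_atTop 2] with k hk
    have hk2 : (2 : ℝ) ≤ k := by exact_mod_cast hk
    have h10 : 1 ≤ (k : ℝ) ^ s := one_le_pow₀ (by linarith)
    have h11 : 0 ≤ 1 - 1 / (k : ℝ) ^ s := by
      rw [sub_nonneg, div_le_one (by linarith)]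
      exact h10
    unfold gz
    rw [Complex.ofReal_neg, Complex.ofReal_log h11]
    push_cast
    rw [one_div_pow]

lemma gz_lead {s : ℕ} (hs : 2 ≤ s) :
    (fun w : ℂ => gz s w - w ^ s * ((1 : ℝ) : ℂ)) =o[𝓝 0] fun w => w ^ s := by
  have h1 : (fun u : ℂ => -Complex.log (1 - u) - u) =o[𝓝 0] fun u => u := by
    have h2 : (fun u : ℂ => -Complex.log (1 - u) - u) =O[𝓝 0] fun u : ℂ => u ^ 2 := by
      apply IsBigO.of_bound 1
      filter_upwards [ball_mem_nhds (0 : ℂ) (half_pos one_pos)] with u hu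
      rw [mem_ball_zero_iff] at hu
      have h3 := Complex.norm_log_one_add_sub_self_le (z := -u) (by
        rw [norm_neg]
        linarith)
      rw [norm_neg] at h3
      have h4 : ‖-Complex.log (1 - u) - u‖ = ‖Complex.log (1 + -u) - -u‖ := by
        rw [← norm_neg]
        congr 1
        rw [← sub_eq_add_neg]
        ring
      have h5 : (1 - ‖u‖)⁻¹ ≤ 2 := by
        rw [inv_le_comm₀ (by linarith) (by norm_num)]
        linarith
      rw [h4, norm_pow]
      refine h3.trans ?_
      have h6 : ‖u‖ ^ 2 * (1 - ‖u‖)⁻¹ ≤ ‖u‖ ^ 2 * 2 := mul_le_mul_of_nonneg_left h5 (by positivity)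
      linarith
    refine h2.trans_isLittleO ?_
    have h7 : (fun u : ℂ => u ^ 2) =o[𝓝 0] fun u : ℂ => u ^ 1 := isLittleO_pow_pow one_lt_two
    simpa using h7
  have h2 : Tendsto (fun w : ℂ => w ^ s) (𝓝 0) (𝓝 0) := by
    have h3 : Continuous fun w : ℂ => w ^ s := continuous_pow s
    have h4 := h3.tendsto 0
    rwa [zero_pow (by omega)] at h4
  refine (h1.comp_tendsto h2).congr_left fun w => ?_
  simp only [Function.comp, gz, Complex.ofReal_one, mul_one]

lemma linInd_Z (t : ℕ) : LinInd fun j : Fin t => serZ (j + 2) (Nat.le_add_left 2 _) :=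
  linInd_of_lead (m := fun j => (j : ℕ) + 2) (a := fun _ => 1) (fun i j hij => Nat.add_lt_add_right hij 2)
    (fun _ => one_ne_zero) fun _ => gz_lead (Nat.le_add_left 2 _)

open Classical in
/-- the limit of the sums with omitted primes -/
lemma limit_Z {E : Set ℕ} (hE : ∀ p ∈ E, p.Prime) {s : ℕ} (hs : 2 ≤ s) :
    Tendsto (fun N : ℕ => (serZ s hs).x - ∑ k ∈ (range N).filter (· ∈ E), (serZ s hs).τ k) atTop
      (𝓝 (∑' k : ℕ, if k ∈ E then 0 else te s k)) := by
  have h1 : Summable fun k : ℕ => if k ∈ E then te s k else 0 := by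
    refine ((te_summable hs).indicator E).congr fun k => ?_
    simp only [Set.indicator]
  have h2 : (∑' k : ℕ, if k ∈ E then 0 else te s k) = (∑' k, te s k) - ∑' k : ℕ, if k ∈ E then te s k else 0 := by
    rw [← (te_summable hs).tsum_sub h1]
    apply tsum_congr
    intro k
    split_ifs
    · rw [sub_self]
    · rw [sub_zero]
  rw [h2]
  apply Tendsto.const_sub
  refine h1.hasSum.tendsto_sum_nat.congr fun N => ?_
  rw [sum_filter]
  refine sum_congr rfl fun k _ => ?_
  split_ifs with h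
  · exact if_pos (hE k h)
  · rfl

end Pool.Agent.H608.Ge
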