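import Pool.Agent.H608.Ge.OneVar

/-!
# The number `e` from the sequence `(1 + 1 / k) ^ k`
-/

set_option autoImplicit false

namespace Pool.Agent.H608.Ge

open Finset Filter Topology Metric Asymptotics

/-- the logarithms of the quotients of consecutive members of the sequence `(1 + 1 / k) ^ k` -/
noncomputable def ue (k : ℕ) : ℝ :=
  ((k : ℝ) + 1) * Real.log (1 + 1 / ((k : ℝ) + 1)) - k * Real.log (1 + 1 / (k : ℝ))

/-- the analytic function -/
noncomputable def phe (w : ℂ) : ℂ := (1 + w) * Complex.log (1 + 2 * w) - (2 + w) * Complex.log (1 + w)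

/-- divided by `w` -/
noncomputable def ge (w : ℂ) : ℂ := dslope phe 0 w

lemma phe_diff {w : ℂ} (hw : w ∈ ball (0 : ℂ) (1 / 2)) : DifferentiableAt ℂ phe w := by
  rw [mem_ball_zero_iff] at hw
  have h1 : 1 + 2 * w ∈ Complex.slitPlane := by
    apply Complex.mem_slitPlane_of_norm_lt_one
    rw [norm_mul]
    norm_num
    linarith
  have h2 : 1 + w ∈ Complex.slitPlane := Complex.mem_slitPlane_of_norm_lt_one (by linarith)
  have h3 : DifferentiableAt ℂ (fun w => Complex.log (1 + 2 * w)) w :=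
    DifferentiableAt.clog (by fun_prop) h1
  have h4 : DifferentiableAt ℂ (fun w => Complex.log (1 + w)) w :=
    DifferentiableAt.clog (by fun_prop) h2
  unfold phe
  fun_prop

lemma phe_zero : phe 0 = 0 := by
  unfold phe
  simp

lemma phe_deriv : deriv phe 0 = 0 := by
  have h1 : HasDerivAt (fun w : ℂ => Complex.log (1 + 2 * w)) (2 / (1 + 2 * 0)) 0 := by
    apply HasDerivAt.clog
    · have := ((hasDerivAt_id (0 : ℂ)).const_mul 2).const_add 1
      simpa using this
    · simp
  have h2 : HasDerivAt (fun w : ℂ => Complex.log (1 + w)) (1 / (1 + 0)) 0 := by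
    apply HasDerivAt.clog
    · exact (hasDerivAt_id (0 : ℂ)).const_add 1
    · simp
  have h3 : HasDerivAt (fun w : ℂ => 1 + w) 1 0 := (hasDerivAt_id (0 : ℂ)).const_add 1
  have h4 : HasDerivAt (fun w : ℂ => 2 + w) 1 0 := (hasDerivAt_id (0 : ℂ)).const_add 2
  have h5 := (h3.mul h1).sub (h4.mul h2)
  have h6 := h5.deriv
  simp at h6
  exact h6

lemma ue_log {k : ℕ} (hk : 1 ≤ k) : ue k = ((k : ℝ) + 1) * Real.log (k + 2) - (2 * k + 1) * Real.log (k + 1) +
    k * Real.log k := by
  have hk0 : (0 : ℝ) < k := by exact_mod_cast hk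
  unfold ue
  have e1 : (1 : ℝ) + 1 / ((k : ℝ) + 1) = (k + 2) / (k + 1) := by
    field_simp
    ring
  have e2 : (1 : ℝ) + 1 / (k : ℝ) = (k + 1) / k := by
    field_simp
  rw [e1, e2, Real.log_div (by positivity) (by positivity), Real.log_div (by positivity) (by positivity)]
  ring

lemma ue_pos {k : ℕ} (hk : 1 ≤ k) : 0 < ue k := by
  have hk0 : (0 : ℝ) < k := by exact_mod_cast hk
  rw [ue_log hk]
  -- Bernoulli's inequality
  have h1 := one_add_mul_self_lt_rpow_one_add (s := -(1 / ((k : ℝ) + 1) ^ 2)) (by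
    rw [neg_le_neg_iff, div_le_one (by positivity)]
    nlinarith) (by
    rw [neg_ne_zero]
    positivity) (show (1 : ℝ) < (k : ℝ) + 1 by linarith)
  have e1 : 1 + ((k : ℝ) + 1) * -(1 / ((k : ℝ) + 1) ^ 2) = k / (k + 1) := by
    field_simp
    ring
  have e2 : 1 + -(1 / ((k : ℝ) + 1) ^ 2) = k * (k + 2) / (k + 1) ^ 2 := by
    field_simp
    ring
  rw [e1, e2] at h1
  have h2 := Real.log_lt_log (by positivity) h1
  rw [Real.log_rpow (by positivity), Real.log_div (by positivity) (by positivity),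
    Real.log_div (by positivity) (by positivity), Real.log_mul (by positivity) (by positivity),
    Real.log_pow] at h2
  push_cast at h2
  linarith

lemma ue_rep {k : ℕ} (hk : 1 ≤ k) : (ue k : ℂ) = ge (1 / (k : ℂ)) := by
  have hk0 : (0 : ℝ) < k := by exact_mod_cast hk
  have hkc : (k : ℂ) ≠ 0 := by exact_mod_cast hk0.ne'
  unfold ge
  rw [dslope_of_ne _ (one_div_ne_zero hkc), slope_def_field, phe_zero, sub_zero, sub_zero]
  unfold phe
  have e1 : Complex.log (1 + 2 * (1 / (k : ℂ))) = ((Real.log (1 + 2 * (1 / (k : ℝ))) : ℝ) : ℂ) := by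
    rw [Complex.ofReal_log (by positivity)]
    push_cast
    rfl
  have e2 : Complex.log (1 + 1 / (k : ℂ)) = ((Real.log (1 + 1 / (k : ℝ)) : ℝ) : ℂ) := by
    rw [Complex.ofReal_log (by positivity)]
    push_cast
    rfl
  rw [e1, e2]
  have e3 : ue k = ((1 + 1 / (k : ℝ)) * Real.log (1 + 2 * (1 / (k : ℝ))) - (2 + 1 / (k : ℝ)) * Real.log (1 + 1 / (k : ℝ))) /
      (1 / (k : ℝ)) := by
    rw [ue_log hk]
    have e4 : 1 + 2 * (1 / (k : ℝ)) = (k + 2) / k := by
      field_simp
    have e5 : 1 + 1 / (k : ℝ) = (k + 1) / k := by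
      field_simp
    rw [e4, e5, Real.log_div (by positivity) (by positivity), Real.log_div (by positivity) (by positivity)]
    field_simp
    ring
  rw [e3]
  push_cast
  rfl

/-- the series -/
noncomputable def serE : Ser where
  x := 1 - Real.log 2
  τ := ue
  g := ge
  gd := by
    have h1 : DifferentiableOn ℂ ge (ball 0 (1 / 2)) := by
      unfold ge
      exact (Complex.differentiableOn_dslope (ball_mem_nhds (0 : ℂ) (by norm_num))).2 fun w hw =>
        (phe_diff hw).differentiableWithinAt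
    filter_upwards [ball_mem_nhds (0 : ℂ) (show (0 : ℝ) < 1 / 2 by norm_num)] with w hw
    exact h1.differentiableAt (isOpen_ball.mem_nhds hw)
  g0 := by
    unfold ge
    rw [dslope_same, phe_deriv]
  rep := by
    filter_upwards [eventually_ge_atTop 1] with k hk
    exact ue_rep hk

lemma serE_ne : ¬ ∀ᶠ w in 𝓝 (0 : ℂ), serE.g w = 0 := by
  intro h
  have h1 := (tendsto_nhds_of_tendsto_nhdsWithin tendsto_one_div_c).eventually h
  obtain ⟨k, hk, hk1⟩ := (h1.and (eventually_ge_atTop 1)).exists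
  have h2 : (ue k : ℂ) = 0 := by
    rw [ue_rep hk1]
    exact hk
  have h3 : ue k = 0 := by exact_mod_cast h2
  exact (ue_pos hk1).ne' h3

lemma hasSum_ue : HasSum (fun i : ℕ => ue (i + 1)) (1 - Real.log 2) := by
  rw [hasSum_iff_tendsto_nat_of_nonneg (fun i => (ue_pos (by omega)).le)]
  have h1 : ∀ N : ℕ, ∑ i ∈ range N, ue (i + 1) =
      ((N + 1 : ℕ) : ℝ) * Real.log (1 + 1 / ((N + 1 : ℕ) : ℝ)) - Real.log 2 := by
    intro N
    induction N with
    | zero => norm_num
    | succ N ih =>
      rw [sum_range_succ, ih]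
      unfold ue
      push_cast
      ring
  simp only [h1]
  apply Tendsto.sub_const
  exact ((Real.tendsto_mul_log_one_add_div_atTop 1).comp tendsto_natCast_atTop_atTop).comp (tendsto_add_atTop_nat 1)

end Pool.Agent.H608.Ge
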