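import Pool.Agent.H608.Ge.Rng
import Pool.Graph.R_pool_sql_team_seeded_620a6dc7.Helper478_Surds.Fin

/-!
# From exponential sums to the windows of digits
-/

set_option autoImplicit false

namespace Pool.Agent.H608.Ge

open Finset Filter
open Pool.Agent.H469R2.NK (e norm_e e_add e_zero conj_e)
open Pool.Agent.Helper478.Bases (Equi equi_of)
open Pool.Agent.Helper478.Surds (ev_pow EquiW equiW_of_equi norm_sum_abs FreqBd devH windows)

set_option maxHeartbeats 4000000 in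
/-- the exceptional set of the windows -/
theorem finG (γ₀ : ℝ) (hγ0 : 0 < γ₀) (hγ1 : γ₀ ≤ 1 / 20) (ε' : ℝ) (hε' : 0 < ε') : ∃ y₀ : ℝ,
    ∀ (N : ℕ) (ν : ℕ → ℝ) (Lo Am : ℝ), y₀ ≤ Real.log N → 0 < Am → Am ≤ N →
      (∀ F : ℝ, 0 < F → Lo ≤ F * Am → F * Am ≤ Real.exp ((Real.log N) ^ (1 + γ₀)) →
        ‖∑ n ∈ Ioc 0 N, e (F * ν n)‖ ≤ N * Real.exp (-(2 * (Real.log N) ^ (1 - 3 * γ₀)))) →
      (({n : ℕ | 1 ≤ n ∧ n ≤ N ∧ ∃ b u v : ℕ, 2 ≤ b ∧ (Real.log N) ^ (1 - γ₀ / 2) ≤ (v : ℝ) - u ∧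
        v * Real.log b ≤ (Real.log N) ^ (1 + γ₀ / 2) ∧ Lo ≤ (b : ℝ) ^ u * Am ∧
        ¬ EquiW (ν n) b u v ε'}.ncard : ℕ) : ℝ) ≤
          N * Real.exp (-√(Real.log N)) := by
  classical
  -- parameters
  set ε : ℝ := min ε' 1 with hε
  have hε0 : 0 < ε := lt_min hε' one_pos
  have hε1 : ε ≤ 1 := min_le_right _ _
  have hεε' : ε ≤ ε' := min_le_left _ _
  obtain ⟨K, hK1, hK64⟩ : ∃ K : ℕ, 1 ≤ K ∧ 64 ≤ ε ^ 2 * K := by
    refine ⟨⌈64 / ε ^ 2⌉₊ + 1, by omega, ?_⟩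
    have h1 := Nat.le_ceil (64 / ε ^ 2)
    rw [div_le_iff₀ (by positivity)] at h1
    push_cast
    have h2 : 0 < ε ^ 2 := by positivity
    nlinarith
  have hK0 : (1 : ℝ) ≤ K := by exact_mod_cast hK1
  obtain ⟨η, hη⟩ : ∃ η : ℝ, η = ε / (16 * K) := ⟨_, rfl⟩
  have hη0 : 0 < η := by rw [hη]; positivity
  have hη1 : η ≤ 1 := by
    rw [hη, div_le_one (by positivity)]
    linarith
  have hηK : 2 * η * K ≤ ε / 8 := by
    rw [hη]
    apply le_of_eq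
    field_simp
    norm_num
  -- eventual inequalities
  have ev1 : ∀ᶠ y : ℝ in atTop, Real.log (2 * K) * y ^ (0 : ℝ) ≤ y ^ (1 : ℝ) := ev_pow _ _ _ (by norm_num)
  have ev2 : ∀ᶠ y : ℝ in atTop, 3 * y ^ (1 + γ₀ / 2) ≤ y ^ (1 + γ₀) := ev_pow _ _ _ (by linarith)
  have ev3 : ∀ᶠ y : ℝ in atTop, 1 * y ^ (1 : ℝ) ≤ y ^ (1 + γ₀ / 2) := ev_pow _ _ _ (by linarith)
  have ev4 : ∀ᶠ y : ℝ in atTop, (1 : ℝ) ≤ y := eventually_ge_atTop _
  have ev5 : ∀ᶠ y : ℝ in atTop, (16 / η ^ 2 * 3) * y ^ (1 / 2 : ℝ) ≤ y ^ (1 - 3 * γ₀) :=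
    ev_pow _ _ _ (by linarith)
  have ev6 : ∀ᶠ y : ℝ in atTop, 8 * K * (2 * y ^ 2 + 2) * (2 * y) ≤ Real.exp (y ^ (1 / 2 : ℝ)) := by
    have t1 := Real.tendsto_pow_mul_exp_neg_atTop_nhds_zero 6
    have t2 := t1.comp (tendsto_rpow_atTop (by norm_num : (0 : ℝ) < 1 / 2))
    have t3 := t2.eventually (ge_mem_nhds (show (0 : ℝ) < 1 / (64 * K) by positivity))
    filter_upwards [t3, eventually_ge_atTop 1] with y hy hy1
    have hy0 : 0 < y := by linarith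
    simp only [Function.comp] at hy
    have f1 : (y ^ (1 / 2 : ℝ)) ^ 6 = y ^ 3 := by
      rw [← Real.rpow_natCast, ← Real.rpow_mul hy0.le, ← Real.rpow_natCast]
      norm_num
    rw [f1, Real.exp_neg, ← div_eq_mul_inv, div_le_div_iff₀ (Real.exp_pos _) (by positivity)] at hy
    have f2 : 8 * (K : ℝ) * (2 * y ^ 2 + 2) * (2 * y) ≤ y ^ 3 * (64 * K) := by
      have f3 : y ≤ y ^ 3 := by nlinarith [sq_nonneg y]
      have f4 : 8 * (K : ℝ) * (2 * y ^ 2 + 2) * (2 * y) = 32 * K * y ^ 3 + 32 * K * y := by ring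
      rw [f4]
      nlinarith
    linarith
  have ev7 : ∀ᶠ y : ℝ in atTop, 2 * y ^ (0 : ℝ) ≤ y ^ (1 - 3 * γ₀) := ev_pow _ _ _ (by linarith)
  obtain ⟨y₀, hy₀⟩ := eventually_atTop.1 ((ev1.and ev2).and ((ev3.and ev4).and ((ev5.and ev6).and
    (ev7.and (eventually_ge_atTop 10)))))
  refine ⟨y₀, ?_⟩
  intro N ν Lo Am hN hAm0 hAmN hsums
  obtain ⟨⟨q1, q2⟩, ⟨q3, q4⟩, ⟨q5, q6⟩, q7, q8⟩ := hy₀ _ hN
  obtain ⟨y, hy⟩ : ∃ y : ℝ, y = Real.log N := ⟨_, rfl⟩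
  rw [← hy] at q1 q2 q3 q4 q5 q6 q7 q8 hsums ⊢
  have hy0 : 0 < y := by linarith
  have hy1 : 1 ≤ y := by linarith
  have hN0 : (0 : ℝ) < N := by linarith
  have hNexp : (N : ℝ) = Real.exp y := by rw [hy, Real.exp_log hN0]
  rw [Real.rpow_zero, mul_one, Real.rpow_one] at q1
  rw [Real.rpow_one, one_mul] at q3
  rw [Real.rpow_zero, mul_one] at q7
  -- the block length
  obtain ⟨m, hm⟩ : ∃ m : ℕ, m = ⌊y ^ (1 - 3 * γ₀)⌋₊ := ⟨_, rfl⟩
  have hm1 : 1 ≤ m := by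
    rw [hm]; exact Nat.le_floor (by push_cast; linarith)
  have hmle : (m : ℝ) ≤ y ^ (1 - 3 * γ₀) := by rw [hm]; exact Nat.floor_le (by positivity)
  have hmge : y ^ (1 - 3 * γ₀) / 2 ≤ m := by
    have := Nat.lt_floor_add_one (y ^ (1 - 3 * γ₀))
    rw [← hm] at this
    linarith
  have hmy : (m : ℝ) ≤ y := by
    refine hmle.trans ?_
    calc y ^ (1 - 3 * γ₀) ≤ y ^ (1 : ℝ) := Real.rpow_le_rpow_of_exponent_le hy1 (by linarith)
      _ = y := Real.rpow_one _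
  have hmwin : (m : ℝ) ≤ y ^ (1 - γ₀ / 2) :=
    hmle.trans (Real.rpow_le_rpow_of_exponent_le hy1 (by linarith))
  set W : ℝ := N * Real.exp (-(2 * y ^ (1 - 3 * γ₀))) with hW
  have hW0 : 0 ≤ W := by positivity
  have h2W : ∀ k : ℕ, k < 2 * m → 2 ^ k * W ≤ N := by
    intro k hk
    have e1 : (2 : ℝ) ^ k ≤ Real.exp (2 * y ^ (1 - 3 * γ₀)) := by
      have hk' : (k : ℝ) ≤ 2 * m := by exact_mod_cast hk.le
      calc (2 : ℝ) ^ k ≤ (Real.exp 1) ^ k := by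
            apply pow_le_pow_left₀ (by norm_num)
            have := Real.exp_one_gt_d9; linarith
        _ = Real.exp k := by rw [← Real.exp_nat_mul, mul_one]
        _ ≤ Real.exp (2 * y ^ (1 - 3 * γ₀)) := Real.exp_le_exp.2 (by linarith)
    calc (2 : ℝ) ^ k * W ≤ Real.exp (2 * y ^ (1 - 3 * γ₀)) * W := by gcongr
      _ = N * (Real.exp (2 * y ^ (1 - 3 * γ₀)) * Real.exp (-(2 * y ^ (1 - 3 * γ₀)))) := by rw [hW]; ring
      _ = N := by rw [← Real.exp_add, add_neg_cancel, Real.exp_zero, mul_one]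
  have hfreq : ∀ b u k h : ℕ, 2 ≤ b → 1 ≤ h → h ≤ K →
      Lo ≤ (b : ℝ) ^ u * Am →
      ((u + k : ℕ) : ℝ) * Real.log b ≤ y ^ (1 + γ₀ / 2) →
      FreqBd (Ioc 0 N) ν h b u k W := by
    intro b u k h hb hh1 hhK hδb hub Z hZ1 hZ2
    have hb0 : (0 : ℝ) < b := by exact_mod_cast (by omega : 0 < b)
    have hb2 : (2 : ℝ) ≤ b := by exact_mod_cast hb
    have hh0 : (1 : ℝ) ≤ h := by exact_mod_cast hh1
    have hhK' : (h : ℝ) ≤ K := by exact_mod_cast hhK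
    have hbu : (0 : ℝ) < (b : ℝ) ^ u := by positivity
    have hZpos : 0 < |(Z : ℝ)| := lt_of_lt_of_le (by positivity) hZ1
    have hF : |(h : ℝ) * Z| = h * |(Z : ℝ)| := by
      rw [abs_mul, abs_of_pos (by linarith : (0 : ℝ) < h)]
    have hred : ‖∑ n ∈ Ioc 0 N, e ((h : ℝ) * Z * ν n)‖ =
        ‖∑ n ∈ Ioc 0 N, e (|(h : ℝ) * Z| * ν n)‖ :=
      norm_sum_abs (Ioc 0 N) ν _
    rw [hred]
    refine hsums |(h : ℝ) * Z| (by rw [hF]; positivity) ?_ ?_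
    · rw [hF]
      have f1 : (b : ℝ) ^ u ≤ |(Z : ℝ)| := by
        refine le_trans ?_ hZ1
        rw [pow_succ]
        have := mul_le_mul_of_nonneg_left hb2 hbu.le
        linarith
      calc Lo ≤ (b : ℝ) ^ u * Am := hδb
        _ = 1 * ((b : ℝ) ^ u) * Am := by ring
        _ ≤ h * |(Z : ℝ)| * Am := by gcongr
    · rw [hF]
      have f1 : (b : ℝ) ^ (u + k) ≤ Real.exp (y ^ (1 + γ₀ / 2)) := by
        have g1 : (b : ℝ) ^ (u + k) = Real.exp (((u + k : ℕ) : ℝ) * Real.log b) := by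
          rw [Real.exp_nat_mul, Real.exp_log hb0]
        rw [g1]
        exact Real.exp_le_exp.2 hub
      have f2 : Am ≤ Real.exp y := hAmN.trans (by rw [← hNexp])
      have f3 : 2 * (K : ℝ) = Real.exp (Real.log (2 * K)) := (Real.exp_log (by positivity)).symm
      calc (h : ℝ) * |(Z : ℝ)| * Am
          ≤ K * (2 * Real.exp (y ^ (1 + γ₀ / 2))) * Real.exp y := by
              have := hZ2.trans (mul_le_mul_of_nonneg_left f1 (by norm_num))
              gcongr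
        _ = (2 * K) * Real.exp (y ^ (1 + γ₀ / 2)) * Real.exp y := by ring
        _ = Real.exp (Real.log (2 * K) + y ^ (1 + γ₀ / 2) + y) := by
            rw [f3, ← Real.exp_add, ← Real.exp_add, ← f3]
        _ ≤ Real.exp (y ^ (1 + γ₀)) := Real.exp_le_exp.2 (by linarith)
  -- the bad sets
  obtain ⟨Bm, hBm⟩ : ∃ Bm : ℕ, Bm = ⌊Real.exp (y ^ (1 / 2 : ℝ))⌋₊ := ⟨_, rfl⟩
  obtain ⟨U, hU⟩ : ∃ U : ℕ, U = ⌊2 * y ^ 2⌋₊ := ⟨_, rfl⟩
  let Bad : ℕ → ℕ → ℕ → ℕ → Finset ℕ := fun b u k h =>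
    if (2 ≤ b ∧ Lo ≤ (b : ℝ) ^ u * Am ∧
      ((u + k : ℕ) : ℝ) * Real.log b ≤ y ^ (1 + γ₀ / 2)) then
      (Ioc 0 N).filter fun n : ℕ => 2 * η * k < ‖∑ i ∈ Icc 1 k, e ((h : ℝ) * (b : ℝ) ^ (u + i) * ν n)‖
    else ∅
  have hbad : ∀ b ∈ range (Bm + 1), ∀ u ∈ range (U + 1), ∀ k ∈ Ico m (2 * m), ∀ h ∈ Icc 1 K,
      ((Bad b u k h).card : ℝ) ≤ 8 * N * Real.exp (-(η ^ 2 * m / 8)) := by
    intro b _ u _ k hk h hh
    simp only [Bad]
    rw [mem_Ico] at hk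
    rw [mem_Icc] at hh
    split_ifs with hcond
    · have g1 := devH (h : ℝ) η hη0 hη1 b u k hcond.1 (Ioc 0 N) ν W
        (hfreq b u k h hcond.1 hh.1 hh.2 hcond.2.1 hcond.2.2) hW0
      refine g1.trans ?_
      rw [Nat.card_Ioc, Nat.sub_zero]
      have g2 := h2W k hk.2
      have g3 : Real.exp (-(η ^ 2 * k / 8)) ≤ Real.exp (-(η ^ 2 * m / 8)) := by
        apply Real.exp_le_exp.2
        have : (m : ℝ) ≤ k := by exact_mod_cast hk.1
        have g4 : η ^ 2 * m ≤ η ^ 2 * k := by gcongr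
        linarith
      calc 4 * (Real.exp (-(η ^ 2 * k / 8)) * ((N : ℝ) + 2 ^ k * W)) ≤
            4 * (Real.exp (-(η ^ 2 * m / 8)) * (N + N)) := by gcongr
        _ = _ := by ring
    · simp only [card_empty, Nat.cast_zero]
      positivity
  set T : Finset ℕ := (range (Bm + 1)).biUnion fun b => (range (U + 1)).biUnion fun u =>
    (Ico m (2 * m)).biUnion fun k => (Icc 1 K).biUnion fun h => Bad b u k h with hT
  have hsub : {n : ℕ | 1 ≤ n ∧ n ≤ N ∧ ∃ b u v : ℕ, 2 ≤ b ∧ y ^ (1 - γ₀ / 2) ≤ (v : ℝ) - u ∧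
        v * Real.log b ≤ y ^ (1 + γ₀ / 2) ∧ Lo ≤ (b : ℝ) ^ u * Am ∧
        ¬ EquiW (ν n) b u v ε'} ⊆ ((T : Finset ℕ) : Set ℕ) := by
    rintro n ⟨a1, a2, b, u, v, hb, a3, a4, a5, a6⟩
    rw [Finset.mem_coe]
    by_contra hcon
    apply a6
    have huv : (u : ℝ) < v := by
      have : 0 < y ^ (1 - γ₀ / 2) := Real.rpow_pos_of_pos hy0 _
      linarith
    have huv' : u < v := by exact_mod_cast huv
    have hvu : ((v - u : ℕ) : ℝ) = v - u := by rw [Nat.cast_sub huv'.le]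
    have hmvu : m ≤ v - u := by
      have : (m : ℝ) ≤ ((v - u : ℕ) : ℝ) := by rw [hvu]; linarith
      exact_mod_cast this
    have hb0 : (0 : ℝ) < b := by exact_mod_cast (by omega : 0 < b)
    have hb2 : (2 : ℝ) ≤ b := by exact_mod_cast hb
    have hlb : 0 < Real.log b := Real.log_pos (by linarith)
    have hl2 : Real.log 2 ≤ Real.log b := Real.log_le_log (by norm_num) hb2
    have hl2' : (1 : ℝ) / 2 ≤ Real.log 2 := by have := Real.log_two_gt_d9; linarith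
    -- size of `b`
    have hbB : b ≤ Bm := by
      rw [hBm]
      apply Nat.le_floor
      rw [← Real.exp_log hb0]
      apply Real.exp_le_exp.2
      have g1 : y ^ (1 - γ₀ / 2) * Real.log b ≤ y ^ (1 + γ₀ / 2) := by
        have g0 : y ^ (1 - γ₀ / 2) ≤ v := by linarith [(Nat.cast_nonneg u : (0:ℝ) ≤ u)]
        calc y ^ (1 - γ₀ / 2) * Real.log b ≤ v * Real.log b := by gcongr
          _ ≤ _ := a4
      have g2 : y ^ (1 + γ₀ / 2) = y ^ (1 - γ₀ / 2) * y ^ γ₀ := by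
        rw [← Real.rpow_add hy0]; congr 1; ring
      rw [g2] at g1
      have g3 := le_of_mul_le_mul_left g1 (Real.rpow_pos_of_pos hy0 _)
      exact g3.trans (Real.rpow_le_rpow_of_exponent_le hy1 (by linarith))
    have hvU : v ≤ U := by
      rw [hU]
      apply Nat.le_floor
      have g1 : (v : ℝ) * (1 / 2) ≤ y ^ (1 + γ₀ / 2) := by
        calc (v : ℝ) * (1 / 2) ≤ v * Real.log b := by
              gcongr
              linarith
          _ ≤ _ := a4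
      have g2 : y ^ (1 + γ₀ / 2) ≤ y ^ 2 := by
        rw [← Real.rpow_natCast y 2]
        exact Real.rpow_le_rpow_of_exponent_le hy1 (by push_cast; linarith)
      linarith
    have hnN : n ∈ Ioc 0 N := by rw [mem_Ioc]; omega
    refine equiW_of_equi _ b u v ε' huv'.le ?_
    refine (equi_of b (v - u) K (ν n * (b : ℝ) ^ u) ε η hK1 hε0 hε1 hη0.le hK64 hηK ?_).mono hεε'
    intro h hh
    -- all blocks
    have hwin := windows (fun i => e ((h : ℝ) * (b : ℝ) ^ (u + i) * ν n)) m (v - u) (2 * η) hm1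
      (by
        intro u' k hk1 hk2 hk3
        by_contra hcon2
        push Not at hcon2
        apply hcon
        rw [hT, mem_biUnion]
        refine ⟨b, by rw [mem_range]; omega, ?_⟩
        rw [mem_biUnion]
        refine ⟨u + u', by rw [mem_range]; omega, ?_⟩
        rw [mem_biUnion]
        refine ⟨k, by rw [mem_Ico]; omega, ?_⟩
        rw [mem_biUnion]
        refine ⟨h, hh, ?_⟩
        simp only [Bad]
        rw [if_pos]
        · rw [mem_filter]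
          refine ⟨hnN, ?_⟩
          have : ∀ i, u + u' + i = u + (u' + i) := fun i => by ring
          simp_rw [this]
          exact hcon2
        · refine ⟨hb, a5.trans ?_, ?_⟩
          · apply mul_le_mul_of_nonneg_right _ (by positivity)
            exact pow_le_pow_right₀ (by linarith) (by omega)
          · refine le_trans ?_ a4
            apply mul_le_mul_of_nonneg_right _ hlb.le
            exact_mod_cast (by omega : u + u' + k ≤ v)) (v - u) 0 hmvu (by omega)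
    simp only [zero_add] at hwin
    refine le_trans (le_of_eq ?_) hwin
    congr 1
    refine sum_congr rfl fun i _ => ?_
    rw [pow_add]
    congr 1
    ring
  have hcard := Set.ncard_le_ncard hsub (Finset.finite_toSet _)
  rw [Set.ncard_coe_finset] at hcard
  have hTcard : (T.card : ℝ) ≤ ∑ b ∈ range (Bm + 1), ∑ u ∈ range (U + 1), ∑ k ∈ Ico m (2 * m),
      ∑ h ∈ Icc 1 K, 8 * N * Real.exp (-(η ^ 2 * m / 8)) := by
    have g1 : T.card ≤ ∑ b ∈ range (Bm + 1), ∑ u ∈ range (U + 1), ∑ k ∈ Ico m (2 * m),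
        ∑ h ∈ Icc 1 K, (Bad b u k h).card :=
      card_biUnion_le.trans (sum_le_sum fun b _ => card_biUnion_le.trans
        (sum_le_sum fun u _ => card_biUnion_le.trans (sum_le_sum fun k _ => card_biUnion_le)))
    have g2 : (T.card : ℝ) ≤ ∑ b ∈ range (Bm + 1), ∑ u ∈ range (U + 1), ∑ k ∈ Ico m (2 * m),
        ∑ h ∈ Icc 1 K, ((Bad b u k h).card : ℝ) := by exact_mod_cast g1
    exact g2.trans (sum_le_sum fun b hb => sum_le_sum fun u hu => sum_le_sum fun k hk =>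
      sum_le_sum fun h hh => hbad b hb u hu k hk h hh)
  refine le_trans (by exact_mod_cast hcard) (hTcard.trans ?_)
  simp only [sum_const, card_range, Nat.card_Ico, Nat.card_Icc, Nat.add_sub_cancel, nsmul_eq_mul]
  have g1 : ((Bm + 1 : ℕ) : ℝ) ≤ 2 * Real.exp (y ^ (1 / 2 : ℝ)) := by
    have f1 : (Bm : ℝ) ≤ Real.exp (y ^ (1 / 2 : ℝ)) := by
      rw [hBm]; exact Nat.floor_le (Real.exp_pos _).le
    have f2 : 1 ≤ Real.exp (y ^ (1 / 2 : ℝ)) := Real.one_le_exp (by positivity)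
    push_cast; linarith
  have g2 : ((U + 1 : ℕ) : ℝ) ≤ 2 * y ^ 2 + 2 := by
    have f1 : (U : ℝ) ≤ 2 * y ^ 2 := by rw [hU]; exact Nat.floor_le (by positivity)
    push_cast; linarith
  have g3 : ((2 * m - m : ℕ) : ℝ) ≤ y := by
    rw [show 2 * m - m = m by omega]; exact hmy
  have g4 : Real.exp (-(η ^ 2 * m / 8)) ≤ Real.exp (-(3 * y ^ (1 / 2 : ℝ))) := by
    apply Real.exp_le_exp.2
    have f1 : 16 / η ^ 2 * 3 * y ^ (1 / 2 : ℝ) * (η ^ 2 / 16) = 3 * y ^ (1 / 2 : ℝ) := by field_simp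
    have f2 := mul_le_mul_of_nonneg_right q5 (by positivity : 0 ≤ η ^ 2 / 16)
    rw [f1] at f2
    have f3 : η ^ 2 / 16 * y ^ (1 - 3 * γ₀) ≤ η ^ 2 * m / 8 := by
      have : η ^ 2 * (y ^ (1 - 3 * γ₀) / 2) ≤ η ^ 2 * m := by gcongr
      linarith
    linarith
  have hsqrt : √y = y ^ (1 / 2 : ℝ) := Real.sqrt_eq_rpow y
  rw [hsqrt]
  obtain ⟨E, hE⟩ : ∃ E : ℝ, E = Real.exp (y ^ (1 / 2 : ℝ)) := ⟨_, rfl⟩
  have hE0 : 0 < E := by rw [hE]; exact Real.exp_pos _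
  have hE3 : Real.exp (-(3 * y ^ (1 / 2 : ℝ))) = 1 / E ^ 3 := by
    have e1 : E ^ 3 = Real.exp (3 * y ^ (1 / 2 : ℝ)) := by
      rw [hE, ← Real.exp_nat_mul]; push_cast; rfl
    rw [e1, Real.exp_neg]
    exact (one_div _).symm
  have hE1 : Real.exp (-(y ^ (1 / 2 : ℝ))) = 1 / E := by
    rw [Real.exp_neg, hE]
    exact (one_div _).symm
  rw [← hE] at g1 q6
  rw [hE3] at g4
  rw [hE1]
  calc ((Bm + 1 : ℕ) : ℝ) * (((U + 1 : ℕ) : ℝ) * (((2 * m - m : ℕ) : ℝ) *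
        ((K : ℝ) * (8 * N * Real.exp (-(η ^ 2 * m / 8)))))) ≤
        (2 * E) * ((2 * y ^ 2 + 2) * (y * (K * (8 * N * (1 / E ^ 3))))) := by gcongr
    _ = (8 * K * (2 * y ^ 2 + 2) * (2 * y)) * (N * (1 / E ^ 2)) := by field_simp
    _ ≤ E * (N * (1 / E ^ 2)) := by gcongr
    _ = N * (1 / E) := by field_simp

end Pool.Agent.H608.Ge
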