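import Pool.Agent.H608.Ge.Lead
import Pool.Agent.H608.Ge.Euler

/-!
# Completely multiplicative functions with values `±1`
-/

set_option autoImplicit false

namespace Pool.Agent.H608.Ge

open Finset Filter Topology Metric Asymptotics

open Classical in
/-- the completely multiplicative function with the value `-1` at the primes of `E` and `1` at the other primes -/
noncomputable def sg (E : Set ℕ) (n : ℕ) : ℝ :=
  (n.primeFactorsList.map fun p => if p ∈ E then (-1 : ℝ) else 1).prod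

lemma sg_one (E : Set ℕ) : sg E 1 = 1 := by
  unfold sg
  simp

lemma sg_mul (E : Set ℕ) {m n : ℕ} (hm : m ≠ 0) (hn : n ≠ 0) : sg E (m * n) = sg E m * sg E n := by
  unfold sg
  rw [((Nat.perm_primeFactorsList_mul hm hn).map _).prod_eq, List.map_append, List.prod_append]

open Classical in
lemma sg_prime (E : Set ℕ) {p : ℕ} (hp : p.Prime) : sg E p = if p ∈ E then -1 else 1 := by
  unfold sg
  rw [Nat.primeFactorsList_prime hp]
  simp

lemma sg_abs (E : Set ℕ) (n : ℕ) : |sg E n| = 1 := by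
  unfold sg
  induction n.primeFactorsList with
  | nil => simp
  | cons a l ih =>
    rw [List.map_cons, List.prod_cons, abs_mul, ih, mul_one]
    split_ifs
    · rw [abs_neg, abs_one]
    · exact abs_one

/-- the completely multiplicative function `sg(n) / n ^ s` -/
noncomputable def fS (E : Set ℕ) (s : ℕ) (hs : s ≠ 0) : ℕ →*₀ ℝ where
  toFun n := sg E n / (n : ℝ) ^ s
  map_zero' := by simp [hs]
  map_one' := by rw [sg_one]; simp
  map_mul' m n := by
    by_cases hm : m = 0
    · rw [hm]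
      simp [hs]
    · by_cases hn : n = 0
      · rw [hn]
        simp [hs]
      · rw [sg_mul E hm hn]
        push_cast
        rw [mul_pow, mul_div_mul_comm]

open Classical in
/-- the logarithms of the Euler factors -/
noncomputable def ts (E : Set ℕ) (s k : ℕ) : ℝ :=
  if k.Prime then -Real.log (1 - (if k ∈ E then -1 else 1) / (k : ℝ) ^ s) else 0

/-- the change of the logarithm of the Euler factor -/
noncomputable def dz (s k : ℕ) : ℝ := Real.log (1 + 1 / (k : ℝ) ^ s) - Real.log (1 - 1 / (k : ℝ) ^ s)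

lemma small_pow {s k : ℕ} (hs : 2 ≤ s) (hk : 2 ≤ k) : 0 < 1 / (k : ℝ) ^ s ∧ 1 / (k : ℝ) ^ s ≤ 1 / (k : ℝ) ^ 2 ∧
    1 / (k : ℝ) ^ s ≤ 1 / 4 := by
  have hk2 : (2 : ℝ) ≤ k := by exact_mod_cast hk
  have hk4 : (4 : ℝ) ≤ (k : ℝ) ^ 2 := by nlinarith
  have h1 : (k : ℝ) ^ 2 ≤ (k : ℝ) ^ s := pow_le_pow_right₀ (by linarith) hs
  have h2 : 1 / (k : ℝ) ^ s ≤ 1 / (k : ℝ) ^ 2 := one_div_le_one_div_of_le (by positivity) h1
  have h3 : 1 / (k : ℝ) ^ 2 ≤ 1 / 4 := one_div_le_one_div_of_le (by norm_num) hk4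
  exact ⟨by positivity, h2, h2.trans h3⟩

lemma dz_bound {s k : ℕ} (hs : 2 ≤ s) (hk : 2 ≤ k) : 0 ≤ dz s k ∧ dz s k ≤ 3 * (1 / (k : ℝ) ^ 2) := by
  obtain ⟨h0, h2, h4⟩ := small_pow hs hk
  unfold dz
  obtain ⟨u, hu⟩ : ∃ u, u = 1 / (k : ℝ) ^ s := ⟨_, rfl⟩
  rw [← hu] at h0 h2 h4 ⊢
  have h5 : 0 < 1 - u := by linarith
  have h6 := Real.one_sub_inv_le_log_of_pos h5
  have h7 : (1 - u)⁻¹ ≤ 1 + 2 * u := by
    rw [inv_le_comm₀ h5 (by linarith)]
    rw [inv_le_iff_one_le_mul₀ (by linarith)]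
    nlinarith
  have h8 := Real.log_le_sub_one_of_pos (show (0 : ℝ) < 1 + u by linarith)
  have h9 := Real.log_nonneg (show (1 : ℝ) ≤ 1 + u by linarith)
  have h10 := Real.log_nonpos h5.le (by linarith)
  constructor
  · linarith
  · linarith

open Classical in
lemma ts_eq (E : Set ℕ) {s k : ℕ} : ts E s k = te s k - if k ∈ E ∧ k.Prime then dz s k else 0 := by
  unfold ts te dz
  by_cases hk : k.Prime
  · rw [if_pos hk, if_pos hk]
    by_cases hE : k ∈ E
    · rw [if_pos hE, if_pos ⟨hE, hk⟩]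
      rw [neg_div, sub_neg_eq_add]
      ring
    · rw [if_neg hE, if_neg fun h => hE h.1, sub_zero]
  · rw [if_neg hk, if_neg hk, if_neg fun h => hk h.2, sub_zero]

open Classical in
lemma dz_summable (E : Set ℕ) {s : ℕ} (hs : 2 ≤ s) : Summable fun k => if k ∈ E ∧ k.Prime then dz s k else 0 := by
  refine Summable.of_nonneg_of_le (fun k => ?_) (fun k => ?_)
    ((Real.summable_one_div_nat_pow.2 one_lt_two).mul_left 3)
  · split_ifs with h
    · exact (dz_bound hs h.2.two_le).1
    · exact le_rfl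
  · split_ifs with h
    · exact (dz_bound hs h.2.two_le).2
    · positivity

lemma ts_summable (E : Set ℕ) {s : ℕ} (hs : 2 ≤ s) : Summable (ts E s) := by
  classical
  exact ((te_summable hs).sub (dz_summable E hs)).congr fun k => (ts_eq E).symm

/-- the Euler product -/
lemma flip_prod (E : Set ℕ) {s : ℕ} (hs : 2 ≤ s) :
    HasProd (fun p : Nat.Primes => (1 - sg E p / ((p : ℕ) : ℝ) ^ s)⁻¹) (∑' n : ℕ, sg E n / (n : ℝ) ^ s) := by
  have hs0 : s ≠ 0 := by omega
  have h1 : Summable fun n => ‖fS E s hs0 n‖ := by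
    refine Summable.of_nonneg_of_le (fun _ => norm_nonneg _) (fun n => ?_)
      (Real.summable_one_div_nat_pow.2 (by omega : 1 < s))
    show ‖sg E n / (n : ℝ) ^ s‖ ≤ _
    rw [Real.norm_eq_abs, abs_div, sg_abs, abs_of_nonneg (by positivity : (0 : ℝ) ≤ (n : ℝ) ^ s)]
  exact EulerProduct.eulerProduct_completely_multiplicative_hasProd h1

lemma flip_exp (E : Set ℕ) {s : ℕ} (hs : 2 ≤ s) :
    (∑' n : ℕ, sg E n / (n : ℝ) ^ s) = Real.exp (∑' k : ℕ, ts E s k) := by
  classical
  have h2 := flip_prod E hs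
  have h4 : HasSum (fun p : Nat.Primes => ts E s p) (∑' k : ℕ, ts E s k) := by
    refine (hasSum_subtype_iff_of_support_subset (s := {p : ℕ | p.Prime}) ?_).2 (ts_summable E hs).hasSum
    intro k hk
    by_contra hcon
    exact hk (if_neg hcon)
  have h5 := h4.rexp
  have h6 : (Real.exp ∘ fun p : Nat.Primes => ts E s p) =
      fun p : Nat.Primes => (1 - sg E p / ((p : ℕ) : ℝ) ^ s)⁻¹ := by
    funext p
    simp only [Function.comp]
    unfold ts
    rw [if_pos p.2, sg_prime E p.2, Real.exp_neg, Real.exp_log]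
    obtain ⟨h0, _, h3⟩ := small_pow hs p.2.two_le
    split_ifs
    · rw [neg_div]
      linarith
    · linarith
  rw [h6] at h5
  exact h2.unique h5

/-- the change of the logarithm of an Euler factor -/
noncomputable def gf (s : ℕ) (w : ℂ) : ℂ := Complex.log (1 + w ^ s) - Complex.log (1 - w ^ s)

/-- the series of the logarithms of the Euler factors -/
noncomputable def serF (s : ℕ) (hs : 2 ≤ s) : Ser where
  x := ∑' k : ℕ, te s k
  τ k := dz s k
  g := gf s
  gd := by
    filter_upwards [ball_mem_nhds (0 : ℂ) one_pos] with w hw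
    rw [mem_ball_zero_iff] at hw
    have h1 : ‖w ^ s‖ < 1 := by
      rw [norm_pow]
      exact pow_lt_one₀ (norm_nonneg _) hw (by omega)
    have h2 : 1 - w ^ s ∈ Complex.slitPlane := by
      have h3 := Complex.mem_slitPlane_of_norm_lt_one (z := -w ^ s) (by rwa [norm_neg])
      rwa [← sub_eq_add_neg] at h3
    have h4 : 1 + w ^ s ∈ Complex.slitPlane := Complex.mem_slitPlane_of_norm_lt_one h1
    have h5 : DifferentiableAt ℂ (fun w : ℂ => 1 + w ^ s) w := by fun_prop
    have h6 : DifferentiableAt ℂ (fun w : ℂ => 1 - w ^ s) w := by fun_prop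
    exact (h5.clog h4).sub (h6.clog h2)
  g0 := by
    unfold gf
    rw [zero_pow (by omega), sub_zero, add_zero, Complex.log_one, sub_zero]
  rep := by
    filter_upwards [eventually_ge_atTop 2] with k hk
    obtain ⟨h0, _, h3⟩ := small_pow hs hk
    unfold gf dz
    rw [Complex.ofReal_sub, Complex.ofReal_log (by linarith), Complex.ofReal_log (by linarith)]
    push_cast
    rw [one_div_pow]

lemma gf_lead {s : ℕ} (hs : 2 ≤ s) :
    (fun w : ℂ => gf s w - w ^ s * ((2 : ℝ) : ℂ)) =o[𝓝 0] fun w => w ^ s := by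
  have h1 := gz_lead hs
  have hlog : (fun u : ℂ => Complex.log (1 + u) - u) =o[𝓝 0] fun u => u := by
    have h2 : (fun u : ℂ => Complex.log (1 + u) - u) =O[𝓝 0] fun u : ℂ => u ^ 2 := by
      apply IsBigO.of_bound 1
      filter_upwards [ball_mem_nhds (0 : ℂ) (half_pos one_pos)] with u hu
      rw [mem_ball_zero_iff] at hu
      have h3 := Complex.norm_log_one_add_sub_self_le (z := u) (by linarith)
      have h5 : (1 - ‖u‖)⁻¹ ≤ 2 := by
        rw [inv_le_comm₀ (by linarith) (by norm_num)]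
        linarith
      rw [norm_pow]
      refine h3.trans ?_
      have h6 : ‖u‖ ^ 2 * (1 - ‖u‖)⁻¹ ≤ ‖u‖ ^ 2 * 2 := mul_le_mul_of_nonneg_left h5 (by positivity)
      linarith
    refine h2.trans_isLittleO ?_
    have h7 : (fun u : ℂ => u ^ 2) =o[𝓝 0] fun u : ℂ => u ^ 1 := isLittleO_pow_pow one_lt_two
    simpa using h7
  have h2 : Tendsto (fun w : ℂ => w ^ s) (𝓝 0) (𝓝 0) := by
    have h3 : Continuous fun w : ℂ => w ^ s := continuous_pow s
    have h4 := h3.tendsto 0
    rwa [zero_pow (by omega)] at h4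
  have h8 := (hlog.comp_tendsto h2).add h1
  refine h8.congr_left fun w => ?_
  simp only [Function.comp, gz, gf]
  push_cast
  ring

lemma linInd_F (t : ℕ) : LinInd fun j : Fin t => serF (j + 2) (Nat.le_add_left 2 _) :=
  linInd_of_lead (m := fun j => (j : ℕ) + 2) (a := fun _ => 2) (fun _ _ hij => Nat.add_lt_add_right hij 2)
    (fun _ => two_ne_zero) fun _ => gf_lead (Nat.le_add_left 2 _)

open Classical in
/-- the limit of the sums with changed primes -/
lemma limit_F {E : Set ℕ} (hE : ∀ p ∈ E, p.Prime) {s : ℕ} (hs : 2 ≤ s) :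
    Tendsto (fun N : ℕ => (serF s hs).x - ∑ k ∈ (range N).filter (· ∈ E), (serF s hs).τ k) atTop
      (𝓝 (∑' k : ℕ, ts E s k)) := by
  have h1 := dz_summable E hs
  have h2 : (∑' k : ℕ, ts E s k) = (∑' k, te s k) - ∑' k : ℕ, if k ∈ E ∧ k.Prime then dz s k else 0 := by
    rw [← (te_summable hs).tsum_sub h1]
    exact tsum_congr fun k => ts_eq E
  rw [h2]
  apply Tendsto.const_sub
  refine h1.hasSum.tendsto_sum_nat.congr fun N => ?_
  rw [sum_filter]
  refine sum_congr rfl fun k _ => ?_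
  by_cases h : k ∈ E
  · rw [if_pos ⟨h, hE k h⟩, if_pos h]
    rfl
  · rw [if_neg fun h' => h h'.1, if_neg h]

end Pool.Agent.H608.Ge
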