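import Pool.Agent.H608.Ge.AnaMain

/-!
# Euler's constant and `ζ(3)`
-/

set_option autoImplicit false

namespace Pool.Agent.H608.Ge

open Finset Filter Topology Metric Asymptotics

/-- the terms of the series of Euler's constant -/
noncomputable def tg (k : ℕ) : ℝ := 1 / k - Real.log (1 + 1 / k)

lemma tg_nonneg (k : ℕ) : 0 ≤ tg k := by
  unfold tg
  have h1 : (0 : ℝ) ≤ 1 / k := by positivity
  have h2 := Real.log_le_sub_one_of_pos (show (0 : ℝ) < 1 + 1 / k by linarith)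
  linarith

lemma tg_le (k : ℕ) : tg k ≤ 1 / k := by
  unfold tg
  have h1 : (0 : ℝ) ≤ 1 / k := by positivity
  have h2 := Real.log_nonneg (show (1 : ℝ) ≤ 1 + 1 / k by linarith)
  linarith

lemma sum_tg (N : ℕ) : ∑ i ∈ range N, tg (i + 1) = Real.eulerMascheroniSeq N := by
  induction N with
  | zero => simp [Real.eulerMascheroniSeq_zero]
  | succ N ih =>
    rw [sum_range_succ, ih]
    unfold Real.eulerMascheroniSeq tg
    rw [harmonic_succ]
    have h1 : (1 : ℝ) + 1 / ((N + 1 : ℕ) : ℝ) = ((N : ℝ) + 1 + 1) / ((N : ℝ) + 1) := by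
      push_cast
      field_simp
    rw [h1, Real.log_div (by positivity) (by positivity)]
    push_cast
    ring

lemma hasSum_tg : HasSum (fun i : ℕ => tg (i + 1)) Real.eulerMascheroniConstant := by
  rw [hasSum_iff_tendsto_nat_of_nonneg (fun i => tg_nonneg _)]
  simp only [sum_tg]
  exact Real.tendsto_eulerMascheroniSeq

/-- existence of a small disc -/
lemma exists_rho {V : Type*} [NormedAddCommGroup V] [NormedSpace ℂ V] (g : ℂ → V) (h0 : g 0 = 0)
    (hg : ContinuousAt g 0) (r : ℝ) (hr : 0 < r) : ∃ ρ : ℝ, 0 < ρ ∧ ρ ≤ 1 ∧ ∀ w ∈ ball (0 : ℂ) ρ, ‖g w‖ ≤ r / 4 := by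
  have h1 : ∀ᶠ w in 𝓝 (0 : ℂ), ‖g w‖ < r / 4 := by
    apply hg.norm.eventually_lt_const
    show ‖g 0‖ < r / 4
    rw [h0, norm_zero]
    positivity
  obtain ⟨ε, hε, h2⟩ := Metric.eventually_nhds_iff_ball.1 h1
  refine ⟨min ε 1, by positivity, min_le_right _ _, fun w hw => ?_⟩
  exact (h2 w (ball_subset_ball (min_le_left _ _) hw)).le

lemma log_diff {w : ℂ} (hw : w ∈ ball (0 : ℂ) 1) : DifferentiableAt ℂ (fun w => Complex.log (1 + w)) w := by
  rw [mem_ball_zero_iff] at hw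
  apply DifferentiableAt.clog
  · fun_prop
  · exact Complex.mem_slitPlane_of_norm_lt_one hw

/-- the first function -/
noncomputable def g2 (w : ℂ) : ℂ × ℂ := (w - Complex.log (1 + w), w ^ 3)

lemma g2_diff {w : ℂ} (hw : w ∈ ball (0 : ℂ) 1) : DifferentiableAt ℂ g2 w :=
  (differentiableAt_id.sub (log_diff hw)).prodMk (differentiableAt_id.pow 3)

lemma g2_zero : g2 0 = 0 := by
  unfold g2
  simp

lemma g2_little : (fun w => g2 w - w ^ 2 • (((1 / 2 : ℝ) : ℂ), (0 : ℂ))) =o[𝓝 0] fun w : ℂ => w ^ 2 := by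
  have h3 : (fun w : ℂ => w ^ 3) =o[𝓝 0] fun w : ℂ => w ^ 2 := by
    have h4 := isLittleO_pow_pow (𝕜 := ℂ) (show 2 < 3 by norm_num)
    exact h4
  have h1 : (fun w : ℂ => w - Complex.log (1 + w) - w ^ 2 / 2) =O[𝓝 0] fun w : ℂ => w ^ 3 := by
    apply IsBigO.of_bound 1
    filter_upwards [ball_mem_nhds (0 : ℂ) (show (0 : ℝ) < 1 / 2 by norm_num)] with w hw
    rw [mem_ball_zero_iff] at hw
    have h2 := Complex.norm_log_sub_logTaylor_le 2 (show ‖w‖ < 1 by linarith)
    have h4 : Complex.logTaylor (2 + 1) w = w - w ^ 2 / 2 := by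
      unfold Complex.logTaylor
      rw [sum_range_succ, sum_range_succ, sum_range_one]
      norm_num
      ring
    rw [h4] at h2
    have h5 : w - Complex.log (1 + w) - w ^ 2 / 2 = -(Complex.log (1 + w) - (w - w ^ 2 / 2)) := by ring
    rw [h5, norm_neg, norm_pow, one_mul]
    refine h2.trans ?_
    have h6 : (1 - ‖w‖)⁻¹ ≤ 2 := by
      rw [inv_le_comm₀ (by linarith) (by norm_num)]
      linarith
    have h7 : 0 ≤ ‖w‖ ^ (2 + 1) := by positivity
    calc ‖w‖ ^ (2 + 1) * (1 - ‖w‖)⁻¹ / ((2 : ℕ) + 1) ≤ ‖w‖ ^ (2 + 1) * 2 / ((2 : ℕ) + 1) := by gcongr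
      _ ≤ ‖w‖ ^ 3 := by
          have h8 : 0 ≤ ‖w‖ ^ 3 := by positivity
          push_cast
          rw [div_le_iff₀ (by norm_num)]
          have h9 : ‖w‖ ^ (2 + 1) = ‖w‖ ^ 3 := by norm_num
          rw [h9]
          linarith
  have h2 : (fun w => g2 w - w ^ 2 • (((1 / 2 : ℝ) : ℂ), (0 : ℂ))) =
      fun w : ℂ => (w - Complex.log (1 + w) - w ^ 2 / 2, w ^ 3) := by
    funext w
    unfold g2
    apply Prod.ext
    · simp only [Prod.fst_sub, Prod.smul_fst, smul_eq_mul]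
      push_cast
      ring
    · simp only [Prod.snd_sub, Prod.smul_snd, smul_eq_mul, mul_zero, sub_zero]
  rw [h2]
  exact (h1.trans_isLittleO h3).prod_left h3

lemma rep_tg (k : ℕ) (hk : 1 ≤ k) : ((tg k : ℝ) : ℂ) = 1 / (k : ℂ) - Complex.log (1 + 1 / (k : ℂ)) := by
  unfold tg
  have h1 : (0 : ℝ) ≤ 1 + 1 / k := by positivity
  rw [Complex.ofReal_sub, Complex.ofReal_log h1]
  push_cast
  rfl

lemma pow3_le (k : ℕ) (hk : 1 ≤ k) : (1 / (k : ℝ)) ^ 3 ≤ 1 / k := by
  have h1 : (1 : ℝ) ≤ k := by exact_mod_cast hk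
  have h2 : (1 : ℝ) / k ≤ 1 := by
    rw [div_le_one (by linarith)]
    exact h1
  exact pow_le_of_le_one (by positivity) h2 (by norm_num)

/-- the two constants -/
theorem exists_two (r : ℝ) (hr : 0 < r) (y : ℝ) : ∃ (M₀ : ℕ) (T : Two M₀), 1 ≤ M₀ ∧ T.S₂.r = r ∧
    T.x = Real.eulerMascheroniConstant ∧ T.y = y ∧ (∀ k, T.τ₀ k = tg k) ∧
    ∀ k, T.τ₁ k = (1 / (k : ℝ)) ^ 3 := by
  obtain ⟨M₀, hM₀⟩ := exists_nat_ge (max 1 (8 / r))
  have hM1 : (1 : ℝ) ≤ M₀ := (le_max_left _ _).trans hM₀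
  have hM8 : 8 / r ≤ M₀ := (le_max_right _ _).trans hM₀
  have hM1' : 1 ≤ M₀ := by exact_mod_cast hM1
  have hcr : 1 * (2 / (M₀ : ℝ)) ≤ r / 4 := by
    rw [one_mul, div_le_div_iff₀ (by linarith) (by norm_num)]
    rw [div_le_iff₀ hr] at hM8
    linarith
  obtain ⟨ρ₂, hρ2, hρ21, hρ2b⟩ := exists_rho g2 g2_zero
    (g2_diff (mem_ball_self one_pos)).continuousAt r hr
  obtain ⟨ρ₁, hρ1, hρ11, hρ1b⟩ := exists_rho (fun w : ℂ => w ^ 3) (by norm_num) (by fun_prop) r hr
  refine ⟨M₀, {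
    x := Real.eulerMascheroniConstant
    y := y
    τ₀ := tg
    τ₁ := fun k => (1 / (k : ℝ)) ^ 3
    S₂ := {
      x := ((Real.eulerMascheroniConstant : ℂ), (y : ℂ))
      τ := fun k => ((tg k : ℂ), (((1 / (k : ℝ)) ^ 3 : ℝ) : ℂ))
      g := g2
      m := 2
      v := (((1 / 2 : ℝ) : ℂ), (0 : ℂ))
      m1 := by norm_num
      ρ := ρ₂
      r := r
      ρ0 := hρ2
      r0 := hr
      gd := fun w hw => (g2_diff (ball_subset_ball hρ21 hw)).differentiableWithinAt
      g0 := g2_zero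
      gb := hρ2b
      gl := g2_little
      rep := ⟨1, fun k hk => by
        unfold g2
        rw [rep_tg k hk]
        push_cast
        rfl⟩
      c := 1
      c0 := zero_le_one
      tb := fun k hk => by
        have hk1 : 1 ≤ k := hM1'.trans hk
        rw [one_mul, Prod.norm_def]
        apply max_le
        · rw [Complex.norm_real, Real.norm_eq_abs, abs_of_nonneg (tg_nonneg k)]
          exact tg_le k
        · rw [Complex.norm_real, Real.norm_eq_abs, abs_of_nonneg (by positivity)]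
          exact pow3_le k hk1
      cr := hcr }
    S₁ := {
      x := (y : ℂ)
      τ := fun k => (((1 / (k : ℝ)) ^ 3 : ℝ) : ℂ)
      g := fun w => w ^ 3
      m := 3
      v := ((1 : ℝ) : ℂ)
      m1 := by norm_num
      ρ := ρ₁
      r := r
      ρ0 := hρ1
      r0 := hr
      gd := by fun_prop
      g0 := by norm_num
      gb := hρ1b
      gl := by
        have h1 : (fun w : ℂ => w ^ 3 - w ^ 3 • ((1 : ℝ) : ℂ)) = fun _ => 0 := by
          funext w
          simp
        rw [h1]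
        exact isLittleO_zero _ _
      rep := ⟨1, fun k hk => by
        push_cast
        rfl⟩
      c := 1
      c0 := zero_le_one
      tb := fun k hk => by
        have hk1 : 1 ≤ k := hM1'.trans hk
        rw [one_mul, Complex.norm_real, Real.norm_eq_abs, abs_of_nonneg (by positivity)]
        exact pow3_le k hk1
      cr := hcr }
    v₀ := 1 / 2
    v₁ := 1
    hv₀ := by norm_num
    hv₁ := by norm_num
    hx := rfl
    hy := rfl
    hτ := fun k => rfl
    hτ₁ := fun k => rfl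
    hvv := rfl
    hvv₁ := rfl
    hr := rfl }, hM1', rfl, rfl, rfl, fun k => rfl, fun k => rfl⟩

end Pool.Agent.H608.Ge
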