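import Mathlib

/-!
# Functions of rapidly increasing growth are algebraically independent
-/

set_option autoImplicit false

namespace Pool.Agent.H608.Ge

open Finset Filter Topology

/-- a scale of functions: `2`, and each function grows faster than all powers of the one before -/
structure Scale where
  h : ℕ → ℝ → ℝ
  h0 : ∀ x, h 0 x = 2
  one : ∀ n, ∀ᶠ x in atTop, 1 ≤ h n x
  grow : ∀ (n K : ℕ) (c : ℝ), ∀ᶠ x in atTop, c * h n x ^ K ≤ h (n + 1) x

variable (S : Scale)

/-- the vector of the functions, the largest first -/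
noncomputable def Scale.vec : (n : ℕ) → ℝ → Fin n → ℝ
  | 0, _ => fun i => i.elim0
  | n + 1, x => Fin.cons (S.h (n + 1) x) (Scale.vec n x)

lemma Scale.vec_eq (n : ℕ) (x : ℝ) (i : Fin n) : S.vec n x i = S.h ((i.rev : ℕ) + 1) x := by
  induction n with
  | zero => exact i.elim0
  | succ n ih =>
    unfold Scale.vec
    refine Fin.cases ?_ (fun i => ?_) i
    · rw [Fin.cons_zero, Fin.rev_zero]
      rfl
    · rw [Fin.cons_succ, ih, Fin.rev_succ]
      rfl

theorem Scale.growth (n : ℕ) : ∀ Q : MvPolynomial (Fin n) ℝ,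
    (∃ K : ℕ, ∀ᶠ x in atTop, |MvPolynomial.eval (S.vec n x) Q| ≤ S.h n x ^ K) ∧
    (Q ≠ 0 → ∃ K : ℕ, ∀ᶠ x in atTop, 1 ≤ |MvPolynomial.eval (S.vec n x) Q| * S.h n x ^ K) := by
  induction n with
  | zero =>
    intro Q
    obtain ⟨c, hc⟩ : ∃ c, Q = MvPolynomial.C c := ⟨_, MvPolynomial.eq_C_of_isEmpty Q⟩
    constructor
    · obtain ⟨K, hK⟩ := pow_unbounded_of_one_lt |c| (show (1 : ℝ) < 2 by norm_num)
      refine ⟨K, Eventually.of_forall fun x => ?_⟩
      rw [hc, MvPolynomial.eval_C, S.h0]
      exact hK.le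
    · intro hQ
      have hc0 : c ≠ 0 := by
        intro h0
        apply hQ
        rw [hc, h0, MvPolynomial.C_0]
      have hc1 : 0 < |c| := abs_pos.2 hc0
      obtain ⟨K, hK⟩ := pow_unbounded_of_one_lt (1 / |c|) (show (1 : ℝ) < 2 by norm_num)
      refine ⟨K, Eventually.of_forall fun x => ?_⟩
      rw [hc, MvPolynomial.eval_C]
      rw [div_lt_iff₀ hc1] at hK
      have : S.h 0 x = 2 := S.h0 x
      rw [this]
      linarith
  | succ n ih =>
    intro Q
    obtain ⟨p, hp⟩ : ∃ p, p = MvPolynomial.finSuccEquiv ℝ n Q := ⟨_, rfl⟩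
    obtain ⟨d, hd⟩ : ∃ d, d = p.natDegree := ⟨_, rfl⟩
    have hev : ∀ x, MvPolynomial.eval (S.vec (n + 1) x) Q =
        ∑ j ∈ range (d + 1), MvPolynomial.eval (S.vec n x) (p.coeff j) * S.h (n + 1) x ^ j := by
      intro x
      have h0 : S.vec (n + 1) x = Fin.cons (S.h (n + 1) x) (S.vec n x) := rfl
      rw [h0, MvPolynomial.eval_eq_eval_mv_eval', ← hp, Polynomial.eval_map, Polynomial.eval₂_eq_sum_range, ← hd]
    choose K hK using fun j => (ih (p.coeff j)).1
    obtain ⟨K', hK'⟩ : ∃ K', K' = ∑ j ∈ range (d + 1), K j := ⟨_, rfl⟩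
    have hub : ∀ᶠ x in atTop, ∀ j ∈ range (d + 1),
        |MvPolynomial.eval (S.vec n x) (p.coeff j)| ≤ S.h n x ^ K' := by
      rw [eventually_all_finset]
      intro j hj
      filter_upwards [hK j, S.one n] with x hx hx1
      refine hx.trans (pow_le_pow_right₀ hx1 ?_)
      rw [hK']
      exact single_le_sum (fun _ _ => Nat.zero_le _) hj
    constructor
    · refine ⟨d + 2, ?_⟩
      filter_upwards [hub, S.grow n K' 1, S.grow n 0 (d + 1), S.one (n + 1)] with x h1 h2 h3 h4
      rw [pow_zero, mul_one] at h3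
      rw [one_mul] at h2
      rw [hev]
      have hy0 : 0 ≤ S.h (n + 1) x := by linarith
      calc |∑ j ∈ range (d + 1), MvPolynomial.eval (S.vec n x) (p.coeff j) * S.h (n + 1) x ^ j| ≤
            ∑ j ∈ range (d + 1), S.h (n + 1) x ^ (d + 1) := by
              refine (abs_sum_le_sum_abs _ _).trans (sum_le_sum fun j hj => ?_)
              rw [abs_mul, abs_of_nonneg (pow_nonneg hy0 j), pow_succ' (S.h (n + 1) x) d]
              apply mul_le_mul ((h1 j hj).trans h2) _ (by positivity) hy0
              exact pow_le_pow_right₀ h4 (by rw [mem_range] at hj; omega)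
        _ = ((d : ℝ) + 1) * S.h (n + 1) x ^ (d + 1) := by
            rw [sum_const, card_range, nsmul_eq_mul]
            push_cast
            rfl
        _ ≤ S.h (n + 1) x * S.h (n + 1) x ^ (d + 1) := by
            apply mul_le_mul_of_nonneg_right h3 (by positivity)
        _ = S.h (n + 1) x ^ (d + 2) := by ring
    · intro hQ
      have hp0 : p ≠ 0 := by
        rw [hp]
        intro h0
        apply hQ
        exact (MvPolynomial.finSuccEquiv ℝ n).injective (by rw [h0, map_zero])
      have hlead : p.coeff d ≠ 0 := by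
        rw [hd]
        exact Polynomial.leadingCoeff_ne_zero.2 hp0
      obtain ⟨L, hL⟩ := (ih (p.coeff d)).2 hlead
      refine ⟨1, ?_⟩
      filter_upwards [hub, hL, S.grow n (L + K') (d + 1), S.one n, S.one (n + 1)] with x h1 h2 h3 h4 h5
      obtain ⟨y, hy⟩ : ∃ y, y = S.h (n + 1) x := ⟨_, rfl⟩
      obtain ⟨g, hg⟩ : ∃ g, g = S.h n x := ⟨_, rfl⟩
      rw [hev, sum_range_succ, pow_one]
      rw [← hy] at h3 h5 ⊢
      rw [← hg] at h1 h2 h3 h4
      have hy0 : 0 < y := by linarith
      have hg0 : 0 < g := by linarith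
      obtain ⟨s, hs⟩ : ∃ s, s = ∑ j ∈ range d, MvPolynomial.eval (S.vec n x) (p.coeff j) * y ^ j := ⟨_, rfl⟩
      obtain ⟨q, hq⟩ : ∃ q, q = MvPolynomial.eval (S.vec n x) (p.coeff d) := ⟨_, rfl⟩
      rw [← hq] at h2
      rw [← hs, ← hq]
      have hs1 : |s| * y ≤ d * g ^ K' * y ^ d := by
        calc |s| * y ≤ (∑ j ∈ range d, |MvPolynomial.eval (S.vec n x) (p.coeff j) * y ^ j|) * y := by
              rw [hs]
              exact mul_le_mul_of_nonneg_right (abs_sum_le_sum_abs _ _) hy0.le
          _ = ∑ j ∈ range d, |MvPolynomial.eval (S.vec n x) (p.coeff j) * y ^ j| * y := by rw [sum_mul]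
          _ ≤ ∑ j ∈ range d, g ^ K' * y ^ d := by
              refine sum_le_sum fun j hj => ?_
              rw [mem_range] at hj
              rw [abs_mul, abs_of_nonneg (pow_nonneg hy0.le j), mul_assoc, ← pow_succ]
              apply mul_le_mul (h1 j (by rw [mem_range]; omega)) _ (by positivity) (by positivity)
              exact pow_le_pow_right₀ h5 (by omega)
          _ = d * g ^ K' * y ^ d := by
              rw [sum_const, card_range, nsmul_eq_mul]
              ring
      have h6 : |q| * y ^ d - |s| ≤ |s + q * y ^ d| := by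
        have h7 := abs_add_le (s + q * y ^ d) (-s)
        have h8 : s + q * y ^ d + -s = q * y ^ d := by ring
        rw [h8, abs_neg, abs_mul, abs_of_nonneg (pow_nonneg hy0.le d)] at h7
        linarith
      have hgL : 0 < g ^ L := by positivity
      have h9 : y ^ (d + 1) ≤ |q| * g ^ L * y ^ (d + 1) := le_mul_of_one_le_left (by positivity) h2
      have h10 : g ^ L * (|s| * y) ≤ d * g ^ (L + K') * y ^ d := by
        calc g ^ L * (|s| * y) ≤ g ^ L * (d * g ^ K' * y ^ d) := mul_le_mul_of_nonneg_left hs1 hgL.le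
          _ = d * g ^ (L + K') * y ^ d := by rw [pow_add]; ring
      have h11 : ((d : ℝ) + 1) * g ^ (L + K') * y ^ d ≤ y ^ (d + 1) := by
        rw [pow_succ' y d]
        exact mul_le_mul_of_nonneg_right h3 (by positivity)
      have h12 : g ^ L * 1 ≤ g ^ L * (|s + q * y ^ d| * y) := by
        have e1 : g ^ L ≤ g ^ (L + K') * y ^ d := by
          calc g ^ L = g ^ L * 1 := by ring
            _ ≤ g ^ (L + K') * y ^ d := by
                apply mul_le_mul (pow_le_pow_right₀ h4 (by omega)) (one_le_pow₀ h5) zero_le_one (by positivity)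
        have e2 : g ^ L * ((|q| * y ^ d - |s|) * y) ≤ g ^ L * (|s + q * y ^ d| * y) := by
          apply mul_le_mul_of_nonneg_left _ hgL.le
          exact mul_le_mul_of_nonneg_right h6 hy0.le
        have e3 : g ^ L * ((|q| * y ^ d - |s|) * y) = |q| * g ^ L * y ^ (d + 1) - g ^ L * (|s| * y) := by ring
        have e4 : ((d : ℝ) + 1) * g ^ (L + K') * y ^ d = d * g ^ (L + K') * y ^ d + g ^ (L + K') * y ^ d := by ring
        linarith
      exact le_of_mul_le_mul_left h12 hgL

/-- a nonzero polynomial in the functions does not vanish for large `x` -/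
theorem Scale.eval_ne_zero (P : MvPolynomial ℕ ℝ) (hP : P ≠ 0) :
    ∀ᶠ x in atTop, MvPolynomial.eval (fun i => S.h (i + 1) x) P ≠ 0 := by
  obtain ⟨t, ht⟩ : ∃ t : ℕ, (P.vars : Set ℕ) ⊆ Set.range (Fin.val : Fin t → ℕ) := by
    refine ⟨P.vars.sup id + 1, fun i hi => ⟨⟨i, ?_⟩, rfl⟩⟩
    have : i ≤ P.vars.sup id := le_sup (f := id) (mem_coe.1 hi)
    omega
  obtain ⟨Q, hQ⟩ := MvPolynomial.exists_rename_eq_of_vars_subset_range P Fin.val Fin.val_injective ht
  have hQ0 : MvPolynomial.rename Fin.rev Q ≠ 0 := by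
    intro h0
    apply hP
    have : Q = 0 := by
      apply MvPolynomial.rename_injective Fin.rev Fin.rev_injective
      rw [h0, map_zero]
    rw [← hQ, this, map_zero]
  obtain ⟨K, hK⟩ := (S.growth t _).2 hQ0
  filter_upwards [hK] with x hx h0
  have h1 : MvPolynomial.eval (S.vec t x) (MvPolynomial.rename Fin.rev Q) =
      MvPolynomial.eval (fun i => S.h (i + 1) x) P := by
    rw [← hQ, MvPolynomial.eval_rename, MvPolynomial.eval_rename]
    congr 2
    funext i
    simp only [Function.comp]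
    rw [S.vec_eq, Fin.rev_rev]
  rw [h1, h0, abs_zero, zero_mul] at hx
  linarith

end Pool.Agent.H608.Ge
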