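import Pool.Agent.H608.Ge.Pol

/-!
# Processes from analytic functions
-/

set_option autoImplicit false

namespace Pool.Agent.H608.Ge

open Finset Filter Topology Metric Asymptotics

/-- the Taylor coefficients at `0` -/
noncomputable def tc (h : ℂ → ℂ) (n : ℕ) : ℂ := (n.factorial : ℂ)⁻¹ * iteratedDeriv n h 0

lemma tc_bound {h : ℂ → ℂ} {ρ B : ℝ} (hρ : 0 < ρ) (hd : DifferentiableOn ℂ h (ball 0 ρ))
    (hB : ∀ w ∈ ball (0 : ℂ) ρ, ‖h w‖ ≤ B) (n : ℕ) : ‖tc h n‖ ≤ B * (2 / ρ) ^ n := by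
  have hsub : closedBall (0 : ℂ) (ρ / 2) ⊆ ball 0 ρ := closedBall_subset_ball (by linarith)
  have h1 : DiffContOnCl ℂ h (ball 0 (ρ / 2)) := by
    apply DifferentiableOn.diffContOnCl
    rw [closure_ball _ (by positivity : ρ / 2 ≠ 0)]
    exact hd.mono hsub
  have h2 := Complex.norm_iteratedDeriv_le_of_forall_mem_sphere_norm_le n (by positivity : 0 < ρ / 2) h1
    (fun z hz => hB z (hsub (sphere_subset_closedBall hz)))
  unfold tc
  rw [norm_mul, norm_inv, Complex.norm_natCast]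
  have h3 : (0 : ℝ) < n.factorial := by exact_mod_cast Nat.factorial_pos n
  rw [inv_mul_le_iff₀ h3]
  refine h2.trans (le_of_eq ?_)
  rw [mul_div_assoc]
  congr 1
  rw [div_eq_mul_inv, ← inv_pow, inv_div]

lemma tc_hasSum {h : ℂ → ℂ} {ρ : ℝ} (hd : DifferentiableOn ℂ h (ball 0 ρ)) {w : ℂ}
    (hw : w ∈ ball (0 : ℂ) ρ) : HasSum (fun n => tc h n * w ^ n) (h w) := by
  have h1 := Complex.hasSum_taylorSeries_on_ball hd hw
  refine h1.congr_fun fun n => ?_
  unfold tc
  rw [sub_zero, smul_eq_mul, smul_eq_mul]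
  ring

lemma tc_zero (h : ℂ → ℂ) : tc h 0 = h 0 := by
  unfold tc
  simp

/-- the coefficients of low order from the asymptotic behaviour at the points `1 / k` -/
lemma coeff_zero_of_little {c : ℕ → ℂ} {K D : ℝ} (hK : 0 ≤ K) (hD : 0 ≤ D) (hc : ∀ n, ‖c n‖ ≤ K * D ^ n)
    (m : ℕ) (φ : ℕ → ℂ) (M : ℕ) (hφ : ∀ k, M ≤ k → HasSum (fun n => c n * (1 / (k : ℂ)) ^ n) (φ k))
    (h : Tendsto (fun k : ℕ => (k : ℂ) ^ m * φ k) atTop (𝓝 0)) : ∀ n, n ≤ m → c n = 0 := by
  intro n
  induction n using Nat.strong_induction_on with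
  | _ n ih =>
    intro hn
    -- `k ^ n * φ k → c n`
    have h1 : Tendsto (fun k : ℕ => (k : ℂ) ^ n * φ k) atTop (𝓝 (c n)) := by
      rw [tendsto_iff_norm_sub_tendsto_zero]
      have hlim : Tendsto (fun k : ℕ => 2 * K * D ^ (n + 1) * (1 / (k : ℝ))) atTop
          (𝓝 (2 * K * D ^ (n + 1) * 0)) := tendsto_one_div_atTop_nhds_zero_nat.const_mul _
      rw [mul_zero] at hlim
      refine squeeze_zero' (Eventually.of_forall fun k => norm_nonneg _) ?_ hlim
      filter_upwards [eventually_ge_atTop (max M (max 1 ⌈2 * D⌉₊))] with k hk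
      have hk1 : M ≤ k := (le_max_left _ _).trans hk
      have hk2 : 1 ≤ k := ((le_max_left _ _).trans (le_max_right _ _)).trans hk
      have hk3 : ⌈2 * D⌉₊ ≤ k := ((le_max_right _ _).trans (le_max_right _ _)).trans hk
      have hk4 : 2 * D ≤ k := (Nat.le_ceil _).trans (by exact_mod_cast hk3)
      have hk0 : (0 : ℝ) < k := by exact_mod_cast hk2
      have hkc : (k : ℂ) ≠ 0 := by exact_mod_cast hk0.ne'
      -- the tail
      have e1 := (hasSum_nat_add_iff' (n + 1)).2 (hφ k hk1)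
      have e2 : ∑ i ∈ range (n + 1), c i * (1 / (k : ℂ)) ^ i = c n * (1 / (k : ℂ)) ^ n := by
        rw [sum_range_succ, sum_eq_zero, zero_add]
        intro i hi
        rw [mem_range] at hi
        rw [ih i hi (by omega), zero_mul]
      rw [e2] at e1
      have e3 : HasSum (fun i => K * (D / k) ^ (n + 1) * (D / k) ^ i) (K * (D / k) ^ (n + 1) * (1 - D / k)⁻¹) :=
        (hasSum_geometric_of_lt_one (by positivity) (by
          rw [div_lt_one hk0]; linarith)).mul_left _
      have e4 := tsum_of_norm_bounded e3 (f := fun i => c (i + (n + 1)) * (1 / (k : ℂ)) ^ (i + (n + 1)))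
        (fun i => by
          rw [norm_mul, norm_pow, norm_div, norm_one, Complex.norm_natCast]
          calc ‖c (i + (n + 1))‖ * (1 / (k : ℝ)) ^ (i + (n + 1)) ≤
                (K * D ^ (i + (n + 1))) * (1 / (k : ℝ)) ^ (i + (n + 1)) := by
                  gcongr
                  exact hc _
            _ = _ := by
                rw [div_pow, div_pow, div_pow, one_pow, pow_add D, pow_add (k : ℝ)]
                field_simp)
      rw [e1.tsum_eq] at e4
      have e5 : (k : ℂ) ^ n * φ k - c n = (k : ℂ) ^ n * (φ k - c n * (1 / (k : ℂ)) ^ n) := by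
        rw [mul_sub, one_div, inv_pow]
        congr 1
        field_simp
      rw [e5, norm_mul, norm_pow, Complex.norm_natCast]
      have e6 : (1 - D / k)⁻¹ ≤ 2 := by
        have : D / k ≤ 1 / 2 := by
          rw [div_le_iff₀ hk0]; linarith
        rw [inv_le_comm₀ (by linarith) (by norm_num)]
        linarith
      calc (k : ℝ) ^ n * ‖φ k - c n * (1 / (k : ℂ)) ^ n‖ ≤
            (k : ℝ) ^ n * (K * (D / k) ^ (n + 1) * 2) := by
              apply mul_le_mul_of_nonneg_left _ (by positivity)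
              refine e4.trans ?_
              apply mul_le_mul_of_nonneg_left e6
              positivity
        _ = 2 * K * D ^ (n + 1) * (1 / (k : ℝ)) := by
            rw [div_pow, pow_succ (k : ℝ) n]
            field_simp
    have h2 : Tendsto (fun k : ℕ => (k : ℂ) ^ n * φ k) atTop (𝓝 0) := by
      rw [tendsto_zero_iff_norm_tendsto_zero] at h ⊢
      refine squeeze_zero' (Eventually.of_forall fun k => norm_nonneg _) ?_ h
      filter_upwards [eventually_ge_atTop 1] with k hk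
      have hk1 : (1 : ℝ) ≤ k := by exact_mod_cast hk
      rw [norm_mul, norm_mul, norm_pow, norm_pow, Complex.norm_natCast]
      gcongr
    exact tendsto_nhds_unique h1 h2

/-- a system with values in a vector space -/
structure VSys (V : Type*) [NormedAddCommGroup V] [NormedSpace ℂ V] (M₀ : ℕ) where
  x : V
  τ : ℕ → V
  g : ℂ → V
  m : ℕ
  v : V
  m1 : 1 ≤ m
  ρ : ℝ
  r : ℝ
  ρ0 : 0 < ρ
  r0 : 0 < r
  gd : DifferentiableOn ℂ g (ball 0 ρ)
  g0 : g 0 = 0
  gb : ∀ w ∈ ball (0 : ℂ) ρ, ‖g w‖ ≤ r / 4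
  gl : (fun w => g w - w ^ m • v) =o[𝓝 0] fun w => w ^ m
  rep : ∃ M : ℕ, ∀ k, M ≤ k → τ k = g (1 / (k : ℂ))
  c : ℝ
  c0 : 0 ≤ c
  tb : ∀ k, M₀ ≤ k → ‖τ k‖ ≤ c * (1 / k)
  cr : c * (2 / M₀) ≤ r / 4

namespace VSys

variable {V : Type*} [NormedAddCommGroup V] [NormedSpace ℂ V] {M₀ : ℕ} (S : VSys V M₀)

/-- the constants without the places of `F` -/
noncomputable def pt (F : Finset ℕ) : V := S.x - ∑ k ∈ F, S.τ k

lemma pt_insert (F : Finset ℕ) (k : ℕ) (hk : k ∉ F) : S.pt (insert k F) = S.pt F - S.τ k := by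
  unfold pt
  rw [sum_insert hk]
  abel

lemma pt_mem (F : Finset ℕ) (hF : Small M₀ F) : ‖S.pt F - S.x‖ ≤ S.r / 4 := by
  unfold pt
  rw [sub_sub_cancel_left, norm_neg]
  refine (norm_sum_le _ _).trans ?_
  calc ∑ k ∈ F, ‖S.τ k‖ ≤ ∑ k ∈ F, S.c * (1 / (k : ℝ)) := sum_le_sum fun k hk => S.tb k (hF.1 k hk)
    _ = S.c * ∑ k ∈ F, (1 : ℝ) / k := by rw [mul_sum]
    _ ≤ S.c * (2 / M₀) := mul_le_mul_of_nonneg_left hF.2 S.c0
    _ ≤ _ := S.cr

theorem exists_proc [ProperSpace V] (f : V → ℂ) (hf : AnalyticOnNhd ℂ f (ball S.x S.r)) :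
    ∃ P : GProc M₀, (∀ F, P.val F = (f (S.pt F)).re) ∧
      ∀ F, Small M₀ F → P.b F 0 = -(fderiv ℂ f (S.pt F) S.v).re := by
  have hr := S.r0
  have hρ := S.ρ0
  have hm := S.m1
  obtain ⟨M, hM⟩ := S.rep
  -- bounds on the compact ball
  have hcomp : IsCompact (closedBall S.x (3 * S.r / 4)) := isCompact_closedBall _ _
  have hsub : closedBall S.x (3 * S.r / 4) ⊆ ball S.x S.r := closedBall_subset_ball (by linarith)
  obtain ⟨B, hB⟩ := hcomp.exists_bound_of_continuousOn (hf.continuousOn.mono hsub)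
  have hφ : AnalyticOnNhd ℂ (fun z => fderiv ℂ f z S.v) (ball S.x S.r) :=
    (ContinuousLinearMap.apply ℂ ℂ S.v).comp_analyticOnNhd hf.fderiv
  have hφ' : ContinuousOn (fderiv ℂ fun z => fderiv ℂ f z S.v) (closedBall S.x (3 * S.r / 4)) :=
    hφ.fderiv.continuousOn.mono hsub
  obtain ⟨L, hL⟩ := hcomp.exists_bound_of_continuousOn hφ'
  have hBn : 0 ≤ B := (norm_nonneg _).trans (hB S.x (mem_closedBall_self (by positivity)))
  have hLn : 0 ≤ L := (norm_nonneg _).trans (hL S.x (mem_closedBall_self (by positivity)))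
  have hnear : ∀ F, Small M₀ F → ‖S.pt F - S.x‖ ≤ S.r / 2 := fun F hF => by
    have := S.pt_mem F hF
    linarith
  have hmem : ∀ F, ‖S.pt F - S.x‖ ≤ S.r / 2 → S.pt F ∈ closedBall S.x (3 * S.r / 4) := fun F hF => by
    rw [mem_closedBall_iff_norm]
    linarith
  have hmemg : ∀ F, ‖S.pt F - S.x‖ ≤ S.r / 2 → ∀ w ∈ ball (0 : ℂ) S.ρ,
      S.pt F - S.g w ∈ closedBall S.x (3 * S.r / 4) := by
    intro F hF w hw
    rw [mem_closedBall_iff_norm]
    have h2 := S.gb w hw
    calc ‖S.pt F - S.g w - S.x‖ = ‖(S.pt F - S.x) - S.g w‖ := by congr 1; abel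
      _ ≤ ‖S.pt F - S.x‖ + ‖S.g w‖ := norm_sub_le _ _
      _ ≤ _ := by linarith
  obtain ⟨h, hh⟩ : ∃ h : Finset ℕ → ℂ → ℂ, h = fun F w => f (S.pt F - S.g w) := ⟨_, rfl⟩
  have hhd : ∀ F, ‖S.pt F - S.x‖ ≤ S.r / 2 → DifferentiableOn ℂ (h F) (ball 0 S.ρ) := by
    intro F hF
    rw [hh]
    apply hf.differentiableOn.comp ((differentiableOn_const _).sub S.gd)
    intro w hw
    exact hsub (hmemg F hF w hw)
  have hhB : ∀ F, ‖S.pt F - S.x‖ ≤ S.r / 2 → ∀ w ∈ ball (0 : ℂ) S.ρ, ‖h F w‖ ≤ B := by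
    intro F hF w hw
    rw [hh]
    exact hB _ (hmemg F hF w hw)
  have hbd := fun F hF n => tc_bound hρ (hhd F hF) (hhB F hF) n
  have hball : ∀ k : ℕ, 1 / S.ρ < k → 1 / (k : ℂ) ∈ ball (0 : ℂ) S.ρ := by
    intro k hk
    have hk0 : (0 : ℝ) < k := lt_trans (by positivity) hk
    rw [mem_ball_zero_iff, norm_div, norm_one, Complex.norm_natCast, one_div, inv_lt_comm₀ hk0 hρ,
      ← one_div]
    exact hk
  -- the coefficients of low order
  have hlow : ∀ F, ‖S.pt F - S.x‖ ≤ S.r / 2 → (∀ n, 1 ≤ n → n < S.m → tc (h F) n = 0) ∧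
      tc (h F) S.m = -(fderiv ℂ f (S.pt F) S.v) := by
    intro F hF
    obtain ⟨A, hA⟩ : ∃ A : ℂ, A = fderiv ℂ f (S.pt F) S.v := ⟨_, rfl⟩
    -- little-o
    have o1 : S.g =O[𝓝 0] fun w : ℂ => w ^ S.m := by
      have h1 : (fun w : ℂ => w ^ S.m • S.v) =O[𝓝 0] fun w : ℂ => w ^ S.m := by
        apply IsBigO.of_bound ‖S.v‖
        filter_upwards with w
        rw [norm_smul, mul_comm]
      refine (S.gl.isBigO.add h1).congr_left fun w => ?_
      rw [sub_add_cancel]
    have hdf : HasFDerivAt f (fderiv ℂ f (S.pt F)) (S.pt F) := by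
      apply DifferentiableAt.hasFDerivAt
      apply (hf _ _).differentiableAt
      exact hsub (hmem F hF)
    have o2 : (fun w => f (S.pt F - S.g w) - f (S.pt F) - fderiv ℂ f (S.pt F) (-S.g w)) =o[𝓝 0]
        fun w : ℂ => w ^ S.m := by
      have h1 := hasFDerivAt_iff_isLittleO_nhds_zero.1 hdf
      have h2 : Tendsto (fun w => -S.g w) (𝓝 0) (𝓝 0) := by
        have h3 : ContinuousAt S.g 0 :=
          (S.gd.differentiableAt (isOpen_ball.mem_nhds (mem_ball_self hρ))).continuousAt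
        have h4 : Tendsto (fun w => -S.g w) (𝓝 0) (𝓝 (-S.g 0)) := h3.neg.tendsto
        rw [S.g0, neg_zero] at h4
        exact h4
      have h3 := h1.comp_tendsto h2
      have h4 : (fun w => -S.g w) =O[𝓝 0] fun w : ℂ => w ^ S.m := o1.neg_left
      refine (h3.trans_isBigO h4).congr_left fun w => ?_
      rw [sub_eq_add_neg (S.pt F)]
      rfl
    have o3 : (fun w => fderiv ℂ f (S.pt F) (-S.g w) + w ^ S.m * A) =o[𝓝 0] fun w : ℂ => w ^ S.m := by
      have h1 := ((fderiv ℂ f (S.pt F)).isBigO_comp (fun w => S.g w - w ^ S.m • S.v) (𝓝 0)).trans_isLittleO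
        S.gl
      refine h1.neg_left.congr_left fun w => ?_
      rw [map_sub, map_neg, map_smul, smul_eq_mul, hA]
      ring
    have o4 : (fun w => h F w - f (S.pt F) + w ^ S.m * A) =o[𝓝 0] fun w : ℂ => w ^ S.m := by
      refine (o2.add o3).congr_left fun w => ?_
      rw [hh]
      ring
    -- the modified coefficients
    obtain ⟨c, hc⟩ : ∃ c : ℕ → ℂ, c = fun n => if n = 0 then 0 else if n = S.m then tc (h F) n + A
      else tc (h F) n := ⟨_, rfl⟩
    have hc0 : c 0 = 0 := by rw [hc]; simp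
    have hcm : c S.m = tc (h F) S.m + A := by
      rw [hc]
      have : S.m ≠ 0 := by omega
      simp [this]
    have hcn : ∀ n, n ≠ 0 → n ≠ S.m → c n = tc (h F) n := by
      intro n h1 h2
      rw [hc]
      simp [h1, h2]
    have hK : 0 ≤ B + ‖A‖ := by positivity
    have hD1 : (1 : ℝ) ≤ max 1 (2 / S.ρ) := le_max_left _ _
    have hcb : ∀ n, ‖c n‖ ≤ (B + ‖A‖) * (max 1 (2 / S.ρ)) ^ n := by
      intro n
      have h1 : ‖tc (h F) n‖ ≤ B * (max 1 (2 / S.ρ)) ^ n := by
        refine (hbd F hF n).trans ?_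
        gcongr
        exact le_max_right _ _
      have h2 : ‖A‖ ≤ ‖A‖ * (max 1 (2 / S.ρ)) ^ n := le_mul_of_one_le_right (norm_nonneg _) (one_le_pow₀ hD1)
      by_cases hn0 : n = 0
      · rw [hn0, hc0, norm_zero]; positivity
      by_cases hnm : n = S.m
      · rw [hnm, hcm]
        rw [hnm] at h1 h2
        refine (norm_add_le _ _).trans ?_
        linarith
      · rw [hcn n hn0 hnm]
        have h3 : 0 ≤ ‖A‖ * (max 1 (2 / S.ρ)) ^ n := by positivity
        linarith
    have hev : ∀ᶠ k : ℕ in atTop, 1 / S.ρ < k := tendsto_natCast_atTop_atTop.eventually_gt_atTop _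
    obtain ⟨M', hM'⟩ := eventually_atTop.1 hev
    have key := coeff_zero_of_little (c := c) hK (by positivity) hcb S.m
      (fun k => h F (1 / (k : ℂ)) - f (S.pt F) + (1 / (k : ℂ)) ^ S.m * A) M' (fun k hk => by
        have h1 := tc_hasSum (hhd F hF) (hball k (hM' k hk))
        have h2 : HasSum (fun n => (if n = 0 then -(f (S.pt F)) else 0) +
            (if n = S.m then (1 / (k : ℂ)) ^ S.m * A else 0)) (-(f (S.pt F)) + (1 / (k : ℂ)) ^ S.m * A) := by
          exact (hasSum_ite_eq 0 _).add (hasSum_ite_eq S.m _)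
        have h3 := h1.add h2
        have h4 : h F (1 / (k : ℂ)) + (-(f (S.pt F)) + (1 / (k : ℂ)) ^ S.m * A) =
            h F (1 / (k : ℂ)) - f (S.pt F) + (1 / (k : ℂ)) ^ S.m * A := by ring
        rw [h4] at h3
        refine h3.congr_fun fun n => ?_
        by_cases hn0 : n = 0
        · rw [hn0, hc0, if_pos rfl, if_neg (by omega : ¬ 0 = S.m), tc_zero, hh]
          simp only
          rw [S.g0, sub_zero]
          ring
        by_cases hnm : n = S.m
        · rw [hnm, hcm, if_pos rfl, if_neg (by omega : ¬ S.m = 0)]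
          ring
        · rw [hcn n hn0 hnm, if_neg hn0, if_neg hnm]
          ring) (by
        have h1 : Tendsto (fun k : ℕ => 1 / (k : ℂ)) atTop (𝓝 0) := by
          rw [tendsto_zero_iff_norm_tendsto_zero]
          refine tendsto_one_div_atTop_nhds_zero_nat.congr fun k => ?_
          rw [norm_div, norm_one, Complex.norm_natCast]
        have h2 := o4.comp_tendsto h1
        have h3 := h2.tendsto_div_nhds_zero
        refine h3.congr fun k => ?_
        simp only [Function.comp]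
        rw [div_eq_mul_inv _ ((1 / (k : ℂ)) ^ S.m), ← inv_pow, one_div, inv_inv]
        ring)
    constructor
    · intro n hn hn'
      have h1 := key n hn'.le
      rw [hcn n (by omega) (by omega)] at h1
      exact h1
    · have h1 := key S.m le_rfl
      rw [hcm] at h1
      rw [← hA]
      exact eq_neg_of_add_eq_zero_left h1
  have hnot : ∀ (F : Finset ℕ) (k : ℕ), (∀ j ∈ F, j < k) → k ∉ F := fun F k hk hmem =>
    lt_irrefl _ (hk k hmem)
  have hev : ∀ᶠ k : ℕ in atTop, 1 / S.ρ < k := tendsto_natCast_atTop_atTop.eventually_gt_atTop _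
  obtain ⟨M', hM'⟩ := eventually_atTop.1 hev
  have hb0 : ∀ F, ‖S.pt F - S.x‖ ≤ S.r / 2 → (tc (h F) S.m).re = -(fderiv ℂ f (S.pt F) S.v).re := by
    intro F hF
    rw [(hlow F hF).2, Complex.neg_re]
  refine ⟨{
    val := fun F => (f (S.pt F)).re
    b := fun F i => (tc (h F) (S.m + i)).re
    s := S.m - 1
    K := max (B * (2 / S.ρ) ^ S.m) (L * S.c)
    D := 2 / S.ρ
    M := max M M'
    hK := le_max_of_le_left (by positivity)
    hD := by positivity
    bd := ?_
    step := ?_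
    amp := ?_ }, fun F => rfl, fun F hF => ?_⟩
  · intro F hF i
    refine (Complex.abs_re_le_norm _).trans ((hbd F (hnear F hF) (S.m + i)).trans ?_)
    rw [pow_add, ← mul_assoc]
    apply mul_le_mul_of_nonneg_right (le_max_left _ _) (by positivity)
  · intro F k hF hk _ hMk
    have hk1 : M ≤ k := (le_max_left _ _).trans hMk
    have hk2 : M' ≤ k := (le_max_right _ _).trans hMk
    have h1 := tc_hasSum (hhd F (hnear F hF)) (hball k (hM' k hk2))
    have h2 : HasSum (fun n => (tc (h F) n).re / (k : ℝ) ^ n) (h F (1 / (k : ℂ))).re := by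
      refine (Complex.hasSum_re h1).congr_fun fun n => ?_
      have e1 : (1 / (k : ℂ)) ^ n = (((1 / (k : ℝ)) ^ n : ℝ) : ℂ) := by push_cast; rfl
      rw [e1, Complex.re_mul_ofReal, one_div_pow]
      ring
    have h3 := (hasSum_nat_add_iff' S.m).2 h2
    have h4 : ∑ i ∈ range S.m, (tc (h F) i).re / (k : ℝ) ^ i = (f (S.pt F)).re := by
      rw [sum_eq_single 0]
      · rw [tc_zero, hh, pow_zero, div_one]
        simp only
        rw [S.g0, sub_zero]
      · intro n hn hn0
        rw [mem_range] at hn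
        rw [(hlow F (hnear F hF)).1 n (by omega) hn, Complex.zero_re, zero_div]
      · intro h0
        exfalso
        apply h0
        rw [mem_range]
        omega
    have h5 : (h F (1 / (k : ℂ))).re = (f (S.pt (insert k F))).re := by
      rw [S.pt_insert F k (hnot F k hk), hM k hk1, hh]
    rw [h4, h5] at h3
    have h6 : ser (S.m - 1) (fun i => (tc (h F) (S.m + i)).re) k =
        (f (S.pt (insert k F))).re - (f (S.pt F)).re := by
      rw [← h3.tsum_eq]
      unfold ser
      apply tsum_congr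
      intro n
      rw [add_comm n S.m, show S.m - 1 + 1 + n = S.m + n by omega]
    rw [h6]
    ring
  · intro F k hF hk hk0 hMk
    have hk1 : M ≤ k := (le_max_left _ _).trans hMk
    have hk2 : M' ≤ k := (le_max_right _ _).trans hMk
    have h1 : ‖S.pt (insert k F) - S.x‖ ≤ S.r / 2 := by
      rw [S.pt_insert F k (hnot F k hk), hM k hk1]
      have h2 := S.gb _ (hball k (hM' k hk2))
      have h3 := S.pt_mem F hF
      calc ‖S.pt F - S.g (1 / (k : ℂ)) - S.x‖ = ‖(S.pt F - S.x) - S.g (1 / (k : ℂ))‖ := by congr 1; abel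
        _ ≤ ‖S.pt F - S.x‖ + ‖S.g (1 / (k : ℂ))‖ := norm_sub_le _ _
        _ ≤ _ := by linarith
    simp only [add_zero]
    rw [hb0 _ h1, hb0 _ (hnear F hF)]
    have e1 : -(fderiv ℂ f (S.pt (insert k F)) S.v).re - -(fderiv ℂ f (S.pt F) S.v).re =
        -((fderiv ℂ f (S.pt (insert k F)) S.v - fderiv ℂ f (S.pt F) S.v).re) := by
      rw [Complex.sub_re]
      ring
    rw [e1, abs_neg]
    refine (Complex.abs_re_le_norm _).trans ?_
    have h2 := (convex_closedBall S.x (3 * S.r / 4)).norm_image_sub_le_of_norm_fderiv_le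
      (𝕜 := ℂ) (f := fun z => fderiv ℂ f z S.v) (C := L)
      (fun z hz => (hφ z (hsub hz)).differentiableAt) hL (hmem F (hnear F hF)) (hmem _ h1)
    refine h2.trans ?_
    rw [S.pt_insert F k (hnot F k hk), sub_sub_cancel_left, norm_neg]
    calc L * ‖S.τ k‖ ≤ L * (S.c * (1 / k)) := mul_le_mul_of_nonneg_left (S.tb k hk0) hLn
      _ = L * S.c / k := by ring
      _ ≤ _ := by
          gcongr
          exact le_max_right _ _
  · simp only [add_zero]
    exact hb0 F (hnear F hF)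

end VSys

end Pool.Agent.H608.Ge
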