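import Pool.Agent.H608.Ge.LinMain

/-!
# Series with different leading terms are linearly independent; polynomials in exponentials
-/

set_option autoImplicit false

namespace Pool.Agent.H608.Ge

open Finset Filter Topology Metric Asymptotics

lemma linInd_of_lead {n : ℕ} {o : Fin n → Ser} {m : Fin n → ℕ} {a : Fin n → ℝ} (hm : StrictMono m)
    (ha : ∀ j, a j ≠ 0) (h : ∀ j, (fun w : ℂ => (o j).g w - w ^ m j * (a j : ℂ)) =o[𝓝 0] fun w => w ^ m j) :
    LinInd o := by
  classical
  intro c hc hz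
  obtain ⟨i, hi⟩ : ∃ i, c i ≠ 0 := by
    by_contra hcon
    push Not at hcon
    exact hc (funext hcon)
  have hne : (univ.filter fun j : Fin n => c j ≠ 0).Nonempty := ⟨i, by simp [hi]⟩
  obtain ⟨j₀, hj₀⟩ : ∃ j₀, j₀ = (univ.filter fun j : Fin n => c j ≠ 0).min' hne := ⟨_, rfl⟩
  have h0 : c j₀ ≠ 0 := by
    have := min'_mem _ hne
    rw [← hj₀, mem_filter] at this
    exact this.2
  have hlt : ∀ j, j ≠ j₀ → c j ≠ 0 → j₀ < j := by
    intro j hj hcj
    have h1 : j₀ ≤ j := by
      rw [hj₀]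
      exact min'_le _ _ (by simp [hcj])
    exact lt_of_le_of_ne h1 (Ne.symm hj)
  have hsmall : ∀ j ∈ univ.erase j₀, (fun w : ℂ => (c j : ℂ) * (o j).g w) =o[𝓝 0] fun w => w ^ m j₀ := by
    intro j hj
    by_cases hcj : c j = 0
    · rw [hcj]
      simp only [Complex.ofReal_zero, zero_mul]
      exact isLittleO_zero _ _
    · have h1 := hlt j (ne_of_mem_erase hj) hcj
      have h2 : (fun w : ℂ => w ^ m j) =o[𝓝 0] fun w : ℂ => w ^ m j₀ := isLittleO_pow_pow (hm h1)
      have h3 := ((h j).trans h2).add (h2.const_mul_left (a j : ℂ))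
      have h4 := h3.const_mul_left (c j : ℂ)
      refine h4.congr_left fun w => ?_
      ring
  have hsum : (fun w : ℂ => ∑ j ∈ univ.erase j₀, (c j : ℂ) * (o j).g w) =o[𝓝 0] fun w => w ^ m j₀ :=
    IsLittleO.fun_sum hsmall
  have h5 : (fun w : ℂ => w ^ m j₀ * ((c j₀ * a j₀ : ℝ) : ℂ)) =o[𝓝 0] fun w : ℂ => w ^ m j₀ := by
    have h6 := ((h j₀).const_mul_left (c j₀ : ℂ)).add hsum
    have h7 : (fun w : ℂ => -((c j₀ : ℂ) * ((o j₀).g w - w ^ m j₀ * (a j₀ : ℂ)) +
        ∑ j ∈ univ.erase j₀, (c j : ℂ) * (o j).g w)) =ᶠ[𝓝 0] fun w : ℂ => w ^ m j₀ * ((c j₀ * a j₀ : ℝ) : ℂ) := by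
      filter_upwards [hz] with w hw
      unfold gc at hw
      rw [← add_sum_erase _ _ (mem_univ j₀)] at hw
      push_cast
      linear_combination -hw
    exact h7.symm.trans_isLittleO h6.neg_left
  exact pow_not_littleO (m j₀) (mul_ne_zero h0 (ha j₀)) h5

section ExpPol

variable {n : ℕ} (R : Subring ℝ)

/-- coordinatewise exponential function -/
noncomputable def expN (w : Fin n → ℂ) : Fin n → ℂ := fun i => Complex.exp (w i)

/-- a polynomial in exponential functions -/
noncomputable def epN (P : MvPolynomial (Fin n) R) (w : Fin n → ℂ) : ℂ := polN R P (expN w)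

lemma expN_analytic (s : Set (Fin n → ℂ)) : AnalyticOnNhd ℂ (expN (n := n)) s := by
  apply AnalyticOnNhd.pi
  intro i
  exact ((ContinuousLinearMap.proj (R := ℂ) (φ := fun _ : Fin n => ℂ) i).analyticOnNhd _).cexp

lemma epN_analytic (P : MvPolynomial (Fin n) R) (s : Set (Fin n → ℂ)) : AnalyticOnNhd ℂ (epN R P) s :=
  (polN_analytic R P Set.univ).comp (expN_analytic s) fun _ _ => Set.mem_univ _

lemma epN_real (P : MvPolynomial (Fin n) R) (a : Fin n → ℝ) :
    epN R P (rp a) = ((MvPolynomial.aeval (fun i => Real.exp (a i)) P : ℝ) : ℂ) := by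
  unfold epN
  rw [← polN_real]
  congr 1
  funext i
  unfold expN rp
  push_cast
  rfl

lemma epN_const (P : MvPolynomial (Fin n) R) (h : ∃ c, ∀ w, epN R P w = c) : ∃ c, P = MvPolynomial.C c := by
  obtain ⟨c, hc⟩ := h
  apply polN_const R P (x := fun _ => 2) one_pos
  refine ⟨c, fun w hw => ?_⟩
  rw [mem_ball_n one_pos] at hw
  have h0 : ∀ i, w i ≠ 0 := by
    intro i h
    have h1 := hw i
    rw [h, mem_ball_iff_norm] at h1
    have h2 : ‖(0 : ℂ) - rp (fun _ => 2) i‖ = 2 := by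
      show ‖(0 : ℂ) - ((2 : ℝ) : ℂ)‖ = 2
      rw [zero_sub, norm_neg, Complex.norm_real]
      norm_num
    rw [h2] at h1
    norm_num at h1
  have h1 := hc fun i => Complex.log (w i)
  unfold epN expN at h1
  rw [← h1]
  congr 1
  funext i
  rw [Complex.exp_log (h0 i)]

/-- finitely many polynomials in infinitely many variables contain only finitely many of them -/
lemma exists_fin {l : ℕ} (P : Fin l → MvPolynomial ℕ R) :
    ∃ (t : ℕ) (Q : Fin l → MvPolynomial (Fin t) R), ∀ j, MvPolynomial.rename Fin.val (Q j) = P j := by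
  classical
  obtain ⟨s, hs⟩ : ∃ s : Finset ℕ, s = univ.biUnion fun j => (P j).vars := ⟨_, rfl⟩
  have h1 : ∀ j, ∃ Q : MvPolynomial (Fin (s.sup id + 1)) R, MvPolynomial.rename Fin.val Q = P j := by
    intro j
    apply MvPolynomial.exists_rename_eq_of_vars_subset_range (P j) Fin.val Fin.val_injective
    intro i hi
    refine ⟨⟨i, ?_⟩, rfl⟩
    have h2 : i ∈ s := by
      rw [hs, mem_biUnion]
      exact ⟨j, mem_univ _, hi⟩
    have : i ≤ s.sup id := le_sup (f := id) h2
    omega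
  choose Q hQ using h1
  exact ⟨_, Q, hQ⟩

end ExpPol

end Pool.Agent.H608.Ge
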