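import Pool.Agent.H608.Ge.Build
import Pool.Agent.H607.CF.Norm

/-!
# The frequencies of the digits of the limits
-/

set_option autoImplicit false

namespace Pool.Agent.H608.Ge

open Finset Filter Topology
open Pool.Agent.H608.Sp (Rich prec prec_spec prec_tendsto Sc)
open Pool.Agent.Helper478.Surds (EquiW)
open Pool.Agent.H607.CF (cnt dev pos freq_of_windows pert)

lemma ser_le {s : ℕ} {b : ℕ → ℝ} {K D t : ℝ} (hb : ∀ i, |b i| ≤ K * D ^ i) (hD : 0 ≤ D) (hK0 : 0 ≤ K)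
    (ht : 0 < t) (h2 : 2 * D ≤ t) : |ser s b t| ≤ 2 * K * (1 / t ^ (s + 1)) := by
  have hDt : D / t ≤ 1 / 2 := by
    rw [div_le_iff₀ ht]
    linarith
  have hDt0 : 0 ≤ D / t := by positivity
  have h1 : HasSum (fun i : ℕ => K / t ^ (s + 1) * (D / t) ^ i) (K / t ^ (s + 1) * (1 - D / t)⁻¹) :=
    (hasSum_geometric_of_lt_one hDt0 (by linarith)).mul_left _
  have h3 := tsum_of_norm_bounded h1 (ser_bound (e := s) hb hD hK0 ht)
  rw [Real.norm_eq_abs] at h3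
  refine h3.trans ?_
  have h4 : (1 - D / t)⁻¹ ≤ 2 := by
    rw [inv_le_comm₀ (by linarith) (by norm_num)]
    linarith
  calc K / t ^ (s + 1) * (1 - D / t)⁻¹ ≤ K / t ^ (s + 1) * 2 := by gcongr
    _ = _ := by ring

lemma geo_lim (v ρ : ℕ → ℝ) (C : ℝ) (hC : 0 ≤ C) (j₀ : ℕ) (h : ∀ j, j₀ ≤ j → |v (j + 1) - v j| ≤ C * ρ j)
    (hρ : ∀ j l, ρ (j + l) ≤ ρ j * (1 / 2) ^ l) : ∃ X : ℝ, Tendsto v atTop (𝓝 X) ∧
      ∀ j, j₀ ≤ j → |X - v j| ≤ 2 * C * ρ j := by
  have hbd : ∀ j, j₀ ≤ j → ∀ l, dist (v (j + l)) (v (j + l + 1)) ≤ C * ρ j * (1 / 2) ^ l := by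
    intro j hj l
    rw [dist_comm, Real.dist_eq]
    refine (h (j + l) (by omega)).trans ?_
    rw [mul_assoc]
    exact mul_le_mul_of_nonneg_left (hρ j l) hC
  have hcau : CauchySeq fun l => v (j₀ + l) := by
    apply cauchySeq_of_le_geometric (1 / 2) (C * ρ j₀) (by norm_num)
    exact fun l => hbd j₀ le_rfl l
  obtain ⟨X, hX⟩ := cauchySeq_tendsto_of_complete hcau
  have hXv : Tendsto v atTop (𝓝 X) := by
    have h1 : Tendsto (fun l => v (l + j₀)) atTop (𝓝 X) := by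
      refine hX.congr fun l => ?_
      rw [add_comm]
    exact (tendsto_add_atTop_iff_nat j₀).1 h1
  refine ⟨X, hXv, fun j hj => ?_⟩
  have h1 : Tendsto (fun l => v (j + l)) atTop (𝓝 X) := by
    refine hXv.comp ?_
    exact tendsto_atTop_mono (fun l => Nat.le_add_left l j) tendsto_id
  have h2 := dist_le_of_le_geometric_of_tendsto₀ (1 / 2) (C * ρ j) (by norm_num) (hbd j hj) h1
  rw [add_zero, dist_comm, Real.dist_eq] at h2
  refine h2.trans (le_of_eq ?_)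
  ring

namespace Data

variable {γ γ' : ℝ} {M₀ : ℕ} {P : ℕ → GProc M₀} {A : Set ℕ} {n : ℕ → ℕ} (D : Data γ P A n)

lemma exists_lim (S : Sc γ' n) (i : ℕ) : ∃ X a : ℝ,
    Tendsto (fun j => (P i).val (D.F j)) atTop (𝓝 X) ∧ Tendsto (fun j => (P i).b (D.F j) 0) atTop (𝓝 a) ∧
    ∃ j₀, ∀ j, j₀ ≤ j → |X - (P i).val (D.F j)| ≤ 4 * (P i).K * ((1 / 2) ^ n j) ^ ((P i).s + 1) := by
  obtain ⟨j₀, hj₀⟩ := D.exists_large S i
  have hK := (P i).hK
  have hk2 : ∀ j, (1 : ℝ) / D.k j ≤ (1 / 2) ^ n j := by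
    intro j
    have h1 : ((2 ^ n j : ℕ) : ℝ) ≤ D.k j := by exact_mod_cast (D.k_gt j).le
    push_cast at h1
    rw [one_div_pow]
    exact one_div_le_one_div_of_le (by positivity) h1
  have hkpos : ∀ j, (0 : ℝ) < D.k j := fun j => by
    have h1 : 0 < D.k j := (Nat.zero_le _).trans_lt (D.k_gt j)
    exact_mod_cast h1
  have hhalf : ∀ j l, ((1 : ℝ) / 2) ^ n (j + l) ≤ (1 / 2) ^ n j * (1 / 2) ^ l := by
    intro j l
    rw [← pow_add]
    exact pow_le_pow_of_le_one (by norm_num) (by norm_num) (S.add_le j l)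
  obtain ⟨X, hX1, hX2⟩ := geo_lim (fun j => (P i).val (D.F j)) (fun j => ((1 / 2) ^ n j) ^ ((P i).s + 1))
    (2 * (P i).K) (by positivity) j₀ (fun j hj => by
      obtain ⟨h1, h2⟩ := hj₀ j hj
      rw [D.val_succ S i j h1, add_sub_cancel_left]
      refine (ser_le ((P i).bd _ (D.small j)) (P i).hD hK (hkpos j) h2).trans ?_
      rw [← one_div_pow]
      gcongr
      exact hk2 j) (fun j l => by
      calc (((1 : ℝ) / 2) ^ n (j + l)) ^ ((P i).s + 1) ≤ ((1 / 2) ^ n j * (1 / 2) ^ l) ^ ((P i).s + 1) := by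
            gcongr
            exact hhalf j l
        _ = ((1 / 2) ^ n j) ^ ((P i).s + 1) * ((1 / 2) ^ l) ^ ((P i).s + 1) := by rw [mul_pow]
        _ ≤ ((1 / 2) ^ n j) ^ ((P i).s + 1) * ((1 / 2) ^ l) ^ 1 := by
            apply mul_le_mul_of_nonneg_left _ (by positivity)
            exact pow_le_pow_of_le_one (by positivity) (pow_le_one₀ (by norm_num) (by norm_num)) (by omega)
        _ = _ := by rw [pow_one])
  obtain ⟨a, ha1, _⟩ := geo_lim (fun j => (P i).b (D.F j) 0) (fun j => (1 / 2) ^ n j)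
    (P i).K hK j₀ (fun j hj => by
      obtain ⟨h1, h2⟩ := hj₀ j hj
      rw [D.F_succ]
      refine ((P i).amp _ _ (D.small j) (D.F_lt S j) (D.low j) h1).trans ?_
      rw [div_eq_mul_one_div]
      exact mul_le_mul_of_nonneg_left (hk2 j) hK) hhalf
  refine ⟨X, a, hX1, ha1, j₀, fun j hj => ?_⟩
  refine (hX2 j hj).trans (le_of_eq ?_)
  ring

end Data

end Pool.Agent.H608.Ge
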