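import Pool.Agent.H608.Ge.Vk

/-!
# Exponential sums over functions which are nearly linear on blocks
-/

set_option autoImplicit false

namespace Pool.Agent.H608.Ge

open Finset Filter
open Pool.Agent.H469R2.NK (e norm_e e_add e_zero conj_e)
open Pool.Agent.Helper478.Surds (e_sub_le)

lemma e_pow (β : ℝ) (v : ℕ) : e (β * v) = e β ^ v := by
  unfold Pool.Agent.H469R2.NK.e
  rw [← Complex.exp_nat_mul]
  congr 1
  push_cast
  ring

lemma norm_e_sub_one (β : ℝ) (h : |β| ≤ 1 / 2) : 4 * |β| ≤ ‖e β - 1‖ := by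
  have h1 : ‖e β - 1‖ = ‖2 * Real.sin (2 * Real.pi * β / 2)‖ := by
    rw [← Complex.norm_exp_I_mul_ofReal_sub_one]
    unfold Pool.Agent.H469R2.NK.e
    rw [mul_comm Complex.I]
  have hpi := Real.pi_pos
  rw [h1, norm_mul, Real.norm_eq_abs, Real.norm_eq_abs, abs_of_pos (by norm_num : (0 : ℝ) < 2)]
  have h2 : |2 * Real.pi * β / 2| ≤ Real.pi / 2 := by
    rw [abs_div, abs_mul, abs_of_pos (by positivity : (0 : ℝ) < 2 * Real.pi),
      abs_of_pos (by norm_num : (0 : ℝ) < 2)]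
    nlinarith
  have h3 := Real.mul_abs_le_abs_sin h2
  have h4 : 2 / Real.pi * |2 * Real.pi * β / 2| = 2 * |β| := by
    rw [abs_div, abs_mul, abs_of_pos (by positivity : (0 : ℝ) < 2 * Real.pi),
      abs_of_pos (by norm_num : (0 : ℝ) < 2)]
    field_simp
  linarith

lemma norm_geom (β : ℝ) (h0 : β ≠ 0) (h : |β| ≤ 1 / 2) (V : ℕ) :
    ‖∑ v ∈ range V, e (β * v)‖ ≤ 1 / (2 * |β|) := by
  have h1 := norm_e_sub_one β h
  have h2 : 0 < |β| := abs_pos.2 h0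
  have h3 : ∑ v ∈ range V, e (β * v) = ∑ v ∈ range V, e β ^ v := sum_congr rfl fun v _ => e_pow β v
  rw [h3]
  have h4 := congrArg norm (mul_geom_sum (e β) V)
  rw [norm_mul] at h4
  have h5 : ‖e β ^ V - 1‖ ≤ 2 := by
    refine (norm_sub_le _ _).trans ?_
    rw [norm_pow, norm_e, one_pow, norm_one]
    norm_num
  rw [le_div_iff₀ (by positivity)]
  have h6 := norm_nonneg (∑ v ∈ range V, e β ^ v)
  nlinarith

/-- averaging over blocks -/
lemma blocks (g : ℕ → ℂ) (hg : ∀ n, ‖g n‖ ≤ 1) (R V : ℕ) (hV : 1 ≤ V) :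
    ‖∑ n ∈ Ioc 0 R, g n‖ ≤ 1 / (V : ℝ) * ∑ n ∈ Ioc 0 R, ‖∑ v ∈ range V, g (n + v)‖ + 2 * V := by
  have hV0 : (0 : ℝ) < V := by exact_mod_cast hV
  have h1 : (V : ℂ) * ∑ n ∈ Ioc 0 R, g n =
      ∑ v ∈ range V, (∑ n ∈ Ioc 0 R, g n - ∑ n ∈ Ioc 0 R, g (n + v)) +
        ∑ n ∈ Ioc 0 R, ∑ v ∈ range V, g (n + v) := by
    rw [sum_sub_distrib, sum_const, card_range, nsmul_eq_mul, sum_comm]
    ring
  have h2 : ‖(V : ℂ) * ∑ n ∈ Ioc 0 R, g n‖ ≤ V * (2 * V) +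
      ∑ n ∈ Ioc 0 R, ‖∑ v ∈ range V, g (n + v)‖ := by
    rw [h1]
    refine (norm_add_le _ _).trans (add_le_add ?_ (norm_sum_le _ _))
    refine (norm_sum_le _ _).trans ?_
    have h3 : ∀ v ∈ range V, ‖∑ n ∈ Ioc 0 R, g n - ∑ n ∈ Ioc 0 R, g (n + v)‖ ≤ 2 * V := by
      intro v hv
      refine (Pool.Agent.Helper478.Bases.shift_one g hg R v).trans ?_
      have : (v : ℝ) ≤ V := by exact_mod_cast (mem_range.1 hv).le
      linarith
    refine (sum_le_sum h3).trans ?_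
    rw [sum_const, card_range, nsmul_eq_mul]
  rw [norm_mul, Complex.norm_natCast] at h2
  have h3 : ‖∑ n ∈ Ioc 0 R, g n‖ = 1 / (V : ℝ) * (V * ‖∑ n ∈ Ioc 0 R, g n‖) := by
    field_simp
  rw [h3]
  calc 1 / (V : ℝ) * (V * ‖∑ n ∈ Ioc 0 R, g n‖) ≤ 1 / (V : ℝ) * (V * (2 * V) +
      ∑ n ∈ Ioc 0 R, ‖∑ v ∈ range V, g (n + v)‖) := by gcongr
    _ = _ := by
      field_simp
      ring

/-- nearly linear functions -/
theorem linA (g : ℕ → ℝ) (R V : ℕ) (hV : 1 ≤ V) (l η : ℝ) (hl : 0 < l) (hη : 0 ≤ η)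
    (h : ∀ n ∈ Ioc 0 R, ∃ β : ℝ, l ≤ |β| ∧ |β| ≤ 1 / 2 ∧ ∀ v < V, |g (n + v) - g n - β * v| ≤ η) :
    ‖∑ n ∈ Ioc 0 R, e (g n)‖ ≤ R * (1 / (V * (2 * l)) + 7 * η) + 2 * V := by
  have hV0 : (0 : ℝ) < V := by exact_mod_cast hV
  refine (blocks (fun n => e (g n)) (fun n => (norm_e _).le) R V hV).trans ?_
  have h1 : ∀ n ∈ Ioc 0 R, ‖∑ v ∈ range V, e (g (n + v))‖ ≤ 1 / (2 * l) + V * (7 * η) := by
    intro n hn
    obtain ⟨β, hβ1, hβ2, hβ3⟩ := h n hn
    have hβ0 : β ≠ 0 := by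
      rintro rfl
      rw [abs_zero] at hβ1
      linarith
    have h2 : ∑ v ∈ range V, e (g (n + v)) = e (g n) * ∑ v ∈ range V, e (β * v) +
        ∑ v ∈ range V, (e (g (n + v)) - e (g n + β * v)) := by
      rw [mul_sum, ← sum_add_distrib]
      refine sum_congr rfl fun v _ => ?_
      rw [e_add]
      ring
    rw [h2]
    refine (norm_add_le _ _).trans (add_le_add ?_ ?_)
    · rw [norm_mul, norm_e, one_mul]
      refine (norm_geom β hβ0 hβ2 V).trans ?_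
      gcongr
    · refine (norm_sum_le _ _).trans ?_
      have h3 : ∀ v ∈ range V, ‖e (g (n + v)) - e (g n + β * v)‖ ≤ 7 * η := by
        intro v hv
        refine (e_sub_le _ _).trans ?_
        have h4 := hβ3 v (mem_range.1 hv)
        have h5 : g (n + v) - (g n + β * v) = g (n + v) - g n - β * v := by ring
        rw [h5]
        have hpi := Real.pi_lt_d2
        have hpi0 := Real.pi_pos
        have h6 := abs_nonneg (g (n + v) - g n - β * v)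
        nlinarith
      refine (sum_le_sum h3).trans ?_
      rw [sum_const, card_range, nsmul_eq_mul]
  have hsum := sum_le_sum h1
  rw [sum_const, Nat.card_Ioc, Nat.sub_zero, nsmul_eq_mul] at hsum
  calc 1 / (V : ℝ) * ∑ n ∈ Ioc 0 R, ‖∑ v ∈ range V, e (g (n + v))‖ + 2 * V ≤
        1 / (V : ℝ) * (R * (1 / (2 * l) + V * (7 * η))) + 2 * V := by gcongr
    _ = _ := by
      field_simp

end Pool.Agent.H608.Ge
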