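import Pool.Agent.H608.Ge.MvMain
import Pool.Agent.H608.Ge.Jn

/-!
# Analytic functions of several constants: joint normality and algebraic independence
-/

set_option autoImplicit false

namespace Pool.Agent.H608.Ge

open Finset Filter Topology Metric
open Pool.Agent.H608.Sp (Rich Freq nt_of_freq)
open Pool.Agent.W206.ND (NT)

section Pol

variable {n : ℕ} (R : Subring ℝ)

/-- polynomials as analytic functions -/
noncomputable def polN (P : MvPolynomial (Fin n) R) (w : Fin n → ℂ) : ℂ :=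
  MvPolynomial.eval₂ (Complex.ofRealHom.comp R.subtype) w P

lemma polN_analytic (P : MvPolynomial (Fin n) R) (s : Set (Fin n → ℂ)) :
    AnalyticOnNhd ℂ (polN R P) s := by
  unfold polN
  induction P using MvPolynomial.induction_on with
  | C a =>
    simp only [MvPolynomial.eval₂_C]
    exact analyticOnNhd_const
  | add p q hp hq =>
    simp only [MvPolynomial.eval₂_add]
    exact hp.add hq
  | mul_X p i hp =>
    simp only [MvPolynomial.eval₂_mul, MvPolynomial.eval₂_X]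
    exact hp.mul ((ContinuousLinearMap.proj (R := ℂ) (φ := fun _ : Fin n => ℂ) i).analyticOnNhd _)

lemma polN_real (P : MvPolynomial (Fin n) R) (a : Fin n → ℝ) :
    polN R P (rp a) = ((MvPolynomial.aeval a P : ℝ) : ℂ) := by
  unfold polN
  rw [MvPolynomial.aeval_def]
  have h1 := MvPolynomial.eval₂_comp_left Complex.ofRealHom (algebraMap R ℝ) a P
  simp only [Complex.ofRealHom_eq_coe] at h1
  rw [h1]
  rfl

lemma polN_const (P : MvPolynomial (Fin n) R) {x : Fin n → ℝ} {r : ℝ} (hr : 0 < r)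
    (h : ∃ c, ∀ w ∈ ball (rp x) r, polN R P w = c) : ∃ c, P = MvPolynomial.C c := by
  obtain ⟨c, hc⟩ := h
  obtain ⟨φ, hφ⟩ : ∃ φ : R →+* ℂ, φ = Complex.ofRealHom.comp R.subtype := ⟨_, rfl⟩
  have hinj : Function.Injective φ := by
    rw [hφ]
    intro a b hab
    apply Subtype.ext
    exact Complex.ofReal_injective hab
  have hinf : ∀ t : ℝ, (ball (t : ℂ) r).Infinite := fun t => (infinite_of_mem_nhds _ (ball_mem_nhds _ hr))
  have h1 : MvPolynomial.map φ P = MvPolynomial.C c := by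
    apply MvPolynomial.funext_set (fun j => ball (x j : ℂ) r)
    · exact fun j => hinf (x j)
    · intro u hu
      rw [MvPolynomial.eval_C]
      have h2 := hc u ((mem_ball_n hr).2 fun j => hu j (Set.mem_univ _))
      unfold polN at h2
      rw [← h2, MvPolynomial.eval_map, hφ]
  refine ⟨MvPolynomial.coeff 0 P, ?_⟩
  apply MvPolynomial.map_injective φ hinj
  rw [h1, MvPolynomial.map_C]
  congr 1
  have h3 := congrArg (MvPolynomial.coeff 0) h1
  rw [MvPolynomial.coeff_map, MvPolynomial.coeff_zero_C] at h3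
  exact h3.symm

lemma countable_mvN [Countable R] : Countable (MvPolynomial (Fin n) R) := by
  rw [← Cardinal.mk_le_aleph0_iff]
  refine MvPolynomial.cardinalMk_le_max.trans ?_
  simp

end Pol

/-- all integral combinations of the functions of a family -/
def combsN {n : ℕ} (𝓕 : Set ((Fin n → ℂ) → ℂ)) : Set ((Fin n → ℂ) → ℂ) :=
  ⋃ l : ℕ, Set.range fun p : (Fin l → ℤ) × (Fin l → 𝓕) => fun w => ∑ j, (p.1 j : ℂ) * (p.2 j).1 w

section Combs

variable {n : ℕ}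

lemma combsN_countable {𝓕 : Set ((Fin n → ℂ) → ℂ)} (h : 𝓕.Countable) : (combsN 𝓕).Countable := by
  have : Countable 𝓕 := h.to_subtype
  exact Set.countable_iUnion fun n => Set.countable_range _

lemma combsN_analytic {𝓕 : Set ((Fin n → ℂ) → ℂ)} {s : Set (Fin n → ℂ)}
    (h : ∀ f ∈ 𝓕, AnalyticOnNhd ℂ f s) : ∀ f ∈ combsN 𝓕, AnalyticOnNhd ℂ f s := by
  intro f hf
  obtain ⟨n, p, rfl⟩ := Set.mem_iUnion.1 hf
  simp only
  apply Finset.analyticOnNhd_fun_sum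
  intro j _
  exact analyticOnNhd_const.mul (h _ (p.2 j).2)

lemma combsN_real {𝓕 : Set ((Fin n → ℂ) → ℂ)} {x : Fin n → ℝ} {r : ℝ} (h : ∀ f ∈ 𝓕, RealN x r f) :
    ∀ f ∈ combsN 𝓕, RealN x r f := by
  intro f hf
  obtain ⟨n, p, rfl⟩ := Set.mem_iUnion.1 hf
  intro a ha
  simp only [Complex.im_sum]
  apply sum_eq_zero
  intro j _
  have h1 := h _ (p.2 j).2 a ha
  have h2 : ((p.1 j : ℤ) : ℂ).im = 0 := by simp
  rw [Complex.mul_im, h1, h2]
  ring

lemma nt_of_combsN {𝓕 : Set ((Fin n → ℂ) → ℂ)} {x z : Fin n → ℝ} {r : ℝ}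
    (hfreq : ∀ f ∈ combsN 𝓕, (¬ ∃ c, ∀ w ∈ ball (rp x) r, f w = c) → ∀ b : ℕ, 2 ≤ b → Freq b (f (rp z)).re)
    {l : ℕ} (f : Fin l → (Fin n → ℂ) → ℂ) (hf : ∀ j, f j ∈ 𝓕)
    (hnc : ∀ v : Fin l → ℤ, v ≠ 0 → ¬ ∃ c : ℂ, ∀ w ∈ ball (rp x) r, ∑ j, (v j : ℂ) * f j w = c)
    (b : ℕ) (hb : 2 ≤ b) : NT b fun j => (f j (rp z)).re := by
  apply nt_of_freq b l _ hb
  intro v hv
  have h1 := hfreq (fun w => ∑ j, (v j : ℂ) * f j w)
    (Set.mem_iUnion.2 ⟨l, (v, fun j => ⟨f j, hf j⟩), rfl⟩) (hnc v hv) b hb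
  have h2 : (∑ j, (v j : ℂ) * f j (rp z)).re = ∑ j, (v j : ℝ) * (f j (rp z)).re := by
    rw [Complex.re_sum]
    refine sum_congr rfl fun j _ => ?_
    have h3 : ((v j : ℤ) : ℂ) = (((v j : ℤ) : ℝ) : ℂ) := by push_cast; rfl
    rw [h3, Complex.re_ofReal_mul]
  rw [h2] at h1
  exact h1

lemma algInd_of_freqN (R : Subring ℝ) {x z : Fin n → ℝ} {r : ℝ} (hr : 0 < r)
    (hfreq : ∀ P : MvPolynomial (Fin n) R, (¬ ∃ c, ∀ w ∈ ball (rp x) r, polN R P w = c) →
      ∀ b : ℕ, 2 ≤ b → Freq b (polN R P (rp z)).re) : AlgebraicIndependent R z := by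
  rw [algebraicIndependent_iff]
  intro P hP
  by_cases hc : ∃ c, ∀ w ∈ ball (rp x) r, polN R P w = c
  · obtain ⟨c, hc⟩ := polN_const R P hr hc
    rw [hc, MvPolynomial.aeval_C] at hP
    have h1 : c = 0 := Subtype.ext hP
    rw [hc, h1, MvPolynomial.C_0]
  · exfalso
    have h1 := hfreq P hc 2 le_rfl
    rw [polN_real, Complex.ofReal_re] at h1
    exact freq_ne_zero h1 hP

end Combs

/-- the tuple of finitely many series -/
def mkTup {n : ℕ} (o : Fin n → One) (hm : StrictMono fun j => (o j).m) (r : ℝ) (hr : 0 < r) (c : Fin n → ℝ)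
    (hc : ∀ j, 0 ≤ c j) (hcb : ∀ j, ∀ k : ℕ, 1 ≤ k → |(o j).τ k| ≤ c j * (1 / k)) : Tup where
  n := n
  o := o
  mono := hm
  r := r
  r0 := hr
  c := ∑ j, c j
  c0 := sum_nonneg fun j _ => hc j
  tb j k hk := (hcb j k hk).trans (mul_le_mul_of_nonneg_right
    (single_le_sum (fun i _ => hc i) (mem_univ j)) (by positivity))

/-- the first `t` members of a sequence -/
def seqTup (o : ℕ → One) (hm : StrictMono fun j => (o j).m) (c : ℕ → ℝ)
    (hc : ∀ j, 0 ≤ c j) (hcb : ∀ j, ∀ k : ℕ, 1 ≤ k → |(o j).τ k| ≤ c j * (1 / k)) (t : ℕ) : Tup :=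
  mkTup (n := t) (fun j => o j) (fun _ _ hij => hm hij) (8 * (∑ j : Fin t, c j) + 1) (by
    have : 0 ≤ ∑ j : Fin t, c j := sum_nonneg fun j _ => hc j
    positivity) (fun j => c j) (fun j => hc j) (fun j => hcb j)

open Classical in
/-- **finitely many series** -/
theorem mvOne : ∃ C : ℝ, 0 < C ∧ ∀ (n : ℕ) (o : Fin n → One), 0 < n → (StrictMono fun j => (o j).m) →
    ∀ r : ℝ, 0 < r → ∀ A : Set ℕ, Rich A →
    ∀ (M : ℕ) (𝓕 : Set ((Fin n → ℂ) → ℂ)), 𝓕.Countable →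
      (∀ f ∈ 𝓕, AnalyticOnNhd ℂ f (ball (rp fun j => (o j).x) r)) →
      (∀ f ∈ 𝓕, RealN (fun j => (o j).x) r f) →
      ∀ R : Subring ℝ, Countable R →
      ∃ (E : Set ℕ) (z : Fin n → ℝ), E.Infinite ∧ (∀ k ∈ E, k ∈ A ∧ M ≤ k ∧ 1 ≤ k) ∧
      (∀ K : ℕ, 16 ≤ K → (({k : ℕ | k ∈ E ∧ k ≤ K}.ncard : ℕ) : ℝ) ≤
        C * Real.log (Real.log (Real.log K))) ∧
      (∀ j, Tendsto (fun N : ℕ => (o j).x - ∑ k ∈ (range N).filter (· ∈ E), (o j).τ k) atTop (𝓝 (z j))) ∧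
      (∀ j, |z j - (o j).x| < r) ∧
      AlgebraicIndependent R z ∧
      ∀ (l : ℕ) (f : Fin l → (Fin n → ℂ) → ℂ), (∀ j, f j ∈ 𝓕) →
        (∀ v : Fin l → ℤ, v ≠ 0 →
          ¬ ∃ c : ℂ, ∀ w ∈ ball (rp fun j => (o j).x) r, ∑ j, (v j : ℂ) * f j w = c) →
        ∀ b : ℕ, 2 ≤ b → NT b fun j => (f j (rp z)).re := by
  obtain ⟨C, hC, hmain⟩ := mvMain
  refine ⟨C, hC, fun n o hn hm r hr A hA M 𝓕 hcount hFA hFR R hR => ?_⟩
  have := countable_mvN (n := n) R
  choose c hc hcb using fun j => (o j).bound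
  obtain ⟨M₀, hM₀⟩ := exists_nat_ge (max 1 (8 * (∑ j, c j) / r))
  have hM1 : (1 : ℝ) ≤ M₀ := (le_max_left _ _).trans hM₀
  have hM8 : 8 * (∑ j, c j) / r ≤ M₀ := (le_max_right _ _).trans hM₀
  have hM1' : 1 ≤ M₀ := by exact_mod_cast hM1
  rw [div_le_iff₀ hr] at hM8
  obtain ⟨E, z, hEinf, hEA, hEK, hl, hz, hfreq⟩ := hmain M₀ hM1'
    (fun _ => mkTup o hm r hr c hc hcb) ⟨0, hn⟩
    (fun _ => by
      show 8 * (∑ j, c j) ≤ r * M₀
      linarith) A hA M
    (fun _ => combsN 𝓕 ∪ Set.range (polN R))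
    (fun _ => (combsN_countable hcount).union (@Set.countable_range _ _ this _))
    (by
      rintro _ f (hf | ⟨P, rfl⟩)
      · exact combsN_analytic hFA f hf
      · exact polN_analytic R P _)
    (by
      rintro _ f (hf | ⟨P, rfl⟩)
      · exact combsN_real hFR f hf
      · intro a _
        rw [polN_real, Complex.ofReal_im])
  refine ⟨E, z 0, hEinf, fun k hk => ⟨(hEA k hk).1, (hEA k hk).2.1, hM1'.trans (hEA k hk).2.2⟩, hEK,
    fun j => hl 0 j, fun j => hz 0 j, ?_, ?_⟩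
  · exact algInd_of_freqN R hr fun P hP => hfreq 0 _ (Or.inr ⟨P, rfl⟩) hP
  · intro l f hf hnc b hb
    exact nt_of_combsN (fun f hf hc => hfreq 0 f (Or.inl hf) hc) f hf hnc b hb

open Classical in
/-- **infinitely many series** and entire functions -/
theorem mvAll : ∃ C : ℝ, 0 < C ∧ ∀ o : ℕ → One, (StrictMono fun j => (o j).m) →
    ∀ A : Set ℕ, Rich A →
    ∀ (M : ℕ) (𝓕 : ∀ t : ℕ, Set ((Fin t → ℂ) → ℂ)), (∀ t, (𝓕 t).Countable) →
      (∀ t, ∀ f ∈ 𝓕 t, AnalyticOnNhd ℂ f Set.univ) →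
      (∀ t, ∀ f ∈ 𝓕 t, ∀ a : Fin t → ℝ, (f (rp a)).im = 0) →
      ∀ R : Subring ℝ, Countable R →
      ∃ (E : Set ℕ) (z : ℕ → ℝ), E.Infinite ∧ (∀ k ∈ E, k ∈ A ∧ M ≤ k ∧ 1 ≤ k) ∧
      (∀ K : ℕ, 16 ≤ K → (({k : ℕ | k ∈ E ∧ k ≤ K}.ncard : ℕ) : ℝ) ≤
        C * Real.log (Real.log (Real.log K))) ∧
      (∀ j, Tendsto (fun N : ℕ => (o j).x - ∑ k ∈ (range N).filter (· ∈ E), (o j).τ k) atTop (𝓝 (z j))) ∧
      AlgebraicIndependent R z ∧
      ∀ (t l : ℕ) (f : Fin l → (Fin t → ℂ) → ℂ), (∀ j, f j ∈ 𝓕 t) →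
        (∀ v : Fin l → ℤ, v ≠ 0 → ¬ ∃ c : ℂ, ∀ w, ∑ j, (v j : ℂ) * f j w = c) →
        ∀ b : ℕ, 2 ≤ b → NT b fun j => (f j (rp fun i : Fin t => z i)).re := by
  obtain ⟨C, hC, hmain⟩ := mvMain
  refine ⟨C, hC, fun o hm A hA M 𝓕 hcount hFA hFR R hR => ?_⟩
  have := fun t => countable_mvN (n := t) R
  choose c hc hcb using fun j => (o j).bound
  obtain ⟨E, z, hEinf, hEA, hEK, hl, hz, hfreq⟩ := hmain 1 le_rfl
    (seqTup o hm c hc hcb) ⟨1, one_pos⟩
    (fun t => by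
      show 8 * (∑ j : Fin t, c j) ≤ (8 * (∑ j : Fin t, c j) + 1) * ((1 : ℕ) : ℝ)
      push_cast
      linarith) A hA M
    (fun t => combsN (𝓕 t) ∪ Set.range (polN R))
    (fun t => (combsN_countable (hcount t)).union (Set.countable_range _))
    (by
      rintro t f (hf | ⟨P, rfl⟩)
      · exact combsN_analytic (fun f hf => (hFA t f hf).mono (Set.subset_univ _)) f hf
      · exact polN_analytic R P _)
    (by
      rintro t f (hf | ⟨P, rfl⟩)
      · exact combsN_real (fun f hf a _ => hFR t f hf a) f hf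
      · intro a _
        rw [polN_real, Complex.ofReal_im])
  -- one sequence of limits
  obtain ⟨y, hy⟩ : ∃ y : ℕ → ℝ, y = fun j => z (j + 1) ⟨j, Nat.lt_succ_self j⟩ := ⟨_, rfl⟩
  have hyz : ∀ t (j : Fin t), z t j = y j := by
    intro t j
    rw [hy]
    exact tendsto_nhds_unique (hl t j) (hl (j + 1) ⟨j, Nat.lt_succ_self j⟩)
  have hyz' : ∀ t, z t = fun j : Fin t => y j := fun t => funext (hyz t)
  refine ⟨E, y, hEinf, fun k hk => ⟨(hEA k hk).1, (hEA k hk).2.1, (hEA k hk).2.2⟩, hEK,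
    fun j => ?_, ?_, ?_⟩
  · rw [hy]
    exact hl (j + 1) ⟨j, Nat.lt_succ_self j⟩
  · rw [algebraicIndependent_iff]
    intro P hP
    obtain ⟨t, ht⟩ : ∃ t : ℕ, (P.vars : Set ℕ) ⊆ Set.range (Fin.val : Fin t → ℕ) := by
      refine ⟨P.vars.sup id + 1, fun i hi => ⟨⟨i, ?_⟩, rfl⟩⟩
      have : i ≤ P.vars.sup id := le_sup (f := id) (mem_coe.1 hi)
      omega
    obtain ⟨Q, hQ⟩ := MvPolynomial.exists_rename_eq_of_vars_subset_range P Fin.val Fin.val_injective ht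
    have hind : AlgebraicIndependent R (z t) :=
      algInd_of_freqN R (Tup.r0 _) fun P hP => hfreq t _ (Or.inr ⟨P, rfl⟩) hP
    rw [algebraicIndependent_iff] at hind
    rw [← hQ, MvPolynomial.aeval_rename] at hP
    have h1 : y ∘ (Fin.val : Fin t → ℕ) = z t := by
      rw [hyz']
      rfl
    rw [h1] at hP
    have h2 : Q = 0 := hind Q hP
    rw [← hQ, h2]
    exact map_zero (MvPolynomial.rename Fin.val)
  · intro t l f hf hnc b hb
    have h1 := nt_of_combsN (fun f hf hc => hfreq t f (Or.inl hf) hc) f hf (fun v hv => by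
      rintro ⟨c', hc'⟩
      apply hnc v hv
      refine ⟨c', fun w => ?_⟩
      have h2 : AnalyticOnNhd ℂ (fun w => ∑ j, (v j : ℂ) * f j w) Set.univ := by
        apply Finset.analyticOnNhd_fun_sum
        intro j _
        exact analyticOnNhd_const.mul (hFA t _ (hf j))
      have h3 := h2.eqOn_of_preconnected_of_eventuallyEq (analyticOnNhd_const (v := c')) isPreconnected_univ
        (Set.mem_univ (rp fun j : Fin t => (o j).x)) (by
          filter_upwards [ball_mem_nhds _ (Tup.r0 _)] with w hw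
          exact hc' w hw)
      exact h3 (Set.mem_univ w)) b hb
    rw [hyz'] at h1
    exact h1

end Pool.Agent.H608.Ge
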