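import Pool.Agent.H608.Ge.Elim
import Pool.Agent.H608.Ge.MvJn

/-!
# Analytic functions of the sums of linearly independent series
-/

set_option autoImplicit false

namespace Pool.Agent.H608.Ge

open Finset Filter Topology Metric Asymptotics
open Pool.Agent.H608.Sp (Rich Freq nt_of_freq)
open Pool.Agent.W206.ND (NT)

section Mat

variable {n : ℕ}

/-- a real matrix acting on complex vectors -/
noncomputable def mc (B : Matrix (Fin n) (Fin n) ℝ) (w : Fin n → ℂ) : Fin n → ℂ := fun i => ∑ j, (B i j : ℂ) * w j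

lemma mc_rp (B : Matrix (Fin n) (Fin n) ℝ) (a : Fin n → ℝ) : mc B (rp a) = rp fun i => ∑ j, B i j * a j := by
  funext i
  unfold mc rp
  push_cast
  rfl

lemma mc_analytic (B : Matrix (Fin n) (Fin n) ℝ) (s : Set (Fin n → ℂ)) : AnalyticOnNhd ℂ (mc B) s := by
  apply AnalyticOnNhd.pi
  intro i
  apply Finset.analyticOnNhd_fun_sum
  intro j _
  exact analyticOnNhd_const.mul ((ContinuousLinearMap.proj (R := ℂ) (φ := fun _ : Fin n => ℂ) j).analyticOnNhd _)

lemma mc_continuous (B : Matrix (Fin n) (Fin n) ℝ) : Continuous (mc B) := by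
  unfold mc
  fun_prop

lemma mc_mc {B C : Matrix (Fin n) (Fin n) ℝ} (h : B * C = 1) (w : Fin n → ℂ) : mc B (mc C w) = w := by
  funext i
  unfold mc
  simp only [mul_sum]
  rw [sum_comm]
  have h1 : ∀ l, ∑ j, (B i j : ℂ) * ((C j l : ℂ) * w l) = ((1 : Matrix (Fin n) (Fin n) ℝ) i l : ℂ) * w l := by
    intro l
    rw [← h, Matrix.mul_apply]
    push_cast
    rw [sum_mul]
    exact sum_congr rfl fun j _ => by ring
  rw [sum_congr rfl fun l _ => h1 l, sum_eq_single i]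
  · rw [Matrix.one_apply_eq]
    simp
  · intro l _ hl
    rw [Matrix.one_apply_ne (Ne.symm hl)]
    simp
  · intro hi
    exact absurd (mem_univ i) hi

/-- a bound for the norm -/
noncomputable def nb (B : Matrix (Fin n) (Fin n) ℝ) : ℝ := 1 + ∑ i, ∑ j, |B i j|

lemma nb_pos (B : Matrix (Fin n) (Fin n) ℝ) : 0 < nb B := by
  unfold nb
  positivity

lemma mc_sub_le (B : Matrix (Fin n) (Fin n) ℝ) (w w' : Fin n → ℂ) : ‖mc B w - mc B w'‖ ≤ nb B * ‖w - w'‖ := by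
  have hnb := (nb_pos B).le
  apply pi_apply_le (by positivity)
  intro i
  have h1 : (mc B w - mc B w') i = ∑ j, (B i j : ℂ) * (w j - w' j) := by
    rw [Pi.sub_apply]
    unfold mc
    rw [← sum_sub_distrib]
    exact sum_congr rfl fun j _ => by ring
  rw [h1]
  calc ‖∑ j, (B i j : ℂ) * (w j - w' j)‖ ≤ ∑ j, |B i j| * ‖w - w'‖ := by
        refine (norm_sum_le _ _).trans (sum_le_sum fun j _ => ?_)
        rw [norm_mul, Complex.norm_real, Real.norm_eq_abs]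
        apply mul_le_mul_of_nonneg_left _ (abs_nonneg _)
        exact norm_le_pi_norm (w - w') j
    _ = (∑ j, |B i j|) * ‖w - w'‖ := by rw [sum_mul]
    _ ≤ nb B * ‖w - w'‖ := by
        apply mul_le_mul_of_nonneg_right _ (norm_nonneg _)
        unfold nb
        have h2 : ∑ j, |B i j| ≤ ∑ i, ∑ j, |B i j| :=
          single_le_sum (f := fun i => ∑ j, |B i j|) (fun i _ => by positivity) (mem_univ i)
        linarith

lemma mc_ball {B : Matrix (Fin n) (Fin n) ℝ} {x w : Fin n → ℂ} {r : ℝ}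
    (hw : w ∈ ball x (r / nb B)) : mc B w ∈ ball (mc B x) r := by
  rw [mem_ball_iff_norm] at hw ⊢
  have h1 := mc_sub_le B w x
  rw [lt_div_iff₀ (nb_pos B)] at hw
  linarith

end Mat

section Data

variable {n : ℕ} {o : Fin n → Ser}

/-- the chosen data -/
noncomputable def LinInd.data (h : LinInd o) : LinData o := Classical.choice h.exists_data

/-- the chosen bounds -/
noncomputable def LinInd.cb (h : LinInd o) (j : Fin n) : ℝ := Classical.choose (h.data.o' j).bound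

lemma LinInd.cb0 (h : LinInd o) (j : Fin n) : 0 ≤ h.cb j := (Classical.choose_spec (h.data.o' j).bound).1

lemma LinInd.cbb (h : LinInd o) (j : Fin n) : ∀ k : ℕ, 1 ≤ k → |(h.data.o' j).τ k| ≤ h.cb j * (1 / k) :=
  (Classical.choose_spec (h.data.o' j).bound).2

/-- the size of the radius that is needed -/
noncomputable def LinInd.kap (h : LinInd o) : ℝ := 8 * (∑ j, h.cb j) * nb h.data.Bi

/-- the tuple -/
noncomputable def LinInd.tup (h : LinInd o) (r : ℝ) (hr : 0 < r) : Tup :=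
  mkTup h.data.o' h.data.mono (r / nb h.data.Bi) (div_pos hr (nb_pos _)) h.cb h.cb0 h.cbb

/-- the transformed point -/
noncomputable def LinInd.px (h : LinInd o) : Fin n → ℝ := fun j => (h.data.o' j).x

lemma LinInd.bi_x (h : LinInd o) (i : Fin n) : ∑ j, h.data.Bi i j * (h.data.o' j).x = (o i).x := by
  have h1 : ∀ j, (h.data.o' j).x = ∑ l, h.data.B j l * (o l).x := h.data.hx
  simp only [h1, mul_sum]
  rw [sum_comm]
  have h2 : ∀ l, ∑ j, h.data.Bi i j * (h.data.B j l * (o l).x) = (1 : Matrix (Fin n) (Fin n) ℝ) i l * (o l).x := by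
    intro l
    rw [← h.data.h2, Matrix.mul_apply, sum_mul]
    exact sum_congr rfl fun j _ => by ring
  rw [sum_congr rfl fun l _ => h2 l, sum_eq_single i]
  · rw [Matrix.one_apply_eq, one_mul]
  · intro l _ hl
    rw [Matrix.one_apply_ne (Ne.symm hl), zero_mul]
  · intro hi
    exact absurd (mem_univ i) hi

lemma LinInd.bi_τ (h : LinInd o) (i : Fin n) (k : ℕ) :
    ∑ j, h.data.Bi i j * (h.data.o' j).τ k = (o i).τ k := by
  have h1 : ∀ j, (h.data.o' j).τ k = ∑ l, h.data.B j l * (o l).τ k := fun j => h.data.hτ j k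
  simp only [h1, mul_sum]
  rw [sum_comm]
  have h2 : ∀ l, ∑ j, h.data.Bi i j * (h.data.B j l * (o l).τ k) = (1 : Matrix (Fin n) (Fin n) ℝ) i l * (o l).τ k := by
    intro l
    rw [← h.data.h2, Matrix.mul_apply, sum_mul]
    exact sum_congr rfl fun j _ => by ring
  rw [sum_congr rfl fun l _ => h2 l, sum_eq_single i]
  · rw [Matrix.one_apply_eq, one_mul]
  · intro l _ hl
    rw [Matrix.one_apply_ne (Ne.symm hl), zero_mul]
  · intro hi
    exact absurd (mem_univ i) hi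

end Data

open Classical in
theorem linMain : ∃ C : ℝ, 0 < C ∧ ∀ M₀ : ℕ, 1 ≤ M₀ → ∀ (n : ℕ → ℕ) (o : ∀ t, Fin (n t) → Ser)
    (h : ∀ t, LinInd (o t)) (r : ℕ → ℝ), (∀ t, 0 < r t) → (∃ t, 0 < n t) →
    (∀ t, (h t).kap ≤ r t * M₀) → ∀ A : Set ℕ, Rich A →
    ∀ (M : ℕ) (𝓕 : ∀ t, Set ((Fin (n t) → ℂ) → ℂ)), (∀ t, (𝓕 t).Countable) →
      (∀ t, ∀ f ∈ 𝓕 t, AnalyticOnNhd ℂ f (ball (rp fun j => (o t j).x) (r t))) →
      (∀ t, ∀ f ∈ 𝓕 t, RealN (fun j => (o t j).x) (r t) f) →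
      ∃ (E : Set ℕ) (z : ∀ t, Fin (n t) → ℝ), E.Infinite ∧ (∀ k ∈ E, k ∈ A ∧ M ≤ k ∧ M₀ ≤ k) ∧
      (∀ K : ℕ, 16 ≤ K → (({k : ℕ | k ∈ E ∧ k ≤ K}.ncard : ℕ) : ℝ) ≤
        C * Real.log (Real.log (Real.log K))) ∧
      (∀ t j, Tendsto (fun N : ℕ => (o t j).x - ∑ k ∈ (range N).filter (· ∈ E), (o t j).τ k) atTop
        (𝓝 (z t j))) ∧
      (∀ t j, |z t j - (o t j).x| < r t) ∧
      ∀ t, ∀ f ∈ 𝓕 t, (¬ ∃ c, ∀ w ∈ ball (rp fun j => (o t j).x) (r t), f w = c) →
        ∀ b : ℕ, 2 ≤ b → Freq b (f (rp (z t))).re := by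
  obtain ⟨C, hC, hmain⟩ := mvMain
  refine ⟨C, hC, fun M₀ hM₀ n o h r hr hn hM A hA M 𝓕 hcount hFA hFR => ?_⟩
  -- the transformed points
  have hx : ∀ t, mc (h t).data.Bi (rp (h t).px) = rp fun j => (o t j).x := by
    intro t
    rw [mc_rp]
    congr 1
    funext i
    exact (h t).bi_x i
  have hx' : ∀ t, mc (h t).data.B (rp fun j => (o t j).x) = rp (h t).px := by
    intro t
    rw [← hx t, mc_mc (h t).data.h1]
  have hr' : ∀ t, 0 < r t / nb (h t).data.Bi := fun t => div_pos (hr t) (nb_pos _)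
  have hball : ∀ t, ∀ w ∈ ball (rp (h t).px) (r t / nb (h t).data.Bi),
      mc (h t).data.Bi w ∈ ball (rp fun j => (o t j).x) (r t) := by
    intro t w hw
    rw [← hx t]
    exact mc_ball hw
  obtain ⟨𝓗, h𝓗⟩ : ∃ 𝓗 : ∀ t, Set ((Fin (n t) → ℂ) → ℂ),
      𝓗 = fun t => (fun f w => f (mc (h t).data.Bi w)) '' 𝓕 t := ⟨_, rfl⟩
  have hHA : ∀ t, ∀ f ∈ 𝓗 t, AnalyticOnNhd ℂ f (ball (rp (h t).px) (r t / nb (h t).data.Bi)) := by
    rw [h𝓗]
    rintro t _ ⟨f, hf, rfl⟩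
    exact (hFA t f hf).comp (mc_analytic _ _) (hball t)
  have hHR : ∀ t, ∀ f ∈ 𝓗 t, RealN (h t).px (r t / nb (h t).data.Bi) f := by
    rw [h𝓗]
    rintro t _ ⟨f, hf, rfl⟩ a ha
    simp only
    rw [mc_rp]
    apply hFR t f hf
    have h1 := hball t (rp a) (rp_mem (hr' t) ha)
    rw [mc_rp, mem_ball_n (hr t)] at h1
    intro j
    have h2 := h1 j
    unfold rp at h2
    rwa [mem_ball_iff_norm, ← Complex.ofReal_sub, Complex.norm_real] at h2
  have hHc : ∀ t, (𝓗 t).Countable := by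
    rw [h𝓗]
    exact fun t => (hcount t).image _
  have key : ∃ (E : Set ℕ) (z : ∀ t, Fin (n t) → ℝ), E.Infinite ∧ (∀ k ∈ E, k ∈ A ∧ M ≤ k ∧ M₀ ≤ k) ∧
      (∀ K : ℕ, 16 ≤ K → (({k : ℕ | k ∈ E ∧ k ≤ K}.ncard : ℕ) : ℝ) ≤
        C * Real.log (Real.log (Real.log K))) ∧
      (∀ t j, Tendsto (fun N : ℕ => ((h t).data.o' j).x - ∑ k ∈ (range N).filter (· ∈ E), ((h t).data.o' j).τ k)
        atTop (𝓝 (z t j))) ∧
      (∀ t j, |z t j - (h t).px j| < r t / nb (h t).data.Bi) ∧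
      ∀ t, ∀ f ∈ 𝓗 t, (¬ ∃ c, ∀ w ∈ ball (rp (h t).px) (r t / nb (h t).data.Bi), f w = c) →
        ∀ b : ℕ, 2 ≤ b → Freq b (f (rp (z t))).re :=
    hmain M₀ hM₀ (fun t => (h t).tup (r t) (hr t)) hn
      (fun t => by
        show 8 * (∑ j, (h t).cb j) ≤ r t / nb (h t).data.Bi * M₀
        rw [div_mul_eq_mul_div, le_div_iff₀ (nb_pos _)]
        exact hM t) A hA M 𝓗 hHc hHA hHR
  obtain ⟨E, z, hEinf, hEA, hEK, hl, hz, hfreq⟩ := key
  refine ⟨E, fun t i => ∑ j, (h t).data.Bi i j * z t j, hEinf, hEA, hEK, fun t i => ?_, fun t i => ?_,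
    fun t f hf hnc b hb => ?_⟩
  · have h1 : Tendsto (fun N : ℕ => ∑ j, (h t).data.Bi i j * (((h t).data.o' j).x -
        ∑ k ∈ (range N).filter (· ∈ E), ((h t).data.o' j).τ k)) atTop (𝓝 (∑ j, (h t).data.Bi i j * z t j)) :=
      tendsto_finsetSum _ fun j _ => (hl t j).const_mul _
    refine h1.congr fun N => ?_
    have e1 : ∑ j, (h t).data.Bi i j * ∑ k ∈ (range N).filter (· ∈ E), ((h t).data.o' j).τ k =
        ∑ k ∈ (range N).filter (· ∈ E), (o t i).τ k := by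
      rw [sum_congr rfl fun j _ => mul_sum _ _ _, sum_comm]
      exact sum_congr rfl fun k _ => (h t).bi_τ i k
    rw [← e1, ← (h t).bi_x i, ← sum_sub_distrib]
    exact sum_congr rfl fun j _ => mul_sub _ _ _
  · have h1 := hball t (rp (z t)) (rp_mem (hr' t) (hz t))
    rw [mc_rp, mem_ball_n (hr t)] at h1
    have h2 := h1 i
    unfold rp at h2
    rwa [mem_ball_iff_norm, ← Complex.ofReal_sub, Complex.norm_real] at h2
  · have h1 := hfreq t (fun w => f (mc (h t).data.Bi w)) (by rw [h𝓗]; exact ⟨f, hf, rfl⟩) (by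
      rintro ⟨c, hc⟩
      apply hnc
      refine ⟨c, ?_⟩
      have hxb : (rp fun j => (o t j).x) ∈ ball (rp fun j => (o t j).x) (r t) := mem_ball_self (hr t)
      have h3 := (hFA t f hf).eqOn_of_preconnected_of_eventuallyEq (analyticOnNhd_const (v := c))
        (convex_ball _ _).isPreconnected hxb (by
          have h4 : ∀ᶠ w in 𝓝 (rp fun j => (o t j).x), mc (h t).data.B w ∈
              ball (rp (h t).px) (r t / nb (h t).data.Bi) := by
            apply (mc_continuous (h t).data.B).continuousAt.eventually_mem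
            rw [hx' t]
            exact ball_mem_nhds _ (hr' t)
          filter_upwards [h4] with w hw
          have h5 := hc _ hw
          rwa [mc_mc (h t).data.h2] at h5)
      exact fun w hw => h3 hw) b hb
    rw [mc_rp] at h1
    exact h1

open Classical in
/-- **finitely many series** -/
theorem linOne : ∃ C : ℝ, 0 < C ∧ ∀ (n : ℕ) (o : Fin n → Ser), 0 < n → LinInd o →
    ∀ r : ℝ, 0 < r → ∀ A : Set ℕ, Rich A →
    ∀ (M : ℕ) (𝓕 : Set ((Fin n → ℂ) → ℂ)), 𝓕.Countable →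
      (∀ f ∈ 𝓕, AnalyticOnNhd ℂ f (ball (rp fun j => (o j).x) r)) →
      (∀ f ∈ 𝓕, RealN (fun j => (o j).x) r f) →
      ∀ R : Subring ℝ, Countable R →
      ∃ (E : Set ℕ) (z : Fin n → ℝ), E.Infinite ∧ (∀ k ∈ E, k ∈ A ∧ M ≤ k ∧ 1 ≤ k) ∧
      (∀ K : ℕ, 16 ≤ K → (({k : ℕ | k ∈ E ∧ k ≤ K}.ncard : ℕ) : ℝ) ≤
        C * Real.log (Real.log (Real.log K))) ∧
      (∀ j, Tendsto (fun N : ℕ => (o j).x - ∑ k ∈ (range N).filter (· ∈ E), (o j).τ k) atTop (𝓝 (z j))) ∧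
      (∀ j, |z j - (o j).x| < r) ∧
      AlgebraicIndependent R z ∧
      (∀ f ∈ 𝓕, (¬ ∃ c, ∀ w ∈ ball (rp fun j => (o j).x) r, f w = c) → ∀ b : ℕ, 2 ≤ b → Freq b (f (rp z)).re) ∧
      ∀ (l : ℕ) (f : Fin l → (Fin n → ℂ) → ℂ), (∀ j, f j ∈ 𝓕) →
        (∀ v : Fin l → ℤ, v ≠ 0 →
          ¬ ∃ c : ℂ, ∀ w ∈ ball (rp fun j => (o j).x) r, ∑ j, (v j : ℂ) * f j w = c) →
        ∀ b : ℕ, 2 ≤ b → NT b fun j => (f j (rp z)).re := by
  obtain ⟨C, hC, hmain⟩ := linMain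
  refine ⟨C, hC, fun n o hn h r hr A hA M 𝓕 hcount hFA hFR R hR => ?_⟩
  have := countable_mvN (n := n) R
  obtain ⟨M₀, hM₀⟩ := exists_nat_ge (max 1 (h.kap / r))
  have hM1 : (1 : ℝ) ≤ M₀ := (le_max_left _ _).trans hM₀
  have hM8 : h.kap / r ≤ M₀ := (le_max_right _ _).trans hM₀
  have hM1' : 1 ≤ M₀ := by exact_mod_cast hM1
  rw [div_le_iff₀ hr] at hM8
  obtain ⟨E, z, hEinf, hEA, hEK, hl, hz, hfreq⟩ := hmain M₀ hM1' (fun _ => n) (fun _ => o) (fun _ => h)
    (fun _ => r) (fun _ => hr) ⟨0, hn⟩ (fun _ => by linarith) A hA M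
    (fun _ => combsN 𝓕 ∪ Set.range (polN R) ∪ 𝓕)
    (fun _ => ((combsN_countable hcount).union (Set.countable_range _)).union hcount)
    (by
      rintro _ f ((hf | ⟨P, rfl⟩) | hf)
      · exact combsN_analytic hFA f hf
      · exact polN_analytic R P _
      · exact hFA f hf)
    (by
      rintro _ f ((hf | ⟨P, rfl⟩) | hf)
      · exact combsN_real hFR f hf
      · intro a _
        rw [polN_real, Complex.ofReal_im]
      · exact hFR f hf)
  refine ⟨E, z 0, hEinf, fun k hk => ⟨(hEA k hk).1, (hEA k hk).2.1, hM1'.trans (hEA k hk).2.2⟩, hEK,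
    fun j => hl 0 j, fun j => hz 0 j, ?_, fun f hf => hfreq 0 f (Or.inr hf), ?_⟩
  · exact algInd_of_freqN R hr fun P hP => hfreq 0 _ (Or.inl (Or.inr ⟨P, rfl⟩)) hP
  · intro l f hf hnc b hb
    exact nt_of_combsN (fun f hf hc => hfreq 0 f (Or.inl (Or.inl hf)) hc) f hf hnc b hb

open Classical in
/-- **infinitely many series** and entire functions -/
theorem linAll : ∃ C : ℝ, 0 < C ∧ ∀ o : ℕ → Ser, (∀ t : ℕ, LinInd fun j : Fin t => o j) →
    ∀ A : Set ℕ, Rich A →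
    ∀ (M : ℕ) (𝓕 : ∀ t : ℕ, Set ((Fin t → ℂ) → ℂ)), (∀ t, (𝓕 t).Countable) →
      (∀ t, ∀ f ∈ 𝓕 t, AnalyticOnNhd ℂ f Set.univ) →
      (∀ t, ∀ f ∈ 𝓕 t, ∀ a : Fin t → ℝ, (f (rp a)).im = 0) →
      ∀ R : Subring ℝ, Countable R →
      ∃ (E : Set ℕ) (z : ℕ → ℝ), E.Infinite ∧ (∀ k ∈ E, k ∈ A ∧ M ≤ k ∧ 1 ≤ k) ∧
      (∀ K : ℕ, 16 ≤ K → (({k : ℕ | k ∈ E ∧ k ≤ K}.ncard : ℕ) : ℝ) ≤
        C * Real.log (Real.log (Real.log K))) ∧
      (∀ j, Tendsto (fun N : ℕ => (o j).x - ∑ k ∈ (range N).filter (· ∈ E), (o j).τ k) atTop (𝓝 (z j))) ∧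
      AlgebraicIndependent R z ∧
      (∀ t, ∀ f ∈ 𝓕 t, (¬ ∃ c, ∀ w, f w = c) → ∀ b : ℕ, 2 ≤ b → Freq b (f (rp fun i : Fin t => z i)).re) ∧
      ∀ (t l : ℕ) (f : Fin l → (Fin t → ℂ) → ℂ), (∀ j, f j ∈ 𝓕 t) →
        (∀ v : Fin l → ℤ, v ≠ 0 → ¬ ∃ c : ℂ, ∀ w, ∑ j, (v j : ℂ) * f j w = c) →
        ∀ b : ℕ, 2 ≤ b → NT b fun j => (f j (rp fun i : Fin t => z i)).re := by
  obtain ⟨C, hC, hmain⟩ := linMain
  refine ⟨C, hC, fun o h A hA M 𝓕 hcount hFA hFR R hR => ?_⟩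
  have := fun t => countable_mvN (n := t) R
  have hr0 : ∀ t, 0 < max 1 (h t).kap := fun t => lt_max_of_lt_left one_pos
  obtain ⟨E, z, hEinf, hEA, hEK, hl, hz, hfreq⟩ := hmain 1 le_rfl (fun t => t) (fun t j => o j) h
    (fun t => max 1 (h t).kap) hr0 ⟨1, one_pos⟩ (fun t => by
      push_cast
      rw [mul_one]
      exact le_max_right _ _) A hA M
    (fun t => combsN (𝓕 t) ∪ Set.range (polN R) ∪ 𝓕 t)
    (fun t => ((combsN_countable (hcount t)).union (Set.countable_range _)).union (hcount t))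
    (by
      rintro t f ((hf | ⟨P, rfl⟩) | hf)
      · exact combsN_analytic (fun f hf => (hFA t f hf).mono (Set.subset_univ _)) f hf
      · exact polN_analytic R P _
      · exact (hFA t f hf).mono (Set.subset_univ _))
    (by
      rintro t f ((hf | ⟨P, rfl⟩) | hf)
      · exact combsN_real (fun f hf a _ => hFR t f hf a) f hf
      · intro a _
        rw [polN_real, Complex.ofReal_im]
      · exact fun a _ => hFR t f hf a)
  -- one sequence of limits
  obtain ⟨y, hy⟩ : ∃ y : ℕ → ℝ, y = fun j => z (j + 1) ⟨j, Nat.lt_succ_self j⟩ := ⟨_, rfl⟩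
  have hyz : ∀ t (j : Fin t), z t j = y j := by
    intro t j
    rw [hy]
    exact tendsto_nhds_unique (hl t j) (hl (j + 1) ⟨j, Nat.lt_succ_self j⟩)
  have hyz' : ∀ t, z t = fun j : Fin t => y j := fun t => funext (hyz t)
  refine ⟨E, y, hEinf, fun k hk => ⟨(hEA k hk).1, (hEA k hk).2.1, (hEA k hk).2.2⟩, hEK,
    fun j => ?_, ?_, ?_, ?_⟩
  · rw [hy]
    exact hl (j + 1) ⟨j, Nat.lt_succ_self j⟩
  · rw [algebraicIndependent_iff]
    intro P hP
    obtain ⟨t, ht⟩ : ∃ t : ℕ, (P.vars : Set ℕ) ⊆ Set.range (Fin.val : Fin t → ℕ) := by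
      refine ⟨P.vars.sup id + 1, fun i hi => ⟨⟨i, ?_⟩, rfl⟩⟩
      have : i ≤ P.vars.sup id := le_sup (f := id) (mem_coe.1 hi)
      omega
    obtain ⟨Q, hQ⟩ := MvPolynomial.exists_rename_eq_of_vars_subset_range P Fin.val Fin.val_injective ht
    have hind : AlgebraicIndependent R (z t) :=
      algInd_of_freqN R (hr0 t) fun P hP => hfreq t _ (Or.inl (Or.inr ⟨P, rfl⟩)) hP
    rw [algebraicIndependent_iff] at hind
    rw [← hQ, MvPolynomial.aeval_rename] at hP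
    have h1 : y ∘ (Fin.val : Fin t → ℕ) = z t := by
      rw [hyz']
      rfl
    rw [h1] at hP
    have h2 : Q = 0 := hind Q hP
    rw [← hQ, h2]
    exact map_zero (MvPolynomial.rename Fin.val)
  · intro t f hf hnc b hb
    have h1 := hfreq t f (Or.inr hf) (by
      rintro ⟨c', hc'⟩
      apply hnc
      refine ⟨c', fun w => ?_⟩
      have h3 := (hFA t f hf).eqOn_of_preconnected_of_eventuallyEq (analyticOnNhd_const (v := c'))
        isPreconnected_univ (Set.mem_univ (rp fun j : Fin t => (o j).x)) (by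
          filter_upwards [ball_mem_nhds _ (hr0 t)] with w hw
          exact hc' w hw)
      exact h3 (Set.mem_univ w)) b hb
    rw [hyz'] at h1
    exact h1
  · intro t l f hf hnc b hb
    have h1 := nt_of_combsN (fun f hf hc => hfreq t f (Or.inl (Or.inl hf)) hc) f hf (fun v hv => by
      rintro ⟨c', hc'⟩
      apply hnc v hv
      refine ⟨c', fun w => ?_⟩
      have h2 : AnalyticOnNhd ℂ (fun w => ∑ j, (v j : ℂ) * f j w) Set.univ := by
        apply Finset.analyticOnNhd_fun_sum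
        intro j _
        exact analyticOnNhd_const.mul (hFA t _ (hf j))
      have h3 := h2.eqOn_of_preconnected_of_eventuallyEq (analyticOnNhd_const (v := c')) isPreconnected_univ
        (Set.mem_univ (rp fun j : Fin t => (o j).x)) (by
          filter_upwards [ball_mem_nhds _ (hr0 t)] with w hw
          exact hc' w hw)
      exact h3 (Set.mem_univ w)) b hb
    rw [hyz'] at h1
    exact h1

end Pool.Agent.H608.Ge
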