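import Pool.Agent.H608.Ge.Lead
import Pool.Agent.H608.Ge.Jn

/-!
# Infinitely many series: polynomials in infinitely many variables and entire functions
-/

set_option autoImplicit false

namespace Pool.Agent.H608.Ge

open Finset Filter Topology Metric
open Pool.Agent.H608.Sp (Rich Freq nt_of_freq)
open Pool.Agent.W206.ND (NT)

open Classical in
theorem linPol : ∃ C : ℝ, 0 < C ∧ ∀ o : ℕ → Ser, (∀ t : ℕ, LinInd fun j : Fin t => o j) →
    ∀ A : Set ℕ, Rich A → ∀ (M : ℕ) (R : Subring ℝ), Countable R →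
    ∀ 𝓕 : ∀ t : ℕ, Set ((Fin t → ℂ) → ℂ), (∀ t, (𝓕 t).Countable) →
      (∀ t, ∀ f ∈ 𝓕 t, AnalyticOnNhd ℂ f Set.univ ∧ ∀ a : Fin t → ℝ, (f fun i => (a i : ℂ)).im = 0) →
      ∃ (E : Set ℕ) (z : ℕ → ℝ), (∀ k ∈ E, k ∈ A ∧ M ≤ k ∧ 1 ≤ k) ∧
      (∀ K : ℕ, 16 ≤ K → (({k : ℕ | k ∈ E ∧ k ≤ K}.ncard : ℕ) : ℝ) ≤
        C * Real.log (Real.log (Real.log K))) ∧
      (∀ j, Tendsto (fun N : ℕ => (o j).x - ∑ k ∈ (range N).filter (· ∈ E), (o j).τ k) atTop (𝓝 (z j))) ∧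
      AlgebraicIndependent R z ∧
      (∀ (n : ℕ) (P : Fin n → MvPolynomial ℕ R),
          (∀ v : Fin n → ℤ, v ≠ 0 → ∀ c, ∑ j, v j • P j ≠ MvPolynomial.C c) →
          ∀ b : ℕ, 2 ≤ b → NT b fun j => MvPolynomial.aeval z (P j)) ∧
      ∀ (t n : ℕ) (f : Fin n → (Fin t → ℂ) → ℂ), (∀ j, f j ∈ 𝓕 t) →
        (∀ v : Fin n → ℤ, v ≠ 0 → ¬ ∃ c : ℂ, ∀ w, ∑ j, (v j : ℂ) * f j w = c) →
        ∀ b : ℕ, 2 ≤ b → NT b fun j => (f j fun i => ((z i : ℝ) : ℂ)).re := by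
  obtain ⟨C, hC, hmain⟩ := linAll
  refine ⟨C, hC, fun o hind A hA M R hR 𝓕 hF hF' => ?_⟩
  have := fun t => countable_mvN (n := t) R
  obtain ⟨E, z, _, hEA, hEK, hl, _, hfreq, hNT⟩ := hmain o hind
    A hA M (fun t => 𝓕 t ∪ Set.range (polN R)) (fun t => (hF t).union (Set.countable_range _))
    (by
      rintro t f (hf | ⟨P, rfl⟩)
      · exact (hF' t f hf).1
      · exact polN_analytic R P _)
    (by
      rintro t f (hf | ⟨P, rfl⟩)
      · exact (hF' t f hf).2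
      · intro a
        rw [polN_real, Complex.ofReal_im]) R hR
  have hP : ∀ P : MvPolynomial ℕ R, (∀ c, P ≠ MvPolynomial.C c) → ∀ b : ℕ, 2 ≤ b → Freq b (ev R z P) := by
    intro P hP b hb
    obtain ⟨t, Q, hQ⟩ := exists_fin R fun _ : Fin 1 => P
    have h1 := hfreq t (polN R (Q 0)) (Or.inr ⟨_, rfl⟩) (fun h => by
      obtain ⟨c, hc⟩ := h
      obtain ⟨c, hc⟩ := polN_const R (Q 0) (x := fun _ => 0) one_pos ⟨c, fun w _ => hc w⟩
      apply hP c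
      rw [← hQ 0, hc]
      exact MvPolynomial.rename_C _ _) b hb
    have h2 : polN R (Q 0) (rp fun i : Fin t => z i) = ((ev R z P : ℝ) : ℂ) := by
      rw [polN_real]
      congr 1
      rw [← ev_eq_aeval, ← hQ 0, MvPolynomial.aeval_rename]
      rfl
    rw [h2, Complex.ofReal_re] at h1
    exact h1
  exact ⟨E, z, hEA, hEK, hl, algInd_of_freq R _ hP, fun n P hP' b hb => nt_of_poly R _ hP P hP' b hb,
    fun t n f hf hnc b hb => hNT t n f (fun j => Or.inl (hf j)) hnc b hb⟩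

end Pool.Agent.H608.Ge
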