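import Pool.Agent.H608.Ge.Lead

/-!
# Series for the logarithms of the integers
-/

set_option autoImplicit false

namespace Pool.Agent.H608.Ge

open Finset Filter Topology Metric Asymptotics

/-- the terms: `∑ 1 / n` over the `k`-th block of `m` integers minus `1 / k` -/
noncomputable def ul (m k : ℕ) : ℝ := (∑ j ∈ range m, 1 / ((m : ℝ) * k - j)) - 1 / k

/-- the function with the values `ul m k` at `1 / k` -/
noncomputable def gl (m : ℕ) (w : ℂ) : ℂ := (∑ j ∈ range m, w / ((m : ℂ) - j * w)) - w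

lemma ul_pos {m k : ℕ} (hm : 1 ≤ m) (hk : 1 ≤ k) {j : ℕ} (hj : j < m) : 0 < (m : ℝ) * k - j := by
  have h1 : (j : ℝ) < m := by exact_mod_cast hj
  have h2 : (1 : ℝ) ≤ k := by exact_mod_cast hk
  have h3 : (1 : ℝ) ≤ m := by exact_mod_cast hm
  nlinarith

lemma ul_nonneg {m k : ℕ} (hm : 1 ≤ m) (hk : 1 ≤ k) : 0 ≤ ul m k := by
  unfold ul
  have h2 : (1 : ℝ) ≤ k := by exact_mod_cast hk
  have h3 : (1 : ℝ) ≤ m := by exact_mod_cast hm
  have h1 : ∑ _j ∈ range m, 1 / ((m : ℝ) * k) ≤ ∑ j ∈ range m, 1 / ((m : ℝ) * k - j) := by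
    apply sum_le_sum
    intro j hj
    apply one_div_le_one_div_of_le (ul_pos hm hk (mem_range.1 hj))
    have : (0 : ℝ) ≤ j := Nat.cast_nonneg j
    linarith
  rw [sum_const, card_range, nsmul_eq_mul] at h1
  have h4 : (m : ℝ) * (1 / ((m : ℝ) * k)) = 1 / k := by
    field_simp
  rw [h4] at h1
  linarith

lemma ul_rep {m k : ℕ} (hk : 1 ≤ k) : (ul m k : ℂ) = gl m (1 / (k : ℂ)) := by
  unfold ul gl
  push_cast
  congr 1
  refine sum_congr rfl fun j _ => ?_
  have hk0 : (k : ℂ) ≠ 0 := by exact_mod_cast (by omega : k ≠ 0)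
  have h1 : (m : ℂ) - j * (1 / k) = ((m : ℂ) * k - j) / k := by
    field_simp
  rw [h1, div_div_eq_mul_div, one_div_mul_cancel hk0]

lemma ul_sum {m : ℕ} (hm : 1 ≤ m) (N : ℕ) :
    ∑ k ∈ range N, ul m (k + 1) = ((harmonic (m * N) : ℚ) : ℝ) - ((harmonic N : ℚ) : ℝ) := by
  induction N with
  | zero => simp
  | succ N ih =>
    rw [sum_range_succ, ih, harmonic_succ, Nat.mul_succ]
    have h1 : ((harmonic (m * N + m) : ℚ) : ℝ) = ((harmonic (m * N) : ℚ) : ℝ) +
        ∑ j ∈ range m, 1 / ((m : ℝ) * ((N + 1 : ℕ) : ℝ) - j) := by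
      unfold harmonic
      rw [sum_range_add]
      push_cast
      congr 1
      rw [← sum_range_reflect]
      refine sum_congr rfl fun j hj => ?_
      have hj' := mem_range.1 hj
      rw [one_div]
      congr 1
      have h2 : ((m - 1 - j : ℕ) : ℝ) = m - 1 - j := by
        rw [Nat.cast_sub (by omega), Nat.cast_sub (by omega)]
        push_cast
        ring
      rw [h2]
      ring
    rw [h1]
    unfold ul
    push_cast
    ring

lemma hasSum_ul {m : ℕ} (hm : 1 ≤ m) : HasSum (fun i : ℕ => ul m (i + 1)) (Real.log m) := by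
  rw [hasSum_iff_tendsto_nat_of_nonneg fun i => ul_nonneg hm (by omega)]
  have hm0 : (0 : ℝ) < m := by exact_mod_cast hm
  have h1 := Real.tendsto_harmonic_sub_log
  have h2 : Tendsto (fun N : ℕ => m * N) atTop atTop := tendsto_id.const_mul_atTop' (by omega)
  have h3 := (h1.comp h2).sub h1
  rw [sub_self] at h3
  have h4 := h3.add_const (Real.log m)
  rw [zero_add] at h4
  refine h4.congr' ?_
  filter_upwards [eventually_ge_atTop 1] with N hN
  have hN0 : (0 : ℝ) < N := by exact_mod_cast hN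
  rw [ul_sum hm]
  simp only [Function.comp]
  push_cast
  rw [Real.log_mul hm0.ne' hN0.ne']
  ring

lemma gl_diff {m j : ℕ} {w : ℂ} (h : (m : ℂ) - j * w ≠ 0) : DifferentiableAt ℂ (fun w : ℂ => w / ((m : ℂ) - j * w)) w := by
  fun_prop (disch := exact h)

lemma gl_ne {m j : ℕ} (hj : j < m) {M : ℕ} (hM : 2 ≤ M) (hmM : m ≤ M) {w : ℂ}
    (hw : ‖w‖ ≤ (M : ℝ) / ((M : ℝ) - 1)) (h : ‖w‖ < (M : ℝ) / ((M : ℝ) - 1) ∨ m < M ∨ j + 1 < M) :
    (m : ℂ) - j * w ≠ 0 := by
  intro h0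
  have hM1 : (1 : ℝ) < M := by exact_mod_cast (by omega : 1 < M)
  have h1 : (m : ℝ) = j * ‖w‖ := by
    have h2 : (m : ℂ) = j * w := sub_eq_zero.1 h0
    have h3 := congrArg norm h2
    rw [norm_mul, Complex.norm_natCast, Complex.norm_natCast] at h3
    exact h3
  have hj1 : (j : ℝ) + 1 ≤ m := by exact_mod_cast hj
  have hmM' : (m : ℝ) ≤ M := by exact_mod_cast hmM
  have hj0 : (0 : ℝ) < j := by
    rcases Nat.eq_zero_or_pos j with h | h
    · rw [h, Nat.cast_zero, zero_mul] at h1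
      have : (0 : ℝ) < m := by exact_mod_cast (by omega : 0 < m)
      linarith
    · exact_mod_cast h
  have h4 : ‖w‖ * (M - 1) ≤ M := by
    rwa [le_div_iff₀ (by linarith)] at hw
  rcases h with h | h | h
  · rw [lt_div_iff₀ (by linarith)] at h
    nlinarith [mul_lt_mul_of_pos_left h hj0]
  · have h5 : (m : ℝ) + 1 ≤ M := by exact_mod_cast h
    nlinarith [mul_le_mul_of_nonneg_left h4 hj0.le]
  · have h5 : (j : ℝ) + 1 + 1 ≤ M := by exact_mod_cast h
    nlinarith [mul_le_mul_of_nonneg_left h4 hj0.le]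

lemma gl_diff_ball {m M : ℕ} (hm : 1 ≤ m) (hM : 2 ≤ M) (hmM : m ≤ M) {w : ℂ}
    (hw : w ∈ ball (0 : ℂ) ((M : ℝ) / ((M : ℝ) - 1))) : DifferentiableAt ℂ (gl m) w := by
  rw [mem_ball_zero_iff] at hw
  unfold gl
  apply DifferentiableAt.sub _ differentiableAt_fun_id
  apply DifferentiableAt.fun_sum
  intro j hj
  exact gl_diff (gl_ne (mem_range.1 hj) hM hmM hw.le (Or.inl hw))

/-- the series for `log m` -/
noncomputable def serL (m : ℕ) (hm : 2 ≤ m) : Ser where
  x := Real.log m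
  τ k := ul m k
  g := gl m
  gd := by
    have hM1 : (1 : ℝ) < m := by exact_mod_cast (by omega : 1 < m)
    filter_upwards [ball_mem_nhds (0 : ℂ) (show 0 < (m : ℝ) / ((m : ℝ) - 1) by
      apply div_pos <;> linarith)] with w hw
    exact gl_diff_ball (by omega) hm le_rfl hw
  g0 := by
    unfold gl
    simp
  rep := by
    filter_upwards [eventually_ge_atTop 1] with k hk
    exact ul_rep hk

/-- the function of the largest index has a pole closer to zero -/
lemma gl_pole {M : ℕ} (hM : 2 ≤ M) (c : ℂ) (r : ℂ → ℂ)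
    (hr : ContinuousAt r ((M : ℂ) / ((M : ℂ) - 1)))
    (h : ∀ w ∈ ball (0 : ℂ) ((M : ℝ) / ((M : ℝ) - 1)), c * (w / ((M : ℂ) - ((M - 1 : ℕ) : ℂ) * w)) + r w = 0) :
    c = 0 := by
  have hM1 : (1 : ℝ) < M := by exact_mod_cast (by omega : 1 < M)
  obtain ⟨w₀, hw₀⟩ : ∃ w₀ : ℂ, w₀ = (M : ℂ) / ((M : ℂ) - 1) := ⟨_, rfl⟩
  have hcast : ((M - 1 : ℕ) : ℂ) = (M : ℂ) - 1 := by
    rw [Nat.cast_sub (by omega)]
    push_cast
    rfl
  have hM0 : (M : ℂ) - 1 ≠ 0 := by
    have : ((M : ℝ) - 1 : ℝ) ≠ 0 := by linarith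
    exact_mod_cast this
  have hMne : (M : ℂ) ≠ 0 := by exact_mod_cast (by omega : M ≠ 0)
  have hw₀M : ((M : ℂ) - 1) * w₀ = M := by
    rw [hw₀]
    field_simp
  have hw₀ne : w₀ ≠ 0 := by
    rw [hw₀]
    exact div_ne_zero hMne hM0
  rw [hcast] at h
  -- the function without denominator
  obtain ⟨G, hG⟩ : ∃ G : ℂ → ℂ, G = fun w => c * w + r w * ((M : ℂ) - ((M : ℂ) - 1) * w) := ⟨_, rfl⟩
  have hGc : ContinuousAt G w₀ := by
    rw [hG]
    rw [← hw₀] at hr
    fun_prop
  have hG0 : ∀ t ∈ Set.Ioo (0 : ℝ) 1, G ((t : ℂ) * w₀) = 0 := by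
    intro t ht
    have hnorm : ‖w₀‖ = (M : ℝ) / ((M : ℝ) - 1) := by
      rw [hw₀, norm_div, Complex.norm_natCast]
      congr 1
      have : (M : ℂ) - 1 = (((M : ℝ) - 1 : ℝ) : ℂ) := by push_cast; rfl
      rw [this, Complex.norm_real, Real.norm_of_nonneg (by linarith)]
    have hpos : 0 < (M : ℝ) / ((M : ℝ) - 1) := by apply div_pos <;> linarith
    have h1 : (t : ℂ) * w₀ ∈ ball (0 : ℂ) ((M : ℝ) / ((M : ℝ) - 1)) := by
      rw [mem_ball_zero_iff, norm_mul, hnorm, Complex.norm_real, Real.norm_of_nonneg ht.1.le]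
      nlinarith [ht.2]
    have h2 := h _ h1
    have h3 : (M : ℂ) - ((M : ℂ) - 1) * ((t : ℂ) * w₀) = M * (1 - t) := by
      linear_combination (-(t : ℂ)) * hw₀M
    have h4 : (M : ℂ) * (1 - t) ≠ 0 := by
      apply mul_ne_zero hMne
      have : (1 - t : ℝ) ≠ 0 := by linarith [ht.2]
      exact_mod_cast this
    rw [h3] at h2
    rw [hG]
    simp only
    rw [h3]
    have h5 : c * ((t : ℂ) * w₀) + r ((t : ℂ) * w₀) * ((M : ℂ) * (1 - t)) =
        (c * ((t : ℂ) * w₀ / ((M : ℂ) * (1 - t))) + r ((t : ℂ) * w₀)) * ((M : ℂ) * (1 - t)) := by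
      rw [add_mul, mul_assoc c, div_mul_cancel₀ _ h4]
    rw [h5, h2, zero_mul]
  have hlim : Tendsto (fun t : ℝ => G ((t : ℂ) * w₀)) (𝓝[<] 1) (𝓝 (G w₀)) := by
    have h1 : Tendsto (fun t : ℝ => (t : ℂ) * w₀) (𝓝[<] 1) (𝓝 w₀) := by
      have h2 : Continuous fun t : ℝ => (t : ℂ) * w₀ := by fun_prop
      have h3 := (h2.tendsto 1).mono_left (nhdsWithin_le_nhds (s := Set.Iio (1 : ℝ)))
      simpa using h3
    exact hGc.tendsto.comp h1
  have h0 : G w₀ = 0 := by
    refine tendsto_nhds_unique hlim (tendsto_const_nhds.congr' ?_)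
    filter_upwards [Ioo_mem_nhdsLT (zero_lt_one (α := ℝ))] with t ht
    exact (hG0 t ht).symm
  rw [hG] at h0
  simp only at h0
  rw [hw₀M, sub_self, mul_zero, add_zero] at h0
  exact (mul_eq_zero.1 h0).resolve_right hw₀ne

lemma gl_split {M : ℕ} (hM : 2 ≤ M) (w : ℂ) :
    gl M w = w / ((M : ℂ) - ((M - 1 : ℕ) : ℂ) * w) + ((∑ j ∈ range (M - 1), w / ((M : ℂ) - j * w)) - w) := by
  unfold gl
  obtain ⟨N, rfl⟩ : ∃ N, M = N + 1 := ⟨M - 1, by omega⟩
  rw [sum_range_succ, Nat.add_sub_cancel]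
  ring

lemma linInd_L (t : ℕ) : LinInd fun j : Fin t => serL (j + 2) (Nat.le_add_left 2 _) := by
  classical
  intro c hc hz
  obtain ⟨i, hi⟩ : ∃ i, c i ≠ 0 := by
    by_contra hcon
    push Not at hcon
    exact hc (funext hcon)
  have hne : (univ.filter fun j : Fin t => c j ≠ 0).Nonempty := ⟨i, by simp [hi]⟩
  obtain ⟨j₀, hj₀⟩ : ∃ j₀, j₀ = (univ.filter fun j : Fin t => c j ≠ 0).max' hne := ⟨_, rfl⟩
  have h0 : c j₀ ≠ 0 := by
    have := max'_mem _ hne
    rw [← hj₀, mem_filter] at this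
    exact this.2
  have hlt : ∀ j, j ≠ j₀ → c j ≠ 0 → (j : ℕ) < j₀ := by
    intro j hj hcj
    have h1 : j ≤ j₀ := by
      rw [hj₀]
      exact le_max' _ _ (by simp [hcj])
    exact lt_of_le_of_ne h1 fun h => hj (Fin.ext h)
  obtain ⟨M, hM⟩ : ∃ M, M = (j₀ : ℕ) + 2 := ⟨_, rfl⟩
  have hM2 : 2 ≤ M := by omega
  have hM1 : (1 : ℝ) < M := by exact_mod_cast (by omega : 1 < M)
  have hpos : 0 < (M : ℝ) / ((M : ℝ) - 1) := by apply div_pos <;> linarith
  -- the identity on the whole ball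
  have hd : ∀ w ∈ ball (0 : ℂ) ((M : ℝ) / ((M : ℝ) - 1)),
      DifferentiableAt ℂ (fun w => ∑ j, (c j : ℂ) * gl ((j : ℕ) + 2) w) w := by
    intro w hw
    apply DifferentiableAt.fun_sum
    intro j _
    by_cases hcj : c j = 0
    · rw [hcj]
      simp only [Complex.ofReal_zero, zero_mul]
      exact differentiableAt_const _
    · apply DifferentiableAt.const_mul
      apply gl_diff_ball (by omega) hM2 _ hw
      by_cases hjj : j = j₀
      · rw [hjj, hM]
      · have := hlt j hjj hcj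
        omega
  have hzero : ∀ w ∈ ball (0 : ℂ) ((M : ℝ) / ((M : ℝ) - 1)), ∑ j, (c j : ℂ) * gl ((j : ℕ) + 2) w = 0 := by
    have han : AnalyticOnNhd ℂ (fun w => ∑ j, (c j : ℂ) * gl ((j : ℕ) + 2) w)
        (ball (0 : ℂ) ((M : ℝ) / ((M : ℝ) - 1))) := by
      apply DifferentiableOn.analyticOnNhd _ isOpen_ball
      exact fun w hw => (hd w hw).differentiableWithinAt
    have h1 := han.eqOn_of_preconnected_of_eventuallyEq (analyticOnNhd_const (v := (0 : ℂ)))
      (convex_ball _ _).isPreconnected (mem_ball_self hpos) hz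
    exact fun w hw => h1 hw
  have hcont : ∀ (m j : ℕ), j < m → m ≤ M → (m < M ∨ j + 1 < M) →
      ContinuousAt (fun w : ℂ => w / ((m : ℂ) - j * w)) ((M : ℂ) / ((M : ℂ) - 1)) := by
    intro m j hj hmM h
    have hnorm : ‖(M : ℂ) / ((M : ℂ) - 1)‖ = (M : ℝ) / ((M : ℝ) - 1) := by
      rw [norm_div, Complex.norm_natCast]
      congr 1
      have : (M : ℂ) - 1 = (((M : ℝ) - 1 : ℝ) : ℂ) := by push_cast; rfl
      rw [this, Complex.norm_real, Real.norm_of_nonneg (by linarith)]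
    exact (gl_diff (gl_ne hj hM2 hmM hnorm.le (Or.inr h))).continuousAt
  apply h0
  have hfin := gl_pole hM2 (c j₀ : ℂ) (fun w => (c j₀ : ℂ) * ((∑ j ∈ range (M - 1), w / ((M : ℂ) - j * w)) - w) +
    ∑ j ∈ univ.erase j₀, (c j : ℂ) * gl ((j : ℕ) + 2) w) (by
      apply ContinuousAt.add
      · apply ContinuousAt.mul continuousAt_const
        apply ContinuousAt.sub _ continuousAt_id
        apply tendsto_finsetSum
        intro j hj
        have hj' := mem_range.1 hj
        exact hcont M j (by omega) le_rfl (Or.inr (by omega))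
      · apply tendsto_finsetSum
        intro j hj
        by_cases hcj : c j = 0
        · rw [hcj]
          simp only [Complex.ofReal_zero, zero_mul]
          exact tendsto_const_nhds
        · have hlt' := hlt j (ne_of_mem_erase hj) hcj
          have : ContinuousAt (gl ((j : ℕ) + 2)) ((M : ℂ) / ((M : ℂ) - 1)) := by
            unfold gl
            apply ContinuousAt.sub _ continuousAt_id
            apply tendsto_finsetSum
            intro i hi
            exact hcont _ i (mem_range.1 hi) (by omega) (Or.inl (by omega))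
          exact tendsto_const_nhds.mul this) (by
      intro w hw
      have h1 := hzero w hw
      rw [← add_sum_erase _ _ (mem_univ j₀), ← hM, gl_split hM2] at h1
      linear_combination h1)
  exact_mod_cast hfin

end Pool.Agent.H608.Ge
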