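import Pool.Agent.H608.Ge.Frq
import Pool.Agent.H608.Sp.Master

/-!
# The main theorem on analytic processes
-/

set_option autoImplicit false

namespace Pool.Agent.H608.Ge

open Finset Filter Topology
open Pool.Agent.H608.Sp (Rich prec prec_spec prec_tendsto Sc Freq nseq nseq_sc)
open Pool.Agent.H607.CF (cnt pos)

open Classical in
theorem masterG : ∃ C : ℝ, 0 < C ∧ ∀ (M₀ : ℕ) (P : ℕ → GProc M₀) (A : Set ℕ), 1 ≤ M₀ → Rich A → ∀ M : ℕ,
    ∃ E : Set ℕ, E.Infinite ∧ (∀ k ∈ E, k ∈ A ∧ M ≤ k ∧ M₀ ≤ k) ∧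
      (∀ K : ℕ, 16 ≤ K → (({k : ℕ | k ∈ E ∧ k ≤ K}.ncard : ℕ) : ℝ) ≤
        C * Real.log (Real.log (Real.log K))) ∧
      (∀ N, Small M₀ ((range N).filter (· ∈ E))) ∧
      ∀ i, ∃ X a : ℝ, Tendsto (fun N : ℕ => (P i).val ((range N).filter (· ∈ E))) atTop (𝓝 X) ∧
        Tendsto (fun N : ℕ => (P i).b ((range N).filter (· ∈ E)) 0) atTop (𝓝 a) ∧
        (a ≠ 0 → ∀ b : ℕ, 2 ≤ b → Freq b X) := by
  obtain ⟨γ, hγ0, hγ1, hgood⟩ := exists_good
  obtain ⟨N₁, hN₁⟩ := nseq_sc (γ / 2) (by positivity)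
  have hlθ : 0 < Real.log (1 + γ / 2 / 2) := Real.log_pos (by linarith)
  refine ⟨1 + 1 / Real.log (1 + γ / 2 / 2), by positivity, fun M₀ P A hM₀ hA M => ?_⟩
  choose T hT using hgood M₀ P A hA
  obtain ⟨N₀, hN₀⟩ : ∃ N₀ : ℕ, N₀ = max (max N₁ ⌈Real.exp 4⌉₊) (max (T 0) (max M M₀)) := ⟨_, rfl⟩
  have h1 : N₁ ≤ N₀ := by rw [hN₀]; exact (le_max_left _ _).trans (le_max_left _ _)
  have h2 : ⌈Real.exp 4⌉₊ ≤ N₀ := by rw [hN₀]; exact (le_max_right _ _).trans (le_max_left _ _)
  have h3 : T 0 ≤ N₀ := by rw [hN₀]; exact (le_max_left _ _).trans (le_max_right _ _)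
  have h4 : M ≤ N₀ := by
    rw [hN₀]; exact ((le_max_left _ _).trans (le_max_right _ _)).trans (le_max_right _ _)
  have h5 : M₀ ≤ N₀ := by
    rw [hN₀]; exact ((le_max_right _ _).trans (le_max_right _ _)).trans (le_max_right _ _)
  have S := hN₁ N₀ h1
  obtain ⟨n, hn⟩ : ∃ n : ℕ → ℕ, n = nseq (γ / 2) N₀ := ⟨_, rfl⟩
  rw [← hn] at S
  have hn0 : n 0 = N₀ := by rw [hn]; rfl
  have h0 : T 0 ≤ 2 ^ n 0 := by
    rw [hn0]
    exact h3.trans Nat.lt_two_pow_self.le
  obtain ⟨D⟩ := exists_data S T hT h0 (by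
    rw [hn0]
    exact h5.trans Nat.lt_two_pow_self.le) hM₀
  have hmono := D.k_mono S
  choose j hj1 hj2 using fun N => D.F_count S N
  have hfilter : ∀ N, (range N).filter (· ∈ D.E) = D.F (j N) := by
    intro N
    ext k
    rw [mem_filter, mem_range, hj1]
    tauto
  have hjt : Tendsto j atTop atTop := by
    rw [tendsto_atTop]
    intro l
    filter_upwards [eventually_gt_atTop (D.k l)] with N hN
    exact ((hj2 N l).2 hN).le
  refine ⟨D.E, Set.infinite_range_of_injective hmono.injective, ?_, ?_, fun N => ?_, fun i => ?_⟩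
  · rintro k ⟨j, rfl⟩
    refine ⟨D.k_mem j, ?_, D.low j⟩
    calc M ≤ n 0 := by rw [hn0]; exact h4
      _ ≤ n j := S.strictMono.monotone (Nat.zero_le j)
      _ ≤ 2 ^ n j := Nat.lt_two_pow_self.le
      _ ≤ D.k j := (D.k_gt j).le
  · intro K hK
    have e1 : {k : ℕ | k ∈ D.E ∧ k ≤ K} = ((D.F (j (K + 1)) : Finset ℕ) : Set ℕ) := by
      ext k
      rw [mem_coe, hj1]
      simp only [Set.mem_setOf_eq, Order.lt_add_one_iff]
    rw [e1, Set.ncard_coe_finset]
    obtain ⟨j', hj'⟩ : ∃ j' : ℕ, j' = j (K + 1) := ⟨_, rfl⟩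
    rw [← hj']
    have e2 : (D.F j').card ≤ j' := by
      unfold Data.F
      exact card_image_le.trans (by rw [card_range])
    have e2' : ((D.F j').card : ℝ) ≤ j' := by exact_mod_cast e2
    have hlog16 : (1 : ℝ) ≤ Real.log (Real.log K) := by
      rw [Real.le_log_iff_exp_le]
      · have h5 : Real.log 16 ≤ Real.log K := Real.log_le_log (by norm_num) (by exact_mod_cast hK)
        have h6 : Real.log 16 = 4 * Real.log 2 := by
          rw [show (16 : ℝ) = 2 ^ 4 by norm_num, Real.log_pow]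
          norm_num
        have := Real.log_two_gt_d9
        have := Real.exp_one_lt_d9
        linarith
      · apply Real.log_pos
        exact_mod_cast (by omega : 1 < K)
    have hlog3 : 0 ≤ Real.log (Real.log (Real.log K)) := Real.log_nonneg hlog16
    rcases Nat.eq_zero_or_pos j' with hj0 | hj0
    · have : ((D.F j').card : ℝ) ≤ 0 := by rw [hj0] at e2' ⊢; simpa using e2'
      refine this.trans ?_
      positivity
    · have h5 := (hj2 (K + 1) (j' - 1)).1 (by omega)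
      have h6 : 2 ^ n (j' - 1) ≤ K := by
        have := D.k_gt (j' - 1)
        omega
      have h7 : (2 : ℝ) ^ n (j' - 1) ≤ K := by exact_mod_cast h6
      obtain ⟨h8, h9⟩ := S.count (by positivity) (by
        rw [hn0]
        exact (Nat.le_ceil _).trans (by exact_mod_cast h2)) (j' - 1) K h7
      have h10 : 1 ≤ Real.log (Real.log (Real.log K)) := by
        rw [Real.le_log_iff_exp_le (by linarith)]
        exact h9
      have h11 : ((j' - 1 : ℕ) : ℝ) ≤ 1 / Real.log (1 + γ / 2 / 2) * Real.log (Real.log (Real.log K)) := by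
        rw [one_div, ← div_eq_inv_mul, le_div_iff₀ hlθ]
        exact h8
      rw [Nat.cast_sub hj0] at h11
      push_cast at h11
      rw [add_mul, one_mul]
      linarith
  · rw [hfilter]
    exact D.small _
  · obtain ⟨X, a, hX1, ha1, j₁, hX2⟩ := D.exists_lim S i
    refine ⟨X, a, ?_, ?_, fun ha0 b hb α β ha hab hb1 =>
      D.freq S hγ0 hγ1 i X a ha0 ha1 j₁ hX2 b hb α β ha hab hb1⟩
    · simp only [hfilter]
      exact hX1.comp hjt
    · simp only [hfilter]
      exact ha1.comp hjt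

end Pool.Agent.H608.Ge
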