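import Pool.Agent.H608.Ge.Ana

/-!
# Analytic functions of several constants: nonconstant functions have normal values
-/

set_option autoImplicit false

namespace Pool.Agent.H608.Ge

open Finset Filter Topology Metric
open Pool.Agent.H608.Sp (Rich Freq)

variable {n : ℕ}

/-- a real point -/
def rp (a : Fin n → ℝ) : Fin n → ℂ := fun j => (a j : ℂ)

/-- real at the real points of the polydisc -/
def RealN (x : Fin n → ℝ) (r : ℝ) (f : (Fin n → ℂ) → ℂ) : Prop :=
  ∀ a : Fin n → ℝ, (∀ j, |a j - x j| < r) → (f (rp a)).im = 0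

/-- partial derivative -/
noncomputable def Dj (j : Fin n) (f : (Fin n → ℂ) → ℂ) : (Fin n → ℂ) → ℂ := fun p => fderiv ℂ f p (Pi.single j 1)

lemma mem_ball_n {r : ℝ} (hr : 0 < r) {x w : Fin n → ℂ} : w ∈ ball x r ↔ ∀ j, w j ∈ ball (x j) r := by
  rw [ball_pi x hr, Set.mem_univ_pi]

lemma rp_mem {r : ℝ} (hr : 0 < r) {x a : Fin n → ℝ} (h : ∀ j, |a j - x j| < r) : rp a ∈ ball (rp x) r :=
  (mem_ball_n hr).2 fun j => mem_ball_real (h j)

lemma update_mem {r : ℝ} (hr : 0 < r) {x w : Fin n → ℂ} (hw : w ∈ ball x r) (j : Fin n) {t : ℂ}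
    (ht : t ∈ ball (x j) r) : Function.update w j t ∈ ball x r := by
  rw [mem_ball_n hr] at hw ⊢
  intro i
  by_cases hij : i = j
  · rw [hij, Function.update_self]
    exact ht
  · rw [Function.update_of_ne hij]
    exact hw i

lemma rp_update (a : Fin n → ℝ) (j : Fin n) (t : ℝ) :
    Function.update (rp a) j (t : ℂ) = rp (Function.update a j t) := by
  funext i
  by_cases hij : i = j
  · rw [hij, Function.update_self]
    unfold rp
    rw [Function.update_self]
  · rw [Function.update_of_ne hij]
    unfold rp
    rw [Function.update_of_ne hij]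

lemma upd_real {x a : Fin n → ℝ} {r t : ℝ} (h : ∀ j, |a j - x j| < r) (j : Fin n) (ht : |t - x j| < r) :
    ∀ i, |Function.update a j t i - x i| < r := by
  intro i
  by_cases hij : i = j
  · rw [hij, Function.update_self]
    exact ht
  · rw [Function.update_of_ne hij]
    exact h i

lemma Dj_analytic {f : (Fin n → ℂ) → ℂ} {U : Set (Fin n → ℂ)} (hf : AnalyticOnNhd ℂ f U) (j : Fin n) :
    AnalyticOnNhd ℂ (Dj j f) U :=
  (ContinuousLinearMap.apply ℂ ℂ (Pi.single j (1 : ℂ) : Fin n → ℂ)).comp_analyticOnNhd hf.fderiv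

lemma slice_hasDerivAt {f : (Fin n → ℂ) → ℂ} {x w : Fin n → ℂ} {r : ℝ} (hr : 0 < r)
    (hf : AnalyticOnNhd ℂ f (ball x r)) (hw : w ∈ ball x r) (j : Fin n) {t : ℂ} (ht : t ∈ ball (x j) r) :
    HasDerivAt (fun t => f (Function.update w j t)) (Dj j f (Function.update w j t)) t := by
  have h1 : HasFDerivAt f (fderiv ℂ f (Function.update w j t)) (Function.update w j t) :=
    (hf _ (update_mem hr hw j ht)).differentiableAt.hasFDerivAt
  exact h1.comp_hasDerivAt t (hasDerivAt_update w j t)

lemma upd_analytic (w : Fin n → ℂ) (j : Fin n) (s : Set ℂ) :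
    AnalyticOnNhd ℂ (fun t => Function.update w j t) s := by
  apply AnalyticOnNhd.pi
  intro i
  by_cases hij : i = j
  · subst hij
    simp only [Function.update_self]
    exact analyticOnNhd_id
  · simp only [Function.update_of_ne hij]
    exact analyticOnNhd_const

lemma frz_analytic (j : Fin n) (c : ℂ) (s : Set (Fin n → ℂ)) :
    AnalyticOnNhd ℂ (fun w : Fin n → ℂ => Function.update w j c) s := by
  apply AnalyticOnNhd.pi
  intro i
  by_cases hij : i = j
  · subst hij
    simp only [Function.update_self]
    exact analyticOnNhd_const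
  · simp only [Function.update_of_ne hij]
    exact (ContinuousLinearMap.proj (R := ℂ) (φ := fun _ : Fin n => ℂ) i).analyticOnNhd s

lemma slice_analytic {f : (Fin n → ℂ) → ℂ} {x w : Fin n → ℂ} {r : ℝ} (hr : 0 < r)
    (hf : AnalyticOnNhd ℂ f (ball x r)) (hw : w ∈ ball x r) (j : Fin n) :
    AnalyticOnNhd ℂ (fun t => f (Function.update w j t)) (ball (x j) r) :=
  hf.comp (upd_analytic w j _) fun _ ht => update_mem hr hw j ht

lemma realN_Dj {x : Fin n → ℝ} {r : ℝ} (hr : 0 < r) {f : (Fin n → ℂ) → ℂ}
    (hf : AnalyticOnNhd ℂ f (ball (rp x) r)) (h : RealN x r f) (j : Fin n) : RealN x r (Dj j f) := by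
  intro a ha
  have h1 : Real1 (x j) r (fun t => f (Function.update (rp a) j t)) := by
    intro t ht
    simp only
    rw [rp_update]
    exact h _ (upd_real ha j ht)
  have h2 := real1_deriv (slice_analytic hr hf (rp_mem hr ha) j) h1 (a j) (ha j)
  rw [(slice_hasDerivAt hr hf (rp_mem hr ha) j (mem_ball_real (ha j))).deriv] at h2
  have h3 : Function.update (rp a) j ((a j : ℝ) : ℂ) = rp a := by
    rw [rp_update, Function.update_eq_self]
  rw [h3] at h2
  exact h2

/-- `f` depends only on the coordinates from `i` on -/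
def Indep (x : Fin n → ℝ) (r : ℝ) (i : ℕ) (f : (Fin n → ℂ) → ℂ) : Prop :=
  ∀ w ∈ ball (rp x) r, ∀ w' ∈ ball (rp x) r, (∀ j : Fin n, i ≤ (j : ℕ) → w j = w' j) → f w = f w'

lemma Indep.upd {x : Fin n → ℝ} {r : ℝ} (hr : 0 < r) {i : ℕ} {f : (Fin n → ℂ) → ℂ} (hI : Indep x r i f)
    {w w' : Fin n → ℂ} (hw : w ∈ ball (rp x) r) (hw' : w' ∈ ball (rp x) r) (j : Fin n)
    (h : ∀ l : Fin n, i ≤ (l : ℕ) → l ≠ j → w l = w' l) {t : ℂ} (ht : t ∈ ball (x j : ℂ) r) :
    f (Function.update w j t) = f (Function.update w' j t) := by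
  apply hI _ (update_mem hr hw j ht) _ (update_mem hr hw' j ht)
  intro l hl
  by_cases hlj : l = j
  · rw [hlj, Function.update_self, Function.update_self]
  · rw [Function.update_of_ne hlj, Function.update_of_ne hlj]
    exact h l hl hlj

lemma Indep.Dj {x : Fin n → ℝ} {r : ℝ} (hr : 0 < r) {i : ℕ} {f : (Fin n → ℂ) → ℂ} (hI : Indep x r i f)
    (hf : AnalyticOnNhd ℂ f (ball (rp x) r)) (j : Fin n) : Indep x r i (Dj j f) := by
  intro w hw w' hw' h
  by_cases hij : i ≤ (j : ℕ)
  · have e0 : w j = w' j := h j hij
    have hwj : w j ∈ ball (x j : ℂ) r := (mem_ball_n hr).1 hw j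
    have h1 := slice_hasDerivAt hr hf hw j hwj
    have h2 := slice_hasDerivAt hr hf hw' j hwj
    have h3 : (fun t => f (Function.update w j t)) =ᶠ[𝓝 (w j)] fun t => f (Function.update w' j t) := by
      filter_upwards [isOpen_ball.mem_nhds hwj] with t ht
      exact hI.upd hr hw hw' j (fun l hl _ => h l hl) ht
    have h4 := (h1.congr_of_eventuallyEq h3.symm).unique h2
    rw [Function.update_eq_self] at h4
    rw [h4, e0, Function.update_eq_self]
  · -- the derivative vanishes
    have hz : ∀ u ∈ ball (rp x) r, Ge.Dj j f u = 0 := by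
      intro u hu
      have huj : u j ∈ ball (x j : ℂ) r := (mem_ball_n hr).1 hu j
      have h1 := slice_hasDerivAt hr hf hu j huj
      have h3 : (fun t => f (Function.update u j t)) =ᶠ[𝓝 (u j)] fun _ => f u := by
        filter_upwards [isOpen_ball.mem_nhds huj] with t ht
        apply hI _ (update_mem hr hu j ht) _ hu
        intro l hl
        rw [Function.update_of_ne]
        intro hlj
        rw [hlj] at hl
        exact hij hl
      have h4 := (h1.congr_of_eventuallyEq h3.symm).unique (hasDerivAt_const (u j) (f u))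
      rw [Function.update_eq_self] at h4
      exact h4
    rw [hz w hw, hz w' hw']

/-- an analytic function that vanishes at the rational points vanishes -/
lemma eq_zero_of_rat {g : ℂ → ℂ} {y r : ℝ} (hr : 0 < r) (hg : AnalyticOnNhd ℂ g (ball (y : ℂ) r))
    (h : ∀ c : ℚ, |(c : ℝ) - y| < r → g (c : ℂ) = 0) : ∀ t ∈ ball (y : ℂ) r, g t = 0 := by
  obtain ⟨c₀, hc1, hc2⟩ := exists_rat_btwn (show y - r / 2 < y + r / 2 by linarith)
  have hc₀ : |(c₀ : ℝ) - y| < r := by
    rw [abs_lt]
    constructor <;> linarith
  have hcb : (c₀ : ℂ) ∈ ball (y : ℂ) r := by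
    have := mem_ball_real hc₀
    push_cast at this
    exact this
  intro t ht
  refine hg.eqOn_zero_of_preconnected_of_frequently_eq_zero (convex_ball (y : ℂ) r).isPreconnected hcb ?_ ht
  have h3 : Tendsto (fun n : ℕ => (((c₀ + 1 / ((n : ℚ) + 1) : ℚ) : ℝ) : ℂ)) atTop (𝓝[≠] (c₀ : ℂ)) := by
    apply tendsto_nhdsWithin_of_tendsto_nhds_of_eventually_within
    · have h4 : Tendsto (fun n : ℕ => (c₀ : ℂ) + ((1 / ((n : ℝ) + 1) : ℝ) : ℂ)) atTop (𝓝 ((c₀ : ℂ) + ((0 : ℝ) : ℂ))) :=
        ((Complex.continuous_ofReal.tendsto 0).comp tendsto_one_div_add_atTop_nhds_zero_nat).const_add _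
      rw [Complex.ofReal_zero, add_zero] at h4
      refine h4.congr fun n => ?_
      push_cast
      ring
    · filter_upwards with n
      intro h0
      rw [Set.mem_singleton_iff] at h0
      have h5 : ((1 / ((n : ℚ) + 1) : ℚ) : ℂ) = 0 := by
        push_cast at h0 ⊢
        linear_combination h0
      have h6 : (1 / ((n : ℚ) + 1) : ℚ) = 0 := by exact_mod_cast h5
      have h7 : (0 : ℚ) < 1 / ((n : ℚ) + 1) := by positivity
      linarith
  apply h3.frequently
  apply Eventually.frequently
  have h4 : Tendsto (fun n : ℕ => |((c₀ + 1 / ((n : ℚ) + 1) : ℚ) : ℝ) - y|) atTop (𝓝 |(c₀ : ℝ) + 0 - y|) := by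
    apply Tendsto.abs
    apply Tendsto.sub_const
    have h5 := (tendsto_one_div_add_atTop_nhds_zero_nat (𝕜 := ℝ)).const_add (c₀ : ℝ)
    refine h5.congr fun n => ?_
    push_cast
    ring
  rw [add_zero] at h4
  filter_upwards [h4.eventually_lt_const hc₀] with n hn
  have h5 := h _ hn
  push_cast at h5 ⊢
  exact h5

/-- **Several variables** -/
theorem n_var {G : Set ((Fin n → ℂ) → ℂ)} {x z : Fin n → ℝ} {r : ℝ} (hr : 0 < r)
    (hz : ∀ j, |z j - x j| < r)
    (hA : ∀ f ∈ G, AnalyticOnNhd ℂ f (ball (rp x) r)) (hcl : ∀ f ∈ G, ∀ j, Dj j f ∈ G)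
    (hsl : ∀ f ∈ G, ∀ (j : Fin n) (c : ℚ), |(c : ℝ) - x j| < r → (fun w => f (Function.update w j (c : ℂ))) ∈ G)
    (hR : ∀ f ∈ G, RealN x r f)
    (hB : ∀ f ∈ G, ∀ j : Fin n, Indep x r j f → (Dj j f (rp z)).re ≠ 0 → ∀ b : ℕ, 2 ≤ b → Freq b (f (rp z)).re) :
    ∀ f ∈ G, (¬ ∃ c, ∀ w ∈ ball (rp x) r, f w = c) → ∀ b : ℕ, 2 ≤ b → Freq b (f (rp z)).re := by
  have hzb : rp z ∈ ball (rp x) r := rp_mem hr hz
  have hzj : ∀ j, (z j : ℂ) ∈ ball (x j : ℂ) r := fun j => mem_ball_real (hz j)
  have hrat : ∀ (j : Fin n) (c : ℚ), |(c : ℝ) - x j| < r → (c : ℂ) ∈ ball (x j : ℂ) r := by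
    intro j c hc
    have := mem_ball_real hc
    push_cast at this
    exact this
  have hfre : ∀ f ∈ G, ∀ (j : Fin n) (c : ℚ), |(c : ℝ) - x j| < r → ∀ w ∈ ball (rp x) r,
      Function.update w j (c : ℂ) ∈ ball (rp x) r := fun f _ j c hc w hw => update_mem hr hw j (hrat j c hc)
  -- descending induction
  have main : ∀ d i : ℕ, i + d = n → ∀ f ∈ G, Indep x r i f → (¬ ∃ c, ∀ w ∈ ball (rp x) r, f w = c) →
      ∀ b : ℕ, 2 ≤ b → Freq b (f (rp z)).re := by
    intro d
    induction d with
    | zero =>
      intro i hi f hf hI hnc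
      exfalso
      apply hnc
      refine ⟨f (rp z), fun w hw => hI w hw _ hzb fun j hj => ?_⟩
      have := j.2
      omega
    | succ d ih =>
      intro i hi f hf hI hnc b hb
      have hin : i < n := by omega
      obtain ⟨j, hj⟩ : ∃ j : Fin n, (j : ℕ) = i := ⟨⟨i, hin⟩, rfl⟩
      -- functions of this level which vanish at `z` vanish
      have hZ : ∀ h ∈ G, Indep x r i h → h (rp z) = 0 → ∀ w ∈ ball (rp x) r, h w = 0 := by
        intro h hh hIh hhz
        have hmem : ∀ m, (Dj j)^[m] h ∈ G := by
          intro m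
          induction m with
          | zero => exact hh
          | succ m ihm =>
            rw [Function.iterate_succ_apply']
            exact hcl _ ihm j
        have hInd : ∀ m, Indep x r i ((Dj j)^[m] h) := by
          intro m
          induction m with
          | zero => exact hIh
          | succ m ihm =>
            rw [Function.iterate_succ_apply']
            exact ihm.Dj hr (hA _ (hmem m)) j
        have hall : ∀ m, (Dj j)^[m] h (rp z) = 0 := by
          intro m
          induction m with
          | zero => exact hhz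
          | succ m ihm =>
            rw [Function.iterate_succ_apply']
            by_contra hne
            have h2 : (Dj j ((Dj j)^[m] h) (rp z)).im = 0 := hR _ (hcl _ (hmem m) j) z hz
            have h3 : (Dj j ((Dj j)^[m] h) (rp z)).re ≠ 0 := by
              intro h0
              exact hne (Complex.ext h0 h2)
            have h4 := freq_ne_zero (hB _ (hmem m) j (by rw [hj]; exact hInd m) h3 2 le_rfl)
            rw [ihm] at h4
            exact h4 rfl
        have hit : ∀ m, ∀ t ∈ ball (x j : ℂ) r, deriv^[m] (fun t => h (Function.update (rp z) j t)) t =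
            (Dj j)^[m] h (Function.update (rp z) j t) := by
          intro m
          induction m with
          | zero => intro t _; rfl
          | succ m ihm =>
            intro t ht
            rw [Function.iterate_succ_apply', Function.iterate_succ_apply']
            have h2 : deriv^[m] (fun t => h (Function.update (rp z) j t)) =ᶠ[𝓝 t]
                fun t => (Dj j)^[m] h (Function.update (rp z) j t) := by
              filter_upwards [isOpen_ball.mem_nhds ht] with w hw
              exact ihm w hw
            rw [h2.deriv_eq]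
            exact (slice_hasDerivAt hr (hA _ (hmem m)) hzb j ht).deriv
        have hs : ∀ t ∈ ball (x j : ℂ) r, h (Function.update (rp z) j t) = 0 := by
          apply eq_zero_of_derivs (slice_analytic hr (hA h hh) hzb j) (hzj j)
          intro m
          rw [iteratedDeriv_eq_iterate, hit m _ (hzj j)]
          have e1 : Function.update (rp z) j ((z j : ℝ) : ℂ) = rp z := by
            rw [rp_update, Function.update_eq_self]
          rw [e1]
          exact hall m
        -- freezing the coordinate at a rational point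
        have hs' : ∀ c : ℚ, |(c : ℝ) - x j| < r → ∀ w ∈ ball (rp x) r, h (Function.update w j (c : ℂ)) = 0 := by
          intro c hc
          by_cases hcon : ∃ c', ∀ w ∈ ball (rp x) r, h (Function.update w j (c : ℂ)) = c'
          · obtain ⟨c', hc'⟩ := hcon
            intro w hw
            rw [hc' w hw, ← hc' _ hzb]
            exact hs c (hrat j c hc)
          · exfalso
            have h5 := ih (i + 1) (by omega) _ (hsl h hh j c hc) (by
              intro w hw w' hw' hww
              refine hIh.upd hr hw hw' j (fun l hl hlj => hww l ?_) (hrat j c hc)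
              have : (l : ℕ) ≠ (j : ℕ) := fun h => hlj (Fin.ext h)
              omega) hcon 2 le_rfl
            have h6 := freq_ne_zero h5
            rw [hs c (hrat j c hc)] at h6
            exact h6 rfl
        intro w hw
        have h7 := eq_zero_of_rat hr (slice_analytic hr (hA h hh) hw j) (fun c hc => hs' c hc w hw) (w j)
          ((mem_ball_n hr).1 hw j)
        rw [Function.update_eq_self] at h7
        exact h7
      by_cases hD : Dj j f (rp z) = 0
      · -- `f` does not depend on the coordinate `j`
        have h2 := hZ _ (hcl f hf j) (hI.Dj hr (hA f hf) j) hD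
        have h3 : ∀ w ∈ ball (rp x) r, ∀ t ∈ ball (x j : ℂ) r, f (Function.update w j t) = f w := by
          intro w hw t ht
          have h4 : f (Function.update w j t) = f (Function.update w j (w j)) :=
            isOpen_ball.is_const_of_deriv_eq_zero (f := fun t => f (Function.update w j t))
              (convex_ball (x j : ℂ) r).isPreconnected
              (slice_analytic hr (hA f hf) hw j).differentiableOn (fun v hv => by
                rw [(slice_hasDerivAt hr (hA f hf) hw j hv).deriv]
                exact h2 _ (update_mem hr hw j hv)) ht ((mem_ball_n hr).1 hw j)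
          rw [h4, Function.update_eq_self]
        apply ih (i + 1) (by omega) f hf _ hnc b hb
        intro w hw w' hw' hww
        rw [← h3 w hw (w' j) ((mem_ball_n hr).1 hw' j)]
        apply hI _ (update_mem hr hw j ((mem_ball_n hr).1 hw' j)) _ hw'
        intro l hl
        by_cases hlj : l = j
        · rw [hlj, Function.update_self]
        · rw [Function.update_of_ne hlj]
          apply hww
          have : (l : ℕ) ≠ (j : ℕ) := fun h => hlj (Fin.ext h)
          omega
      · have h3 : (Dj j f (rp z)).im = 0 := hR _ (hcl f hf j) z hz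
        exact hB f hf j (by rw [hj]; exact hI) (fun h0 => hD (Complex.ext h0 h3)) b hb
  intro f hf hnc
  exact main n 0 (by omega) f hf (fun w _ w' _ h => by
    have : w = w' := funext fun j => h j (Nat.zero_le _)
    rw [this]) hnc

end Pool.Agent.H608.Ge
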