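import Pool.Agent.H608.Ge.Mv

/-!
# Analytic functions of several constants: the main theorem
-/

set_option autoImplicit false

namespace Pool.Agent.H608.Ge

open Finset Filter Topology Metric Asymptotics
open Pool.Agent.H608.Sp (Rich Freq)

/-- one series: the terms are the values at `1 / k` of a function which is analytic at zero -/
structure One where
  x : ℝ
  τ : ℕ → ℝ
  g : ℂ → ℂ
  m : ℕ
  a : ℝ
  m1 : 1 ≤ m
  a0 : a ≠ 0
  gd : ∀ᶠ w in 𝓝 (0 : ℂ), DifferentiableAt ℂ g w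
  g0 : g 0 = 0
  gl : (fun w : ℂ => g w - w ^ m * (a : ℂ)) =o[𝓝 0] fun w => w ^ m
  rep : ∀ᶠ k : ℕ in atTop, (τ k : ℂ) = g (1 / (k : ℂ))

lemma One.bound (o : One) : ∃ c : ℝ, 0 ≤ c ∧ ∀ k : ℕ, 1 ≤ k → |o.τ k| ≤ c * (1 / k) := by
  have h1 : o.g =O[𝓝 0] fun w => w := by
    have h2 : DifferentiableAt ℂ o.g 0 := o.gd.self_of_nhds
    have h3 := h2.isBigO_sub
    refine (h3.congr_left fun w => ?_).trans (isBigO_of_le _ fun w => ?_)
    · rw [o.g0, sub_zero]
    · rw [sub_zero]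
  obtain ⟨c, hc⟩ := h1.bound
  have h4 : Tendsto (fun k : ℕ => (1 / (k : ℂ))) atTop (𝓝 0) := by
    have h5 := (Complex.continuous_ofReal.tendsto 0).comp (tendsto_one_div_atTop_nhds_zero_nat (𝕜 := ℝ))
    rw [Complex.ofReal_zero] at h5
    refine h5.congr fun k => ?_
    simp
  obtain ⟨K, hK⟩ := eventually_atTop.1 ((h4.eventually hc).and o.rep)
  refine ⟨max c 0 + ∑ k ∈ range K, |o.τ k| * k, by positivity, fun k hk => ?_⟩
  have hk0 : (0 : ℝ) < k := by exact_mod_cast hk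
  by_cases hkK : K ≤ k
  · obtain ⟨h6, h7⟩ := hK k hkK
    have h8 : |o.τ k| ≤ max c 0 * (1 / k) := by
      have h9 : |o.τ k| = ‖o.g (1 / (k : ℂ))‖ := by
        rw [← h7, Complex.norm_real, Real.norm_eq_abs]
      rw [h9]
      refine h6.trans ?_
      rw [norm_div, norm_one, Complex.norm_natCast]
      apply mul_le_mul_of_nonneg_right (le_max_left _ _) (by positivity)
    refine h8.trans ?_
    apply mul_le_mul_of_nonneg_right _ (by positivity)
    have : 0 ≤ ∑ k ∈ range K, |o.τ k| * k := sum_nonneg fun i _ => by positivity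
    linarith
  · have h6 : |o.τ k| * k ≤ ∑ k ∈ range K, |o.τ k| * k :=
      single_le_sum (f := fun i : ℕ => |o.τ i| * i) (fun i _ => by positivity) (mem_range.2 (not_le.1 hkK))
    have h7 : |o.τ k| = |o.τ k| * k * (1 / k) := by field_simp
    rw [h7]
    apply mul_le_mul_of_nonneg_right _ (by positivity)
    have : 0 ≤ max c 0 := le_max_right _ _
    linarith

/-- several series with different orders, a radius and a constant -/
structure Tup where
  n : ℕ
  o : Fin n → One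
  mono : StrictMono fun j => (o j).m
  r : ℝ
  r0 : 0 < r
  c : ℝ
  c0 : 0 ≤ c
  tb : ∀ j, ∀ k : ℕ, 1 ≤ k → |(o j).τ k| ≤ c * (1 / k)

/-- the vector of the limits -/
def Tup.x (T : Tup) : Fin T.n → ℝ := fun j => (T.o j).x

lemma pi_apply_le {n : ℕ} {B : ℝ} (hB : 0 ≤ B) {w : Fin n → ℂ} (h : ∀ j, ‖w j‖ ≤ B) : ‖w‖ ≤ B :=
  (pi_norm_le_iff_of_nonneg hB).2 h

/-- the system from the coordinate `i` on -/
theorem Tup.exists_sys (T : Tup) (i : Fin T.n) (M₀ : ℕ) (h1 : 1 ≤ M₀) (hM : 8 * T.c ≤ T.r * M₀) :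
    ∃ S : VSys (Fin T.n → ℂ) M₀, S.x = rp T.x ∧ S.r = T.r ∧
      (∀ k, S.τ k = fun j => if j < i then (0 : ℂ) else ((T.o j).τ k : ℂ)) ∧
      S.v = ((T.o i).a : ℂ) • (Pi.single i (1 : ℂ) : Fin T.n → ℂ) := by
  obtain ⟨G, hG⟩ : ∃ G : ℂ → Fin T.n → ℂ, G = fun w j => if j < i then 0 else (T.o j).g w := ⟨_, rfl⟩
  have hG0 : G 0 = 0 := by
    funext j
    rw [hG]
    simp only [Pi.zero_apply]
    split_ifs
    · rfl
    · exact (T.o j).g0
  have hd : ∀ᶠ w in 𝓝 (0 : ℂ), DifferentiableAt ℂ G w := by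
    have h2 : ∀ᶠ w in 𝓝 (0 : ℂ), ∀ j, DifferentiableAt ℂ (T.o j).g w := by
      rw [eventually_all]
      exact fun j => (T.o j).gd
    filter_upwards [h2] with w hw
    rw [differentiableAt_pi]
    intro j
    rw [hG]
    simp only
    split_ifs
    · exact differentiableAt_const _
    · exact hw j
  have hb : ∀ᶠ w in 𝓝 (0 : ℂ), ‖G w‖ < T.r / 4 := by
    have h3 : ContinuousAt G 0 := hd.self_of_nhds.continuousAt
    apply h3.norm.eventually_lt_const
    show ‖G 0‖ < T.r / 4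
    rw [hG0, norm_zero]
    have := T.r0
    positivity
  obtain ⟨ρ, hρ, hρb⟩ := Metric.eventually_nhds_iff_ball.1 (hd.and hb)
  have hM0 : (0 : ℝ) < M₀ := by exact_mod_cast h1
  have hc := T.c0
  refine ⟨{
    x := rp T.x
    τ := fun k => fun j => if j < i then (0 : ℂ) else ((T.o j).τ k : ℂ)
    g := G
    m := (T.o i).m
    v := ((T.o i).a : ℂ) • (Pi.single i (1 : ℂ) : Fin T.n → ℂ)
    m1 := (T.o i).m1
    ρ := ρ
    r := T.r
    ρ0 := hρ
    r0 := T.r0
    gd := fun w hw => (hρb w hw).1.differentiableWithinAt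
    g0 := hG0
    gb := fun w hw => (hρb w hw).2.le
    gl := ?_
    rep := ?_
    c := T.c
    c0 := T.c0
    tb := ?_
    cr := ?_ }, rfl, rfl, fun k => rfl, rfl⟩
  · rw [isLittleO_pi]
    intro j
    simp only [Pi.sub_apply, Pi.smul_apply, smul_eq_mul]
    rcases lt_trichotomy j i with hji | hji | hji
    · have h4 : (fun w : ℂ => G w j - w ^ (T.o i).m * (((T.o i).a : ℂ) * (Pi.single i (1 : ℂ) : Fin T.n → ℂ) j)) =
          fun _ => 0 := by
        funext w
        rw [hG]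
        simp only
        rw [if_pos hji, Pi.single_eq_of_ne hji.ne]
        ring
      rw [h4]
      exact isLittleO_zero _ _
    · subst hji
      refine (T.o j).gl.congr_left fun w => ?_
      rw [hG]
      simp only
      rw [if_neg (lt_irrefl _), Pi.single_eq_same, mul_one]
    · have h4 : (fun w : ℂ => G w j - w ^ (T.o i).m * (((T.o i).a : ℂ) * (Pi.single i (1 : ℂ) : Fin T.n → ℂ) j)) =
          (T.o j).g := by
        funext w
        rw [hG]
        simp only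
        rw [if_neg (not_lt.2 hji.le), Pi.single_eq_of_ne hji.ne']
        ring
      rw [h4]
      have h5 : (fun w : ℂ => w ^ (T.o j).m) =o[𝓝 0] fun w => w ^ (T.o i).m :=
        isLittleO_pow_pow (𝕜 := ℂ) (T.mono hji)
      have h6 := (T.o j).gl.trans h5
      have h7 : (fun w : ℂ => w ^ (T.o j).m * ((T.o j).a : ℂ)) =o[𝓝 0] fun w => w ^ (T.o i).m := by
        refine (h5.const_mul_left ((T.o j).a : ℂ)).congr_left fun w => ?_
        ring
      refine (h6.add h7).congr_left fun w => ?_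
      ring
  · have h2 : ∀ᶠ k : ℕ in atTop, ∀ j, ((T.o j).τ k : ℂ) = (T.o j).g (1 / (k : ℂ)) := by
      rw [eventually_all]
      exact fun j => (T.o j).rep
    obtain ⟨K, hK⟩ := eventually_atTop.1 h2
    refine ⟨K, fun k hk => ?_⟩
    funext j
    rw [hG]
    simp only
    split_ifs
    · rfl
    · exact hK k hk j
  · intro k hk
    have hk1 : 1 ≤ k := h1.trans hk
    apply pi_apply_le (by positivity)
    intro j
    split_ifs
    · rw [norm_zero]
      positivity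
    · rw [Complex.norm_real, Real.norm_eq_abs]
      exact T.tb j k hk1
  · rw [mul_div_assoc', div_le_div_iff₀ hM0 (by norm_num)]
    linarith

/-- the operations -/
noncomputable def act {n : ℕ} (x : Fin n → ℝ) (r : ℝ) (p : Fin n ⊕ Fin n × ℚ) (f : (Fin n → ℂ) → ℂ) :
    (Fin n → ℂ) → ℂ :=
  open Classical in
  match p with
  | Sum.inl j => Dj j f
  | Sum.inr (j, c) => if |(c : ℝ) - x j| < r then fun w => f (Function.update w j (c : ℂ)) else f

/-- the closure of a family under the operations -/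
def clo {n : ℕ} (x : Fin n → ℝ) (r : ℝ) (𝓕 : Set ((Fin n → ℂ) → ℂ)) : Set ((Fin n → ℂ) → ℂ) :=
  ⋃ l : List (Fin n ⊕ Fin n × ℚ), (fun f => l.foldr (act x r) f) '' 𝓕

lemma clo_countable {n : ℕ} (x : Fin n → ℝ) (r : ℝ) {𝓕 : Set ((Fin n → ℂ) → ℂ)} (h : 𝓕.Countable) :
    (clo x r 𝓕).Countable :=
  Set.countable_iUnion fun _ => h.image _

lemma subset_clo {n : ℕ} (x : Fin n → ℝ) (r : ℝ) (𝓕 : Set ((Fin n → ℂ) → ℂ)) : 𝓕 ⊆ clo x r 𝓕 :=
  fun f hf => Set.mem_iUnion.2 ⟨[], f, hf, rfl⟩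

lemma clo_act {n : ℕ} {x : Fin n → ℝ} {r : ℝ} {𝓕 : Set ((Fin n → ℂ) → ℂ)} {f : (Fin n → ℂ) → ℂ}
    (h : f ∈ clo x r 𝓕) (p : Fin n ⊕ Fin n × ℚ) : act x r p f ∈ clo x r 𝓕 := by
  obtain ⟨l, g, hg, rfl⟩ := Set.mem_iUnion.1 h
  exact Set.mem_iUnion.2 ⟨p :: l, g, hg, rfl⟩

lemma clo_prop {n : ℕ} {x : Fin n → ℝ} {r : ℝ} (hr : 0 < r) {𝓕 : Set ((Fin n → ℂ) → ℂ)}
    (hA : ∀ f ∈ 𝓕, AnalyticOnNhd ℂ f (ball (rp x) r)) (hR : ∀ f ∈ 𝓕, RealN x r f) :
    ∀ f ∈ clo x r 𝓕, AnalyticOnNhd ℂ f (ball (rp x) r) ∧ RealN x r f := by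
  intro f hf
  obtain ⟨l, g, hg, rfl⟩ := Set.mem_iUnion.1 hf
  clear hf
  simp only
  induction l with
  | nil => exact ⟨hA g hg, hR g hg⟩
  | cons p l ih =>
    rw [List.foldr_cons]
    obtain ⟨a1, a2⟩ := ih
    generalize List.foldr (act x r) g l = h at a1 a2 ⊢
    rcases p with j | ⟨j, c⟩
    · exact ⟨Dj_analytic a1 j, realN_Dj hr a1 a2 j⟩
    · unfold act
      simp only
      split_ifs with hc
      · have hcb : (c : ℂ) ∈ ball (x j : ℂ) r := by
          have := mem_ball_real hc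
          push_cast at this
          exact this
        refine ⟨a1.comp (frz_analytic j (c : ℂ) _) fun w hw => update_mem hr hw j hcb, fun a ha => ?_⟩
        have h1 : Function.update (rp a) j (c : ℂ) = rp (Function.update a j (c : ℝ)) := by
          rw [← rp_update]
          push_cast
          rfl
        show (h (Function.update (rp a) j (c : ℂ))).im = 0
        rw [h1]
        exact a2 _ (upd_real ha j hc)
      · exact ⟨a1, a2⟩

open Classical in
theorem mvMain : ∃ C : ℝ, 0 < C ∧ ∀ M₀ : ℕ, 1 ≤ M₀ → ∀ T : ℕ → Tup, (∃ t, 0 < (T t).n) →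
    (∀ t, 8 * (T t).c ≤ (T t).r * M₀) → ∀ A : Set ℕ, Rich A →
    ∀ (M : ℕ) (𝓕 : ∀ t, Set ((Fin (T t).n → ℂ) → ℂ)), (∀ t, (𝓕 t).Countable) →
      (∀ t, ∀ f ∈ 𝓕 t, AnalyticOnNhd ℂ f (ball (rp (T t).x) (T t).r)) →
      (∀ t, ∀ f ∈ 𝓕 t, RealN (T t).x (T t).r f) →
      ∃ (E : Set ℕ) (z : ∀ t, Fin (T t).n → ℝ), E.Infinite ∧ (∀ k ∈ E, k ∈ A ∧ M ≤ k ∧ M₀ ≤ k) ∧
      (∀ K : ℕ, 16 ≤ K → (({k : ℕ | k ∈ E ∧ k ≤ K}.ncard : ℕ) : ℝ) ≤
        C * Real.log (Real.log (Real.log K))) ∧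
      (∀ t j, Tendsto (fun N : ℕ => (T t).x j - ∑ k ∈ (range N).filter (· ∈ E), ((T t).o j).τ k) atTop
        (𝓝 (z t j))) ∧
      (∀ t j, |z t j - (T t).x j| < (T t).r) ∧
      ∀ t, ∀ f ∈ 𝓕 t, (¬ ∃ c, ∀ w ∈ ball (rp (T t).x) (T t).r, f w = c) →
        ∀ b : ℕ, 2 ≤ b → Freq b (f (rp (z t))).re := by
  obtain ⟨C, hC, hmaster⟩ := masterG
  refine ⟨C, hC, fun M₀ hM₀ T hn0 hM A hA M 𝓕 hcount hFA hFR => ?_⟩
  -- add the coordinates
  obtain ⟨𝓗, h𝓗⟩ : ∃ 𝓗 : ∀ t, Set ((Fin (T t).n → ℂ) → ℂ), 𝓗 = fun t => 𝓕 t ∪ Set.range fun j w => w j := ⟨_, rfl⟩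
  have hHc : ∀ t, (𝓗 t).Countable := by
    intro t
    rw [h𝓗]
    exact (hcount t).union (Set.countable_range _)
  have hHA : ∀ t, ∀ f ∈ 𝓗 t, AnalyticOnNhd ℂ f (ball (rp (T t).x) (T t).r) := by
    intro t f hf
    rw [h𝓗] at hf
    rcases hf with hf | ⟨j, rfl⟩
    · exact hFA t f hf
    · exact (ContinuousLinearMap.proj (R := ℂ) (φ := fun _ : Fin (T t).n => ℂ) j).analyticOnNhd _
  have hHR : ∀ t, ∀ f ∈ 𝓗 t, RealN (T t).x (T t).r f := by
    intro t f hf
    rw [h𝓗] at hf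
    rcases hf with hf | ⟨j, rfl⟩
    · exact hFR t f hf
    · intro a _
      exact Complex.ofReal_im (a j)
  have hcl := fun t => clo_prop (T t).r0 (hHA t) (hHR t)
  have hcoord : ∀ t j, (fun w : Fin (T t).n → ℂ => w j) ∈ clo (T t).x (T t).r (𝓗 t) := by
    intro t j
    apply subset_clo
    rw [h𝓗]
    exact Or.inr ⟨j, rfl⟩
  choose S hSx hSr hSτ hSv using fun t i => (T t).exists_sys i M₀ hM₀ (hM t)
  -- the processes
  have hclc : ∀ t, Countable (clo (T t).x (T t).r (𝓗 t)) := fun t => (clo_countable _ _ (hHc t)).to_subtype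
  obtain ⟨t₀, ht₀⟩ := hn0
  have : Nonempty (Σ t, Fin (T t).n × clo (T t).x (T t).r (𝓗 t)) := ⟨⟨t₀, ⟨0, ht₀⟩, ⟨_, hcoord t₀ ⟨0, ht₀⟩⟩⟩⟩
  obtain ⟨e, he⟩ := exists_surjective_nat (Σ t, Fin (T t).n × clo (T t).x (T t).r (𝓗 t))
  choose P hP hPb using fun p : (Σ t, Fin (T t).n × clo (T t).x (T t).r (𝓗 t)) =>
    (S p.1 p.2.1).exists_proc p.2.2.1 (by
      rw [hSx, hSr]
      exact (hcl p.1 _ p.2.2.2).1)
  obtain ⟨E, hEinf, hEA, hEK, hEs, hE⟩ := hmaster M₀ (fun q => P (e q)) A hM₀ hA M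
  have hE' : ∀ p, ∃ X a : ℝ, Tendsto (fun N : ℕ => (P p).val ((range N).filter (· ∈ E))) atTop (𝓝 X) ∧
      Tendsto (fun N : ℕ => (P p).b ((range N).filter (· ∈ E)) 0) atTop (𝓝 a) ∧
      (a ≠ 0 → ∀ b : ℕ, 2 ≤ b → Freq b X) := by
    intro p
    obtain ⟨q, rfl⟩ := he p
    exact hE q
  choose X a hX ha hXa using hE'
  -- the points
  have hpt : ∀ t i F, (S t i).pt F = fun j => if j < i then ((T t).x j : ℂ) else
      (((T t).x j - ∑ k ∈ F, ((T t).o j).τ k : ℝ) : ℂ) := by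
    intro t i F
    unfold VSys.pt
    rw [hSx, sum_congr rfl fun k _ => hSτ t i k]
    funext j
    rw [Pi.sub_apply, Finset.sum_apply]
    split_ifs
    · rw [sum_const_zero, sub_zero]
      rfl
    · push_cast
      rfl
  -- the limits
  obtain ⟨z, hz⟩ : ∃ z : ∀ t, Fin (T t).n → ℝ, z = fun t j => X ⟨t, j, ⟨_, hcoord t j⟩⟩ := ⟨_, rfl⟩
  have hl : ∀ t j, Tendsto (fun N : ℕ => (T t).x j - ∑ k ∈ (range N).filter (· ∈ E), ((T t).o j).τ k) atTop
      (𝓝 (z t j)) := by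
    intro t j
    have h1 := hX ⟨t, j, ⟨_, hcoord t j⟩⟩
    rw [hz]
    refine h1.congr fun N => ?_
    rw [hP]
    simp only
    rw [hpt]
    simp only [lt_self_iff_false, if_false, Complex.ofReal_re]
  have hclose : ∀ t j, |z t j - (T t).x j| < (T t).r := by
    intro t j
    have hr0 := (T t).r0
    have h0 : ∀ N : ℕ, |(T t).x j - ∑ k ∈ (range N).filter (· ∈ E), ((T t).o j).τ k - (T t).x j| ≤ (T t).r / 4 := by
      intro N
      have h1 := (S t j).pt_mem _ (hEs N)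
      rw [hpt, hSx, hSr] at h1
      refine le_trans ?_ ((norm_le_pi_norm _ j).trans h1)
      rw [Pi.sub_apply]
      simp only [lt_self_iff_false, if_false]
      unfold rp
      rw [← Complex.ofReal_sub, Complex.norm_real, Real.norm_eq_abs]
    have h1 : |z t j - (T t).x j| ≤ (T t).r / 4 := le_of_tendsto (((hl t j).sub_const ((T t).x j)).abs)
      (Eventually.of_forall h0)
    linarith
  refine ⟨E, z, hEinf, hEA, hEK, hl, hclose, fun t f hf hnc b hb => ?_⟩
  have hzb : rp (z t) ∈ ball (rp (T t).x) (T t).r := rp_mem (T t).r0 (hclose t)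
  refine n_var (G := clo (T t).x (T t).r (𝓗 t)) (T t).r0 (hclose t) (fun f hf => (hcl t f hf).1)
    (fun f hf j => clo_act hf (Sum.inl j)) ?_ (fun f hf => (hcl t f hf).2) ?_ f
    (subset_clo _ _ _ (by rw [h𝓗]; exact Or.inl hf)) hnc b hb
  · intro f hf j c hc
    have h1 := clo_act hf (Sum.inr (j, c))
    unfold act at h1
    simp only at h1
    rwa [if_pos hc] at h1
  · intro f hf j hI hne b hb
    have hfa := (hcl t f hf).1
    -- the limit point of the system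
    obtain ⟨u, hu⟩ : ∃ u : Fin (T t).n → ℝ, u = fun l => if l < j then (T t).x l else z t l := ⟨_, rfl⟩
    have hur : ∀ l, |u l - (T t).x l| < (T t).r := by
      intro l
      rw [hu]
      simp only
      split_ifs
      · rw [sub_self, abs_zero]
        exact (T t).r0
      · exact hclose t l
    have hub : rp u ∈ ball (rp (T t).x) (T t).r := rp_mem (T t).r0 hur
    have hagree : ∀ l : Fin (T t).n, (j : ℕ) ≤ (l : ℕ) → rp u l = rp (z t) l := by
      intro l hlj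
      unfold rp
      rw [hu]
      simp only
      rw [if_neg]
      intro h
      have : (l : ℕ) < j := h
      omega
    have htend : Tendsto (fun N : ℕ => (S t j).pt ((range N).filter (· ∈ E))) atTop (𝓝 (rp u)) := by
      rw [tendsto_pi_nhds]
      intro l
      simp only [hpt]
      unfold rp
      rw [hu]
      simp only
      split_ifs
      · exact tendsto_const_nhds
      · exact (Complex.continuous_ofReal.tendsto _).comp (hl t l)
    obtain ⟨p, hp⟩ : ∃ p : (Σ t, Fin (T t).n × clo (T t).x (T t).r (𝓗 t)), p = ⟨t, j, ⟨f, hf⟩⟩ := ⟨_, rfl⟩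
    have e1 : X p = (f (rp (z t))).re := by
      apply tendsto_nhds_unique (hX p)
      rw [← hI _ hub _ hzb hagree, hp]
      simp only [hP]
      exact (Complex.continuous_re.tendsto _).comp (((hfa _ hub).continuousAt.tendsto).comp htend)
    have e2 : a p = -(((T t).o j).a * (Dj j f (rp (z t))).re) := by
      apply tendsto_nhds_unique (ha p)
      have hI' := hI.Dj (T t).r0 hfa j
      rw [← hI' _ hub _ hzb hagree, hp]
      have h1 : ∀ N, (P ⟨t, j, ⟨f, hf⟩⟩).b ((range N).filter (· ∈ E)) 0 =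
          -(((T t).o j).a * (Dj j f ((S t j).pt ((range N).filter (· ∈ E)))).re) := by
        intro N
        rw [hPb _ _ (hEs N)]
        simp only
        rw [hSv, map_smul, smul_eq_mul, Complex.re_ofReal_mul]
        rfl
      simp only [h1]
      apply Tendsto.neg
      apply Tendsto.const_mul
      exact (Complex.continuous_re.tendsto _).comp
        (((Dj_analytic hfa j _ hub).continuousAt.tendsto).comp htend)
    rw [← e1]
    apply hXa p _ b hb
    rw [e2]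
    exact neg_ne_zero.2 (mul_ne_zero ((T t).o j).a0 hne)

end Pool.Agent.H608.Ge
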