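import Mathlib

/-!
# The functions `x ^ i * m ^ x` are linearly independent
-/

set_option autoImplicit false

namespace Pool.Agent.H608.Ge

open Finset Filter Topology

/-- the natural values -/
noncomputable def mnat (a : ℕ × ℕ) (N : ℕ) : ℝ := (N : ℝ) ^ a.1 * ((a.2 : ℝ) + 1) ^ N

lemma mnat_pos (a : ℕ × ℕ) {N : ℕ} (hN : 1 ≤ N) : 0 < mnat a N := by
  have : (0 : ℝ) < N := by exact_mod_cast hN
  unfold mnat
  positivity

lemma mnat_ratio {a a₀ : ℕ × ℕ} (h : a.2 < a₀.2 ∨ (a.2 = a₀.2 ∧ a.1 < a₀.1)) :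
    Tendsto (fun N => mnat a N / mnat a₀ N) atTop (𝓝 0) := by
  rcases h with h | ⟨h, h'⟩
  · have h1 : (0 : ℝ) ≤ ((a.2 : ℝ) + 1) / ((a₀.2 : ℝ) + 1) := by positivity
    have h2 : ((a.2 : ℝ) + 1) / ((a₀.2 : ℝ) + 1) < 1 := by
      rw [div_lt_one (by positivity)]
      have : (a.2 : ℝ) < a₀.2 := by exact_mod_cast h
      linarith
    have h3 := tendsto_pow_const_mul_const_pow_of_lt_one a.1 h1 h2
    refine squeeze_zero' ?_ ?_ h3
    · filter_upwards [eventually_ge_atTop 1] with N hN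
      exact (div_pos (mnat_pos a hN) (mnat_pos a₀ hN)).le
    · filter_upwards [eventually_ge_atTop 1] with N hN
      have hN1 : (1 : ℝ) ≤ N := by exact_mod_cast hN
      rw [div_le_iff₀ (mnat_pos a₀ hN)]
      unfold mnat
      rw [div_pow]
      have h4 : (1 : ℝ) ≤ (N : ℝ) ^ a₀.1 := one_le_pow₀ hN1
      have h5 : (0 : ℝ) < ((a₀.2 : ℝ) + 1) ^ N := by positivity
      calc (N : ℝ) ^ a.1 * ((a.2 : ℝ) + 1) ^ N = (N : ℝ) ^ a.1 * ((a.2 : ℝ) + 1) ^ N * 1 := by ring
        _ ≤ (N : ℝ) ^ a.1 * ((a.2 : ℝ) + 1) ^ N * (N : ℝ) ^ a₀.1 := by gcongr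
        _ = _ := by field_simp
  · have h3 : Tendsto (fun N : ℕ => 1 / (N : ℝ) ^ (a₀.1 - a.1)) atTop (𝓝 0) := by
      have h4 := (tendsto_pow_atTop (α := ℝ) (n := a₀.1 - a.1) (by omega)).comp tendsto_natCast_atTop_atTop
      simp only [one_div]
      exact tendsto_inv_atTop_zero.comp h4
    refine h3.congr' ?_
    filter_upwards [eventually_ge_atTop 1] with N hN
    have hN1 : (0 : ℝ) < N := by exact_mod_cast hN
    unfold mnat
    rw [h]
    have h5 : (N : ℝ) ^ a₀.1 = (N : ℝ) ^ (a₀.1 - a.1) * (N : ℝ) ^ a.1 := by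
      rw [← pow_add]
      congr 1
      omega
    rw [h5]
    field_simp

/-- one variable -/
theorem finsupp_zero (F : ℕ × ℕ →₀ ℝ) (h : ∀ N : ℕ, 1 ≤ N → F.sum (fun a s => s * mnat a N) = 0) : F = 0 := by
  by_contra hF
  have hne : F.support.Nonempty := Finsupp.support_nonempty_iff.2 hF
  obtain ⟨a₀, ha₀, hmax⟩ := F.support.exists_max_image (fun a => toLex (a.2, a.1)) hne
  have h1 : Tendsto (fun N : ℕ => ∑ a ∈ F.support, F a * (mnat a N / mnat a₀ N)) atTop
      (𝓝 (∑ a ∈ F.support, F a * (if a = a₀ then 1 else 0))) := by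
    apply tendsto_finsetSum
    intro a ha
    apply Tendsto.const_mul
    split_ifs with haa
    · rw [haa]
      apply tendsto_const_nhds.congr'
      filter_upwards [eventually_ge_atTop 1] with N hN
      rw [div_self (mnat_pos a₀ hN).ne']
    · apply mnat_ratio
      have h2 := hmax a ha
      rw [Prod.Lex.toLex_le_toLex] at h2
      simp only at h2
      rcases h2 with h3 | ⟨h3, h4⟩
      · exact Or.inl h3
      · refine Or.inr ⟨h3, lt_of_le_of_ne h4 fun h5 => haa (Prod.ext h5 h3)⟩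
  have h2 : Tendsto (fun N : ℕ => ∑ a ∈ F.support, F a * (mnat a N / mnat a₀ N)) atTop (𝓝 0) := by
    apply tendsto_const_nhds.congr'
    filter_upwards [eventually_ge_atTop 1] with N hN
    have h3 := h N hN
    unfold Finsupp.sum at h3
    have h4 : ∑ a ∈ F.support, F a * (mnat a N / mnat a₀ N) = (∑ a ∈ F.support, F a * mnat a N) / mnat a₀ N := by
      rw [sum_div]
      exact sum_congr rfl fun a _ => by ring
    rw [h4, h3, zero_div]
  have h3 := tendsto_nhds_unique h1 h2
  simp only [mul_ite, mul_one, mul_zero, sum_ite_eq', ha₀, if_true] at h3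
  exact (Finsupp.mem_support_iff.1 ha₀) h3

/-- two variables -/
theorem finsupp_zero2 (F : (ℕ × ℕ) × (ℕ × ℕ) →₀ ℝ)
    (h : ∀ N M : ℕ, 1 ≤ N → 1 ≤ M → F.sum (fun a s => s * (mnat a.1 N * mnat a.2 M)) = 0) : F = 0 := by
  -- fix the second index
  have h1 : ∀ a : ℕ × ℕ, F.curry a = 0 := by
    -- for each `M` the coefficients of the first variable vanish
    have h2 : ∀ M : ℕ, 1 ≤ M → ∀ a, (F.curry a).sum (fun b s => s * mnat b M) = 0 := by
      intro M hM
      obtain ⟨G, hG⟩ : ∃ G : ℕ × ℕ →₀ ℝ, G =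
          Finsupp.mapRange (fun f : ℕ × ℕ →₀ ℝ => f.sum (fun b s => s * mnat b M)) Finsupp.sum_zero_index F.curry :=
        ⟨_, rfl⟩
      have hG0 : G = 0 := by
        apply finsupp_zero
        intro N hN
        rw [hG, Finsupp.sum_mapRange_index (fun a => zero_mul _)]
        have h3 := h N M hN hM
        rw [← Finsupp.sum_curry_index F (fun a b s => s * (mnat a N * mnat b M))] at h3
        refine Eq.trans ?_ h3
        apply Finsupp.sum_congr
        intro a _
        unfold Finsupp.sum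
        rw [sum_mul]
        exact sum_congr rfl fun b _ => by ring
      intro a
      have h4 := DFunLike.congr_fun hG0 a
      rw [hG, Finsupp.mapRange_apply] at h4
      exact h4
    intro a
    apply finsupp_zero
    intro M hM
    exact h2 M hM a
  ext ⟨a, b⟩
  have h3 := DFunLike.congr_fun (h1 a) b
  rw [Finsupp.curry_apply] at h3
  exact h3

end Pool.Agent.H608.Ge
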