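import Mathlib

/-!
# Series with omitted terms
-/

set_option autoImplicit false

namespace Pool.Agent.H608.Ge

open Finset Filter Topology

open Classical in
/-- the partial corrections converge to the series with omitted terms -/
lemma tendsto_omit {t : ℕ → ℝ} {x : ℝ} (h : HasSum (fun i : ℕ => t (i + 1)) x) {E : Set ℕ} (h0 : 0 ∉ E) :
    Tendsto (fun N : ℕ => x - ∑ k ∈ (range N).filter (· ∈ E), t k) atTop
      (𝓝 (∑' n : ℕ, if n + 1 ∈ E then 0 else t (n + 1))) := by
  obtain ⟨g, hg⟩ : ∃ g : ℕ → ℝ, g = fun k => if k ∈ E then t k else 0 := ⟨_, rfl⟩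
  have hg0 : g 0 = 0 := by
    rw [hg]
    simp only
    rw [if_neg h0]
  have hg1 : Summable fun n => g (n + 1) := by
    refine (h.summable.indicator {n | n + 1 ∈ E}).congr fun n => ?_
    rw [hg]
    simp only [Set.indicator, Set.mem_ofPred_eq]
  have hgs : Summable g := (summable_nat_add_iff 1).1 hg1
  have e1 : (∑' n : ℕ, if n + 1 ∈ E then 0 else t (n + 1)) = x - ∑' k, g k := by
    rw [hgs.tsum_eq_zero_add, hg0, zero_add, ← h.tsum_eq, ← h.summable.tsum_sub hg1]
    apply tsum_congr
    intro n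
    rw [hg]
    simp only
    split_ifs
    · rw [sub_self]
    · rw [sub_zero]
  rw [e1]
  apply Tendsto.const_sub
  refine hgs.hasSum.tendsto_sum_nat.congr fun N => ?_
  rw [hg, sum_filter]

end Pool.Agent.H608.Ge
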