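import Pool.Agent.H608.Ge.LinMain

/-!
# Analytic functions of the sum of one series
-/

set_option autoImplicit false

namespace Pool.Agent.H608.Ge

open Finset Filter Topology Metric Asymptotics
open Pool.Agent.H608.Sp (Rich Freq nt_of_freq)
open Pool.Agent.W206.ND (NT)

lemma linInd_one (o : Ser) (hne : ¬ ∀ᶠ w in 𝓝 (0 : ℂ), o.g w = 0) : LinInd (fun _ : Fin 1 => o) := by
  intro c hc h
  have hc0 : c 0 ≠ 0 := by
    intro h0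
    apply hc
    funext i
    rw [Fin.fin_one_eq_zero i, h0]
    rfl
  apply hne
  filter_upwards [h] with w hw
  unfold gc at hw
  rw [Fin.sum_univ_one] at hw
  rcases mul_eq_zero.1 hw with h1 | h1
  · exact absurd (by exact_mod_cast h1) hc0
  · exact h1

/-- a function of one variable as a function on `Fin 1 → ℂ` -/
def up (f : ℂ → ℂ) (w : Fin 1 → ℂ) : ℂ := f (w 0)

lemma up_analytic {f : ℂ → ℂ} {x r : ℝ} (hr : 0 < r) (h : AnalyticOnNhd ℂ f (ball (x : ℂ) r)) :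
    AnalyticOnNhd ℂ (up f) (ball (rp fun _ : Fin 1 => x) r) :=
  h.comp ((ContinuousLinearMap.proj (R := ℂ) (φ := fun _ : Fin 1 => ℂ) 0).analyticOnNhd _)
    fun w hw => (mem_ball_n hr).1 hw 0

lemma up_const {f : ℂ → ℂ} {x r : ℝ} (hr : 0 < r) {c : ℂ} (h : ∀ w ∈ ball (rp fun _ : Fin 1 => x) r, up f w = c) :
    ∀ w ∈ ball (x : ℂ) r, f w = c :=
  fun _ hw => h (fun _ => _) ((mem_ball_n hr).2 fun _ => hw)

open Classical in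
/-- **one series** -/
theorem serOne : ∃ C : ℝ, 0 < C ∧ ∀ o : Ser, (¬ ∀ᶠ w in 𝓝 (0 : ℂ), o.g w = 0) →
    ∀ r : ℝ, 0 < r → ∀ A : Set ℕ, Rich A →
    ∀ (M : ℕ) (𝓕 : Set (ℂ → ℂ)), 𝓕.Countable →
      (∀ f ∈ 𝓕, AnalyticOnNhd ℂ f (ball (o.x : ℂ) r)) →
      (∀ f ∈ 𝓕, Real1 o.x r f) →
      ∀ R : Subring ℝ, Countable R →
      ∃ (E : Set ℕ) (z : ℝ), E.Infinite ∧ (∀ k ∈ E, k ∈ A ∧ M ≤ k ∧ 1 ≤ k) ∧
      (∀ K : ℕ, 16 ≤ K → (({k : ℕ | k ∈ E ∧ k ≤ K}.ncard : ℕ) : ℝ) ≤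
        C * Real.log (Real.log (Real.log K))) ∧
      Tendsto (fun N : ℕ => o.x - ∑ k ∈ (range N).filter (· ∈ E), o.τ k) atTop (𝓝 z) ∧
      |z - o.x| < r ∧
      Transcendental R z ∧
      (∀ f ∈ 𝓕, (¬ ∃ c, ∀ w ∈ ball (o.x : ℂ) r, f w = c) → ∀ b : ℕ, 2 ≤ b → Freq b (f z).re) ∧
      ∀ (l : ℕ) (f : Fin l → ℂ → ℂ), (∀ j, f j ∈ 𝓕) →
        (∀ v : Fin l → ℤ, v ≠ 0 → ¬ ∃ c : ℂ, ∀ w ∈ ball (o.x : ℂ) r, ∑ j, (v j : ℂ) * f j w = c) →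
        ∀ b : ℕ, 2 ≤ b → NT b fun j => (f j z).re := by
  obtain ⟨C, hC, hmain⟩ := linOne
  refine ⟨C, hC, fun o hne r hr A hA M 𝓕 hcount hFA hFR R hR => ?_⟩
  obtain ⟨E, z, hEinf, hEA, hEK, hl, hz, hind, hfreq, hnt⟩ := hmain 1 (fun _ => o) one_pos (linInd_one o hne) r hr A hA
    M (up '' 𝓕) (hcount.image _)
    (by
      rintro _ ⟨f, hf, rfl⟩
      exact up_analytic hr (hFA f hf))
    (by
      rintro _ ⟨f, hf, rfl⟩ a ha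
      exact hFR f hf (a 0) (ha 0)) R hR
  refine ⟨E, z 0, hEinf, hEA, hEK, hl 0, hz 0, hind.transcendental 0, ?_, ?_⟩
  · intro f hf hnc b hb
    exact hfreq (up f) ⟨f, hf, rfl⟩ (fun ⟨c, hc⟩ => hnc ⟨c, up_const hr hc⟩) b hb
  · intro l f hf hnc b hb
    exact hnt l (fun j => up (f j)) (fun j => ⟨f j, hf j, rfl⟩) (fun v hv ⟨c, hc⟩ => hnc v hv ⟨c, by
      exact up_const (f := fun w => ∑ j, (v j : ℂ) * f j w) hr hc⟩) b hb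

end Pool.Agent.H608.Ge
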