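import Mathlib

/-!
# The real periods are countable
-/

set_option autoImplicit false

namespace Pool.Agent.H608.Ge

open Finset

/-- finite sums of absolutely convergent integrals of rational functions with rational coefficients over sets which are
described by finitely many polynomial inequalities with rational coefficients -/
def IsPer (x : ℝ) : Prop :=
  ∃ (k : ℕ) (n m : Fin k → ℕ)
    (p : ∀ j : Fin k, Fin (m j) → MvPolynomial (Fin (n j)) ℚ)
    (P Q : ∀ j : Fin k, MvPolynomial (Fin (n j)) ℚ),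
    (∀ j : Fin k,
      MeasureTheory.IntegrableOn
        (fun y : Fin (n j) → ℝ => MvPolynomial.aeval y (P j) / MvPolynomial.aeval y (Q j))
        {y : Fin (n j) → ℝ | ∀ i, 0 ≤ MvPolynomial.aeval y (p j i)}) ∧
    x = ∑ j : Fin k,
      ∫ y in {y : Fin (n j) → ℝ | ∀ i, 0 ≤ MvPolynomial.aeval y (p j i)},
        MvPolynomial.aeval y (P j) / MvPolynomial.aeval y (Q j)

instance countable_mvQ (n : ℕ) : Countable (MvPolynomial (Fin n) ℚ) := by
  rw [← Cardinal.mk_le_aleph0_iff]
  refine MvPolynomial.cardinalMk_le_max.trans ?_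
  simp

lemma countable_per : {x : ℝ | IsPer x}.Countable := by
  have h1 : {x : ℝ | IsPer x} ⊆ Set.range fun d : (Σ k : ℕ, Σ n : Fin k → ℕ, Σ m : Fin k → ℕ,
      (∀ j : Fin k, Fin (m j) → MvPolynomial (Fin (n j)) ℚ) × (∀ j : Fin k, MvPolynomial (Fin (n j)) ℚ) ×
        (∀ j : Fin k, MvPolynomial (Fin (n j)) ℚ)) =>
      ∑ j : Fin d.1, ∫ y in {y : Fin (d.2.1 j) → ℝ | ∀ i, 0 ≤ MvPolynomial.aeval y (d.2.2.2.1 j i)},
        MvPolynomial.aeval y (d.2.2.2.2.1 j) / MvPolynomial.aeval y (d.2.2.2.2.2 j) := by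
    rintro x ⟨k, n, m, p, P, Q, _, hx⟩
    exact ⟨⟨k, n, m, p, P, Q⟩, hx.symm⟩
  exact (Set.countable_range _).mono h1

/-- the ring generated by a countable set is countable -/
lemma countable_closure {S : Set ℝ} (hS : S.Countable) : Countable (Subring.closure S) := by
  have : Countable S := hS.to_subtype
  obtain ⟨φ, hφ⟩ : ∃ φ : MvPolynomial S ℤ →+* ℝ, φ = (MvPolynomial.aeval (Subtype.val : S → ℝ) :
    MvPolynomial S ℤ →ₐ[ℤ] ℝ).toRingHom := ⟨_, rfl⟩
  have hc : Countable (MvPolynomial S ℤ) := by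
    rw [← Cardinal.mk_le_aleph0_iff]
    refine MvPolynomial.cardinalMk_le_max.trans ?_
    simp
  have h1 : Subring.closure S ≤ φ.range := by
    rw [Subring.closure_le]
    intro x hx
    refine ⟨MvPolynomial.X ⟨x, hx⟩, ?_⟩
    rw [hφ]
    exact MvPolynomial.aeval_X _ _
  have h2 : (φ.range : Set ℝ).Countable := by
    rw [RingHom.coe_range]
    exact Set.countable_range _
  exact (h2.mono h1).to_subtype

end Pool.Agent.H608.Ge
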