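import Pool.Agent.H608.Ge.PiSer
import Pool.Agent.H608.Ge.EulerE

/-!
# The series for `π` and `log e` are linearly independent
-/

set_option autoImplicit false

namespace Pool.Agent.H608.Ge

open Finset Filter Topology Metric Asymptotics

/-- both series -/
noncomputable def serPE : Fin 2 → Ser := ![serPi, serE]

lemma gp_diff {w : ℂ} (hw : w ∈ ball (0 : ℂ) (1 / 2)) : DifferentiableAt ℂ gp w := by
  rw [mem_ball_zero_iff] at hw
  have h1 : 4 + w ≠ 0 := by
    intro h0
    have h2 : w = -4 := by linear_combination h0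
    rw [h2] at hw
    norm_num at hw
  have h3 : 4 + 3 * w ≠ 0 := by
    intro h0
    have h2 : w = -(4 / 3) := by linear_combination h0 / 3
    rw [h2] at hw
    norm_num at hw
  unfold gp
  apply DifferentiableAt.div (by fun_prop) (by fun_prop)
  exact mul_ne_zero h1 h3

/-- the real form of the identity -/
lemma real_form {c₀ c₁ : ℝ} (h : ∀ᶠ w in 𝓝 (0 : ℂ), (c₀ : ℂ) * gp w + (c₁ : ℂ) * ge w = 0) :
    ∀ x : ℝ, -(1 / 2) < x → x < 1 / 2 → c₀ * (x * (8 * x ^ 2 / ((4 + x) * (4 + 3 * x)))) +
      c₁ * ((1 + x) * Real.log (1 + 2 * x) - (2 + x) * Real.log (1 + x)) = 0 := by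
  have h1 : ∀ᶠ w in 𝓝 (0 : ℂ), (c₀ : ℂ) * (w * gp w) + (c₁ : ℂ) * phe w = 0 := by
    filter_upwards [h] with w hw
    have h2 : w * ge w = phe w := by
      unfold ge
      by_cases hw0 : w = 0
      · rw [hw0, phe_zero, zero_mul]
      · rw [dslope_of_ne _ hw0, slope_def_field, phe_zero, sub_zero, sub_zero]
        field_simp
    rw [← h2]
    linear_combination w * hw
  have hA : AnalyticOnNhd ℂ (fun w => (c₀ : ℂ) * (w * gp w) + (c₁ : ℂ) * phe w) (ball (0 : ℂ) (1 / 2)) := by
    apply DifferentiableOn.analyticOnNhd _ isOpen_ball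
    intro w hw
    apply DifferentiableAt.differentiableWithinAt
    exact ((differentiableAt_id.mul (gp_diff hw)).const_mul _).add ((phe_diff hw).const_mul _)
  have h3 := hA.eqOn_zero_of_preconnected_of_eventuallyEq_zero (convex_ball _ _).isPreconnected
    (mem_ball_self (by norm_num)) h1
  intro x hx1 hx2
  have h4 := h3 (show (x : ℂ) ∈ ball (0 : ℂ) (1 / 2) by
    rw [mem_ball_zero_iff, Complex.norm_real, Real.norm_eq_abs, abs_lt]
    exact ⟨by linarith, hx2⟩)
  simp only [Pi.zero_apply] at h4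
  unfold gp phe at h4
  have e1 : Complex.log (1 + 2 * (x : ℂ)) = ((Real.log (1 + 2 * x) : ℝ) : ℂ) := by
    rw [Complex.ofReal_log (by linarith)]
    push_cast
    rfl
  have e2 : Complex.log (1 + (x : ℂ)) = ((Real.log (1 + x) : ℝ) : ℂ) := by
    rw [Complex.ofReal_log (by linarith)]
    push_cast
    rfl
  rw [e1, e2] at h4
  exact_mod_cast h4

lemma linInd_PE : LinInd serPE := by
  intro c hc h
  have h1 : ∀ᶠ w in 𝓝 (0 : ℂ), (c 0 : ℂ) * gp w + (c 1 : ℂ) * ge w = 0 := by
    filter_upwards [h] with w hw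
    unfold gc at hw
    rw [Fin.sum_univ_two] at hw
    exact hw
  have h2 := real_form h1
  -- the logarithmic singularity
  have hc1 : c 1 = 0 := by
    by_contra hc1
    obtain ⟨G, hG⟩ : ∃ G : ℝ → ℝ, G = fun x => c 0 * (x * (8 * x ^ 2 / ((4 + x) * (4 + 3 * x)))) -
      c 1 * ((2 + x) * Real.log (1 + x)) := ⟨_, rfl⟩
    have hGc : ContinuousAt G (-(1 / 2)) := by
      rw [hG]
      have hl : ContinuousAt (fun x : ℝ => Real.log (1 + x)) (-(1 / 2)) := by
        apply ContinuousAt.log (by fun_prop)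
        norm_num
      have hd : ContinuousAt (fun x : ℝ => 8 * x ^ 2 / ((4 + x) * (4 + 3 * x))) (-(1 / 2)) := by
        apply ContinuousAt.div (by fun_prop) (by fun_prop)
        norm_num
      exact (continuousAt_const.mul (continuousAt_id.mul hd)).sub
        (continuousAt_const.mul ((by fun_prop : ContinuousAt (fun x : ℝ => 2 + x) (-(1 / 2))).mul hl))
    have hlog : Tendsto (fun x : ℝ => Real.log (1 + 2 * x)) (𝓝[>] (-(1 / 2))) atBot := by
      apply Real.tendsto_log_nhdsGT_zero.comp
      apply tendsto_nhdsWithin_of_tendsto_nhds_of_eventually_within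
      · have h3 : ContinuousAt (fun x : ℝ => 1 + 2 * x) (-(1 / 2)) := by fun_prop
        have h4 := h3.tendsto
        norm_num at h4
        refine tendsto_nhdsWithin_of_tendsto_nhds ?_
        norm_num
        exact h4
      · filter_upwards [self_mem_nhdsWithin] with x hx
        rw [Set.mem_Ioi] at hx ⊢
        linarith
    have h5 : Tendsto (fun x : ℝ => -(G x / c 1) / (1 + x)) (𝓝[>] (-(1 / 2))) (𝓝 (-(G (-(1 / 2)) / c 1) / (1 + -(1 / 2)))) := by
      apply tendsto_nhdsWithin_of_tendsto_nhds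
      have h6 : ContinuousAt (fun x : ℝ => -(G x / c 1) / (1 + x)) (-(1 / 2)) := by
        apply ContinuousAt.div ((hGc.div_const _).neg) (by fun_prop)
        norm_num
      exact h6.tendsto
    have h6 : Tendsto (fun x : ℝ => Real.log (1 + 2 * x)) (𝓝[>] (-(1 / 2)))
        (𝓝 (-(G (-(1 / 2)) / c 1) / (1 + -(1 / 2)))) := by
      refine h5.congr' ?_
      have h7 : ∀ᶠ x : ℝ in 𝓝[>] (-(1 / 2)), x < 1 / 2 :=
        tendsto_nhdsWithin_of_tendsto_nhds (tendsto_id (α := ℝ)) |>.eventually_lt_const (by norm_num)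
      filter_upwards [self_mem_nhdsWithin, h7] with x hx hx2
      rw [Set.mem_Ioi] at hx
      have h8 := h2 x hx hx2
      have h9 : (1 : ℝ) + x ≠ 0 := by
        intro h0
        linarith
      rw [hG]
      simp only
      generalize Real.log (1 + 2 * x) = L at h8 ⊢
      generalize Real.log (1 + x) = L' at h8 ⊢
      generalize 8 * x ^ 2 / ((4 + x) * (4 + 3 * x)) = D at h8 ⊢
      field_simp
      linear_combination (-1 : ℝ) * h8
    exact not_tendsto_nhds_of_tendsto_atBot hlog _ h6
  have hc0 : c 0 = 0 := by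
    have h3 := h2 (1 / 4) (by norm_num) (by norm_num)
    rw [hc1, zero_mul, add_zero] at h3
    rcases mul_eq_zero.1 h3 with h4 | h4
    · exact h4
    · norm_num at h4
  apply hc
  funext i
  fin_cases i
  · exact hc0
  · exact hc1

end Pool.Agent.H608.Ge
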