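import Pool.Agent.H608.Ge.PiE
import Pool.Agent.H608.Ge.Gam

/-!
# The series for `π`, `log e` and Euler's constant are linearly independent
-/

set_option autoImplicit false

namespace Pool.Agent.H608.Ge

open Finset Filter Topology Metric Asymptotics

/-- the function for Euler's constant -/
noncomputable def gg (w : ℂ) : ℂ := w - Complex.log (1 + w)

/-- the series for Euler's constant -/
noncomputable def serG : Ser where
  x := Real.eulerMascheroniConstant
  τ := tg
  g := gg
  gd := by
    filter_upwards [ball_mem_nhds (0 : ℂ) one_pos] with w hw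
    exact differentiableAt_id.sub (log_diff hw)
  g0 := by
    unfold gg
    simp
  rep := by
    filter_upwards [eventually_ge_atTop 1] with k hk
    exact rep_tg k hk

/-- the three series -/
noncomputable def serPEG : Fin 3 → Ser := ![serPi, serE, serG]

lemma gp_diff1 {w : ℂ} (hw : w ∈ ball (0 : ℂ) 1) : DifferentiableAt ℂ gp w := by
  rw [mem_ball_zero_iff] at hw
  have h1 : 4 + w ≠ 0 := by
    intro h0
    have h2 : w = -4 := by linear_combination h0
    rw [h2] at hw
    norm_num at hw
  have h3 : 4 + 3 * w ≠ 0 := by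
    intro h0
    have h2 : w = -(4 / 3) := by linear_combination h0 / 3
    rw [h2] at hw
    norm_num at hw
  unfold gp
  apply DifferentiableAt.div (by fun_prop) (by fun_prop)
  exact mul_ne_zero h1 h3

/-- the real form of the identity -/
lemma real_form3 {c₀ c₁ c₂ : ℝ} (h : ∀ᶠ w in 𝓝 (0 : ℂ), (c₀ : ℂ) * gp w + (c₁ : ℂ) * ge w + (c₂ : ℂ) * gg w = 0) :
    ∀ x : ℝ, -(1 / 2) < x → x < 1 / 2 → c₀ * (x * (8 * x ^ 2 / ((4 + x) * (4 + 3 * x)))) +
      c₁ * ((1 + x) * Real.log (1 + 2 * x) - (2 + x) * Real.log (1 + x)) +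
      c₂ * (x * (x - Real.log (1 + x))) = 0 := by
  have h1 : ∀ᶠ w in 𝓝 (0 : ℂ), (c₀ : ℂ) * (w * gp w) + (c₁ : ℂ) * phe w + (c₂ : ℂ) * (w * gg w) = 0 := by
    filter_upwards [h] with w hw
    have h2 : w * ge w = phe w := by
      unfold ge
      by_cases hw0 : w = 0
      · rw [hw0, phe_zero, zero_mul]
      · rw [dslope_of_ne _ hw0, slope_def_field, phe_zero, sub_zero, sub_zero]
        field_simp
    rw [← h2]
    linear_combination w * hw
  have hA : AnalyticOnNhd ℂ (fun w => (c₀ : ℂ) * (w * gp w) + (c₁ : ℂ) * phe w + (c₂ : ℂ) * (w * gg w))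
      (ball (0 : ℂ) (1 / 2)) := by
    apply DifferentiableOn.analyticOnNhd _ isOpen_ball
    intro w hw
    apply DifferentiableAt.differentiableWithinAt
    have hw1 : w ∈ ball (0 : ℂ) 1 := ball_subset_ball (by norm_num) hw
    exact (((differentiableAt_id.mul (gp_diff hw)).const_mul _).add ((phe_diff hw).const_mul _)).add
      ((differentiableAt_id.mul (differentiableAt_id.sub (log_diff hw1))).const_mul _)
  have h3 := hA.eqOn_zero_of_preconnected_of_eventuallyEq_zero (convex_ball _ _).isPreconnected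
    (mem_ball_self (by norm_num)) h1
  intro x hx1 hx2
  have h4 := h3 (show (x : ℂ) ∈ ball (0 : ℂ) (1 / 2) by
    rw [mem_ball_zero_iff, Complex.norm_real, Real.norm_eq_abs, abs_lt]
    exact ⟨by linarith, hx2⟩)
  simp only [Pi.zero_apply] at h4
  unfold gp phe gg at h4
  have e1 : Complex.log (1 + 2 * (x : ℂ)) = ((Real.log (1 + 2 * x) : ℝ) : ℂ) := by
    rw [Complex.ofReal_log (by linarith)]
    push_cast
    rfl
  have e2 : Complex.log (1 + (x : ℂ)) = ((Real.log (1 + x) : ℝ) : ℂ) := by
    rw [Complex.ofReal_log (by linarith)]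
    push_cast
    rfl
  rw [e1, e2] at h4
  exact_mod_cast h4

/-- the real form of the identity without the second function -/
lemma real_form2 {c₀ c₂ : ℝ} (h : ∀ᶠ w in 𝓝 (0 : ℂ), (c₀ : ℂ) * gp w + (c₂ : ℂ) * gg w = 0) :
    ∀ x : ℝ, -1 < x → x < 1 → c₀ * (8 * x ^ 2 / ((4 + x) * (4 + 3 * x))) +
      c₂ * (x - Real.log (1 + x)) = 0 := by
  have hA : AnalyticOnNhd ℂ (fun w => (c₀ : ℂ) * gp w + (c₂ : ℂ) * gg w) (ball (0 : ℂ) 1) := by
    apply DifferentiableOn.analyticOnNhd _ isOpen_ball
    intro w hw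
    apply DifferentiableAt.differentiableWithinAt
    exact ((gp_diff1 hw).const_mul _).add ((differentiableAt_id.sub (log_diff hw)).const_mul _)
  have h3 := hA.eqOn_zero_of_preconnected_of_eventuallyEq_zero (convex_ball _ _).isPreconnected
    (mem_ball_self (by norm_num)) h
  intro x hx1 hx2
  have h4 := h3 (show (x : ℂ) ∈ ball (0 : ℂ) 1 by
    rw [mem_ball_zero_iff, Complex.norm_real, Real.norm_eq_abs, abs_lt]
    exact ⟨hx1, hx2⟩)
  simp only [Pi.zero_apply] at h4
  unfold gp gg at h4
  have e2 : Complex.log (1 + (x : ℂ)) = ((Real.log (1 + x) : ℝ) : ℂ) := by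
    rw [Complex.ofReal_log (by linarith)]
    push_cast
    rfl
  rw [e2] at h4
  exact_mod_cast h4

/-- a logarithmic singularity is not removable: if `a(x) log (1 + k x) + G(x) = 0` near the point `- 1 / k`, with
continuous `G` and `a`, then `a` vanishes at the point -/
lemma log_sing {k : ℝ} (hk : 0 < k) {a G : ℝ → ℝ} (ha : ContinuousAt a (-(1 / k))) (hG : ContinuousAt G (-(1 / k)))
    {δ : ℝ} (hδ : 0 < δ) (h : ∀ x, -(1 / k) < x → x < -(1 / k) + δ → a x * Real.log (1 + k * x) + G x = 0) :
    a (-(1 / k)) = 0 := by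
  by_contra hne
  have hlog : Tendsto (fun x : ℝ => Real.log (1 + k * x)) (𝓝[>] (-(1 / k))) atBot := by
    apply Real.tendsto_log_nhdsGT_zero.comp
    apply tendsto_nhdsWithin_of_tendsto_nhds_of_eventually_within
    · have h3 : ContinuousAt (fun x : ℝ => 1 + k * x) (-(1 / k)) := by fun_prop
      have h4 := h3.tendsto
      have e1 : 1 + k * (-(1 / k)) = 0 := by field_simp; ring
      simp only [e1] at h4
      exact tendsto_nhdsWithin_of_tendsto_nhds h4
    · filter_upwards [self_mem_nhdsWithin] with x hx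
      rw [Set.mem_Ioi] at hx ⊢
      have h5 := mul_lt_mul_of_pos_left hx hk
      have e1 : k * (-(1 / k)) = -1 := by field_simp
      rw [e1] at h5
      linarith
  have h5 : Tendsto (fun x : ℝ => -G x / a x) (𝓝[>] (-(1 / k))) (𝓝 (-G (-(1 / k)) / a (-(1 / k)))) :=
    tendsto_nhdsWithin_of_tendsto_nhds ((hG.neg.div ha hne).tendsto)
  refine not_tendsto_nhds_of_tendsto_atBot hlog (-G (-(1 / k)) / a (-(1 / k))) (h5.congr' ?_)
  have h7 : ∀ᶠ x : ℝ in 𝓝[>] (-(1 / k)), x < -(1 / k) + δ :=
    tendsto_nhdsWithin_of_tendsto_nhds (tendsto_id (α := ℝ)) |>.eventually_lt_const (by linarith)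
  have h8 : ∀ᶠ x : ℝ in 𝓝[>] (-(1 / k)), a x ≠ 0 :=
    tendsto_nhdsWithin_of_tendsto_nhds ha.tendsto |>.eventually_ne hne
  filter_upwards [self_mem_nhdsWithin, h7, h8] with x hx hx2 hx3
  rw [Set.mem_Ioi] at hx
  have h9 := h x hx hx2
  field_simp
  linear_combination -h9

lemma linInd_PEG : LinInd serPEG := by
  intro c hc h
  have h1 : ∀ᶠ w in 𝓝 (0 : ℂ), (c 0 : ℂ) * gp w + (c 1 : ℂ) * ge w + (c 2 : ℂ) * gg w = 0 := by
    filter_upwards [h] with w hw
    unfold gc at hw
    rw [Fin.sum_univ_three] at hw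
    exact hw
  have h2 := real_form3 h1
  have hc1 : c 1 = 0 := by
    have h3 := log_sing (k := 2) (by norm_num) (a := fun x => c 1 * (1 + x))
      (G := fun x => c 0 * (x * (8 * x ^ 2 / ((4 + x) * (4 + 3 * x)))) - c 1 * ((2 + x) * Real.log (1 + x)) +
        c 2 * (x * (x - Real.log (1 + x)))) (by fun_prop) (by
          have hl : ContinuousAt (fun x : ℝ => Real.log (1 + x)) (-(1 / 2)) := by
            apply ContinuousAt.log (by fun_prop)
            norm_num
          have hd : ContinuousAt (fun x : ℝ => 8 * x ^ 2 / ((4 + x) * (4 + 3 * x))) (-(1 / 2)) := by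
            apply ContinuousAt.div (by fun_prop) (by fun_prop)
            norm_num
          exact ((continuousAt_const.mul (continuousAt_id.mul hd)).sub
            (continuousAt_const.mul ((by fun_prop : ContinuousAt (fun x : ℝ => 2 + x) (-(1 / 2))).mul hl))).add
            (continuousAt_const.mul (continuousAt_id.mul (continuousAt_id.sub hl)))) (δ := 1) one_pos
      (fun x hx1 hx2 => by
        have h4 := h2 x hx1 (by linarith)
        linear_combination h4)
    have h4 : (1 : ℝ) + -(1 / 2) ≠ 0 := by norm_num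
    exact (mul_eq_zero.1 h3).resolve_right h4
  have h5 : ∀ᶠ w in 𝓝 (0 : ℂ), (c 0 : ℂ) * gp w + (c 2 : ℂ) * gg w = 0 := by
    filter_upwards [h1] with w hw
    rw [hc1] at hw
    push_cast at hw
    linear_combination hw
  have h6 := real_form2 h5
  have hc2 : c 2 = 0 := by
    have h3 := log_sing (k := 1) one_pos (a := fun _ => -c 2)
      (G := fun x => c 0 * (8 * x ^ 2 / ((4 + x) * (4 + 3 * x))) + c 2 * x) continuousAt_const (by
          have hd : ContinuousAt (fun x : ℝ => 8 * x ^ 2 / ((4 + x) * (4 + 3 * x))) (-(1 / 1)) := by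
            apply ContinuousAt.div (by fun_prop) (by fun_prop)
            norm_num
          exact (continuousAt_const.mul hd).add (continuousAt_const.mul continuousAt_id)) (δ := 1) one_pos
      (fun x hx1 hx2 => by
        norm_num at hx1 hx2
        have h4 := h6 x hx1 (by linarith)
        rw [one_mul]
        linear_combination h4)
    linarith
  have hc0 : c 0 = 0 := by
    have h3 := h6 (1 / 4) (by norm_num) (by norm_num)
    rw [hc2, zero_mul, add_zero] at h3
    rcases mul_eq_zero.1 h3 with h4 | h4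
    · exact h4
    · norm_num at h4
  apply hc
  funext i
  fin_cases i
  · exact hc0
  · exact hc1
  · exact hc2

end Pool.Agent.H608.Ge
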