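import Pool.Agent.H608.Ge.OneVar

/-!
# Leibniz's series for `π`, in pairs
-/

set_option autoImplicit false

namespace Pool.Agent.H608.Ge

open Finset Filter Topology Metric Asymptotics

/-- the pairs of Leibniz's series -/
noncomputable def up2 (k : ℕ) : ℝ := 4 / (4 * (k : ℝ) + 1) - 4 / (4 * (k : ℝ) + 3)

lemma up2_eq (k : ℕ) : up2 k = 8 / ((4 * (k : ℝ) + 1) * (4 * (k : ℝ) + 3)) := by
  unfold up2
  field_simp
  ring

lemma up2_pos (k : ℕ) : 0 < up2 k := by
  rw [up2_eq]
  positivity

/-- the analytic function -/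
noncomputable def gp (w : ℂ) : ℂ := 8 * w ^ 2 / ((4 + w) * (4 + 3 * w))

lemma up2_rep {k : ℕ} (hk : 1 ≤ k) : (up2 k : ℂ) = gp (1 / (k : ℂ)) := by
  have hk0 : (0 : ℝ) < k := by exact_mod_cast hk
  have e1 : up2 k = 8 * (1 / (k : ℝ)) ^ 2 / ((4 + 1 / (k : ℝ)) * (4 + 3 * (1 / (k : ℝ)))) := by
    rw [up2_eq]
    field_simp
  rw [e1]
  unfold gp
  push_cast
  rfl

/-- the series -/
noncomputable def serPi : Ser where
  x := Real.pi - 8 / 3
  τ := up2
  g := gp
  gd := by
    filter_upwards [ball_mem_nhds (0 : ℂ) (show (0 : ℝ) < 1 by norm_num)] with w hw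
    rw [mem_ball_zero_iff] at hw
    have h1 : 4 + w ≠ 0 := by
      intro h0
      have h2 : w = -4 := by linear_combination h0
      rw [h2] at hw
      norm_num at hw
    have h3 : 4 + 3 * w ≠ 0 := by
      intro h0
      have h2 : w = -(4 / 3) := by linear_combination h0 / 3
      rw [h2] at hw
      norm_num at hw
    unfold gp
    apply DifferentiableAt.div (by fun_prop) (by fun_prop)
    exact mul_ne_zero h1 h3
  g0 := by
    unfold gp
    simp
  rep := by
    filter_upwards [eventually_ge_atTop 1] with k hk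
    exact up2_rep hk

lemma serPi_ne : ¬ ∀ᶠ w in 𝓝 (0 : ℂ), serPi.g w = 0 := by
  intro h
  have h1 := (tendsto_nhds_of_tendsto_nhdsWithin tendsto_one_div_c).eventually h
  obtain ⟨k, hk, hk1⟩ := (h1.and (eventually_ge_atTop 1)).exists
  have h2 : (up2 k : ℂ) = 0 := by
    rw [up2_rep hk1]
    exact hk
  have h3 : up2 k = 0 := by exact_mod_cast h2
  exact (up2_pos k).ne' h3

lemma hasSum_up2_zero : HasSum up2 Real.pi := by
  rw [hasSum_iff_tendsto_nat_of_nonneg (fun i => (up2_pos _).le)]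
  have h1 : ∀ N : ℕ, ∑ i ∈ range N, up2 i = 4 * ∑ i ∈ range (2 * N), (-1 : ℝ) ^ i / (2 * i + 1) := by
    intro N
    induction N with
    | zero => norm_num
    | succ N ih =>
      rw [sum_range_succ, ih, show 2 * (N + 1) = 2 * N + 1 + 1 by ring, sum_range_succ, sum_range_succ]
      unfold up2
      rw [pow_succ, pow_mul]
      push_cast
      norm_num
      ring
  simp only [h1]
  have h2 := (Real.tendsto_sum_pi_div_four.comp (tendsto_id.const_mul_atTop' (show 0 < 2 by norm_num))).const_mul 4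
  have h3 : 4 * (Real.pi / 4) = Real.pi := by ring
  rw [h3] at h2
  exact h2

lemma hasSum_up2 : HasSum (fun i : ℕ => up2 (i + 1)) (Real.pi - 8 / 3) := by
  have h1 := (hasSum_nat_add_iff' 1).2 hasSum_up2_zero
  rw [sum_range_one] at h1
  have h2 : up2 0 = 8 / 3 := by
    unfold up2
    norm_num
  rw [h2] at h1
  exact h1

end Pool.Agent.H608.Ge
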