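import Pool.Agent.H608.Ge.Master

/-!
# Polynomials in countably many constants
-/

set_option autoImplicit false

namespace Pool.Agent.H608.Ge

open Finset Filter Topology

/-- a system of constants: omitting the place `k` subtracts `τ i k` from the `i`-th constant, where
`τ i k` is a power series in `1 / k` of order `w i` -/
structure Sys (M₀ : ℕ) where
  x : ℕ → ℝ
  τ : ℕ → ℕ → ℝ
  g : ℕ → PowerSeries ℝ
  w : ℕ → ℕ
  w1 : ∀ i, 1 ≤ w i
  wm : StrictMono w
  lead : ∀ i, PowerSeries.coeff (w i) (g i) ≠ 0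
  low : ∀ i n, n < w i → PowerSeries.coeff n (g i) = 0
  G : ℕ → ℝ
  D : ℕ → ℝ
  G0 : ∀ i, 0 ≤ G i
  D0 : ∀ i, 0 ≤ D i
  bd : ∀ i n, |PowerSeries.coeff n (g i)| ≤ G i * D i ^ n
  M : ℕ → ℕ
  DM : ∀ i, D i < M i
  rep : ∀ i k, M i ≤ k → τ i k = ∑' n, PowerSeries.coeff n (g i) / (k : ℝ) ^ n
  c : ℕ → ℝ
  c0 : ∀ i, 0 ≤ c i
  tb : ∀ i k, M₀ ≤ k → |τ i k| ≤ c i * (1 / k)

namespace Sys

variable {M₀ : ℕ} (S : Sys M₀)

/-- the constants without the places of `F` -/
noncomputable def pt (F : Finset ℕ) (i : ℕ) : ℝ := S.x i - ∑ k ∈ F, S.τ i k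

/-- the power series of a polynomial -/
noncomputable def phi (u : ℕ → ℝ) : MvPolynomial ℕ ℝ →+* PowerSeries ℝ :=
  MvPolynomial.eval₂Hom (PowerSeries.C (R := ℝ)) fun i => PowerSeries.C (u i) - S.g i

lemma phi_C (u : ℕ → ℝ) (a : ℝ) : S.phi u (MvPolynomial.C a) = PowerSeries.C a :=
  MvPolynomial.eval₂Hom_C _ _ _

lemma phi_X (u : ℕ → ℝ) (i : ℕ) : S.phi u (MvPolynomial.X i) = PowerSeries.C (u i) - S.g i :=
  MvPolynomial.eval₂Hom_X' _ _ _

/-- the omission of more variables -/
def shift (m : ℕ) : Sys M₀ where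
  x i := S.x (i + m)
  τ i := S.τ (i + m)
  g i := S.g (i + m)
  w i := S.w (i + m)
  w1 i := S.w1 (i + m)
  wm := fun i j h => S.wm (by omega)
  lead i := S.lead (i + m)
  low i := S.low (i + m)
  G i := S.G (i + m)
  D i := S.D (i + m)
  G0 i := S.G0 (i + m)
  D0 i := S.D0 (i + m)
  bd i := S.bd (i + m)
  M i := S.M (i + m)
  DM i := S.DM (i + m)
  rep i := S.rep (i + m)
  c i := S.c (i + m)
  c0 i := S.c0 (i + m)
  tb i := S.tb (i + m)

lemma pt_insert (F : Finset ℕ) (k : ℕ) (hk : k ∉ F) (i : ℕ) :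
    S.pt (insert k F) i = S.pt F i - S.τ i k := by
  unfold pt
  rw [sum_insert hk]
  ring

lemma pt_bound (hM₀ : 1 ≤ M₀) (F : Finset ℕ) (hF : Small M₀ F) (i : ℕ) :
    |S.pt F i| ≤ |S.x i| + 2 * S.c i := by
  unfold pt
  have h1 : |∑ k ∈ F, S.τ i k| ≤ S.c i * ∑ k ∈ F, (1 : ℝ) / k := by
    refine (abs_sum_le_sum_abs _ _).trans ?_
    rw [mul_sum]
    exact sum_le_sum fun k hk => S.tb i k (hF.1 k hk)
  have h2 : ∑ k ∈ F, (1 : ℝ) / k ≤ 2 := by
    refine hF.2.trans ?_
    have h3 : (1 : ℝ) ≤ M₀ := by exact_mod_cast hM₀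
    rw [div_le_iff₀ (by linarith)]
    linarith
  have h3 : S.c i * ∑ k ∈ F, (1 : ℝ) / k ≤ S.c i * 2 := mul_le_mul_of_nonneg_left h2 (S.c0 i)
  calc |S.x i - ∑ k ∈ F, S.τ i k| ≤ |S.x i| + |∑ k ∈ F, S.τ i k| := abs_sub _ _
    _ ≤ _ := by linarith

/-- the coefficients of low order -/
lemma phi_low (u : ℕ → ℝ) (Q : MvPolynomial ℕ ℝ) :
    PowerSeries.coeff 0 (S.phi u Q) = MvPolynomial.eval u Q ∧
      (∀ n, 1 ≤ n → n < S.w 0 → PowerSeries.coeff n (S.phi u Q) = 0) ∧
      PowerSeries.coeff (S.w 0) (S.phi u Q) =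
        -(MvPolynomial.eval u (MvPolynomial.pderiv 0 Q)) * PowerSeries.coeff (S.w 0) (S.g 0) := by
  have hw := S.w1 0
  induction Q using MvPolynomial.induction_on with
  | C a =>
    rw [S.phi_C]
    refine ⟨by simp, fun n hn _ => ?_, ?_⟩
    · rw [PowerSeries.coeff_C, if_neg (by omega)]
    · rw [PowerSeries.coeff_C, if_neg (by omega)]
      simp
  | add p q hp hq =>
    obtain ⟨p1, p2, p3⟩ := hp
    obtain ⟨q1, q2, q3⟩ := hq
    rw [map_add]
    refine ⟨?_, fun n hn hn' => ?_, ?_⟩
    · rw [map_add, map_add, p1, q1]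
    · rw [map_add, p2 n hn hn', q2 n hn hn', add_zero]
    · rw [map_add, p3, q3, map_add, map_add]
      ring
  | mul_X p i hp =>
    obtain ⟨p1, p2, p3⟩ := hp
    have hco : ∀ n, PowerSeries.coeff n (S.phi u (p * MvPolynomial.X i)) =
        PowerSeries.coeff n (S.phi u p) * u i - PowerSeries.coeff n (S.phi u p * S.g i) := by
      intro n
      rw [map_mul, S.phi_X, mul_sub, map_sub, PowerSeries.coeff_mul_C]
    have hwi : S.w 0 ≤ S.w i := S.wm.monotone (Nat.zero_le i)
    have hg : ∀ n, n < S.w 0 → PowerSeries.coeff n (S.phi u p * S.g i) = 0 := by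
      intro n hn
      rw [PowerSeries.coeff_mul]
      apply sum_eq_zero
      rintro ⟨a, b⟩ hab
      rw [HasAntidiagonal.mem_antidiagonal] at hab
      simp only at hab ⊢
      rw [S.low i b (by omega), mul_zero]
    refine ⟨?_, fun n hn hn' => ?_, ?_⟩
    · rw [hco, hg 0 (by omega), p1, sub_zero, map_mul, MvPolynomial.eval_X]
    · rw [hco, hg n hn', p2 n hn hn', zero_mul, sub_zero]
    · rw [hco, p3, MvPolynomial.pderiv_mul, map_add, (MvPolynomial.eval u).map_mul,
        (MvPolynomial.eval u).map_mul, MvPolynomial.eval_X]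
      rcases Nat.eq_zero_or_pos i with h0 | h0
      · subst h0
        rw [MvPolynomial.pderiv_X_self, map_one]
        have h1 : PowerSeries.coeff (S.w 0) (S.phi u p * S.g 0) =
            MvPolynomial.eval u p * PowerSeries.coeff (S.w 0) (S.g 0) := by
          rw [PowerSeries.coeff_mul, sum_eq_single (0, S.w 0)]
          · rw [p1]
          · rintro ⟨a, b⟩ hab hne
            rw [HasAntidiagonal.mem_antidiagonal] at hab
            simp only at hab ⊢
            have hb : b < S.w 0 := by
              rcases Nat.eq_zero_or_pos a with h | h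
              · exfalso
                apply hne
                rw [h] at hab ⊢
                rw [← hab]
                simp
              · omega
            rw [S.low 0 b hb, mul_zero]
          · intro h
            exfalso
            apply h
            rw [HasAntidiagonal.mem_antidiagonal]
            simp
        rw [h1]
        ring
      · rw [MvPolynomial.pderiv_X_of_ne (by omega), map_zero]
        have h1 : PowerSeries.coeff (S.w 0) (S.phi u p * S.g i) = 0 := by
          have hlt : S.w 0 < S.w i := S.wm h0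
          rw [PowerSeries.coeff_mul]
          apply sum_eq_zero
          rintro ⟨a, b⟩ hab
          rw [HasAntidiagonal.mem_antidiagonal] at hab
          simp only at hab ⊢
          rw [S.low i b (by omega), mul_zero]
        rw [h1]
        ring

end Sys

lemma summ {c : ℕ → ℝ} {K D : ℝ} (hc : ∀ n, |c n| ≤ K * D ^ n) (hD : 0 ≤ D) {k : ℕ} (hk : D < k) :
    Summable fun n => ‖c n / (k : ℝ) ^ n‖ := by
  have hk0 : (0 : ℝ) < k := lt_of_le_of_lt hD hk
  refine Summable.of_nonneg_of_le (fun n => norm_nonneg _) (fun n => ?_)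
    ((summable_geometric_of_lt_one (by positivity : 0 ≤ D / k) (by rwa [div_lt_one hk0])).mul_left K)
  rw [norm_div, Real.norm_eq_abs, Real.norm_eq_abs, abs_of_pos (by positivity : (0 : ℝ) < (k : ℝ) ^ n),
    div_pow, mul_div_assoc']
  gcongr
  exact hc n

lemma two_pow_ge (n : ℕ) : ((n : ℝ) + 1) ≤ 2 ^ n := by
  have h1 : n + 1 ≤ 2 ^ n := Nat.lt_two_pow_self
  exact_mod_cast h1

namespace Sys

variable {M₀ : ℕ} (S : Sys M₀)

/-- the bounds for the coefficients, and the values -/
lemma phi_bound (B : ℕ → ℝ) (Q : MvPolynomial ℕ ℝ) : ∃ (K D : ℝ) (M : ℕ), 0 ≤ K ∧ 0 ≤ D ∧ D < M ∧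
    ∀ u : ℕ → ℝ, (∀ i, |u i| ≤ B i) → (∀ n, |PowerSeries.coeff n (S.phi u Q)| ≤ K * D ^ n) ∧
      ∀ k, M ≤ k → MvPolynomial.eval (fun i => u i - S.τ i k) Q =
        ∑' n, PowerSeries.coeff n (S.phi u Q) / (k : ℝ) ^ n := by
  induction Q using MvPolynomial.induction_on with
  | C a =>
    refine ⟨|a|, 0, 1, abs_nonneg a, le_rfl, by norm_num, fun u _ => ?_⟩
    rw [S.phi_C]
    constructor
    · intro n
      rw [PowerSeries.coeff_C]
      split_ifs with h
      · rw [h]; simp
      · rw [zero_pow h]; simp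
    · intro k hk
      rw [tsum_eq_single 0]
      · simp
      · intro n hn
        rw [PowerSeries.coeff_C, if_neg hn, zero_div]
  | add p q hp hq =>
    obtain ⟨K₁, D₁, M₁, k1, d1, m1, h1⟩ := hp
    obtain ⟨K₂, D₂, M₂, k2, d2, m2, h2⟩ := hq
    refine ⟨K₁ + K₂, max D₁ D₂, max M₁ M₂, by positivity, by positivity, ?_, fun u hu => ?_⟩
    · push_cast
      exact max_lt_max m1 m2
    · obtain ⟨a1, a2⟩ := h1 u hu
      obtain ⟨b1, b2⟩ := h2 u hu
      constructor
      · intro n
        rw [map_add, map_add]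
        calc |PowerSeries.coeff n (S.phi u p) + PowerSeries.coeff n (S.phi u q)| ≤
              |PowerSeries.coeff n (S.phi u p)| + |PowerSeries.coeff n (S.phi u q)| := abs_add_le _ _
          _ ≤ K₁ * D₁ ^ n + K₂ * D₂ ^ n := add_le_add (a1 n) (b1 n)
          _ ≤ K₁ * (max D₁ D₂) ^ n + K₂ * (max D₁ D₂) ^ n := by
              gcongr
              · exact le_max_left _ _
              · exact le_max_right _ _
          _ = _ := by ring
      · intro k hk
        have hk1 : M₁ ≤ k := (le_max_left _ _).trans hk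
        have hk2 : M₂ ≤ k := (le_max_right _ _).trans hk
        have hk1' : D₁ < k := m1.trans_le (by exact_mod_cast hk1)
        have hk2' : D₂ < k := m2.trans_le (by exact_mod_cast hk2)
        rw [map_add, a2 k hk1, b2 k hk2, ← (summ a1 d1 hk1').of_norm.tsum_add (summ b1 d2 hk2').of_norm]
        apply tsum_congr
        intro n
        rw [map_add, map_add, add_div]
  | mul_X p i hp =>
    obtain ⟨K₁, D₁, M₁, k1, d1, m1, h1⟩ := hp
    obtain ⟨D', hD'⟩ : ∃ D' : ℝ, D' = max D₁ (S.D i) := ⟨_, rfl⟩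
    have hD'0 : 0 ≤ D' := by rw [hD']; positivity
    have hD1 : D₁ ≤ D' := by rw [hD']; exact le_max_left _ _
    have hDi : S.D i ≤ D' := by rw [hD']; exact le_max_right _ _
    refine ⟨K₁ * (|B i| + S.G i), 2 * D', max (max M₁ (S.M i)) (⌊2 * D'⌋₊ + 1),
      mul_nonneg k1 (add_nonneg (abs_nonneg _) (S.G0 i)), by positivity, ?_, fun u hu => ?_⟩
    · refine (Nat.lt_floor_add_one (2 * D')).trans_le ?_
      exact_mod_cast le_max_right _ _
    · obtain ⟨a1, a2⟩ := h1 u hu
      have hco : ∀ n, PowerSeries.coeff n (S.phi u (p * MvPolynomial.X i)) =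
          PowerSeries.coeff n (S.phi u p) * u i - ∑ q ∈ antidiagonal n,
            PowerSeries.coeff q.1 (S.phi u p) * PowerSeries.coeff q.2 (S.g i) := by
        intro n
        rw [map_mul, S.phi_X, mul_sub, map_sub, PowerSeries.coeff_mul_C, PowerSeries.coeff_mul]
      constructor
      · intro n
        rw [hco]
        have e1 : |PowerSeries.coeff n (S.phi u p) * u i| ≤ K₁ * |B i| * (2 * D') ^ n := by
          rw [abs_mul]
          calc |PowerSeries.coeff n (S.phi u p)| * |u i| ≤ (K₁ * D₁ ^ n) * |B i| :=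
                mul_le_mul (a1 n) ((hu i).trans (le_abs_self _)) (abs_nonneg _) (by positivity)
            _ = K₁ * |B i| * D₁ ^ n := by ring
            _ ≤ K₁ * |B i| * (2 * D') ^ n := by
                gcongr
                linarith
        have e2 : |∑ q ∈ antidiagonal n, PowerSeries.coeff q.1 (S.phi u p) * PowerSeries.coeff q.2 (S.g i)| ≤
            K₁ * S.G i * (2 * D') ^ n := by
          refine (abs_sum_le_sum_abs _ _).trans ?_
          have e3 : ∀ q ∈ antidiagonal n, |PowerSeries.coeff q.1 (S.phi u p) * PowerSeries.coeff q.2 (S.g i)| ≤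
              K₁ * S.G i * D' ^ n := by
            rintro ⟨a, b⟩ hab
            rw [HasAntidiagonal.mem_antidiagonal] at hab
            simp only at hab ⊢
            rw [abs_mul, ← hab, pow_add]
            calc |PowerSeries.coeff a (S.phi u p)| * |PowerSeries.coeff b (S.g i)| ≤
                  (K₁ * D₁ ^ a) * (S.G i * S.D i ^ b) := by
                    gcongr
                    · exact a1 a
                    · exact S.bd i b
              _ ≤ (K₁ * D' ^ a) * (S.G i * D' ^ b) := by
                    have := S.D0 i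
                    have := S.G0 i
                    gcongr
              _ = _ := by ring
          refine (sum_le_sum e3).trans ?_
          rw [sum_const, Nat.card_antidiagonal, nsmul_eq_mul]
          have e4 := two_pow_ge n
          have e5 : 0 ≤ K₁ * S.G i * D' ^ n := by
            have := S.G0 i
            positivity
          push_cast
          calc ((n : ℝ) + 1) * (K₁ * S.G i * D' ^ n) ≤ 2 ^ n * (K₁ * S.G i * D' ^ n) := by gcongr
            _ = _ := by rw [mul_pow]; ring
        calc _ ≤ |PowerSeries.coeff n (S.phi u p) * u i| +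
              |∑ q ∈ antidiagonal n, PowerSeries.coeff q.1 (S.phi u p) * PowerSeries.coeff q.2 (S.g i)| :=
                abs_sub _ _
          _ ≤ K₁ * |B i| * (2 * D') ^ n + K₁ * S.G i * (2 * D') ^ n := add_le_add e1 e2
          _ = _ := by ring
      · intro k hk
        have hk1 : M₁ ≤ k := ((le_max_left _ _).trans (le_max_left _ _)).trans hk
        have hk2 : S.M i ≤ k := ((le_max_right _ _).trans (le_max_left _ _)).trans hk
        have hk1' : D₁ < k := m1.trans_le (by exact_mod_cast hk1)
        have hk2' : S.D i < k := (S.DM i).trans_le (by exact_mod_cast hk2)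
        have hk0 : (0 : ℝ) < k := lt_of_le_of_lt d1 hk1'
        have s1 := summ a1 d1 hk1'
        have s2 := summ (S.bd i) (S.D0 i) hk2'
        have e1 := tsum_mul_tsum_eq_tsum_sum_antidiagonal_of_summable_norm s1 s2
        have e2 : Summable fun n => ∑ kl ∈ antidiagonal n, (PowerSeries.coeff kl.1 (S.phi u p) / (k : ℝ) ^ kl.1) *
            (PowerSeries.coeff kl.2 (S.g i) / (k : ℝ) ^ kl.2) :=
          (summable_norm_sum_mul_antidiagonal_of_summable_norm s1 s2).of_norm
        rw [map_mul, MvPolynomial.eval_X, a2 k hk1, S.rep i k hk2, mul_sub, e1, ← tsum_mul_right,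
          ← (s1.of_norm.mul_right (u i)).tsum_sub e2]
        apply tsum_congr
        intro n
        rw [hco, sub_div, sum_div]
        congr 1
        · ring
        · refine sum_congr rfl fun q hq => ?_
          rw [HasAntidiagonal.mem_antidiagonal] at hq
          rw [← hq, pow_add]
          field_simp

end Sys

end Pool.Agent.H608.Ge
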