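import Pool.Agent.H608.Ge.Pol

/-!
# The process of a polynomial
-/

set_option autoImplicit false

namespace Pool.Agent.H608.Ge

open Finset Filter Topology

namespace Sys

variable {M₀ : ℕ} (S : Sys M₀)

theorem exists_proc (hM₀ : 1 ≤ M₀) (Q : MvPolynomial ℕ ℝ) : ∃ P : GProc M₀,
    (∀ F, P.val F = MvPolynomial.eval (S.pt F) Q) ∧
    ∀ F, P.b F 0 = -(MvPolynomial.eval (S.pt F) (MvPolynomial.pderiv 0 Q)) *
      PowerSeries.coeff (S.w 0) (S.g 0) := by
  have hw := S.w1 0
  obtain ⟨K, D, M, hK, hD, hM, h⟩ := S.phi_bound (fun i => |S.x i| + 2 * S.c i) Q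
  obtain ⟨K', D', M', hK', hD', hM', h'⟩ := S.phi_bound (fun i => |S.x i| + 2 * S.c i)
    (MvPolynomial.pderiv 0 Q)
  obtain ⟨q, hq⟩ : ∃ q : ℝ, q = |PowerSeries.coeff (S.w 0) (S.g 0)| := ⟨_, rfl⟩
  have hq0 : 0 ≤ q := by rw [hq]; exact abs_nonneg _
  have hb0 : ∀ F, PowerSeries.coeff (S.w 0) (S.phi (S.pt F) Q) =
      -(MvPolynomial.eval (S.pt F) (MvPolynomial.pderiv 0 Q)) * PowerSeries.coeff (S.w 0) (S.g 0) :=
    fun F => (S.phi_low (S.pt F) Q).2.2
  have hnot : ∀ (F : Finset ℕ) (k : ℕ), (∀ j ∈ F, j < k) → k ∉ F := fun F k hk hmem =>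
    lt_irrefl _ (hk k hmem)
  have hpt : ∀ (F : Finset ℕ) (k : ℕ), (∀ j ∈ F, j < k) →
      S.pt (insert k F) = fun i => S.pt F i - S.τ i k := fun F k hk =>
    funext fun i => S.pt_insert F k (hnot F k hk) i
  refine ⟨{
    val := fun F => MvPolynomial.eval (S.pt F) Q
    b := fun F i => PowerSeries.coeff (S.w 0 + i) (S.phi (S.pt F) Q)
    s := S.w 0 - 1
    K := max (K * D ^ S.w 0) (q * (2 * (K' * D')))
    D := D
    M := max (max M M') (max 1 ⌈2 * D'⌉₊)
    hK := le_max_of_le_left (by positivity)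
    hD := hD
    bd := ?_
    step := ?_
    amp := ?_ }, fun F => rfl, fun F => ?_⟩
  · intro F hF i
    have h1 := (h (S.pt F) (S.pt_bound hM₀ F hF)).1 (S.w 0 + i)
    refine h1.trans ?_
    rw [pow_add, ← mul_assoc]
    apply mul_le_mul_of_nonneg_right (le_max_left _ _) (by positivity)
  · intro F k hF hk _ hMk
    have hk1 : M ≤ k := ((le_max_left _ _).trans (le_max_left _ _)).trans hMk
    obtain ⟨h1, h2⟩ := h (S.pt F) (S.pt_bound hM₀ F hF)
    obtain ⟨l1, l2, l3⟩ := S.phi_low (S.pt F) Q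
    have hsum := (summ h1 hD (hM.trans_le (by exact_mod_cast hk1 : (M : ℝ) ≤ k))).of_norm
    rw [hpt F k hk, h2 k hk1, ← hsum.sum_add_tsum_nat_add (S.w 0)]
    congr 1
    · rw [sum_eq_single 0]
      · rw [l1, pow_zero, div_one]
      · intro n hn hn0
        rw [mem_range] at hn
        rw [l2 n (by omega) hn, zero_div]
      · intro h0
        exfalso
        apply h0
        rw [mem_range]
        omega
    · unfold ser
      apply tsum_congr
      intro n
      rw [add_comm n (S.w 0), show S.w 0 - 1 + 1 + n = S.w 0 + n by omega]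
  · intro F k hF hk _ hMk
    have hk1 : M' ≤ k := ((le_max_right _ _).trans (le_max_left _ _)).trans hMk
    have hk2 : 1 ≤ k := ((le_max_left _ _).trans (le_max_right _ _)).trans hMk
    have hk3 : ⌈2 * D'⌉₊ ≤ k := ((le_max_right _ _).trans (le_max_right _ _)).trans hMk
    have hk4 : 2 * D' ≤ k := (Nat.le_ceil _).trans (by exact_mod_cast hk3)
    have hk0 : (0 : ℝ) < k := by exact_mod_cast hk2
    obtain ⟨h1, h2⟩ := h' (S.pt F) (S.pt_bound hM₀ F hF)
    obtain ⟨l1, l2, l3⟩ := S.phi_low (S.pt F) (MvPolynomial.pderiv 0 Q)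
    have hsum := (summ h1 hD' (hM'.trans_le (by exact_mod_cast hk1 : (M' : ℝ) ≤ k))).of_norm
    have e1 : MvPolynomial.eval (S.pt (insert k F)) (MvPolynomial.pderiv 0 Q) -
        MvPolynomial.eval (S.pt F) (MvPolynomial.pderiv 0 Q) =
        ser 0 (fun n => PowerSeries.coeff (n + 1) (S.phi (S.pt F) (MvPolynomial.pderiv 0 Q))) k := by
      rw [hpt F k hk, h2 k hk1, ← hsum.sum_add_tsum_nat_add 1, sum_range_one, l1, pow_zero, div_one,
        add_sub_cancel_left]
      unfold ser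
      apply tsum_congr
      intro n
      rw [show 0 + 1 + n = n + 1 by omega]
    have e2 : |ser 0 (fun n => PowerSeries.coeff (n + 1) (S.phi (S.pt F) (MvPolynomial.pderiv 0 Q))) k| ≤
        2 * (K' * D') * (1 / (k : ℝ) ^ (0 + 1)) := by
      apply ser_le (D := D') _ hD' (by positivity) hk0 hk4
      intro n
      refine (h1 (n + 1)).trans (le_of_eq ?_)
      rw [pow_succ]
      ring
    simp only [add_zero]
    rw [hb0, hb0]
    have e3 : -(MvPolynomial.eval (S.pt (insert k F)) (MvPolynomial.pderiv 0 Q)) *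
          PowerSeries.coeff (S.w 0) (S.g 0) -
        -(MvPolynomial.eval (S.pt F) (MvPolynomial.pderiv 0 Q)) * PowerSeries.coeff (S.w 0) (S.g 0) =
        -(PowerSeries.coeff (S.w 0) (S.g 0) *
          (MvPolynomial.eval (S.pt (insert k F)) (MvPolynomial.pderiv 0 Q) -
            MvPolynomial.eval (S.pt F) (MvPolynomial.pderiv 0 Q))) := by ring
    rw [e3, abs_neg, abs_mul, ← hq, e1]
    calc q * |ser 0 (fun n => PowerSeries.coeff (n + 1) (S.phi (S.pt F) (MvPolynomial.pderiv 0 Q))) k| ≤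
          q * (2 * (K' * D') * (1 / (k : ℝ) ^ (0 + 1))) := by gcongr
      _ = q * (2 * (K' * D')) / k := by
          rw [zero_add, pow_one]
          ring
      _ ≤ _ := by
          gcongr
          exact le_max_right _ _
  · simp only [add_zero]
    exact hb0 F

end Sys

end Pool.Agent.H608.Ge
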