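import Mathlib

/-!
# The number of primes between `H` and `2 H`
-/

set_option autoImplicit false

namespace Pool.Agent.H608.Ge

open Finset Filter Topology

lemma centralBinom_le_primes (n : ℕ) (n_large : 2 < n) :
    n.centralBinom ≤ (2 * n) ^ Nat.sqrt (2 * n) * 4 ^ (2 * n / 3) *
      (2 * n) ^ ((Finset.Ioc n (2 * n)).filter Nat.Prime).card := by
  have n_pos : 0 < n := (Nat.zero_le _).trans_lt n_large
  have n2_pos : 1 ≤ 2 * n := by omega
  let S := {p ∈ Finset.range (2 * n + 1) | Nat.Prime p}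
  let f := fun x : ℕ => x ^ n.centralBinom.factorization x
  have hS : ∏ x ∈ S, f x = n.centralBinom := by
    rw [← n.prod_pow_factorization_centralBinom]
    refine Finset.prod_filter_of_ne fun p _ h => ?_
    contrapose h
    show p ^ n.centralBinom.factorization p = 1
    rw [Nat.factorization_eq_zero_of_not_prime n.centralBinom h, pow_zero]
  rw [← hS, ← Finset.prod_filter_mul_prod_filter_not S (· ≤ Nat.sqrt (2 * n)), mul_assoc]
  apply mul_le_mul'
  · refine (Finset.prod_le_prod' fun p _ => (?_ : f p ≤ 2 * n)).trans ?_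
    · exact Nat.pow_factorization_choose_le (mul_pos two_pos n_pos)
    have : (Finset.Icc 1 (Nat.sqrt (2 * n))).card = Nat.sqrt (2 * n) := by rw [Nat.card_Icc, Nat.add_sub_cancel]
    rw [Finset.prod_const]
    refine pow_right_mono₀ n2_pos ((Finset.card_le_card fun x hx => ?_).trans this.le)
    obtain ⟨h1, h2⟩ := Finset.mem_filter.1 hx
    exact Finset.mem_Icc.mpr ⟨(Finset.mem_filter.1 h1).2.one_lt.le, h2⟩
  · rw [← Finset.prod_filter_mul_prod_filter_not (S.filter fun x => ¬ x ≤ Nat.sqrt (2 * n)) (· ≤ 2 * n / 3)]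
    apply mul_le_mul'
    · refine le_trans ?_ (primorial_le_four_pow (2 * n / 3))
      refine (Finset.prod_le_prod' fun p hp => (?_ : f p ≤ p)).trans ?_
      · obtain ⟨h1, h3⟩ := Finset.mem_filter.1 hp
        obtain ⟨h1, h2⟩ := Finset.mem_filter.1 h1
        refine (pow_right_mono₀ (Finset.mem_filter.1 h1).2.one_lt.le ?_).trans (pow_one p).le
        exact Nat.factorization_choose_le_one (Nat.sqrt_lt'.mp <| not_le.1 h2)
      · refine Finset.prod_le_prod_of_subset_of_one_le' (fun p hp => ?_) ?_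
        · obtain ⟨h1, h3⟩ := Finset.mem_filter.1 hp
          obtain ⟨h1, h2⟩ := Finset.mem_filter.1 h1
          exact Finset.mem_filter.2 ⟨Finset.mem_range.2 (by omega), (Finset.mem_filter.1 h1).2⟩
        · exact fun p hp _ => (Finset.mem_filter.1 hp).2.one_lt.le
    · rw [← Finset.prod_filter_mul_prod_filter_not _ (· ≤ n)]
      have h1 : ∏ x ∈ ((S.filter fun x => ¬ x ≤ Nat.sqrt (2 * n)).filter fun x => ¬ x ≤ 2 * n / 3).filter (· ≤ n),
          f x = 1 := by
        apply Finset.prod_eq_one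
        intro p hp
        obtain ⟨h1, h4⟩ := Finset.mem_filter.1 hp
        obtain ⟨h1, h3⟩ := Finset.mem_filter.1 h1
        show p ^ n.centralBinom.factorization p = 1
        rw [Nat.factorization_centralBinom_of_two_mul_self_lt_three_mul n_large h4 (by omega), pow_zero]
      rw [h1, one_mul]
      refine (Finset.prod_le_prod' fun p _ => (?_ : f p ≤ 2 * n)).trans ?_
      · exact Nat.pow_factorization_choose_le (mul_pos two_pos n_pos)
      rw [Finset.prod_const]
      refine pow_right_mono₀ n2_pos (Finset.card_le_card fun x hx => ?_)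
      obtain ⟨h1, h4⟩ := Finset.mem_filter.1 hx
      obtain ⟨h1, h3⟩ := Finset.mem_filter.1 h1
      obtain ⟨h1, h2⟩ := Finset.mem_filter.1 h1
      obtain ⟨h0, h1⟩ := Finset.mem_filter.1 h1
      rw [Finset.mem_range] at h0
      exact Finset.mem_filter.2 ⟨Finset.mem_Ioc.2 ⟨by omega, by omega⟩, h1⟩

lemma log_ineq (n : ℕ) (hn : 4 ≤ n) :
    (n : ℝ) / 3 * Real.log 4 ≤ (Real.sqrt (2 * n) + 1) * Real.log (2 * n) +
      (((Finset.Ioc n (2 * n)).filter Nat.Prime).card : ℝ) * Real.log (2 * n) := by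
  have h1 := Nat.four_pow_lt_mul_centralBinom n hn
  have h2 := centralBinom_le_primes n (by omega)
  obtain ⟨c, hc⟩ : ∃ c, c = ((Finset.Ioc n (2 * n)).filter Nat.Prime).card := ⟨_, rfl⟩
  rw [← hc] at h2 ⊢
  have h3 : (4 : ℝ) ^ n ≤ n * ((2 * n) ^ Nat.sqrt (2 * n) * 4 ^ (2 * n / 3) * (2 * n) ^ c) := by
    exact_mod_cast h1.le.trans (Nat.mul_le_mul_left n h2)
  have hn0 : (0 : ℝ) < n := by exact_mod_cast (by omega : 0 < n)
  have h4 := Real.log_le_log (by positivity) h3
  rw [Real.log_pow, Real.log_mul (by positivity) (by positivity), Real.log_mul (by positivity) (by positivity),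
    Real.log_mul (by positivity) (by positivity), Real.log_pow, Real.log_pow, Real.log_pow] at h4
  have hl : 0 ≤ Real.log (2 * n) := Real.log_nonneg (by
    have : (4 : ℝ) ≤ n := by exact_mod_cast hn
    linarith)
  have h5 : ((Nat.sqrt (2 * n) : ℕ) : ℝ) ≤ Real.sqrt (2 * n) := by
    have := Real.nat_sqrt_le_real_sqrt (a := 2 * n)
    push_cast at this
    exact this
  have h6 : ((2 * n / 3 : ℕ) : ℝ) ≤ 2 * n / 3 := by
    have := Nat.cast_div_le (α := ℝ) (m := 2 * n) (n := 3)
    push_cast at this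
    exact this
  have h7 : Real.log n ≤ Real.log (2 * n) := Real.log_le_log hn0 (by linarith)
  have hl4 : 0 ≤ Real.log 4 := Real.log_nonneg (by norm_num)
  have h8 : ((Nat.sqrt (2 * n) : ℕ) : ℝ) * Real.log (2 * n) ≤ Real.sqrt (2 * n) * Real.log (2 * n) :=
    mul_le_mul_of_nonneg_right h5 hl
  have h9 : ((2 * n / 3 : ℕ) : ℝ) * Real.log 4 ≤ 2 * n / 3 * Real.log 4 := mul_le_mul_of_nonneg_right h6 hl4
  nlinarith

lemma tendsto_aux1 : Tendsto (fun H : ℕ => Real.exp (-(Real.log H) ^ (2 / 5 : ℝ)) * Real.log (2 * H)) atTop (𝓝 0) := by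
  have h1 := tendsto_rpow_mul_exp_neg_mul_atTop_nhds_zero (5 / 2) 1 one_pos
  have hlog : Tendsto (fun H : ℕ => Real.log (H : ℝ)) atTop atTop :=
    Real.tendsto_log_atTop.comp tendsto_natCast_atTop_atTop
  have h2 : Tendsto (fun H : ℕ => (Real.log (H : ℝ)) ^ (2 / 5 : ℝ)) atTop atTop :=
    (tendsto_rpow_atTop (by norm_num)).comp hlog
  have h3 := h1.comp h2
  have h4 := h3.const_mul 2
  rw [mul_zero] at h4
  refine squeeze_zero' ?_ ?_ h4
  · filter_upwards [eventually_ge_atTop 1] with H hH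
    have : (1 : ℝ) ≤ H := by exact_mod_cast hH
    exact mul_nonneg (Real.exp_pos _).le (Real.log_nonneg (by linarith))
  · filter_upwards [eventually_ge_atTop 2] with H hH
    have hH' : (2 : ℝ) ≤ H := by exact_mod_cast hH
    have h5 : 0 < Real.log H := Real.log_pos (by linarith)
    simp only [Function.comp]
    rw [← Real.rpow_mul h5.le]
    norm_num
    have h6 : Real.log (2 * H) ≤ 2 * Real.log H := by
      rw [Real.log_mul (by norm_num) (by positivity)]
      have := Real.log_le_log (by norm_num) hH'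
      linarith
    have := (Real.exp_pos (-(Real.log H) ^ (2 / 5 : ℝ))).le
    nlinarith

lemma tendsto_aux2 : Tendsto (fun H : ℕ => (Real.sqrt (2 * H) + 1) * Real.log (2 * H) / H) atTop (𝓝 0) := by
  have h1 : Tendsto (fun H : ℕ => 16 * (2 * (H : ℝ)) ^ (-(1 / 4 : ℝ))) atTop (𝓝 (16 * 0)) := by
    apply Tendsto.const_mul
    have h2 : Tendsto (fun H : ℕ => 2 * (H : ℝ)) atTop atTop :=
      tendsto_natCast_atTop_atTop.const_mul_atTop (by norm_num)
    exact (tendsto_rpow_neg_atTop (by norm_num)).comp h2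
  rw [mul_zero] at h1
  refine squeeze_zero' ?_ ?_ h1
  · filter_upwards [eventually_ge_atTop 1] with H hH
    have : (1 : ℝ) ≤ H := by exact_mod_cast hH
    exact div_nonneg (mul_nonneg (by positivity) (Real.log_nonneg (by linarith))) (by positivity)
  · filter_upwards [eventually_ge_atTop 1] with H hH
    have hH' : (1 : ℝ) ≤ H := by exact_mod_cast hH
    obtain ⟨x, hx⟩ : ∃ x : ℝ, x = 2 * H := ⟨_, rfl⟩
    have hx1 : 1 ≤ x := by rw [hx]; linarith
    have hx0 : 0 < x := by linarith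
    have hH2 : (H : ℝ) = x / 2 := by rw [hx]; ring
    rw [← hx, hH2]
    have h2 : Real.log x ≤ x ^ (1 / 4 : ℝ) / (1 / 4) := Real.log_le_rpow_div hx0.le (by norm_num)
    have h3 : Real.sqrt x + 1 ≤ 2 * x ^ (1 / 2 : ℝ) := by
      rw [Real.sqrt_eq_rpow]
      have := Real.one_le_rpow hx1 (by norm_num : (0 : ℝ) ≤ 1 / 2)
      linarith
    have h4 : (Real.sqrt x + 1) * Real.log x ≤ 2 * x ^ (1 / 2 : ℝ) * (x ^ (1 / 4 : ℝ) / (1 / 4)) :=
      mul_le_mul h3 h2 (Real.log_nonneg hx1) (by positivity)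
    have h5 : x ^ (1 / 2 : ℝ) * x ^ (1 / 4 : ℝ) = x ^ (3 / 4 : ℝ) := by
      rw [← Real.rpow_add hx0]
      norm_num
    have h6 : x ^ (-(1 / 4) : ℝ) = x ^ (3 / 4 : ℝ) / x := by
      rw [eq_div_iff hx0.ne']
      nth_rewrite 2 [← Real.rpow_one x]
      rw [← Real.rpow_add hx0]
      norm_num
    rw [h6, div_le_iff₀ (by positivity)]
    have h7 : 16 * (x ^ (3 / 4 : ℝ) / x) * (x / 2) = 8 * x ^ (3 / 4 : ℝ) := by
      field_simp
      ring
    rw [h7, ← h5]
    linarith

/-- the set of the primes is not too sparse -/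
lemma primes_rich : ∀ᶠ H : ℕ in atTop, H * Real.exp (-(Real.log H) ^ (2 / 5 : ℝ)) ≤
    (({k : ℕ | k ∈ {p : ℕ | p.Prime} ∧ H ≤ k ∧ k < 2 * H}.ncard : ℕ) : ℝ) := by
  have h1 := tendsto_aux1.add tendsto_aux2
  rw [add_zero] at h1
  have h2 := h1.eventually (gt_mem_nhds (show (0 : ℝ) < Real.log 4 / 3 by
    have := Real.log_pos (show (1 : ℝ) < 4 by norm_num)
    positivity))
  filter_upwards [h2, eventually_ge_atTop 4] with H hH hH4
  have hH' : (4 : ℝ) ≤ H := by exact_mod_cast hH4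
  have hH0 : (0 : ℝ) < H := by linarith
  have h3 := log_ineq H hH4
  have h4 : (((Finset.Ioc H (2 * H)).filter Nat.Prime).card : ℝ) ≤
      (({k : ℕ | k ∈ {p : ℕ | p.Prime} ∧ H ≤ k ∧ k < 2 * H}.ncard : ℕ) : ℝ) := by
    have h5 : {k : ℕ | k ∈ {p : ℕ | p.Prime} ∧ H ≤ k ∧ k < 2 * H}.Finite :=
      (Set.finite_lt_nat (2 * H)).subset fun k hk => hk.2.2
    rw [← Set.ncard_coe_finset]
    apply Nat.cast_le.2
    refine Set.ncard_le_ncard ?_ h5
    intro k hk
    rw [Finset.mem_coe, Finset.mem_filter, Finset.mem_Ioc] at hk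
    refine ⟨hk.2, hk.1.1.le, lt_of_le_of_ne hk.1.2 ?_⟩
    intro h6
    rw [h6] at hk
    exact Nat.not_prime_mul (by norm_num) (by omega) hk.2
  refine le_trans ?_ h4
  by_contra hcon
  push Not at hcon
  have hl : 0 < Real.log (2 * H) := Real.log_pos (by linarith)
  have h7 : (((Finset.Ioc H (2 * H)).filter Nat.Prime).card : ℝ) * Real.log (2 * H) ≤
      H * Real.exp (-(Real.log H) ^ (2 / 5 : ℝ)) * Real.log (2 * H) :=
    mul_le_mul_of_nonneg_right hcon.le hl.le
  have h8 : Real.exp (-(Real.log H) ^ (2 / 5 : ℝ)) * Real.log (2 * H) * H +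
      (Real.sqrt (2 * H) + 1) * Real.log (2 * H) < Real.log 4 / 3 * H := by
    have h9 := mul_lt_mul_of_pos_right hH hH0
    have h10 : (Real.exp (-(Real.log H) ^ (2 / 5 : ℝ)) * Real.log (2 * H) +
        (Real.sqrt (2 * H) + 1) * Real.log (2 * H) / H) * H =
        Real.exp (-(Real.log H) ^ (2 / 5 : ℝ)) * Real.log (2 * H) * H +
      (Real.sqrt (2 * H) + 1) * Real.log (2 * H) := by
      field_simp
    rw [h10] at h9
    exact h9
  nlinarith

end Pool.Agent.H608.Ge
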