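import Pool.Agent.H608.Ge.Stage
import Pool.Agent.H608.Sp.Proc

/-!
# Analytic processes, and the construction of the sparse set
-/

set_option autoImplicit false

namespace Pool.Agent.H608.Ge

open Finset Filter Topology
open Pool.Agent.H608.Sp (Rich prec prec_spec prec_tendsto)

/-- the admissible finite sets -/
def Small (M₀ : ℕ) (F : Finset ℕ) : Prop := (∀ j ∈ F, M₀ ≤ j) ∧ ∑ j ∈ F, (1 : ℝ) / j ≤ 2 / M₀

/-- a real number which depends on a finite set of places; adding the place `k` (larger than all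
places before) changes the number by `∑ i, b i / k ^ (s + 1 + i)`, where `b` depends on the set -/
structure GProc (M₀ : ℕ) where
  val : Finset ℕ → ℝ
  b : Finset ℕ → ℕ → ℝ
  s : ℕ
  K : ℝ
  D : ℝ
  M : ℕ
  hK : 0 ≤ K
  hD : 0 ≤ D
  bd : ∀ F : Finset ℕ, Small M₀ F → ∀ i, |b F i| ≤ K * D ^ i
  step : ∀ (F : Finset ℕ) (k : ℕ), Small M₀ F → (∀ j ∈ F, j < k) → M₀ ≤ k → M ≤ k →
    val (insert k F) = val F + ser s (b F) k
  amp : ∀ (F : Finset ℕ) (k : ℕ), Small M₀ F → (∀ j ∈ F, j < k) → M₀ ≤ k → M ≤ k →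
    |b (insert k F) 0 - b F 0| ≤ K / k

/-- the place `k` is good for the first `p` processes, at the scale `H` -/
def Good {M₀ : ℕ} (P : ℕ → GProc M₀) (A : Set ℕ) (γ : ℝ) (p H : ℕ) (F : Finset ℕ) (k : ℕ) : Prop :=
  k ∈ A ∧ H < k ∧ k ≤ 2 * H ∧ ∀ i < p, Real.exp (-(Real.log H) ^ (1 / 3 : ℝ)) ≤ |(P i).b F 0| →
    ¬ BadG (Real.log H) γ (1 / ((p : ℝ) + 1)) (P i).s ((P i).val F + ser (P i).s ((P i).b F) k)

theorem exists_good : ∃ γ : ℝ, 0 < γ ∧ γ ≤ 1 / 20 ∧ ∀ (M₀ : ℕ) (P : ℕ → GProc M₀) (A : Set ℕ), Rich A →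
    ∀ p : ℕ, ∃ T : ℕ, ∀ H : ℕ, T ≤ H → ∀ F : Finset ℕ, Small M₀ F → ∃ k, Good P A γ p H F k := by
  classical
  obtain ⟨γ, hγ0, hγ1, hst⟩ := stageG
  refine ⟨γ, hγ0, hγ1, fun M₀ P A hA p => ?_⟩
  choose H₀ hH₀ using fun s : ℕ => hst s (1 / ((p : ℝ) + 1)) (by positivity)
  have hlog : Tendsto (fun N : ℕ => Real.log N) atTop atTop :=
    Real.tendsto_log_atTop.comp tendsto_natCast_atTop_atTop
  have hexp : ∀ t : ℝ, 0 < t → Tendsto (fun N : ℕ => Real.exp ((Real.log N) ^ t)) atTop atTop := fun t ht =>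
    Real.tendsto_exp_atTop.comp ((tendsto_rpow_atTop ht).comp hlog)
  have hev : ∀ t : ℝ, ∀ᶠ N : ℕ in atTop, ∀ i ∈ range p, t * (P i).K ≤ Real.exp ((Real.log N) ^ (1 / 3 : ℝ)) ∧
      (P i).D ≤ Real.exp ((Real.log N) ^ (1 / 2 : ℝ)) ∧ (P i).K ≤ N ∧ H₀ (P i).s ≤ N := by
    intro t
    rw [Filter.eventually_all_finset]
    intro i _
    exact ((hexp _ (by norm_num)).eventually_ge_atTop _).and
      (((hexp _ (by norm_num)).eventually_ge_atTop _).and
      ((tendsto_natCast_atTop_atTop.eventually_ge_atTop _).and (eventually_ge_atTop _)))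
  have ev2 : ∀ᶠ y : ℝ in atTop, 2 * y ^ (1 / 3 : ℝ) ≤ y ^ (1 / 2 : ℝ) :=
    Pool.Agent.Helper478.Surds.ev_pow _ _ _ (by norm_num)
  have ev3 : ∀ᶠ y : ℝ in atTop, 2 * y ^ (2 / 5 : ℝ) ≤ y ^ (1 / 2 : ℝ) :=
    Pool.Agent.Helper478.Surds.ev_pow _ _ _ (by norm_num)
  obtain ⟨T, hT⟩ := eventually_atTop.1 ((hev 1).and (((hexp (2 / 5) (by norm_num)).eventually_gt_atTop (2 * (p : ℝ))).and
    ((hlog.eventually (ev2.and ev3)).and ((hA.and (hlog.eventually_ge_atTop 2)).and (eventually_ge_atTop 2)))))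
  refine ⟨T, fun H hH F hF => ?_⟩
  obtain ⟨g1, g2, ⟨g3, g4⟩, ⟨g5, g6⟩, g7⟩ := hT H hH
  have hHpos : (0 : ℝ) < H := by exact_mod_cast (by omega : 0 < H)
  obtain ⟨y, hy⟩ : ∃ y : ℝ, y = Real.log H := ⟨_, rfl⟩
  have hHexp : (H : ℝ) = Real.exp y := by rw [hy, Real.exp_log hHpos]
  rw [← hy] at g1 g2 g3 g4 g5 g6
  obtain ⟨L, hL⟩ : ∃ L : ℝ, L = y ^ (2 / 5 : ℝ) := ⟨_, rfl⟩
  rw [← hL] at g2 g4 g5
  by_contra hcon
  push Not at hcon
  obtain ⟨Bad, hBad⟩ : ∃ Bad : ℕ → Set ℕ, Bad = fun i => {m : ℕ | H < m ∧ m ≤ 2 * H ∧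
    Real.exp (-y ^ (1 / 3 : ℝ)) ≤ |(P i).b F 0| ∧
    BadG y γ (1 / ((p : ℝ) + 1)) (P i).s ((P i).val F + ser (P i).s ((P i).b F) m)} := ⟨_, rfl⟩
  have hfin : ∀ i, (Bad i).Finite := fun i => (Set.finite_Iic (2 * H)).subset fun m hm => by
    rw [hBad] at hm
    exact hm.2.1
  have hcount : ∀ i ∈ range p, ((Bad i).ncard : ℝ) ≤ H * Real.exp (-√y) := by
    intro i hi
    obtain ⟨a1, a2, a3, a4⟩ := g1 i hi
    rw [one_mul] at a1
    by_cases hact : Real.exp (-y ^ (1 / 3 : ℝ)) ≤ |(P i).b F 0|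
    · have hb0 : 0 < |(P i).b F 0| := lt_of_lt_of_le (Real.exp_pos _) hact
      have h1 := hH₀ (P i).s H ((P i).val F) (P i).K (P i).D ((P i).b F) a4 ?_ ?_ ?_
      · rw [← hy] at h1
        refine le_trans ?_ h1
        have h2 : Bad i ⊆ {m : ℕ | H < m ∧ m ≤ 2 * H ∧ BadG y γ (1 / ((p : ℝ) + 1)) (P i).s
            ((P i).val F + ser (P i).s ((P i).b F) m)} := by
          intro m hm
          rw [hBad] at hm
          exact ⟨hm.1, hm.2.1, hm.2.2.2⟩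
        exact_mod_cast Set.ncard_le_ncard h2 ((Set.finite_Iic (2 * H)).subset fun m hm => hm.2.1)
      · rw [← hy]
        refine ⟨(P i).bd F hF, (P i).hD, a2, ?_, abs_pos.1 hb0⟩
        calc (P i).K ≤ Real.exp (y ^ (1 / 3 : ℝ)) := a1
          _ = Real.exp (y ^ (1 / 3 : ℝ)) * (Real.exp (y ^ (1 / 3 : ℝ)) * Real.exp (-y ^ (1 / 3 : ℝ))) := by
              rw [← Real.exp_add, add_neg_cancel, Real.exp_zero, mul_one]
          _ ≤ Real.exp (y ^ (1 / 3 : ℝ)) * (Real.exp (y ^ (1 / 3 : ℝ)) * |(P i).b F 0|) := by gcongr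
          _ = Real.exp (2 * y ^ (1 / 3 : ℝ)) * |(P i).b F 0| := by
              rw [← mul_assoc, ← Real.exp_add, two_mul]
          _ ≤ Real.exp (y ^ (1 / 2 : ℝ)) * |(P i).b F 0| := by gcongr
      · rw [← hy]
        exact hact
      · have h2 := (P i).bd F hF 0
        rw [pow_zero, mul_one] at h2
        exact h2.trans a3
    · have h1 : Bad i = ∅ := by
        rw [hBad]
        ext m
        simp only [Set.mem_setOf_eq, Set.mem_empty_iff_false, iff_false]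
        exact fun hm => hact hm.2.2.1
      rw [h1, Set.ncard_empty]
      push_cast
      positivity
  have hsub : {k : ℕ | k ∈ A ∧ H ≤ k ∧ k < 2 * H} ⊆ {H} ∪ ⋃ i ∈ range p, Bad i := by
    rintro k ⟨hk1, hk2, hk3⟩
    rcases Nat.eq_or_lt_of_le hk2 with h | h
    · exact Or.inl h.symm
    · right
      have h1 := hcon k
      unfold Good at h1
      push Not at h1
      obtain ⟨i, hi, h2, hb⟩ := h1 hk1 h hk3.le
      simp only [Set.mem_iUnion]
      refine ⟨i, mem_range.2 hi, ?_⟩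
      rw [hBad]
      rw [← hy] at h2 hb
      exact ⟨h, hk3.le, h2, hb⟩
  have h1 : (({k : ℕ | k ∈ A ∧ H ≤ k ∧ k < 2 * H}.ncard : ℕ) : ℝ) ≤
      1 + ∑ i ∈ range p, ((Bad i).ncard : ℝ) := by
    have h2 : {k : ℕ | k ∈ A ∧ H ≤ k ∧ k < 2 * H}.ncard ≤ 1 + ∑ i ∈ range p, (Bad i).ncard := by
      refine (Set.ncard_le_ncard hsub ?_).trans ((Set.ncard_union_le _ _).trans ?_)
      · exact (Set.finite_singleton H).union (Set.Finite.biUnion (Finset.finite_toSet _) fun q _ => hfin q)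
      · rw [Set.ncard_singleton]
        exact Nat.add_le_add_left (Finset.set_ncard_biUnion_le _ _) 1
    exact_mod_cast h2
  have h2 : ∑ i ∈ range p, ((Bad i).ncard : ℝ) ≤ p * (H * Real.exp (-√y)) := by
    refine (sum_le_sum hcount).trans (le_of_eq ?_)
    rw [sum_const, nsmul_eq_mul, card_range]
  have hy0 : 0 < y := by linarith
  have hsq : √y = y ^ (1 / 2 : ℝ) := Real.sqrt_eq_rpow y
  have hsy : y ^ (1 / 2 : ℝ) ≤ y := by
    calc y ^ (1 / 2 : ℝ) ≤ y ^ (1 : ℝ) := Real.rpow_le_rpow_of_exponent_le (by linarith) (by norm_num)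
      _ = y := Real.rpow_one y
  have h3 : (p : ℝ) * (H * Real.exp (-√y)) < 1 / 2 * (H * Real.exp (-L)) := by
    have h5 : Real.exp (-√y) ≤ Real.exp (-L) * Real.exp (-L) := by
      rw [← Real.exp_add, hsq]
      apply Real.exp_le_exp.2
      linarith
    have h6 : (p : ℝ) * Real.exp (-L) < 1 / 2 := by
      rw [Real.exp_neg, ← div_eq_mul_inv, div_lt_iff₀ (Real.exp_pos L)]
      linarith
    have h7 : 0 < H * Real.exp (-L) := by positivity
    calc (p : ℝ) * (H * Real.exp (-√y)) ≤ p * (H * (Real.exp (-L) * Real.exp (-L))) := by gcongr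
      _ = ((p : ℝ) * Real.exp (-L)) * (H * Real.exp (-L)) := by ring
      _ < 1 / 2 * (H * Real.exp (-L)) := by gcongr
  have h4 : 1 ≤ 1 / 2 * (H * Real.exp (-L)) := by
    have h5 : (2 : ℝ) ≤ Real.exp (y / 2) := by
      have h6 : (2 : ℝ) ≤ Real.exp 1 := by have := Real.exp_one_gt_d9; linarith
      exact h6.trans (Real.exp_le_exp.2 (by linarith))
    have h6 : Real.exp (y / 2) ≤ H * Real.exp (-L) := by
      rw [hHexp, ← Real.exp_add]
      apply Real.exp_le_exp.2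
      linarith
    linarith
  linarith

end Pool.Agent.H608.Ge
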