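import Pool.Agent.H608.Ge.RngT

/-!
# Exponential sums over `F * ∑ b_i / n ^ (s + 1 + i)`: the general range
-/

set_option autoImplicit false

namespace Pool.Agent.H608.Ge

open Finset Filter
open Pool.Agent.H469R2.NK (e norm_e e_add e_zero conj_e)
open Pool.Agent.Helper478.Surds (ev_pow)

set_option maxHeartbeats 4000000 in
/-- large frequencies -/
lemma rangeLarge {C : ℕ} (hC : ∀ (N R : ℕ) (g : ℕ → ℝ) (κ A η : ℝ), 2 ≤ N → R ≤ N → 1 / 2 ≤ κ → 0 ≤ A →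
      0 ≤ η → (∀ n ∈ Ioc 0 R, ∃ α : ℕ → ℝ, (∀ j ∈ Icc 1 (⌈5 * κ⌉₊ + 5),
        |α j| ≤ (N : ℝ) ^ κ / (6 * (N : ℝ) ^ j) ∧ (N : ℝ) ^ κ / (N : ℝ) ^ j ≤ Real.exp A * |α j|) ∧
      ∀ z : ℕ, (z : ℝ) ≤ (N : ℝ) ^ (4 / 5 : ℝ) →
        |g (n + z) - g n - ∑ j ∈ Icc 1 (⌈5 * κ⌉₊ + 5), α j * (z : ℝ) ^ j| ≤ η) →
      ‖∑ n ∈ Ioc 0 R, e (g n)‖ ≤
        Real.exp ((1 + A) * (C * (1 + κ) ^ C)) * (N : ℝ) ^ (1 - 1 / 10 ^ 10 / (1 + κ) ^ 2 : ℝ) +
          7 * η * N)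
    {s N R : ℕ} {F K D y γ L Φ : ℝ} {b : ℕ → ℝ} (hR : R ≤ N) (hF : 0 < F) (hN2 : 2 ≤ N)
    (hy : y = Real.log N) (hy10 : 10 ≤ y) (hγ0 : 0 < γ) (hγ1 : γ ≤ 1 / 20) (hγC : γ * C ≤ 1 / 4)
    (hL : L = y ^ (1 / 2 : ℝ)) (hL8 : 8 * L ≤ y) (hZ10 : 10 * y ^ (1 - 3 * γ) ≤ y)
    (hb : Cls b K D y) (hΦ : Φ = F * |b 0| / (N : ℝ) ^ (s + 1))
    (hhi : Φ ≤ Real.exp (y ^ (1 + γ))) (hbig : (N : ℝ) ^ (1 / 2 : ℝ) < 12 * Real.exp L * Φ)
    (hsL : (s + 16) * y ^ γ ≤ L)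
    (q1 : (7 * (C * 3 ^ C) * (9 * 10 ^ 10 * 3)) * y ^ (3 / 4 : ℝ) ≤ y ^ (1 - 2 * γ))
    (q2 : (3 * (9 * 10 ^ 10 * 3)) * y ^ (1 - 3 * γ) ≤ y ^ (1 - 2 * γ)) :
    ‖∑ n ∈ Ioc 0 R, e (F * ser s b ((N : ℝ) + n))‖ ≤ N * Real.exp (-(2 * y ^ (1 - 3 * γ))) := by
  have hs0 : (0 : ℝ) ≤ s := Nat.cast_nonneg s
  have hy0 : 0 < y := by linarith
  have hy1 : 1 ≤ y := by linarith
  have hN2r : (2 : ℝ) ≤ N := by exact_mod_cast hN2
  have hN0 : (0 : ℝ) < N := by linarith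
  have hN1 : (1 : ℝ) ≤ N := by linarith
  have hNexp : (N : ℝ) = Real.exp y := by rw [hy, Real.exp_log hN0]
  have hexpN : ∀ a : ℝ, (N : ℝ) ^ a = Real.exp (y * a) := by
    intro a
    rw [Real.rpow_def_of_pos hN0, ← hy]
  have hL1 : 1 ≤ L := by rw [hL]; exact Real.one_le_rpow hy1 (by norm_num)
  have hL0 : 0 ≤ L := by linarith
  have hK1 : K ≤ Real.exp L * |b 0| := by rw [hL]; exact hb.K1
  have hD1 : D ≤ Real.exp L := by rw [hL]; exact hb.D1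
  have hb0 : 0 < |b 0| := abs_pos.2 hb.b0
  have hK0 := hb.K0
  have hD0 := hb.D0
  have hΦ0 : 0 < Φ := by rw [hΦ]; positivity
  have hZ1 : 1 ≤ y ^ (1 - 3 * γ) := Real.one_le_rpow hy1 (by linarith)
  obtain ⟨κ, hκ⟩ : ∃ κ : ℝ, κ = Real.log (12 * Real.exp L * Φ) / y := ⟨_, rfl⟩
  have h12 : 0 < 12 * Real.exp L * Φ := by positivity
  have hκN : (N : ℝ) ^ κ = 12 * Real.exp L * Φ := by
    rw [hexpN, hκ, mul_div_cancel₀ _ hy0.ne', Real.exp_log h12]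
  have hκ1 : 1 / 2 ≤ κ := by
    rw [hκ, le_div_iff₀ hy0]
    have e1 := Real.log_le_log (Real.rpow_pos_of_pos hN0 _) hbig.le
    rw [Real.log_rpow hN0, ← hy] at e1
    exact e1
  have hyγ : 1 ≤ y ^ γ := Real.one_le_rpow hy1 hγ0.le
  have hκ2 : 1 + κ ≤ 3 * y ^ γ := kapA hy0 hL1 hΦ0 hyγ hL8 hhi hκ
  obtain ⟨r, hr⟩ : ∃ r : ℕ, r = ⌈5 * κ⌉₊ + 5 := ⟨_, rfl⟩
  have hr1 : 5 * κ + 5 ≤ (r : ℝ) := by
    rw [hr]; push_cast
    have := Nat.le_ceil (5 * κ); linarith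
  have hr2 : (r : ℝ) ≤ 5 * κ + 6 := by
    rw [hr]; push_cast
    have := Nat.ceil_lt_add_one (a := 5 * κ) (by linarith); linarith
  have hsr : (s : ℝ) + r ≤ L := by
    have h1 : (r : ℝ) ≤ 15 * y ^ γ + 1 := by linarith
    have h2 : (s : ℝ) * 1 ≤ s * y ^ γ := mul_le_mul_of_nonneg_left hyγ hs0
    linarith
  have h2sj : ∀ j : ℕ, j ≤ r → (2 : ℝ) ^ (s + j) ≤ Real.exp L := by
    intro j hj
    have hexp1 : (2 : ℝ) ≤ Real.exp 1 := by have := Real.exp_one_gt_d9; linarith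
    calc (2 : ℝ) ^ (s + j) ≤ Real.exp 1 ^ (s + j) := pow_le_pow_left₀ (by norm_num) hexp1 _
      _ = Real.exp ((s + j : ℕ) : ℝ) := by rw [← Real.exp_nat_mul, mul_one]
      _ ≤ Real.exp L := by
          apply Real.exp_le_exp.2
          push_cast
          have : (j : ℝ) ≤ r := by exact_mod_cast hj
          linarith
  have h8e : 8 * (Real.exp L * Real.exp L * Real.exp L) ≤ N := by
    have h3 : (8 : ℝ) ≤ Real.exp 3 := by have := exp_three_ge; linarith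
    calc 8 * (Real.exp L * Real.exp L * Real.exp L) ≤ Real.exp 3 * (Real.exp L * Real.exp L * Real.exp L) := by
          gcongr
      _ = Real.exp (3 + 3 * L) := by
          rw [← Real.exp_add, ← Real.exp_add, ← Real.exp_add]; congr 1; ring
      _ ≤ N := by
          rw [hNexp]
          apply Real.exp_le_exp.2
          linarith
  have hD4 : 4 * D ≤ N := by
    have h2 : 1 ≤ Real.exp L := Real.one_le_exp hL0
    have h3 : Real.exp L * 1 ≤ Real.exp L * Real.exp L := mul_le_mul_of_nonneg_left h2 (Real.exp_pos L).le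
    have h4 : Real.exp L * Real.exp L * 1 ≤ Real.exp L * Real.exp L * Real.exp L :=
      mul_le_mul_of_nonneg_left h2 (by positivity)
    linarith
  obtain ⟨A, hA⟩ : ∃ A : ℝ, A = 2 * L + 4 := ⟨_, rfl⟩
  obtain ⟨η, hη⟩ : ∃ η : ℝ, η = Real.exp L * (N : ℝ) ^ (-(6 / 5) : ℝ) := ⟨_, rfl⟩
  have hη0 : 0 ≤ η := by rw [hη]; positivity
  have hvk := hC N R (fun n : ℕ => F * ser s b ((N : ℝ) + n)) κ A η hN2 hR hκ1 (by rw [hA]; positivity)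
    hη0 ?_
  · refine hvk.trans ?_
    obtain ⟨Z, hZ⟩ : ∃ Z : ℝ, Z = y ^ (1 - 3 * γ) := ⟨_, rfl⟩
    have e0 := expoA hy0 hy1 hL hL1 hκ1 hκ2 hγC hZ hA q1 q2
    rw [← hZ] at hZ1 hZ10 ⊢
    have e5 : Real.exp ((1 + A) * (C * (1 + κ) ^ C)) * (N : ℝ) ^ (1 - 1 / 10 ^ 10 / (1 + κ) ^ 2 : ℝ) ≤
        N * Real.exp (-(3 * Z)) := by
      rw [hexpN, ← Real.exp_add, hNexp, ← Real.exp_add, Real.exp_le_exp]
      exact e0
    have e6 : 7 * η * N ≤ N * Real.exp (-(3 * Z)) := by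
      have f1 : 7 * η ≤ Real.exp (-(3 * Z)) := by
        calc 7 * η ≤ Real.exp 2 * η := mul_le_mul_of_nonneg_right exp_two_ge hη0
          _ = Real.exp (2 + (L + y * (-(6 / 5)))) := by
              rw [hη, hexpN, Real.exp_add, Real.exp_add]
          _ ≤ Real.exp (-(3 * Z)) := by
              apply Real.exp_le_exp.2
              linarith
      calc 7 * η * N ≤ Real.exp (-(3 * Z)) * N := mul_le_mul_of_nonneg_right f1 hN0.le
        _ = _ := mul_comm _ _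
    have e7 : Real.exp (-(3 * Z)) ≤ 1 / 2 * Real.exp (-(2 * Z)) := by
      have f1 : Real.exp (-(3 * Z)) = Real.exp (-Z) * Real.exp (-(2 * Z)) := by
        rw [← Real.exp_add]; congr 1; ring
      rw [f1]
      apply mul_le_mul_of_nonneg_right _ (Real.exp_pos _).le
      rw [Real.exp_neg, one_div]
      apply inv_anti₀ (by norm_num)
      have hexp1 : (2 : ℝ) ≤ Real.exp 1 := by have := Real.exp_one_gt_d9; linarith
      exact hexp1.trans (Real.exp_le_exp.2 hZ1)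
    have e8 := mul_le_mul_of_nonneg_left e7 hN0.le
    linarith
  · rw [← hr]
    intro n hn
    rw [mem_Ioc] at hn
    obtain ⟨a, ha⟩ : ∃ a : ℝ, a = (N : ℝ) + n := ⟨_, rfl⟩
    have hnN : (n : ℝ) ≤ N := by exact_mod_cast hn.2.trans hR
    have hn0 : (0 : ℝ) ≤ n := Nat.cast_nonneg n
    have haN : (N : ℝ) ≤ a := by rw [ha]; linarith
    have ha2 : a ≤ 2 * N := by rw [ha]; linarith
    have ha0 : 0 < a := by linarith
    refine ⟨fun j => F * tay s b a j, ?_, ?_⟩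
    · intro j hj
      rw [mem_Icc] at hj
      have h1 := coefA hb.bd hD0 hK0 hN0 haN ha2 hF hK1 hD1 hD4 h8e (h2sj j hj.2)
      rw [hκN, hΦ, hA]
      exact h1
    · intro z hz
      have hz0 : (0 : ℝ) ≤ z := Nat.cast_nonneg z
      have hN45 : 4 * (N : ℝ) ^ (4 / 5 : ℝ) ≤ N := by
        rw [hexpN]
        have h4 : (4 : ℝ) ≤ Real.exp 2 := by have := exp_two_ge; linarith
        calc 4 * Real.exp (y * (4 / 5)) ≤ Real.exp 2 * Real.exp (y * (4 / 5)) :=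
              mul_le_mul_of_nonneg_right h4 (Real.exp_pos _).le
          _ = Real.exp (2 + y * (4 / 5)) := by rw [Real.exp_add]
          _ ≤ N := by
              rw [hNexp]
              apply Real.exp_le_exp.2
              linarith
      have h1 := taylor (e := s) hb.bd hD0 hK0 ha0 (hD4.trans haN) r hz0 (by linarith : (z : ℝ) ≤ a / 4)
      have h2 : F * ser s b ((N : ℝ) + ((n + z : ℕ) : ℝ)) - F * ser s b ((N : ℝ) + n) -
          ∑ j ∈ Icc 1 r, F * tay s b a j * (z : ℝ) ^ j =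
          F * (ser s b (a + z) - ser s b a - ∑ j ∈ Icc 1 r, tay s b a j * (z : ℝ) ^ j) := by
        rw [ha, mul_sub, mul_sub, mul_sum]
        push_cast
        rw [add_assoc]
        congr 1
        refine sum_congr rfl fun j _ => ?_
        ring
      show |F * ser s b ((N : ℝ) + ((n + z : ℕ) : ℝ)) - F * ser s b ((N : ℝ) + n) -
          ∑ j ∈ Icc 1 r, F * tay s b a j * (z : ℝ) ^ j| ≤ η
      rw [h2, abs_mul, abs_of_pos hF, hη]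
      have h3 : (z : ℝ) / a ≤ (N : ℝ) ^ (-(1 / 5) : ℝ) := by
        calc (z : ℝ) / a ≤ (N : ℝ) ^ (4 / 5 : ℝ) / N := by gcongr
          _ = (N : ℝ) ^ (-(1 / 5) : ℝ) := by
              rw [← Real.rpow_sub_one hN0.ne']; norm_num
      exact (mul_le_mul_of_nonneg_left h1 hF.le).trans
        (remA hK0 hN1 haN hF hK1 hΦ hΦ0 hκN hr1 (h2sj r le_rfl) (by positivity) h3)

set_option maxHeartbeats 4000000 in
/-- **Exponential sums** over `F * ∑ b_i / n ^ (s + 1 + i)` -/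
theorem rangeS : ∃ γ : ℝ, 0 < γ ∧ γ ≤ 1 / 20 ∧ ∀ (s : ℕ) (δ : ℝ), 0 < δ → ∃ N₀ : ℕ,
    ∀ (N R : ℕ) (F K D : ℝ) (b : ℕ → ℝ), N₀ ≤ N → R ≤ N → 0 < F → Cls b K D (Real.log N) →
      (N : ℝ) ^ δ ≤ F * |b 0| / (N : ℝ) ^ (s + 1) →
      F * |b 0| / (N : ℝ) ^ (s + 1) ≤ Real.exp ((Real.log N) ^ (1 + γ)) →
      ‖∑ n ∈ Ioc 0 R, e (F * ser s b ((N : ℝ) + n))‖ ≤ N * Real.exp (-(2 * (Real.log N) ^ (1 - 3 * γ))) := by
  obtain ⟨C, hC⟩ := vkA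
  obtain ⟨γ, hγ⟩ : ∃ γ : ℝ, γ = 1 / (4 * C + 20) := ⟨_, rfl⟩
  have hC0 : (0 : ℝ) ≤ C := Nat.cast_nonneg C
  have hγ0 : 0 < γ := by rw [hγ]; positivity
  have hγ1 : γ ≤ 1 / 20 := by
    rw [hγ]
    apply one_div_le_one_div_of_le (by norm_num)
    linarith
  have hγC : γ * C ≤ 1 / 4 := by
    rw [hγ, one_div, inv_mul_le_iff₀ (by positivity)]
    linarith
  refine ⟨γ, hγ0, hγ1, ?_⟩
  intro s δ hδ
  have hs0 : (0 : ℝ) ≤ s := Nat.cast_nonneg s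
  obtain ⟨y₀, hsmall⟩ := rangeSmall s δ hδ
  have ev1 : ∀ᶠ y : ℝ in atTop, (7 * (C * 3 ^ C) * (9 * 10 ^ 10 * 3)) * y ^ (3 / 4 : ℝ) ≤ y ^ (1 - 2 * γ) :=
    ev_pow _ _ _ (by linarith)
  have ev2 : ∀ᶠ y : ℝ in atTop, (3 * (9 * 10 ^ 10 * 3)) * y ^ (1 - 3 * γ) ≤ y ^ (1 - 2 * γ) :=
    ev_pow _ _ _ (by linarith)
  have ev3 : ∀ᶠ y : ℝ in atTop, (12 / δ + 10) * y ^ (1 - 3 * γ) ≤ y ^ (1 : ℝ) :=
    ev_pow _ _ _ (by linarith)
  have ev4 : ∀ᶠ y : ℝ in atTop, (6 * (s + 9) / δ + 8) * y ^ (1 / 2 : ℝ) ≤ y ^ (1 : ℝ) :=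
    ev_pow _ _ _ (by norm_num)
  have ev5 : ∀ᶠ y : ℝ in atTop, (s + 16) * y ^ γ ≤ y ^ (1 / 2 : ℝ) :=
    ev_pow _ _ _ (by linarith)
  have hlog : Tendsto (fun N : ℕ => Real.log N) atTop atTop :=
    Real.tendsto_log_atTop.comp tendsto_natCast_atTop_atTop
  have hev := hlog.eventually (((ev1.and ev2).and (ev3.and ev4)).and (ev5.and
    (eventually_ge_atTop (max y₀ 10))))
  obtain ⟨N₀, hN₀⟩ := eventually_atTop.1 (hev.and (eventually_ge_atTop 2))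
  refine ⟨N₀, ?_⟩
  intro N R F K D b hN hR hF hb hlo hhi
  obtain ⟨⟨⟨⟨q1, q2⟩, ⟨q3, q4⟩⟩, q5, q6⟩, q7⟩ := hN₀ N hN
  obtain ⟨y, hy⟩ : ∃ y : ℝ, y = Real.log N := ⟨_, rfl⟩
  have hsm := hsmall N R F K D b ((le_max_left _ _).trans q6) hR hF hb hlo
  rw [← hy] at q1 q2 q3 q4 q5 q6 hb hhi hsm ⊢
  have hy10 : 10 ≤ y := (le_max_right _ _).trans q6
  have hy0 : 0 < y := by linarith
  have hy1 : 1 ≤ y := by linarith
  rw [Real.rpow_one] at q3 q4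
  rw [add_mul] at q3 q4
  obtain ⟨L, hL⟩ : ∃ L : ℝ, L = y ^ (1 / 2 : ℝ) := ⟨_, rfl⟩
  rw [← hL] at q4 q5 hsm
  have hL1 : 1 ≤ L := by rw [hL]; exact Real.one_le_rpow hy1 (by norm_num)
  have hL0 : 0 ≤ L := by linarith
  obtain ⟨Φ, hΦ⟩ : ∃ Φ : ℝ, Φ = F * |b 0| / (N : ℝ) ^ (s + 1) := ⟨_, rfl⟩
  rw [← hΦ] at hlo hhi hsm
  have hb0 : 0 < |b 0| := abs_pos.2 hb.b0
  have hN0 : (0 : ℝ) < N := by exact_mod_cast (by omega : 0 < N)
  have hΦ0 : 0 < Φ := by rw [hΦ]; positivity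
  have p4 : 0 ≤ (6 * (s + 9) / δ) * L := by positivity
  have p3 : 0 ≤ (12 / δ) * y ^ (1 - 3 * γ) := by positivity
  have p5 : 0 ≤ y ^ (1 - 3 * γ) := by positivity
  have q4a : (6 * (s + 9) / δ) * L ≤ y := by linarith
  have q4b : 8 * L ≤ y := by linarith
  have q3a : (12 / δ) * y ^ (1 - 3 * γ) ≤ y := by linarith
  have q3b : 10 * y ^ (1 - 3 * γ) ≤ y := by linarith
  rcases le_or_gt (12 * Real.exp L * Φ) ((N : ℝ) ^ (1 / 2 : ℝ)) with hcase | hbig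
  · -- small frequencies
    have h1 : Φ ≤ (N : ℝ) ^ (1 / 2 : ℝ) := by
      refine le_trans ?_ hcase
      have h2 : 1 ≤ Real.exp L := Real.one_le_exp hL0
      exact le_mul_of_one_le_left hΦ0.le (by linarith)
    refine (hsm h1).trans ?_
    apply mul_le_mul_of_nonneg_left _ hN0.le
    apply Real.exp_le_exp.2
    have h3 : (s : ℝ) + 8 + L ≤ δ * y / 6 := by
      have h4 := mul_le_mul_of_nonneg_right q4a (by positivity : 0 ≤ δ / 6)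
      have h5 : 6 * ((s : ℝ) + 9) / δ * L * (δ / 6) = (s + 9) * L := by field_simp
      rw [h5] at h4
      have h6 : (s : ℝ) * 1 ≤ s * L := mul_le_mul_of_nonneg_left hL1 hs0
      linarith
    have h6 : 2 * y ^ (1 - 3 * γ) ≤ δ * y / 6 := by
      have h4 := mul_le_mul_of_nonneg_right q3a (by positivity : 0 ≤ δ / 6)
      have h5 : 12 / δ * y ^ (1 - 3 * γ) * (δ / 6) = 2 * y ^ (1 - 3 * γ) := by field_simp; norm_num
      rw [h5] at h4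
      linarith
    linarith
  · exact rangeLarge hC hR hF q7 hy hy10 hγ0 hγ1 hγC hL q4b q3b hb hΦ hhi hbig q5 q1 q2

end Pool.Agent.H608.Ge
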