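import Pool.Agent.H608.Ge.Lin

/-!
# Exponential sums over `F * ∑ b_i / n ^ (s + 1 + i)`
-/

set_option autoImplicit false

namespace Pool.Agent.H608.Ge

open Finset Filter
open Pool.Agent.H469R2.NK (e norm_e e_add e_zero conj_e)
open Pool.Agent.Helper478.Surds (ev_pow)

/-- the class of the coefficient sequences at the scale `y = log N` -/
structure Cls (b : ℕ → ℝ) (K D y : ℝ) : Prop where
  bd : ∀ i, |b i| ≤ K * D ^ i
  D0 : 0 ≤ D
  D1 : D ≤ Real.exp (y ^ (1 / 2 : ℝ))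
  K1 : K ≤ Real.exp (y ^ (1 / 2 : ℝ)) * |b 0|
  b0 : b 0 ≠ 0

lemma Cls.K0 {b : ℕ → ℝ} {K D y : ℝ} (h : Cls b K D y) : 0 ≤ K := by
  have h1 := h.bd 0
  rw [pow_zero, mul_one] at h1
  exact (abs_nonneg _).trans h1

set_option maxHeartbeats 4000000 in
/-- small frequencies -/
lemma rangeSmall (s : ℕ) (δ : ℝ) (hδ : 0 < δ) : ∃ y₀ : ℝ, ∀ (N R : ℕ) (F K D : ℝ) (b : ℕ → ℝ),
    y₀ ≤ Real.log N → R ≤ N → 0 < F → Cls b K D (Real.log N) →
      (N : ℝ) ^ δ ≤ F * |b 0| / (N : ℝ) ^ (s + 1) → F * |b 0| / (N : ℝ) ^ (s + 1) ≤ (N : ℝ) ^ (1 / 2 : ℝ) →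
      ‖∑ n ∈ Ioc 0 R, e (F * ser s b ((N : ℝ) + n))‖ ≤
        N * Real.exp (s + 8 + (Real.log N) ^ (1 / 2 : ℝ) - δ * Real.log N / 3) := by
  have ev1 : ∀ᶠ y : ℝ in atTop, 6 * y ^ (1 / 2 : ℝ) ≤ y ^ (1 : ℝ) := ev_pow _ _ _ (by norm_num)
  have ev2 : ∀ᶠ y : ℝ in atTop, max (3 / δ) (2 * s + 20) ≤ y := eventually_ge_atTop _
  obtain ⟨y₀, hy₀⟩ := eventually_atTop.1 (ev1.and ev2)
  refine ⟨y₀, fun N R F K D b hN hR hF hb hlo hhi => ?_⟩
  obtain ⟨q1, q2⟩ := hy₀ _ hN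
  obtain ⟨y, hy⟩ : ∃ y : ℝ, y = Real.log N := ⟨_, rfl⟩
  rw [← hy] at q1 q2 hb ⊢
  have q3 : 3 / δ ≤ y := (le_max_left _ _).trans q2
  have q4 : 2 * (s : ℝ) + 20 ≤ y := (le_max_right _ _).trans q2
  rw [div_le_iff₀ hδ] at q3
  rw [Real.rpow_one] at q1
  have hs0 : (0 : ℝ) ≤ s := Nat.cast_nonneg s
  have hy20 : 20 ≤ y := by linarith
  have hN0 : (0 : ℝ) < N := by
    rcases Nat.eq_zero_or_pos N with h | h
    · exfalso
      rw [hy, h, Nat.cast_zero, Real.log_zero] at hy20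
      norm_num at hy20
    · exact_mod_cast h
  have hNexp : (N : ℝ) = Real.exp y := by rw [hy, Real.exp_log hN0]
  have hNpow : ∀ t : ℝ, (N : ℝ) ^ t = Real.exp (y * t) := fun t => by
    rw [Real.rpow_def_of_pos hN0, ← hy]
  obtain ⟨L, hL⟩ : ∃ L : ℝ, L = y ^ (1 / 2 : ℝ) := ⟨_, rfl⟩
  rw [← hL] at q1 ⊢
  have hL0 : 0 ≤ L := by rw [hL]; positivity
  obtain ⟨Φ, hΦ⟩ : ∃ Φ : ℝ, Φ = F * |b 0| / (N : ℝ) ^ (s + 1) := ⟨_, rfl⟩
  rw [← hΦ] at hlo hhi
  have hb0 : 0 < |b 0| := abs_pos.2 hb.b0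
  have hΦ0 : 0 < Φ := by rw [hΦ]; positivity
  have hK1 := hb.K1
  have hD1 := hb.D1
  rw [← hL] at hK1 hD1
  obtain ⟨u, hu⟩ : ∃ u : ℝ, u = Φ ^ (1 / 3 : ℝ) := ⟨_, rfl⟩
  have hu0 : 0 < u := by rw [hu]; positivity
  have hu3 : u ^ 3 = Φ := by
    rw [hu, ← Real.rpow_natCast, ← Real.rpow_mul hΦ0.le]
    norm_num
  have hue : Real.exp (δ * y / 3) ≤ u := by
    have h1 : (Real.exp (δ * y / 3)) ^ 3 ≤ u ^ 3 := by
      rw [hu3, ← Real.exp_nat_mul]
      refine le_trans (le_of_eq ?_) hlo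
      rw [hNpow]
      congr 1
      push_cast
      ring
    exact le_of_pow_le_pow_left₀ (by norm_num) hu0.le h1
  have hu2 : 2 ≤ u := by
    refine le_trans ?_ hue
    have h1 : (2 : ℝ) ≤ Real.exp 1 := by have := Real.exp_one_gt_d9; linarith
    exact h1.trans (Real.exp_le_exp.2 (by linarith))
  have hexp1 : (2 : ℝ) ≤ Real.exp 1 := by have := Real.exp_one_gt_d9; linarith
  have hNhalf : (N : ℝ) ^ (1 / 2 : ℝ) = Real.exp (y / 2) := by rw [hNpow]; congr 1; ring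
  rw [hNhalf] at hhi
  have hN2 : Real.exp (y / 2) * Real.exp (y / 2) = N := by
    rw [← Real.exp_add, hNexp]; congr 1; ring
  have he10 : (1024 : ℝ) ≤ Real.exp (y / 2) := by
    have h1 : (2 : ℝ) ^ 10 ≤ Real.exp 1 ^ 10 := pow_le_pow_left₀ (by norm_num) hexp1 10
    rw [← Real.exp_nat_mul] at h1
    have h2 : (2 : ℝ) ^ 10 ≤ Real.exp (y / 2) :=
      h1.trans (Real.exp_le_exp.2 (by push_cast; linarith))
    norm_num at h2
    exact h2
  have hu2N : u ^ 2 ≤ N / 2 := by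
    have h1 : u ^ 2 ≤ u ^ 3 := pow_le_pow_right₀ (by linarith) (by norm_num)
    rw [hu3] at h1
    have h2 := mul_le_mul_of_nonneg_right he10 (Real.exp_pos (y / 2)).le
    rw [hN2] at h2
    linarith [Real.exp_pos (y / 2)]
  -- the block length
  obtain ⟨V, hV⟩ : ∃ V : ℕ, V = ⌊(N : ℝ) / u ^ 2⌋₊ := ⟨_, rfl⟩
  have hNu : 2 ≤ (N : ℝ) / u ^ 2 := by
    rw [le_div_iff₀ (by positivity)]; linarith
  have hV1 : 1 ≤ V := by
    rw [hV]
    exact Nat.le_floor (by push_cast; linarith)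
  have hVle : (V : ℝ) ≤ N / u ^ 2 := by rw [hV]; exact Nat.floor_le (by positivity)
  have hVge : (N : ℝ) / u ^ 2 / 2 ≤ V := by
    have := Nat.lt_floor_add_one ((N : ℝ) / u ^ 2)
    rw [← hV] at this
    linarith
  have hV0 : (0 : ℝ) < V := by exact_mod_cast hV1
  have hVN : (V : ℝ) ≤ N / 4 := by
    refine hVle.trans ?_
    apply div_le_div_of_nonneg_left hN0.le (by norm_num)
    have := pow_le_pow_left₀ (by norm_num : (0 : ℝ) ≤ 2) hu2 2
    linarith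
  have h2s : (2 : ℝ) ^ (s + 3) ≤ Real.exp (y / 2) := by
    have h1 : (2 : ℝ) ^ (s + 3) ≤ Real.exp 1 ^ (s + 3) := pow_le_pow_left₀ (by norm_num) hexp1 _
    rw [← Real.exp_nat_mul] at h1
    refine h1.trans (Real.exp_le_exp.2 ?_)
    push_cast
    linarith
  have he3L : 8 * (Real.exp L * Real.exp L) * 2 ^ (s + 1) ≤ N := by
    have h1 : (2 : ℝ) ^ (s + 1) * 8 ≤ Real.exp (y / 2) * 2 := by
      have : (2 : ℝ) ^ (s + 3) = 2 ^ (s + 1) * 4 := by rw [show s + 3 = s + 1 + 2 by ring, pow_add 2 (s + 1) 2]; norm_num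
      linarith
    have h2 : Real.exp L * Real.exp L * 2 ≤ Real.exp (y / 2) := by
      calc Real.exp L * Real.exp L * 2 ≤ Real.exp L * Real.exp L * Real.exp 1 := by gcongr
        _ = Real.exp (L + L + 1) := by rw [Real.exp_add, Real.exp_add]
        _ ≤ _ := Real.exp_le_exp.2 (by linarith)
    calc 8 * (Real.exp L * Real.exp L) * 2 ^ (s + 1) = Real.exp L * Real.exp L * (2 ^ (s + 1) * 8) := by ring
      _ ≤ Real.exp L * Real.exp L * (Real.exp (y / 2) * 2) := by gcongr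
      _ = (Real.exp L * Real.exp L * 2) * Real.exp (y / 2) := by ring
      _ ≤ Real.exp (y / 2) * Real.exp (y / 2) := by gcongr
      _ = N := hN2
  have hD4 : 4 * D ≤ N := by
    have h1 : (4 : ℝ) * Real.exp L ≤ N := by
      have h2 : 1 ≤ Real.exp L := Real.one_le_exp hL0
      have h3 : (2 : ℝ) ≤ 2 ^ (s + 1) := by
        rw [pow_succ]
        have : (1 : ℝ) ≤ 2 ^ s := one_le_pow₀ (by norm_num)
        linarith
      have h4 : Real.exp L * 1 ≤ Real.exp L * Real.exp L := mul_le_mul_of_nonneg_left h2 (Real.exp_pos L).le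
      have h5 : 8 * (Real.exp L * Real.exp L) * 1 ≤ 8 * (Real.exp L * Real.exp L) * 2 ^ (s + 1) :=
        mul_le_mul_of_nonneg_left (by linarith) (by positivity)
      linarith [Real.exp_pos L]
    linarith
  obtain ⟨η, hη⟩ : ∃ η : ℝ, η = 2 ^ (s + 4) * Real.exp L / u := ⟨_, rfl⟩
  have hη0 : 0 ≤ η := by rw [hη]; positivity
  obtain ⟨l, hl⟩ : ∃ l : ℝ, l = Φ / (2 ^ (s + 3) * N) := ⟨_, rfl⟩
  have hl0 : 0 < l := by rw [hl]; positivity
  have hK0 := hb.K0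
  have hD0 := hb.D0
  have hmain := linA (fun n : ℕ => F * ser s b ((N : ℝ) + n)) R V hV1 l η hl0 hη0 ?_
  · refine hmain.trans ?_
    have hRN : (R : ℝ) ≤ N := by exact_mod_cast hR
    have h1 : 1 / ((V : ℝ) * (2 * l)) ≤ 2 ^ (s + 3) / u := by
      rw [hl, ← hu3]
      have h2 : (N : ℝ) / u ^ 2 / 2 * (2 * (u ^ 3 / (2 ^ (s + 3) * N))) = u / 2 ^ (s + 3) := by
        field_simp
      calc 1 / ((V : ℝ) * (2 * (u ^ 3 / (2 ^ (s + 3) * N)))) ≤
            1 / ((N : ℝ) / u ^ 2 / 2 * (2 * (u ^ 3 / (2 ^ (s + 3) * N)))) := by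
              gcongr
        _ = _ := by rw [h2, one_div, inv_div]
    have h2 : 2 * (V : ℝ) ≤ N * (2 / u) := by
      have h3 : (N : ℝ) / u ^ 2 ≤ N / u := by
        apply div_le_div_of_nonneg_left hN0.le hu0
        calc u = u * 1 := (mul_one u).symm
          _ ≤ u * u := mul_le_mul_of_nonneg_left (by linarith) hu0.le
          _ = u ^ 2 := by ring
      calc 2 * (V : ℝ) ≤ 2 * (N / u) := by linarith
        _ = _ := by ring
    have h3 : (1 : ℝ) ≤ 2 ^ (s + 3) := one_le_pow₀ (by norm_num)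
    have h4 : 1 ≤ Real.exp L := Real.one_le_exp hL0
    have h5 : (2 : ℝ) ^ (s + 4) = 2 * 2 ^ (s + 3) := by rw [pow_succ]; ring
    have h6 : (2 : ℝ) ^ (s + 8) = 32 * 2 ^ (s + 3) := by
      rw [show s + 8 = s + 3 + 5 by ring, pow_add 2 (s + 3) 5]; norm_num; ring
    calc (R : ℝ) * (1 / (V * (2 * l)) + 7 * η) + 2 * V ≤
          N * (2 ^ (s + 3) / u + 7 * η) + N * (2 / u) := by gcongr
      _ = N * ((2 ^ (s + 3) + 14 * 2 ^ (s + 3) * Real.exp L + 2) / u) := by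
          rw [hη, h5]; ring
      _ ≤ N * ((2 ^ (s + 8) * Real.exp L) / Real.exp (δ * y / 3)) := by
          have h7 : (2 : ℝ) ^ (s + 3) * 1 ≤ 2 ^ (s + 3) * Real.exp L :=
            mul_le_mul_of_nonneg_left h4 (by positivity)
          rw [h6]
          gcongr
          linarith
      _ ≤ N * ((Real.exp (s + 8) * Real.exp L) / Real.exp (δ * y / 3)) := by
          gcongr
          have h7 : (2 : ℝ) ^ (s + 8) ≤ Real.exp 1 ^ (s + 8) := pow_le_pow_left₀ (by norm_num) hexp1 _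
          rw [← Real.exp_nat_mul] at h7
          refine h7.trans (le_of_eq ?_)
          congr 1
          push_cast
          ring
      _ = _ := by
          rw [← Real.exp_add, ← Real.exp_sub]
  · intro n hn
    rw [mem_Ioc] at hn
    obtain ⟨a, ha⟩ : ∃ a : ℝ, a = (N : ℝ) + n := ⟨_, rfl⟩
    have hnN : (n : ℝ) ≤ N := by exact_mod_cast hn.2.trans hR
    have hn0 : (0 : ℝ) ≤ n := Nat.cast_nonneg n
    have haN : (N : ℝ) ≤ a := by rw [ha]; linarith
    have ha2 : a ≤ 2 * N := by rw [ha]; linarith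
    have ha0 : 0 < a := by linarith
    obtain ⟨t1, t2⟩ := tay_size (e := s) hb.bd hD0 hK0 ha0 (hD4.trans haN) 1 (by
      calc 8 * K * D * 2 ^ (s + 1) ≤ 8 * (Real.exp L * |b 0|) * Real.exp L * 2 ^ (s + 1) := by gcongr
        _ = |b 0| * (8 * (Real.exp L * Real.exp L) * 2 ^ (s + 1)) := by ring
        _ ≤ |b 0| * N := by gcongr
        _ ≤ |b 0| * a := by gcongr)
    refine ⟨F * tay s b a 1, ?_, ?_, ?_⟩
    · rw [abs_mul, abs_of_pos hF, hl, hΦ]
      calc F * |b 0| / (N : ℝ) ^ (s + 1) / (2 ^ (s + 3) * N) = F * (|b 0| / (2 * (2 * N) ^ (s + 1 + 1))) := by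
            rw [mul_pow, pow_succ (N : ℝ) (s + 1)]
            field_simp
            ring
        _ ≤ F * (|b 0| / (2 * a ^ (s + 1 + 1))) := by gcongr
        _ ≤ _ := by gcongr
    · rw [abs_mul, abs_of_pos hF]
      calc F * |tay s b a 1| ≤ F * (2 * 2 ^ (s + 1) * (|b 0| / a ^ (s + 1 + 1))) := by gcongr
        _ ≤ F * (2 * 2 ^ (s + 1) * (|b 0| / (N : ℝ) ^ (s + 1 + 1))) := by gcongr
        _ = 2 ^ (s + 3) * Φ / (2 * N) := by
            rw [hΦ, pow_succ (N : ℝ) (s + 1), show s + 3 = s + 1 + 2 by ring, pow_add 2 (s + 1) 2]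
            field_simp
        _ ≤ Real.exp (y / 2) * Real.exp (y / 2) / (2 * N) := by gcongr
        _ = 1 / 2 := by
            rw [hN2]
            field_simp
    · intro v hv
      have hvV : (v : ℝ) ≤ V := by exact_mod_cast hv.le
      have hv0 : (0 : ℝ) ≤ v := Nat.cast_nonneg v
      have h1 := taylor (e := s) hb.bd hD0 hK0 ha0 (hD4.trans haN) 1 hv0 (by linarith : (v : ℝ) ≤ a / 4)
      rw [Icc_self, sum_singleton, pow_one] at h1
      have h2 : F * ser s b ((N : ℝ) + ((n + v : ℕ) : ℝ)) - F * ser s b ((N : ℝ) + n) -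
          F * tay s b a 1 * v = F * (ser s b (a + v) - ser s b a - tay s b a 1 * v) := by
        rw [ha]
        push_cast
        rw [add_assoc]
        ring
      rw [h2, abs_mul, abs_of_pos hF, hη]
      calc F * |ser s b (a + v) - ser s b a - tay s b a 1 * v| ≤
            F * (2 * K * (2 / a) ^ (s + 1) * (2 * (v / a)) ^ (1 + 1)) := by gcongr
        _ ≤ F * (2 * (Real.exp L * |b 0|) * (2 / N) ^ (s + 1) * (2 * ((N / u ^ 2) / N)) ^ (1 + 1)) := by
            gcongr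
            exact hvV.trans hVle
        _ = 2 ^ (s + 4) * Real.exp L * Φ / u ^ 4 := by
            have h9 : (N : ℝ) / u ^ 2 / N = 1 / u ^ 2 := by field_simp
            rw [h9, hΦ, div_pow 2, show s + 4 = s + 1 + 3 by ring, pow_add 2 (s + 1) 3]
            ring
        _ = 2 ^ (s + 4) * Real.exp L / u := by
            rw [← hu3]
            field_simp

end Pool.Agent.H608.Ge
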