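import Pool.Agent.H608.Ge.RngS

/-!
# Auxiliary estimates for the exponential sums over `F * ∑ b_i / n ^ (s + 1 + i)`
-/

set_option autoImplicit false

namespace Pool.Agent.H608.Ge

open Finset Filter
open Pool.Agent.H469R2.NK (e norm_e e_add e_zero conj_e)
open Pool.Agent.Helper478.Surds (ev_pow)

lemma exp_two_ge : (7 : ℝ) ≤ Real.exp 2 := by
  have h3 : Real.exp 2 = Real.exp 1 * Real.exp 1 := by
    rw [← Real.exp_add]; norm_num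
  have h4 := Real.exp_one_gt_d9
  rw [h3]; nlinarith

lemma exp_three_ge : (12 : ℝ) ≤ Real.exp 3 := by
  have h3 : Real.exp 3 = Real.exp 2 * Real.exp 1 := by
    rw [← Real.exp_add]; norm_num
  have h4 := Real.exp_one_gt_d9
  have h5 := exp_two_ge
  rw [h3]; nlinarith

lemma exp_four_ge : (48 : ℝ) ≤ Real.exp 4 := by
  have h3 : Real.exp 4 = Real.exp 2 * Real.exp 2 := by
    rw [← Real.exp_add]; norm_num
  have h5 := exp_two_ge
  rw [h3]; nlinarith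

/-- the size of the Taylor coefficients -/
lemma coefA {s j : ℕ} {N a F L K D : ℝ} {b : ℕ → ℝ} (hb : ∀ i, |b i| ≤ K * D ^ i) (hD0 : 0 ≤ D)
    (hK0 : 0 ≤ K) (hN0 : 0 < N) (haN : N ≤ a) (ha2 : a ≤ 2 * N) (hF : 0 < F)
    (hK1 : K ≤ Real.exp L * |b 0|) (hD1 : D ≤ Real.exp L) (hD4 : 4 * D ≤ N)
    (h8e : 8 * (Real.exp L * Real.exp L * Real.exp L) ≤ N) (h2j : (2 : ℝ) ^ (s + j) ≤ Real.exp L) :
    |F * tay s b a j| ≤ 12 * Real.exp L * (F * |b 0| / N ^ (s + 1)) / (6 * N ^ j) ∧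
      12 * Real.exp L * (F * |b 0| / N ^ (s + 1)) / N ^ j ≤ Real.exp (2 * L + 4) * |F * tay s b a j| := by
  have ha0 : 0 < a := by linarith
  obtain ⟨t1, t2⟩ := tay_size (e := s) hb hD0 hK0 ha0 (hD4.trans haN) j (by
    calc 8 * K * D * 2 ^ (s + j) ≤ 8 * (Real.exp L * |b 0|) * Real.exp L * Real.exp L := by gcongr
      _ = |b 0| * (8 * (Real.exp L * Real.exp L * Real.exp L)) := by ring
      _ ≤ |b 0| * N := by gcongr
      _ ≤ |b 0| * a := by gcongr)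
  constructor
  · rw [abs_mul, abs_of_pos hF]
    calc F * |tay s b a j| ≤ F * (2 * 2 ^ (s + j) * (|b 0| / a ^ (s + 1 + j))) := by gcongr
      _ ≤ F * (2 * Real.exp L * (|b 0| / N ^ (s + 1 + j))) := by gcongr
      _ = _ := by
          rw [pow_add N (s + 1) j]
          field_simp
          ring
  · rw [abs_mul, abs_of_pos hF]
    have h1 : F * (|b 0| / (2 * (2 * N) ^ (s + 1 + j))) ≤ F * |tay s b a j| := by
      refine le_trans ?_ (mul_le_mul_of_nonneg_left t1 hF.le)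
      gcongr
    have hAexp : 48 * (Real.exp L * Real.exp L) ≤ Real.exp (2 * L + 4) := by
      rw [show 2 * L + 4 = 4 + (L + L) by ring, Real.exp_add, Real.exp_add]
      exact mul_le_mul_of_nonneg_right exp_four_ge (by positivity)
    have h5 : (2 : ℝ) ^ (s + 1 + j) = 2 * 2 ^ (s + j) := by
      rw [show s + 1 + j = s + j + 1 by ring, pow_succ]; ring
    have h6 : 24 * (2 : ℝ) ^ (s + 1 + j) * Real.exp L ≤ 48 * (Real.exp L * Real.exp L) := by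
      rw [h5]
      calc 24 * (2 * 2 ^ (s + j)) * Real.exp L ≤ 24 * (2 * Real.exp L) * Real.exp L := by gcongr
        _ = _ := by ring
    calc 12 * Real.exp L * (F * |b 0| / N ^ (s + 1)) / N ^ j =
          (24 * 2 ^ (s + 1 + j) * Real.exp L) * (F * (|b 0| / (2 * (2 * N) ^ (s + 1 + j)))) := by
            rw [mul_pow, pow_add N (s + 1) j]
            field_simp
            ring
      _ ≤ (48 * (Real.exp L * Real.exp L)) * (F * (|b 0| / (2 * (2 * N) ^ (s + 1 + j)))) :=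
            mul_le_mul_of_nonneg_right h6 (by positivity)
      _ ≤ Real.exp (2 * L + 4) * (F * |tay s b a j|) := by gcongr

/-- the remainder -/
lemma remA {s r : ℕ} {N F L K Φ κ v a : ℝ} {b : ℕ → ℝ} (hK0 : 0 ≤ K) (hN1 : 1 ≤ N) (haN : N ≤ a)
    (hF : 0 < F) (hK1 : K ≤ Real.exp L * |b 0|) (hΦ : Φ = F * |b 0| / N ^ (s + 1)) (hΦ0 : 0 < Φ)
    (hκ : N ^ κ = 12 * Real.exp L * Φ) (hr : 5 * κ + 5 ≤ r)
    (h2 : (2 : ℝ) ^ (s + r) ≤ Real.exp L) (hv : 0 ≤ v) (hva : v ≤ N ^ (-(1 / 5) : ℝ)) :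
    F * (2 * K * (2 / a) ^ (s + 1) * (2 * v) ^ (r + 1)) ≤ Real.exp L * N ^ (-(6 / 5) : ℝ) := by
  have hN0 : 0 < N := by linarith
  have ha0 : 0 < a := by linarith
  have h4 : (N ^ (-(1 / 5) : ℝ)) ^ (r + 1) ≤ N ^ (-κ + -(6 / 5)) := by
    rw [← Real.rpow_natCast, ← Real.rpow_mul hN0.le]
    apply Real.rpow_le_rpow_of_exponent_le hN1
    push_cast
    linarith
  calc F * (2 * K * (2 / a) ^ (s + 1) * (2 * v) ^ (r + 1)) ≤
        F * (2 * (Real.exp L * |b 0|) * (2 / N) ^ (s + 1) * (2 * N ^ (-(1 / 5) : ℝ)) ^ (r + 1)) := by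
        gcongr
    _ = 8 * 2 ^ (s + r) * Real.exp L * Φ * (N ^ (-(1 / 5) : ℝ)) ^ (r + 1) := by
        rw [hΦ, div_pow 2, mul_pow 2, pow_add 2 s r, pow_succ 2 s, pow_succ 2 r]
        ring
    _ ≤ 8 * Real.exp L * Real.exp L * Φ * N ^ (-κ + -(6 / 5)) := by gcongr
    _ = 8 / 12 * (Real.exp L * ((12 * Real.exp L * Φ) * N ^ (-κ)) * N ^ (-(6 / 5) : ℝ)) := by
        rw [Real.rpow_add hN0]
        ring
    _ = 8 / 12 * (Real.exp L * N ^ (-(6 / 5) : ℝ)) := by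
        rw [← hκ, ← Real.rpow_add hN0, add_neg_cancel, Real.rpow_zero, mul_one]
    _ ≤ Real.exp L * N ^ (-(6 / 5) : ℝ) := by
        have : 0 < Real.exp L * N ^ (-(6 / 5) : ℝ) := by positivity
        linarith

/-- the exponent -/
lemma expoA {y γ L κ Z A : ℝ} {C : ℕ} (hy0 : 0 < y) (hy1 : 1 ≤ y) (hL : L = y ^ (1 / 2 : ℝ)) (hL1 : 1 ≤ L)
    (hκ1 : 1 / 2 ≤ κ) (hκ2 : 1 + κ ≤ 3 * y ^ γ) (hγC : γ * C ≤ 1 / 4) (hZ : Z = y ^ (1 - 3 * γ))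
    (hA : A = 2 * L + 4)
    (q1 : (7 * (C * 3 ^ C) * (9 * 10 ^ 10 * 3)) * y ^ (3 / 4 : ℝ) ≤ y ^ (1 - 2 * γ))
    (q2 : (3 * (9 * 10 ^ 10 * 3)) * y ^ (1 - 3 * γ) ≤ y ^ (1 - 2 * γ)) :
    (1 + A) * (C * (1 + κ) ^ C) + y * (1 - 1 / 10 ^ 10 / (1 + κ) ^ 2) ≤ y + -(3 * Z) := by
  have hκpos : 0 < 1 + κ := by linarith
  have hC0 : (0 : ℝ) ≤ C := Nat.cast_nonneg C
  have e1 : (1 + A) * (C * (1 + κ) ^ C) ≤ 7 * (C * 3 ^ C) * y ^ (3 / 4 : ℝ) := by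
    have f1 : (1 + κ) ^ C ≤ 3 ^ C * y ^ (1 / 4 : ℝ) := by
      calc (1 + κ) ^ C ≤ (3 * y ^ γ) ^ C := pow_le_pow_left₀ hκpos.le hκ2 C
        _ = 3 ^ C * y ^ (γ * C) := by
            rw [mul_pow, ← Real.rpow_natCast (y ^ γ) C, ← Real.rpow_mul hy0.le]
        _ ≤ 3 ^ C * y ^ (1 / 4 : ℝ) := by
            apply mul_le_mul_of_nonneg_left _ (by positivity)
            exact Real.rpow_le_rpow_of_exponent_le hy1 hγC
    have f2 : y ^ (3 / 4 : ℝ) = L * y ^ (1 / 4 : ℝ) := by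
      rw [hL, ← Real.rpow_add hy0]; norm_num
    calc (1 + A) * (C * (1 + κ) ^ C) ≤ (7 * L) * (C * (3 ^ C * y ^ (1 / 4 : ℝ))) := by
          gcongr
          rw [hA]; linarith
      _ = _ := by rw [f2]; ring
  have e2 : 1 / (9 * 10 ^ 10) * y ^ (1 - 2 * γ) ≤ y * (1 / 10 ^ 10 / (1 + κ) ^ 2) := by
    have f1 : (1 + κ) ^ 2 ≤ 9 * y ^ (2 * γ) := by
      calc (1 + κ) ^ 2 ≤ (3 * y ^ γ) ^ 2 := pow_le_pow_left₀ hκpos.le hκ2 2
        _ = 9 * y ^ (2 * γ) := by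
            rw [mul_pow, ← Real.rpow_natCast (y ^ γ) 2, ← Real.rpow_mul hy0.le]
            push_cast
            ring_nf
    have f2 : y ^ (1 - 2 * γ) * y ^ (2 * γ) = y := by
      rw [← Real.rpow_add hy0]
      have : 1 - 2 * γ + 2 * γ = 1 := by ring
      rw [this, Real.rpow_one]
    have f3 : 0 < (1 + κ) ^ 2 := by positivity
    have f4 : y * (1 / 10 ^ 10 / (1 + κ) ^ 2) = (y * (1 / 10 ^ 10)) / (1 + κ) ^ 2 := by ring
    rw [f4, le_div_iff₀ f3]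
    calc 1 / (9 * 10 ^ 10) * y ^ (1 - 2 * γ) * (1 + κ) ^ 2 ≤
          1 / (9 * 10 ^ 10) * y ^ (1 - 2 * γ) * (9 * y ^ (2 * γ)) := by gcongr
      _ = 1 / 10 ^ 10 * (y ^ (1 - 2 * γ) * y ^ (2 * γ)) := by ring
      _ = y * (1 / 10 ^ 10) := by rw [f2]; ring
  rw [← hZ] at q2
  obtain ⟨Sv, hSv⟩ : ∃ Sv : ℝ, Sv = 1 / (9 * 10 ^ 10) * y ^ (1 - 2 * γ) := ⟨_, rfl⟩
  rw [← hSv] at e2
  have e3 : 7 * (C * 3 ^ C) * y ^ (3 / 4 : ℝ) ≤ Sv / 3 := by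
    rw [hSv]
    have f1 : 1 / (9 * 10 ^ 10) * y ^ (1 - 2 * γ) / 3 = y ^ (1 - 2 * γ) / (9 * 10 ^ 10 * 3) := by ring
    rw [f1, le_div_iff₀ (by norm_num)]
    linarith
  have e4 : 3 * Z ≤ Sv / 3 := by
    rw [hSv]
    have f1 : 1 / (9 * 10 ^ 10) * y ^ (1 - 2 * γ) / 3 = y ^ (1 - 2 * γ) / (9 * 10 ^ 10 * 3) := by ring
    rw [f1, le_div_iff₀ (by norm_num)]
    linarith
  have e6 : y * (1 - 1 / 10 ^ 10 / (1 + κ) ^ 2) = y - y * (1 / 10 ^ 10 / (1 + κ) ^ 2) := by ring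
  rw [e6]
  have e7 : 0 ≤ Sv := by rw [hSv]; positivity
  linarith

/-- the range of `κ` -/
lemma kapA {y γ L κ Φ : ℝ} (hy0 : 0 < y) (hL1 : 1 ≤ L) (hΦ0 : 0 < Φ) (hyγ : 1 ≤ y ^ γ) (hL8 : 8 * L ≤ y)
    (hhi : Φ ≤ Real.exp (y ^ (1 + γ))) (hκ : κ = Real.log (12 * Real.exp L * Φ) / y) :
    1 + κ ≤ 3 * y ^ γ := by
  have e1 : Real.log (12 * Real.exp L * Φ) ≤ 3 + L + y ^ (1 + γ) := by
    rw [Real.log_mul (by positivity) hΦ0.ne', Real.log_mul (by norm_num) (Real.exp_pos _).ne',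
      Real.log_exp]
    have e3 : Real.log 12 ≤ 3 := by
      rw [Real.log_le_iff_le_exp (by norm_num)]
      exact exp_three_ge
    have e4 := Real.log_le_log hΦ0 hhi
    rw [Real.log_exp] at e4
    linarith
  have e5 : y ^ (1 + γ) = y * y ^ γ := by rw [Real.rpow_add hy0, Real.rpow_one]
  have e6 : κ ≤ 1 + y ^ γ := by
    rw [hκ, div_le_iff₀ hy0]
    rw [e5] at e1
    linarith
  linarith

end Pool.Agent.H608.Ge
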