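import Pool.Agent.H608.Ge.Growth

/-!
# The towers `x, x ^ x, x ^ (x ^ x), …` are algebraically independent functions
-/

set_option autoImplicit false

namespace Pool.Agent.H608.Ge

open Finset Filter Topology Metric

/-- towers of powers -/
noncomputable def twr : ℕ → ℝ → ℝ
  | 0, x => x
  | n + 1, x => x ^ (twr n x)

/-- towers of powers, complex -/
noncomputable def twc : ℕ → ℂ → ℂ
  | 0, w => w
  | n + 1, w => Complex.exp (twc n w * Complex.log w)

lemma twc_real (n : ℕ) {x : ℝ} (hx : 0 < x) : twc n (x : ℂ) = (twr n x : ℂ) := by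
  induction n with
  | zero => rfl
  | succ n ih =>
    unfold twc twr
    rw [ih, Real.rpow_def_of_pos hx, Complex.ofReal_exp, Complex.ofReal_mul, Complex.ofReal_log hx.le, mul_comm]

lemma twc_analytic (n : ℕ) : AnalyticOnNhd ℂ (twc n) Complex.slitPlane := by
  induction n with
  | zero => exact analyticOnNhd_id
  | succ n ih => exact (ih.mul (analyticOnNhd_id.clog fun _ h => h)).cexp

lemma exp_le_twr (n : ℕ) {x : ℝ} (hx : Real.exp 1 ≤ x) (h : 0 ≤ twr n x) : Real.exp (twr n x) ≤ twr (n + 1) x := by
  have hx0 : 0 < x := (Real.exp_pos 1).trans_le hx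
  show Real.exp (twr n x) ≤ x ^ (twr n x)
  rw [Real.rpow_def_of_pos hx0]
  apply Real.exp_le_exp.2
  have h1 : 1 ≤ Real.log x := by
    rw [Real.le_log_iff_exp_le hx0]
    exact hx
  calc twr n x = 1 * twr n x := by ring
    _ ≤ Real.log x * twr n x := mul_le_mul_of_nonneg_right h1 h

lemma twr_tendsto (n : ℕ) : Tendsto (twr n) atTop atTop := by
  induction n with
  | zero => exact tendsto_id
  | succ n ih =>
    apply tendsto_atTop_mono' _ _ (Real.tendsto_exp_atTop.comp ih)
    filter_upwards [eventually_ge_atTop (Real.exp 1), ih.eventually (eventually_ge_atTop 0)] with x h1 h2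
    exact exp_le_twr n h1 h2

/-- the scale of the towers -/
noncomputable def twS : Scale where
  h n x := match n with
    | 0 => 2
    | n + 1 => twr n x
  h0 _ := rfl
  one n := by
    cases n with
    | zero =>
      filter_upwards with x
      norm_num
    | succ n => exact (twr_tendsto n).eventually (eventually_ge_atTop 1)
  grow n K c := by
    cases n with
    | zero => exact eventually_ge_atTop (c * 2 ^ K)
    | succ n =>
      have h1 : ∀ᶠ y : ℝ in atTop, c * y ^ K ≤ Real.exp y := by
        have h2 := (Real.tendsto_exp_div_pow_atTop K).eventually (eventually_ge_atTop c)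
        filter_upwards [h2, eventually_gt_atTop 0] with y hy hy0
        rwa [le_div_iff₀ (by positivity)] at hy
      filter_upwards [(twr_tendsto n).eventually h1, (twr_tendsto n).eventually (eventually_ge_atTop 0),
        eventually_ge_atTop (Real.exp 1)] with x hx h2 h3
      exact hx.trans (exp_le_twr n h3 h2)

/-- polynomials in the towers -/
noncomputable def FT (R : Subring ℝ) (P : MvPolynomial ℕ R) (w : ℂ) : ℂ :=
  MvPolynomial.eval₂ (Complex.ofRealHom.comp R.subtype) (fun i => twc i w) P

lemma FT_analytic (R : Subring ℝ) (P : MvPolynomial ℕ R) : AnalyticOnNhd ℂ (FT R P) Complex.slitPlane := by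
  unfold FT
  induction P using MvPolynomial.induction_on with
  | C a =>
    simp only [MvPolynomial.eval₂_C]
    exact analyticOnNhd_const
  | add p q hp hq =>
    simp only [MvPolynomial.eval₂_add]
    exact hp.add hq
  | mul_X p i hp =>
    simp only [MvPolynomial.eval₂_mul, MvPolynomial.eval₂_X]
    exact hp.mul (twc_analytic i)

lemma FT_real (R : Subring ℝ) (P : MvPolynomial ℕ R) {x : ℝ} (hx : 0 < x) :
    FT R P (x : ℂ) = ((MvPolynomial.eval (fun i => twr i x) (MvPolynomial.map R.subtype P) : ℝ) : ℂ) := by
  unfold FT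
  rw [MvPolynomial.eval_map]
  have h1 := MvPolynomial.eval₂_comp_left Complex.ofRealHom R.subtype (fun i => twr i x) P
  simp only [Complex.ofRealHom_eq_coe] at h1
  rw [h1]
  congr 1
  funext i
  simp only [Function.comp, Complex.ofRealHom_eq_coe]
  rw [twc_real i hx]

lemma ball_sub_slit {x r : ℝ} (hr : r ≤ x) : ball (x : ℂ) r ⊆ Complex.slitPlane := by
  intro w hw
  rw [mem_ball_iff_norm] at hw
  left
  have h1 := (Complex.abs_re_le_norm (w - x)).trans_lt hw
  rw [Complex.sub_re, Complex.ofReal_re, abs_lt] at h1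
  linarith

lemma FT_const (R : Subring ℝ) (P : MvPolynomial ℕ R) (hP : ∀ c, P ≠ MvPolynomial.C c) {x r : ℝ} (hr : 0 < r)
    (hx : r ≤ x) : ¬ ∃ c, ∀ w ∈ ball (x : ℂ) r, FT R P w = c := by
  rintro ⟨c, hc⟩
  have hxs : (x : ℂ) ∈ Complex.slitPlane := ball_sub_slit hx (mem_ball_self hr)
  have h1 := (FT_analytic R P).eqOn_of_preconnected_of_eventuallyEq (analyticOnNhd_const (v := c))
    (Complex.starConvex_one_slitPlane.isPathConnected (by left; norm_num)).isConnected.isPreconnected hxs (by
      filter_upwards [ball_mem_nhds _ hr] with w hw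
      exact hc w hw)
  have h2 : ∀ y : ℝ, 0 < y → MvPolynomial.eval (fun i => twr i y) (MvPolynomial.map R.subtype P) = c.re := by
    intro y hy
    have h3 := h1 (show (y : ℂ) ∈ Complex.slitPlane by
      left
      rw [Complex.ofReal_re]
      exact hy)
    simp only at h3
    rw [FT_real R P hy] at h3
    rw [← h3, Complex.ofReal_re]
  have h4 : MvPolynomial.map R.subtype P - MvPolynomial.C c.re ≠ 0 := by
    intro h0
    rw [sub_eq_zero] at h0
    apply hP (MvPolynomial.coeff 0 P)
    apply MvPolynomial.map_injective R.subtype Subtype.val_injective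
    rw [h0, MvPolynomial.map_C]
    congr 1
    have h5 := congrArg (MvPolynomial.coeff 0) h0
    rw [MvPolynomial.coeff_map, MvPolynomial.coeff_zero_C] at h5
    exact h5.symm
  obtain ⟨y, hy, hy0⟩ := ((twS.eval_ne_zero _ h4).and (eventually_gt_atTop 0)).exists
  apply hy
  rw [map_sub, MvPolynomial.eval_C, sub_eq_zero]
  exact h2 y hy0

end Pool.Agent.H608.Ge
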