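import Pool.Agent.H608.Sp.Root2
import Pool.Agent.H608.Ge.Lead
import Pool.Agent.H608.Ge.Tower

/-!
# The product for the square root of two: logarithms of the factors
-/

set_option autoImplicit false

namespace Pool.Agent.H608.Ge

open Finset Filter Topology Metric Asymptotics

/-- minus the logarithm of `1 - 1 / (4 k + 2) ^ 2` -/
noncomputable def vr (k : ℕ) : ℝ := -Real.log (1 - 1 / (4 * (k : ℝ) + 2) ^ 2)

lemma fac_pos (k : ℕ) : 0 < 1 - 1 / (4 * (k : ℝ) + 2) ^ 2 := by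
  have h1 : (0 : ℝ) ≤ k := Nat.cast_nonneg k
  rw [sub_pos, div_lt_one (by positivity)]
  nlinarith

lemma fac_lt (k : ℕ) : 1 - 1 / (4 * (k : ℝ) + 2) ^ 2 < 1 := by
  have : 0 < 1 / (4 * (k : ℝ) + 2) ^ 2 := by positivity
  linarith

lemma vr_pos (k : ℕ) : 0 < vr k := by
  unfold vr
  have := Real.log_neg (fac_pos k) (fac_lt k)
  linarith

lemma hasSum_vr_zero : HasSum vr (Real.log (Real.sqrt 2)) := by
  rw [hasSum_iff_tendsto_nat_of_nonneg fun i => (vr_pos i).le]
  have h1 := Pool.Agent.H608.Sp.prod_sq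
  have hs : (0 : ℝ) < Real.sqrt 2 := by positivity
  have h2 := (Real.continuousAt_log (one_div_pos.2 hs).ne').tendsto.comp h1
  have h3 := h2.neg
  have e1 : -Real.log (1 / Real.sqrt 2) = Real.log (Real.sqrt 2) := by
    rw [one_div, Real.log_inv, neg_neg]
  rw [e1] at h3
  refine h3.congr fun n => ?_
  simp only [Function.comp]
  rw [Real.log_prod (fun i _ => (fac_pos i).ne'), ← sum_neg_distrib]
  rfl

lemma hasSum_vr : HasSum (fun i : ℕ => vr (i + 1)) (Real.log (Real.sqrt 2) - vr 0) := by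
  have h1 := (hasSum_nat_add_iff' 1).2 hasSum_vr_zero
  rwa [sum_range_one] at h1

/-- the function with the values `vr k` -/
noncomputable def gr (w : ℂ) : ℂ := -Complex.log (1 - (w / (4 + 2 * w)) ^ 2)

/-- the series -/
noncomputable def serR : Ser where
  x := Real.log (Real.sqrt 2) - vr 0
  τ := vr
  g := gr
  gd := by
    have h1 : ContinuousAt (fun w : ℂ => (w / (4 + 2 * w)) ^ 2) 0 := by
      have : (4 : ℂ) + 2 * 0 ≠ 0 := by norm_num
      fun_prop (disch := exact this)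
    have h2 : ∀ᶠ w in 𝓝 (0 : ℂ), ‖(w / (4 + 2 * w)) ^ 2‖ < 1 := by
      apply h1.norm.eventually_lt continuousAt_const
      norm_num
    have h3 : ∀ᶠ w in 𝓝 (0 : ℂ), (4 : ℂ) + 2 * w ≠ 0 := by
      have : ContinuousAt (fun w : ℂ => (4 : ℂ) + 2 * w) 0 := by fun_prop
      apply this.eventually_ne
      norm_num
    filter_upwards [h2, h3] with w hw hw'
    have h4 : 1 - (w / (4 + 2 * w)) ^ 2 ∈ Complex.slitPlane := by
      have h5 := Complex.mem_slitPlane_of_norm_lt_one (z := -(w / (4 + 2 * w)) ^ 2) (by rwa [norm_neg])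
      rwa [← sub_eq_add_neg] at h5
    unfold gr
    have h6 : DifferentiableAt ℂ (fun w : ℂ => 1 - (w / (4 + 2 * w)) ^ 2) w := by
      fun_prop (disch := exact hw')
    exact (h6.clog h4).neg
  g0 := by
    unfold gr
    simp
  rep := by
    filter_upwards [eventually_ge_atTop 1] with k hk
    unfold vr gr
    rw [Complex.ofReal_neg, Complex.ofReal_log (fac_pos k).le]
    have hk0 : (k : ℂ) ≠ 0 := by exact_mod_cast (by omega : k ≠ 0)
    have h1 : (1 / (k : ℂ)) / (4 + 2 * (1 / (k : ℂ))) = 1 / (4 * (k : ℂ) + 2) := by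
      have h2 : (4 : ℂ) * k + 2 ≠ 0 := by
        have : ((4 * (k : ℝ) + 2 : ℝ)) ≠ 0 := by positivity
        exact_mod_cast this
      have h3 : (4 : ℂ) + 2 * (1 / (k : ℂ)) = (4 * k + 2) / k := by field_simp
      rw [h3]
      field_simp
    rw [h1]
    push_cast
    rw [one_div_pow]

lemma serR_ne : ¬ ∀ᶠ w in 𝓝 (0 : ℂ), serR.g w = 0 := by
  intro h
  have h1 := (tendsto_nhds_of_tendsto_nhdsWithin tendsto_one_div_c).eventually h
  obtain ⟨k, hk, hk'⟩ := (h1.and serR.rep).exists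
  rw [hk] at hk'
  have h2 : serR.τ k = 0 := by exact_mod_cast hk'
  exact (vr_pos k).ne' h2

/-- towers over the exponential function -/
noncomputable def FR (R : Subring ℝ) (P : MvPolynomial ℕ R) (w : ℂ) : ℂ :=
  FT R P (Complex.exp (((vr 0 : ℝ) : ℂ) + w))

lemma exp_slit {w : ℂ} (h : |w.im| < 1) : Complex.exp w ∈ Complex.slitPlane := by
  left
  rw [Complex.exp_re]
  apply mul_pos (Real.exp_pos _)
  apply Real.cos_pos_of_mem_Ioo
  rw [abs_lt] at h
  have := Real.pi_gt_three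
  constructor <;> linarith

lemma im_of_ball {x r : ℝ} (hr : r ≤ 1) {w : ℂ} (hw : w ∈ ball (x : ℂ) r) (c : ℝ) : |((c : ℂ) + w).im| < 1 := by
  rw [mem_ball_iff_norm] at hw
  have h1 := (Complex.abs_im_le_norm (w - x)).trans_lt hw
  rw [Complex.sub_im, Complex.ofReal_im, sub_zero] at h1
  rw [Complex.add_im, Complex.ofReal_im, zero_add]
  linarith

lemma FR_analytic (R : Subring ℝ) (P : MvPolynomial ℕ R) {x r : ℝ} (hr : r ≤ 1) :
    AnalyticOnNhd ℂ (FR R P) (ball (x : ℂ) r) := by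
  unfold FR
  exact (FT_analytic R P).comp ((analyticOnNhd_const.add analyticOnNhd_id).cexp) fun w hw =>
    exp_slit (im_of_ball hr hw _)

lemma FR_real (R : Subring ℝ) (P : MvPolynomial ℕ R) (a : ℝ) :
    FR R P (a : ℂ) = ((MvPolynomial.eval (fun i => twr i (Real.exp (vr 0 + a)))
      (MvPolynomial.map R.subtype P) : ℝ) : ℂ) := by
  unfold FR
  have h1 : Complex.exp (((vr 0 : ℝ) : ℂ) + (a : ℂ)) = ((Real.exp (vr 0 + a) : ℝ) : ℂ) := by
    push_cast
    rfl
  rw [h1, FT_real R P (Real.exp_pos _)]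

lemma FR_const (R : Subring ℝ) (P : MvPolynomial ℕ R) (hP : ∀ c, P ≠ MvPolynomial.C c) {x r : ℝ} (hr : 0 < r) :
    ¬ ∃ c, ∀ w ∈ ball (x : ℂ) r, FR R P w = c := by
  rintro ⟨c, hc⟩
  obtain ⟨q, hq⟩ : ∃ q, q = Real.exp (vr 0 + x) := ⟨_, rfl⟩
  have hq0 : 0 < q := by rw [hq]; exact Real.exp_pos _
  have hqs : (q : ℂ) ∈ Complex.slitPlane := by
    left
    rwa [Complex.ofReal_re]
  have h1 : ContinuousAt (fun u : ℂ => Complex.log u - ((vr 0 : ℝ) : ℂ)) (q : ℂ) :=
    (continuousAt_clog hqs).sub continuousAt_const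
  have h2 : Complex.log (q : ℂ) - ((vr 0 : ℝ) : ℂ) = (x : ℂ) := by
    rw [← Complex.ofReal_log hq0.le, hq, Real.log_exp]
    push_cast
    ring
  have h3 : ∀ᶠ u in 𝓝 (q : ℂ), Complex.log u - ((vr 0 : ℝ) : ℂ) ∈ ball (x : ℂ) r := by
    apply h1.eventually_mem
    rw [h2]
    exact ball_mem_nhds _ hr
  have h4 : ∀ᶠ u in 𝓝 (q : ℂ), u ≠ 0 := by
    apply continuousAt_id.eventually_ne
    simp only [id]
    exact_mod_cast hq0.ne'
  obtain ⟨δ, hδ, hball⟩ := Metric.eventually_nhds_iff_ball.1 (h3.and h4)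
  apply FT_const R P hP (lt_min hδ hq0) (min_le_right δ q)
  refine ⟨c, fun u hu => ?_⟩
  have h5 := hball u (ball_subset_ball (min_le_left _ _) hu)
  have h6 := hc _ h5.1
  unfold FR at h6
  rw [show ((vr 0 : ℝ) : ℂ) + (Complex.log u - ((vr 0 : ℝ) : ℂ)) = Complex.log u by ring,
    Complex.exp_log h5.2] at h6
  exact h6

end Pool.Agent.H608.Ge
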