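import Pool.Agent.H608.Ge.Fin

/-!
# The digits of `c + ∑ b_i / m ^ (s + 1 + i)` for most integers `m` of a dyadic interval

`BadG y γ δ s z`: in some base `r` the expansion of `z` has a block of at least `y ^ (1 - γ)` digits, between
the positions `(s + 1 + δ) y / log r` and `y ^ (1 + γ) / log r`, whose discrepancy is greater than `δ`.
-/

set_option autoImplicit false

namespace Pool.Agent.H608.Ge

open Finset Filter Topology
open Pool.Agent.H469R2.NK (e norm_e e_add e_zero conj_e)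
open Pool.Agent.Helper478.Surds (EquiW)

/-- `z` has a bad window of digits in some base, at the scale `y` -/
def BadG (y γ δ : ℝ) (s : ℕ) (z : ℝ) : Prop :=
  ∃ r u v : ℕ, 2 ≤ r ∧ y ^ (1 - γ) ≤ (v : ℝ) - u ∧ v * Real.log r ≤ y ^ (1 + γ) ∧
    (s + 1 + δ) * y ≤ u * Real.log r ∧ ¬ EquiW z r u v δ

set_option maxHeartbeats 4000000 in
theorem stageG : ∃ γ : ℝ, 0 < γ ∧ γ ≤ 1 / 20 ∧ ∀ (s : ℕ) (δ : ℝ), 0 < δ → ∃ H₀ : ℕ,
    ∀ (H : ℕ) (c K D : ℝ) (b : ℕ → ℝ), H₀ ≤ H → Cls b K D (Real.log H) →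
      Real.exp (-(Real.log H) ^ (1 / 3 : ℝ)) ≤ |b 0| → |b 0| ≤ H →
      (({m : ℕ | H < m ∧ m ≤ 2 * H ∧ BadG (Real.log H) γ δ s (c + ser s b m)}.ncard : ℕ) : ℝ) ≤
        H * Real.exp (-√(Real.log H)) := by
  classical
  obtain ⟨γ₀, hγ0, hγ1, hr⟩ := rangeS
  refine ⟨γ₀ / 2, by positivity, by linarith, fun s δ hδ => ?_⟩
  obtain ⟨N₀, hN₀⟩ := hr s (δ / 2) (by positivity)
  obtain ⟨y₀, hy₀⟩ := finG γ₀ hγ0 hγ1 δ hδ
  have ev1 : ∀ᶠ y : ℝ in atTop, (2 / δ) * y ^ (1 / 3 : ℝ) ≤ y ^ (1 : ℝ) :=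
    Pool.Agent.Helper478.Surds.ev_pow _ _ _ (by norm_num)
  have hlog : Tendsto (fun N : ℕ => Real.log N) atTop atTop :=
    Real.tendsto_log_atTop.comp tendsto_natCast_atTop_atTop
  obtain ⟨H₁, hH₁⟩ := eventually_atTop.1 (hlog.eventually (ev1.and (eventually_ge_atTop (max y₀ 1))))
  refine ⟨max (max N₀ H₁) 2, ?_⟩
  intro H c K D b hH hb hb1 hb2
  obtain ⟨f1, f2⟩ := hH₁ H (le_trans (le_trans (le_max_right _ _) (le_max_left _ _)) hH)
  have hHN₀ : N₀ ≤ H := le_trans (le_trans (le_max_left _ _) (le_max_left _ _)) hH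
  have hH2 : 2 ≤ H := le_trans (le_max_right _ _) hH
  have hH0 : (0 : ℝ) < H := by exact_mod_cast (by omega : 0 < H)
  have hH1 : (1 : ℝ) ≤ H := by exact_mod_cast (by omega : 1 ≤ H)
  obtain ⟨y, hy⟩ : ∃ y : ℝ, y = Real.log H := ⟨_, rfl⟩
  have hyy₀ : y₀ ≤ y := by rw [hy]; exact (le_max_left _ _).trans f2
  have hy1 : 1 ≤ y := by rw [hy]; exact (le_max_right _ _).trans f2
  rw [← hy] at f1 hb1
  rw [Real.rpow_one] at f1
  have hb0 : 0 < |b 0| := abs_pos.2 hb.b0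
  have hHexp : (H : ℝ) = Real.exp y := by rw [hy, Real.exp_log hH0]
  obtain ⟨Am, hAm⟩ : ∃ Am : ℝ, Am = |b 0| / (H : ℝ) ^ (s + 1) := ⟨_, rfl⟩
  have hAm0 : 0 < Am := by rw [hAm]; positivity
  have hAmH : Am ≤ H := by
    rw [hAm]
    calc |b 0| / (H : ℝ) ^ (s + 1) ≤ |b 0| / 1 := by
          apply div_le_div_of_nonneg_left hb0.le one_pos (one_le_pow₀ hH1)
      _ ≤ H := by rw [div_one]; exact hb2
  have hmain := hy₀ H (fun n => c + ser s b ((H : ℝ) + n)) ((H : ℝ) ^ (δ / 2)) Am (by rw [← hy]; exact hyy₀)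
    hAm0 hAmH ?_
  · refine le_trans ?_ hmain
    have hfin : {n : ℕ | 1 ≤ n ∧ n ≤ H ∧ ∃ r u v : ℕ, 2 ≤ r ∧ (Real.log H) ^ (1 - γ₀ / 2) ≤ (v : ℝ) - u ∧
        v * Real.log r ≤ (Real.log H) ^ (1 + γ₀ / 2) ∧ (H : ℝ) ^ (δ / 2) ≤ (r : ℝ) ^ u * Am ∧
        ¬ EquiW (c + ser s b ((H : ℝ) + n)) r u v δ}.Finite :=
      (Set.finite_Iic H).subset fun n hn => hn.2.1
    have hsub : {m : ℕ | H < m ∧ m ≤ 2 * H ∧ BadG (Real.log H) (γ₀ / 2) δ s (c + ser s b m)} ⊆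
        (fun n => H + n) '' {n : ℕ | 1 ≤ n ∧ n ≤ H ∧ ∃ r u v : ℕ, 2 ≤ r ∧
        (Real.log H) ^ (1 - γ₀ / 2) ≤ (v : ℝ) - u ∧
        v * Real.log r ≤ (Real.log H) ^ (1 + γ₀ / 2) ∧ (H : ℝ) ^ (δ / 2) ≤ (r : ℝ) ^ u * Am ∧
        ¬ EquiW (c + ser s b ((H : ℝ) + n)) r u v δ} := by
      rintro m ⟨hm1, hm2, r, u, v, hr2, huv, hv, hu, hnot⟩
      have hcast : (H : ℝ) + ((m - H : ℕ) : ℝ) = m := by
        rw [Nat.cast_sub hm1.le]; ring
      refine ⟨m - H, ⟨by omega, by omega, r, u, v, hr2, huv, hv, ?_, ?_⟩, by simp only; omega⟩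
      · rw [← hy] at hu
        have hr0 : (0 : ℝ) < r := by exact_mod_cast (by omega : 0 < r)
        have h1 : (r : ℝ) ^ u = Real.exp (u * Real.log r) := by
          rw [mul_comm, Real.exp_mul, Real.exp_log hr0]
          norm_cast
        have h2 : Real.exp (-(δ / 2 * y)) ≤ |b 0| := by
          refine le_trans ?_ hb1
          apply Real.exp_le_exp.2
          have h3 := mul_le_mul_of_nonneg_right f1 (by positivity : 0 ≤ δ / 2)
          have h4 : 2 / δ * y ^ (1 / 3 : ℝ) * (δ / 2) = y ^ (1 / 3 : ℝ) := by field_simp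
          rw [h4] at h3
          linarith
        rw [h1, hAm, hHexp, ← Real.exp_mul, ← Real.exp_nat_mul]
        have e1 : Real.exp (u * Real.log r) * (|b 0| / Real.exp (((s + 1 : ℕ) : ℝ) * y)) =
            Real.exp (u * Real.log r) * |b 0| / Real.exp (((s + 1 : ℕ) : ℝ) * y) := by ring
        rw [e1, le_div_iff₀ (Real.exp_pos _)]
        calc Real.exp (y * (δ / 2)) * Real.exp (((s + 1 : ℕ) : ℝ) * y) =
              Real.exp ((s + 1 + δ) * y) * Real.exp (-(δ / 2 * y)) := by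
                rw [← Real.exp_add, ← Real.exp_add]
                congr 1
                push_cast
                ring
          _ ≤ Real.exp (u * Real.log r) * |b 0| := by gcongr
      · rw [hcast]
        exact hnot
    exact_mod_cast (Set.ncard_le_ncard hsub (hfin.image _)).trans (Set.ncard_image_le hfin)
  · intro F hF hF1 hF2
    have h1 : ‖∑ n ∈ Ioc 0 H, e (F * (c + ser s b ((H : ℝ) + n)))‖ =
        ‖∑ n ∈ Ioc 0 H, e (F * ser s b ((H : ℝ) + n))‖ := by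
      have h2 : ∑ n ∈ Ioc 0 H, e (F * (c + ser s b ((H : ℝ) + n))) =
          e (F * c) * ∑ n ∈ Ioc 0 H, e (F * ser s b ((H : ℝ) + n)) := by
        rw [mul_sum]
        refine sum_congr rfl fun n _ => ?_
        rw [← e_add, mul_add]
      rw [h2, norm_mul, norm_e, one_mul]
    rw [h1]
    refine hN₀ H H F K D b hHN₀ le_rfl hF hb ?_ ?_
    · refine hF1.trans (le_of_eq ?_)
      rw [hAm]; ring
    · refine le_trans (le_of_eq ?_) hF2
      rw [hAm]; ring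

end Pool.Agent.H608.Ge
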