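import Mathlib

/-!
# Taylor expansion of `∑ b_i / t ^ (e + 1 + i)`
-/

set_option autoImplicit false

namespace Pool.Agent.H608.Ge

open Finset Filter Topology

/-- the series `∑ b_i / t ^ (e + 1 + i)` -/
noncomputable def ser (e : ℕ) (b : ℕ → ℝ) (t : ℝ) : ℝ := ∑' i, b i / t ^ (e + 1 + i)

/-- the Taylor coefficients at `a` -/
noncomputable def tay (e : ℕ) (b : ℕ → ℝ) (a : ℝ) (j : ℕ) : ℝ :=
  (-1) ^ j * ∑' i, b i * ((j + (e + i)).choose (e + i) : ℝ) / a ^ (e + 1 + i + j)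

lemma binom_tail (k r : ℕ) (w : ℝ) (hw0 : 0 ≤ w) (hw1 : w ≤ 1 / 4) :
    |1 / (1 + w) ^ (k + 1) - ∑ j ∈ range (r + 1), ((j + k).choose k : ℝ) * (-w) ^ j| ≤
      2 ^ (k + 1) * (2 * w) ^ (r + 1) := by
  have h1 : HasSum (fun j : ℕ => ((j + k).choose k : ℝ) * (-w) ^ j) (1 / (1 - (-w)) ^ (k + 1)) :=
    hasSum_choose_mul_geometric_of_norm_lt_one k (by
      rw [norm_neg, Real.norm_eq_abs, abs_of_nonneg hw0]; linarith)
  rw [sub_neg_eq_add] at h1
  have h2 := (hasSum_nat_add_iff' (r + 1)).2 h1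
  have h3 : HasSum (fun j : ℕ => (2 : ℝ) ^ k * (2 * w) ^ (r + 1) * (2 * w) ^ j)
      ((2 : ℝ) ^ k * (2 * w) ^ (r + 1) * (1 - 2 * w)⁻¹) :=
    (hasSum_geometric_of_lt_one (by positivity) (by linarith)).mul_left _
  have h4 : ‖1 / (1 + w) ^ (k + 1) - ∑ j ∈ range (r + 1), ((j + k).choose k : ℝ) * (-w) ^ j‖ ≤
      (2 : ℝ) ^ k * (2 * w) ^ (r + 1) * (1 - 2 * w)⁻¹ := by
    rw [← h2.tsum_eq]
    refine tsum_of_norm_bounded h3 fun j => ?_
    rw [norm_mul, norm_pow, norm_neg, Real.norm_eq_abs, Real.norm_eq_abs, abs_of_nonneg hw0,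
      abs_of_nonneg (Nat.cast_nonneg _)]
    have h5 : (((j + (r + 1) + k).choose k : ℕ) : ℝ) ≤ 2 ^ (j + (r + 1) + k) := by
      exact_mod_cast Nat.choose_le_two_pow _ _
    calc (((j + (r + 1) + k).choose k : ℕ) : ℝ) * w ^ (j + (r + 1)) ≤
          2 ^ (j + (r + 1) + k) * w ^ (j + (r + 1)) := by gcongr
      _ = _ := by
        rw [pow_add 2 (j + (r + 1)) k, mul_pow, mul_pow, pow_add, pow_add w]
        ring
  rw [Real.norm_eq_abs] at h4
  refine h4.trans ?_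
  have h6 : (1 - 2 * w)⁻¹ ≤ 2 := by
    rw [inv_le_comm₀ (by linarith) (by norm_num)]
    linarith
  calc (2 : ℝ) ^ k * (2 * w) ^ (r + 1) * (1 - 2 * w)⁻¹ ≤ 2 ^ k * (2 * w) ^ (r + 1) * 2 := by gcongr
    _ = _ := by ring

lemma term_tail (k r : ℕ) (a z : ℝ) (ha : 0 < a) (hz0 : 0 ≤ z) (hz1 : z ≤ a / 4) :
    |1 / (a + z) ^ (k + 1) - 1 / a ^ (k + 1) -
      ∑ j ∈ Icc 1 r, (-1) ^ j * ((j + k).choose k : ℝ) / a ^ (k + 1 + j) * z ^ j| ≤
      2 ^ (k + 1) * (2 * (z / a)) ^ (r + 1) / a ^ (k + 1) := by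
  have h1 := binom_tail k r (z / a) (by positivity) (by
    rw [div_le_iff₀ ha]; linarith)
  have h2 : 1 / (a + z) ^ (k + 1) - 1 / a ^ (k + 1) -
      ∑ j ∈ Icc 1 r, (-1) ^ j * ((j + k).choose k : ℝ) / a ^ (k + 1 + j) * z ^ j =
      (1 / (1 + z / a) ^ (k + 1) - ∑ j ∈ range (r + 1), ((j + k).choose k : ℝ) * (-(z / a)) ^ j) /
        a ^ (k + 1) := by
    rw [Finset.range_eq_Ico, Finset.sum_eq_sum_Ico_succ_bot (by omega)]
    have h3 : (a + z) = a * (1 + z / a) := by field_simp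
    rw [h3, mul_pow, sub_div, add_div, sum_div]
    have h4 : ∀ j ∈ Ico (0 + 1) (r + 1), ((j + k).choose k : ℝ) * (-(z / a)) ^ j / a ^ (k + 1) =
        (-1) ^ j * ((j + k).choose k : ℝ) / a ^ (k + 1 + j) * z ^ j := by
      intro j _
      rw [neg_pow, div_pow, pow_add a (k + 1) j]
      field_simp
    rw [sum_congr rfl h4]
    have h5 : Ico (0 + 1) (r + 1) = Icc 1 r := rfl
    rw [h5]
    have h6 : (0 : ℝ) < 1 + z / a := by positivity
    simp only [zero_add, Nat.choose_self, Nat.cast_one, pow_zero, mul_one]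
    field_simp
    ring
  rw [h2, abs_div, abs_of_pos (show 0 < a ^ (k + 1) by positivity)]
  gcongr

section

variable {e : ℕ} {b : ℕ → ℝ} {K D : ℝ}

lemma ser_bound (hK : ∀ i, |b i| ≤ K * D ^ i) (hD : 0 ≤ D) (hK0 : 0 ≤ K) {t : ℝ} (ht : 0 < t) (i : ℕ) :
    ‖b i / t ^ (e + 1 + i)‖ ≤ K / t ^ (e + 1) * (D / t) ^ i := by
  rw [norm_div, Real.norm_eq_abs, norm_pow, Real.norm_eq_abs, abs_of_pos ht]
  calc |b i| / t ^ (e + 1 + i) ≤ K * D ^ i / t ^ (e + 1 + i) := by gcongr; exact hK i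
    _ = _ := by rw [pow_add t (e + 1) i, div_pow]; field_simp

lemma ser_summable (hK : ∀ i, |b i| ≤ K * D ^ i) (hD : 0 ≤ D) (hK0 : 0 ≤ K) {t : ℝ} (ht : 0 < t)
    (hDt : D < t) : Summable fun i => b i / t ^ (e + 1 + i) := by
  refine Summable.of_norm_bounded (g := fun i => K / t ^ (e + 1) * (D / t) ^ i) ?_
    (ser_bound hK hD hK0 ht)
  apply Summable.mul_left
  apply summable_geometric_of_lt_one (by positivity)
  rwa [div_lt_one ht]

lemma tay_bound (hK : ∀ i, |b i| ≤ K * D ^ i) (hD : 0 ≤ D) (hK0 : 0 ≤ K) {a : ℝ} (ha : 0 < a) (j i : ℕ) :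
    ‖b i * ((j + (e + i)).choose (e + i) : ℝ) / a ^ (e + 1 + i + j)‖ ≤
      K * 2 ^ (e + j) / a ^ (e + 1 + j) * (2 * D / a) ^ i := by
  rw [norm_div, norm_mul, Real.norm_eq_abs, norm_pow, Real.norm_eq_abs, Real.norm_eq_abs,
    abs_of_pos ha, abs_of_nonneg (show (0 : ℝ) ≤ (((j + (e + i)).choose (e + i) : ℕ) : ℝ) from
      Nat.cast_nonneg _)]
  have h5 : (((j + (e + i)).choose (e + i) : ℕ) : ℝ) ≤ 2 ^ (j + (e + i)) := by
    exact_mod_cast Nat.choose_le_two_pow _ _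
  calc |b i| * (((j + (e + i)).choose (e + i) : ℕ) : ℝ) / a ^ (e + 1 + i + j) ≤
        (K * D ^ i) * 2 ^ (j + (e + i)) / a ^ (e + 1 + i + j) := by
        gcongr
        exact hK i
    _ = _ := by
      rw [show e + 1 + i + j = (e + 1 + j) + i by ring, pow_add a (e + 1 + j) i, div_pow, mul_pow,
        show j + (e + i) = e + j + i by ring, pow_add 2 (e + j) i]
      field_simp

lemma tay_summable (hK : ∀ i, |b i| ≤ K * D ^ i) (hD : 0 ≤ D) (hK0 : 0 ≤ K) {a : ℝ} (ha : 0 < a)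
    (hDa : 2 * D < a) (j : ℕ) :
    Summable fun i => b i * ((j + (e + i)).choose (e + i) : ℝ) / a ^ (e + 1 + i + j) := by
  refine Summable.of_norm_bounded
    (g := fun i => K * 2 ^ (e + j) / a ^ (e + 1 + j) * (2 * D / a) ^ i) ?_
    (tay_bound hK hD hK0 ha j)
  apply Summable.mul_left
  apply summable_geometric_of_lt_one (by positivity)
  rwa [div_lt_one ha]

/-- Taylor's formula -/
theorem taylor (hK : ∀ i, |b i| ≤ K * D ^ i) (hD : 0 ≤ D) (hK0 : 0 ≤ K) {a : ℝ} (ha : 0 < a)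
    (hDa : 4 * D ≤ a) (r : ℕ) {z : ℝ} (hz0 : 0 ≤ z) (hz1 : z ≤ a / 4) :
    |ser e b (a + z) - ser e b a - ∑ j ∈ Icc 1 r, tay e b a j * z ^ j| ≤
      2 * K * (2 / a) ^ (e + 1) * (2 * (z / a)) ^ (r + 1) := by
  have hDa' : D < a := by linarith
  have hD2 : 2 * D < a := by linarith
  have hs1 : Summable fun i => b i / (a + z) ^ (e + 1 + i) :=
    ser_summable hK hD hK0 (by linarith) (by linarith)
  have hs2 : Summable fun i => b i / a ^ (e + 1 + i) := ser_summable hK hD hK0 ha hDa'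
  have hs3 : ∀ j ∈ Icc 1 r, Summable fun i =>
      (-1) ^ j * (b i * ((j + (e + i)).choose (e + i) : ℝ) / a ^ (e + 1 + i + j)) * z ^ j := fun j _ =>
    ((tay_summable hK hD hK0 ha hD2 j).mul_left _).mul_right _
  have hs4 : Summable fun i => ∑ j ∈ Icc 1 r,
      (-1) ^ j * (b i * ((j + (e + i)).choose (e + i) : ℝ) / a ^ (e + 1 + i + j)) * z ^ j :=
    summable_sum hs3
  have h1 : ∑ j ∈ Icc 1 r, tay e b a j * z ^ j = ∑' i, ∑ j ∈ Icc 1 r,
      (-1) ^ j * (b i * ((j + (e + i)).choose (e + i) : ℝ) / a ^ (e + 1 + i + j)) * z ^ j := by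
    rw [Summable.tsum_finsetSum hs3]
    refine sum_congr rfl fun j _ => ?_
    rw [tay, tsum_mul_right, tsum_mul_left]
  have h2 : ser e b (a + z) - ser e b a - ∑ j ∈ Icc 1 r, tay e b a j * z ^ j =
      ∑' i, (b i / (a + z) ^ (e + 1 + i) - b i / a ^ (e + 1 + i) - ∑ j ∈ Icc 1 r,
      (-1) ^ j * (b i * ((j + (e + i)).choose (e + i) : ℝ) / a ^ (e + 1 + i + j)) * z ^ j) := by
    rw [h1, ser, ser, (hs1.sub hs2).tsum_sub hs4, hs1.tsum_sub hs2]
  rw [h2, ← Real.norm_eq_abs]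
  have h3 : HasSum (fun i : ℕ => K * (2 / a) ^ (e + 1) * (2 * (z / a)) ^ (r + 1) * (2 * D / a) ^ i)
      (K * (2 / a) ^ (e + 1) * (2 * (z / a)) ^ (r + 1) * (1 - 2 * D / a)⁻¹) :=
    (hasSum_geometric_of_lt_one (by positivity) (by rwa [div_lt_one ha])).mul_left _
  refine (tsum_of_norm_bounded h3 fun i => ?_).trans ?_
  · have h4 := term_tail (e + i) r a z ha hz0 hz1
    have h5 : b i / (a + z) ^ (e + 1 + i) - b i / a ^ (e + 1 + i) - ∑ j ∈ Icc 1 r,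
        (-1) ^ j * (b i * ((j + (e + i)).choose (e + i) : ℝ) / a ^ (e + 1 + i + j)) * z ^ j =
        b i * (1 / (a + z) ^ (e + i + 1) - 1 / a ^ (e + i + 1) -
      ∑ j ∈ Icc 1 r, (-1) ^ j * ((j + (e + i)).choose (e + i) : ℝ) / a ^ (e + i + 1 + j) * z ^ j) := by
      rw [mul_sub, mul_sub, mul_sum, show e + 1 + i = e + i + 1 by ring, mul_one_div, mul_one_div]
      congr 1
      refine sum_congr rfl fun j _ => ?_
      ring
    rw [h5, norm_mul, Real.norm_eq_abs, Real.norm_eq_abs]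
    calc |b i| * |1 / (a + z) ^ (e + i + 1) - 1 / a ^ (e + i + 1) -
      ∑ j ∈ Icc 1 r, (-1) ^ j * ((j + (e + i)).choose (e + i) : ℝ) / a ^ (e + i + 1 + j) * z ^ j| ≤
          (K * D ^ i) * (2 ^ (e + i + 1) * (2 * (z / a)) ^ (r + 1) / a ^ (e + i + 1)) :=
            mul_le_mul (hK i) h4 (abs_nonneg _) (by positivity)
      _ = _ := by
        rw [show e + i + 1 = (e + 1) + i by ring, pow_add 2 (e + 1) i, pow_add a (e + 1) i, div_pow 2 a,
          div_pow (2 * D) a, mul_pow 2 D]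
        field_simp
  · have h6 : (1 - 2 * D / a)⁻¹ ≤ 2 := by
      have h7 : 2 * D / a ≤ 1 / 2 := by
        rw [div_le_iff₀ ha]; linarith
      rw [inv_le_comm₀ (by linarith) (by norm_num)]
      linarith
    calc K * (2 / a) ^ (e + 1) * (2 * (z / a)) ^ (r + 1) * (1 - 2 * D / a)⁻¹ ≤
        K * (2 / a) ^ (e + 1) * (2 * (z / a)) ^ (r + 1) * 2 := by gcongr
      _ = _ := by ring

/-- the size of the Taylor coefficients -/
theorem tay_size (hK : ∀ i, |b i| ≤ K * D ^ i) (hD : 0 ≤ D) (hK0 : 0 ≤ K) {a : ℝ} (ha : 0 < a)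
    (hDa : 4 * D ≤ a) (j : ℕ) (hb : 8 * K * D * 2 ^ (e + j) ≤ |b 0| * a) :
    |b 0| / (2 * a ^ (e + 1 + j)) ≤ |tay e b a j| ∧
      |tay e b a j| ≤ 2 * 2 ^ (e + j) * (|b 0| / a ^ (e + 1 + j)) := by
  have hD2 : 2 * D < a := by linarith
  have hs := tay_summable (e := e) hK hD hK0 ha hD2 j
  have h1 : ∑' i, b i * ((j + (e + i)).choose (e + i) : ℝ) / a ^ (e + 1 + i + j) =
      b 0 * ((j + e).choose e : ℝ) / a ^ (e + 1 + j) +
      ∑' i, b (i + 1) * ((j + (e + (i + 1))).choose (e + (i + 1)) : ℝ) / a ^ (e + 1 + (i + 1) + j) := by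
    rw [hs.tsum_eq_zero_add]
    simp only [add_zero]
  have h3 : HasSum (fun i : ℕ => K * 2 ^ (e + j) / a ^ (e + 1 + j) * (2 * D / a) * (2 * D / a) ^ i)
      (K * 2 ^ (e + j) / a ^ (e + 1 + j) * (2 * D / a) * (1 - 2 * D / a)⁻¹) :=
    (hasSum_geometric_of_lt_one (by positivity) (by rwa [div_lt_one ha])).mul_left _
  have h4 : |∑' i, b (i + 1) * ((j + (e + (i + 1))).choose (e + (i + 1)) : ℝ) /
      a ^ (e + 1 + (i + 1) + j)| ≤ |b 0| / (2 * a ^ (e + 1 + j)) := by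
    rw [← Real.norm_eq_abs]
    refine (tsum_of_norm_bounded h3 fun i => ?_).trans ?_
    · refine (tay_bound hK hD hK0 ha j (i + 1)).trans (le_of_eq ?_)
      rw [pow_succ']
      ring
    · have h6 : (1 - 2 * D / a)⁻¹ ≤ 2 := by
        have h7 : 2 * D / a ≤ 1 / 2 := by
          rw [div_le_iff₀ ha]; linarith
        rw [inv_le_comm₀ (by linarith) (by norm_num)]
        linarith
      calc K * 2 ^ (e + j) / a ^ (e + 1 + j) * (2 * D / a) * (1 - 2 * D / a)⁻¹ ≤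
            K * 2 ^ (e + j) / a ^ (e + 1 + j) * (2 * D / a) * 2 := by gcongr
        _ = (8 * K * D * 2 ^ (e + j)) / (a * (2 * a ^ (e + 1 + j))) := by field_simp; ring
        _ ≤ (|b 0| * a) / (a * (2 * a ^ (e + 1 + j))) := by gcongr
        _ = _ := by field_simp
  have h5 : |tay e b a j| = |b 0 * ((j + e).choose e : ℝ) / a ^ (e + 1 + j) +
      ∑' i, b (i + 1) * ((j + (e + (i + 1))).choose (e + (i + 1)) : ℝ) / a ^ (e + 1 + (i + 1) + j)| := by
    rw [tay, abs_mul, abs_pow, abs_neg, abs_one, one_pow, one_mul, h1]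
  rw [h5]
  have h6 : |b 0 * ((j + e).choose e : ℝ) / a ^ (e + 1 + j)| =
      ((j + e).choose e : ℝ) * (|b 0| / a ^ (e + 1 + j)) := by
    rw [abs_div, abs_mul, abs_of_pos (show 0 < a ^ (e + 1 + j) by positivity),
      abs_of_nonneg (show (0 : ℝ) ≤ ((j + e).choose e : ℝ) from Nat.cast_nonneg _)]
    ring
  have h7 : (1 : ℝ) ≤ ((j + e).choose e : ℝ) := by
    exact_mod_cast Nat.choose_pos (by omega : e ≤ j + e)
  have h8 : (((j + e).choose e : ℕ) : ℝ) ≤ 2 ^ (e + j) := by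
    rw [add_comm e j]
    exact_mod_cast Nat.choose_le_two_pow _ _
  have h9 : 0 ≤ |b 0| / a ^ (e + 1 + j) := by positivity
  have h10 : |b 0| / (2 * a ^ (e + 1 + j)) = 1 / 2 * (|b 0| / a ^ (e + 1 + j)) := by
    field_simp
  rw [h10] at h4 ⊢
  constructor
  · have h11 := abs_sub_abs_le_abs_add (b 0 * ((j + e).choose e : ℝ) / a ^ (e + 1 + j))
      (∑' i, b (i + 1) * ((j + (e + (i + 1))).choose (e + (i + 1)) : ℝ) / a ^ (e + 1 + (i + 1) + j))
    rw [h6] at h11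
    nlinarith
  · refine (abs_add_le _ _).trans ?_
    rw [h6]
    have h12 : (1 : ℝ) ≤ 2 ^ (e + j) := one_le_pow₀ (by norm_num)
    nlinarith

end

end Pool.Agent.H608.Ge
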