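import Pool.Graph.R_pool_sql_team_seeded_620a6dc7.Helper478_Shift.Range
import Pool.Agent.H608.Ge.Taylor

/-!
# Exponential sums over functions with Taylor coefficients of the right size
-/

set_option autoImplicit false

namespace Pool.Agent.H608.Ge

open Finset Filter
open Pool.Agent.H469R2.NK (e norm_e e_add e_zero conj_e)
open Pool.Agent.Y957.VK (TT)
open Pool.Agent.Helper478.Surds (tn2 e_sub_le ev_pow)

/-- one base point -/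
lemma innerA (g : ℕ → ℝ) (n M r : ℕ) (α : ℕ → ℝ) (η : ℝ)
    (h : ∀ z : ℕ, z ≤ M ^ 2 → |g (n + z) - g n - ∑ j ∈ Icc 1 r, α j * (z : ℝ) ^ j| ≤ η) :
    ‖∑ x ∈ Icc 1 M, ∑ y ∈ Icc 1 M, e (g (n + x * y))‖ ≤ ‖TT r M α‖ + (M : ℝ) ^ 2 * (2 * Real.pi * η) := by
  have key : ∀ x ∈ Icc 1 M, ∀ y ∈ Icc 1 M,
      ‖e (g (n + x * y)) - e (g n) * Complex.exp (2 * Real.pi * Complex.I *
          ((∑ j ∈ Finset.Icc 1 r, α j * ((x : ℝ) * y) ^ j : ℝ) : ℂ))‖ ≤ 2 * Real.pi * η := by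
    intro x hx y hy
    rw [mem_Icc] at hx hy
    have hxy : x * y ≤ M ^ 2 := by
      rw [sq]
      exact Nat.mul_le_mul hx.2 hy.2
    have h1 := h (x * y) hxy
    push_cast at h1
    have e2 : e (g n) * Complex.exp (2 * Real.pi * Complex.I *
          ((∑ j ∈ Finset.Icc 1 r, α j * ((x : ℝ) * y) ^ j : ℝ) : ℂ)) =
        e (g n + ∑ j ∈ Finset.Icc 1 r, α j * ((x : ℝ) * y) ^ j) := by
      rw [e_add]
      congr 1
      unfold Pool.Agent.H469R2.NK.e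
      congr 1
      push_cast
      ring
    rw [e2]
    refine (e_sub_le _ _).trans ?_
    have h2 : g (n + x * y) - (g n + ∑ j ∈ Finset.Icc 1 r, α j * ((x : ℝ) * y) ^ j) =
        g (n + x * y) - g n - ∑ j ∈ Finset.Icc 1 r, α j * ((x : ℝ) * y) ^ j := by ring
    rw [h2]
    have := Real.pi_pos
    gcongr
  have e1 : ∑ x ∈ Icc 1 M, ∑ y ∈ Icc 1 M, e (g (n + x * y)) =
      e (g n) * TT r M α +
      ∑ x ∈ Icc 1 M, ∑ y ∈ Icc 1 M, (e (g (n + x * y)) - e (g n) *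
        Complex.exp (2 * Real.pi * Complex.I *
          ((∑ j ∈ Finset.Icc 1 r, α j * ((x : ℝ) * y) ^ j : ℝ) : ℂ))) := by
    unfold TT
    simp only [Finset.sum_sub_distrib, Finset.mul_sum]
    ring
  rw [e1]
  refine (norm_add_le _ _).trans ?_
  rw [norm_mul, norm_e, one_mul]
  refine add_le_add le_rfl ?_
  refine (norm_sum_le _ _).trans ?_
  refine (Finset.sum_le_sum fun x hx => (norm_sum_le _ _).trans
    (Finset.sum_le_sum fun y hy => key x hx y hy)).trans ?_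
  simp only [Finset.sum_const, Nat.card_Icc, Nat.add_sub_cancel, nsmul_eq_mul]
  rw [sq]
  linarith

/-- Vinogradov's method -/
theorem vkA : ∃ C : ℕ, ∀ (N R : ℕ) (g : ℕ → ℝ) (κ A η : ℝ), 2 ≤ N → R ≤ N → 1 / 2 ≤ κ → 0 ≤ A → 0 ≤ η →
    (∀ n ∈ Ioc 0 R, ∃ α : ℕ → ℝ, (∀ j ∈ Icc 1 (⌈5 * κ⌉₊ + 5),
        |α j| ≤ (N : ℝ) ^ κ / (6 * (N : ℝ) ^ j) ∧ (N : ℝ) ^ κ / (N : ℝ) ^ j ≤ Real.exp A * |α j|) ∧
      ∀ z : ℕ, (z : ℝ) ≤ (N : ℝ) ^ (4 / 5 : ℝ) →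
        |g (n + z) - g n - ∑ j ∈ Icc 1 (⌈5 * κ⌉₊ + 5), α j * (z : ℝ) ^ j| ≤ η) →
    ‖∑ n ∈ Ioc 0 R, e (g n)‖ ≤
      Real.exp ((1 + A) * (C * (1 + κ) ^ C)) * (N : ℝ) ^ (1 - 1 / 10 ^ 10 / (1 + κ) ^ 2 : ℝ) +
        7 * η * N := by
  obtain ⟨C₀, hC₀⟩ := tn2
  refine ⟨C₀ + 2, ?_⟩
  intro N R g κ A η hN hR hκ hA hη hall
  obtain ⟨r, hr⟩ : ∃ r : ℕ, r = ⌈5 * κ⌉₊ + 5 := ⟨_, rfl⟩
  rw [← hr] at hall
  obtain ⟨M, hM⟩ : ∃ M : ℕ, M = ⌊(N : ℝ) ^ (2 / 5 : ℝ)⌋₊ := ⟨_, rfl⟩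
  have hNr : (2 : ℝ) ≤ N := by exact_mod_cast hN
  have hN0 : (0 : ℝ) < N := by linarith
  have hN1 : (1 : ℝ) ≤ N := by linarith
  have hRN : (R : ℝ) ≤ N := by exact_mod_cast hR
  have hR0 : (0 : ℝ) ≤ R := Nat.cast_nonneg R
  have hM1 : 1 ≤ M := by
    rw [hM, Nat.one_le_floor_iff]
    exact Real.one_le_rpow hN1 (by norm_num)
  have hM0 : (0 : ℝ) < M := by exact_mod_cast hM1
  have hMle : (M : ℝ) ≤ (N : ℝ) ^ (2 / 5 : ℝ) := by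
    rw [hM]; exact Nat.floor_le (by positivity)
  have hM2 : (M : ℝ) ^ 2 ≤ (N : ℝ) ^ (4 / 5 : ℝ) := by
    calc (M : ℝ) ^ 2 ≤ ((N : ℝ) ^ (2 / 5 : ℝ)) ^ 2 := pow_le_pow_left₀ hM0.le hMle 2
      _ = (N : ℝ) ^ (4 / 5 : ℝ) := by
          rw [← Real.rpow_natCast, ← Real.rpow_mul hN0.le]; norm_num
  have hκ1 : (1 : ℝ) ≤ 1 + κ := by linarith
  set c : ℝ := 1 / 10 ^ 10 / (1 + κ) ^ 2 with hc
  have hc0 : 0 < c := by positivity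
  have hc1 : c ≤ 1 / 5 := by
    rw [hc, div_le_iff₀ (by positivity)]
    have : (1 : ℝ) ≤ (1 + κ) ^ 2 := one_le_pow₀ hκ1
    nlinarith
  set X : ℝ := (1 + A) * (C₀ * (1 + κ) ^ C₀) with hX
  have hX0 : 0 ≤ X := by positivity
  have hin : ∀ n ∈ Ioc 0 R, ‖∑ x ∈ Icc 1 M, ∑ y ∈ Icc 1 M, e (g (n + x * y))‖ ≤
      (M : ℝ) ^ 2 * (Real.exp X * (N : ℝ) ^ (-c) + 7 * η) := by
    intro n hn
    obtain ⟨α, hα1, hα2⟩ := hall n hn
    refine (innerA g n M r α η fun z hz => hα2 z ?_).trans ?_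
    · have h1 : (z : ℝ) ≤ (M : ℝ) ^ 2 := by exact_mod_cast hz
      exact h1.trans hM2
    · have e2 := hC₀ N M r κ A α hN hκ hA hr hM hα1
      rw [← hc, ← hX] at e2
      have hpi := Real.pi_lt_d2
      calc ‖TT r M α‖ + (M : ℝ) ^ 2 * (2 * Real.pi * η) ≤
            Real.exp X * (M : ℝ) ^ 2 * (N : ℝ) ^ (-c) + (M : ℝ) ^ 2 * (7 * η) := by
            apply add_le_add e2
            gcongr
            linarith
        _ = _ := by ring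
  refine (Pool.Agent.Helper478.Bases.shift (fun n : ℕ => e (g n))
    (fun n => (norm_e _).le) R M hM1).trans ?_
  have hsum := sum_le_sum hin
  rw [sum_const, Nat.card_Ioc, Nat.sub_zero, nsmul_eq_mul] at hsum
  have hNc : (N : ℝ) * (N : ℝ) ^ (-c) = (N : ℝ) ^ (1 - c) := by
    rw [sub_eq_add_neg, Real.rpow_add hN0, Real.rpow_one]
  have hN1c : 1 ≤ (N : ℝ) ^ (1 - c) := Real.one_le_rpow hN1 (by linarith)
  have hM2c : (M : ℝ) ^ 2 ≤ (N : ℝ) ^ (1 - c) :=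
    hM2.trans (Real.rpow_le_rpow_of_exponent_le hN1 (by linarith))
  have hXbd : X + 2 ≤ (1 + A) * ((C₀ + 2 : ℕ) * (1 + κ) ^ (C₀ + 2)) := by
    have f1 : (1 + κ) ^ C₀ ≤ (1 + κ) ^ (C₀ + 2) := pow_le_pow_right₀ hκ1 (by omega)
    have f2 : 1 ≤ (1 + κ) ^ (C₀ + 2) := one_le_pow₀ hκ1
    have f3 : X ≤ (1 + A) * (C₀ * (1 + κ) ^ (C₀ + 2)) := by
      rw [hX]; gcongr
    have f4 : 2 ≤ (1 + A) * (2 * (1 + κ) ^ (C₀ + 2)) := by nlinarith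
    push_cast
    linarith
  calc 1 / (M : ℝ) ^ 2 * ∑ n ∈ Ioc 0 R, ‖∑ x ∈ Icc 1 M, ∑ y ∈ Icc 1 M, e (g (n + x * y))‖ +
        2 * (M : ℝ) ^ 2 ≤
        1 / (M : ℝ) ^ 2 * (R * ((M : ℝ) ^ 2 * (Real.exp X * (N : ℝ) ^ (-c) + 7 * η))) +
        2 * (M : ℝ) ^ 2 := by
        apply add_le_add _ le_rfl
        exact mul_le_mul_of_nonneg_left hsum (by positivity)
    _ = R * (Real.exp X * (N : ℝ) ^ (-c) + 7 * η) + 2 * (M : ℝ) ^ 2 := by field_simp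
    _ ≤ N * (Real.exp X * (N : ℝ) ^ (-c) + 7 * η) + 2 * (N : ℝ) ^ (1 - c) := by gcongr
    _ = (Real.exp X + 2) * (N : ℝ) ^ (1 - c) + 7 * η * N := by
        rw [← hNc]; ring
    _ ≤ Real.exp (X + 2) * (N : ℝ) ^ (1 - c) + 7 * η * N := by
        gcongr
        have f1 : 1 ≤ Real.exp X := Real.one_le_exp hX0
        have f2 : (2 : ℝ) + 1 ≤ Real.exp 2 := Real.add_one_le_exp _
        rw [Real.exp_add]
        nlinarith
    _ ≤ _ := by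
        gcongr

end Pool.Agent.H608.Ge
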